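import Pool.Agent.PPS.Defs

/-!
# Massively parallel machines, and polynomial space

A parallel machine has one processor for each word of length `m`; the memory of each processor
is a word of length `s`.
-/

namespace Pool.Agent.H7LS

open Pool.Agent.PPS

/-- The number represented by a word, least significant bit first. -/
def valW : List Bool → ℕ
  | [] => 0
  | b :: w => b.toNat + 2 * valW w

/-- A self-delimiting form of the word `w`: every bit is preceded by `true`, and the word is
closed by `false`. -/
def blk (w : List Bool) : List Bool := w.flatMap (fun b => [true, b]) ++ [false]

/-- The word `w`, cut or padded with `false` to length `k`. -/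
def fit (k : ℕ) (w : List Bool) : List Bool := (w ++ List.replicate k false).take k

/-- A parallel machine is given by two functions on words: `addr` chooses the processor that
is read, and `upd` gives the new content of the memory. -/
structure PMach where
  addr : List Bool → List Bool
  upd : List Bool → List Bool

/-- `M.mem n m s x α r i` is the content of the memory of processor `i` after `r` rounds,
on an input `x` of length `n` with advice `α`, where the processors have names of length `m`
and memories of length `s`.
At the beginning, processor `i` holds the bits number `valW i` of `x` and of `α`.
In each round, processor `i` with memory content `v` chooses a processor `j` (a function of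
`n`, `i` and `v`), reads the memory content `w` of `j`, and changes its own memory content (to
a function of `n`, `i`, `v` and `w`). -/
def PMach.mem (M : PMach) (n m s : ℕ) (x α : List Bool) : ℕ → List Bool → List Bool
  | 0, i => fit s [x.getD (valW i) false, α.getD (valW i) false]
  | r + 1, i =>
    let v := M.mem n m s x α r i
    let j := fit m (M.addr (blk n.bits ++ blk i ++ blk v))
    fit s (M.upd (blk n.bits ++ blk i ++ blk v ++ blk (M.mem n m s x α r j)))

/-- The answer after `R` rounds: the first bit in the memory of processor `0 … 0`. -/
def PMach.out (M : PMach) (n m s R : ℕ) (x α : List Bool) : Bool :=
  (M.mem n m s x α R (List.replicate m false)).getD 0 false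

/-- The functions on words that are computed by a deterministic multitape Turing machine in
linear space. -/
def FLIN : Set (List Bool → List Bool) :=
  {f | ∃ (M : TM) (C : ℕ), M.Computes f ∧ M.SpaceBound (fun n => C * (n + 1))}

/-- The languages decided by a deterministic multitape Turing machine in space
`O(n ^ k + 1)`. -/
def SPC (k : ℕ) : Set (Set (List Bool)) :=
  {L | ∃ (M : TM) (C : ℕ), M.Decides L ∧ M.SpaceBound (fun n => C * (n ^ k + 1))}

end Pool.Agent.H7LS
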