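import Pool.Agent.H7LS.Easy

/-!
# With linear memory every language in linear space is easy
-/

namespace Pool.Agent.H7LS

open Pool.Agent.PPS
open Pool.Agent.PPS.Prog

variable {α β γ δ σ τ : Type} [Rep α] [Rep β] [Rep γ] [Rep δ] [Rep σ] [Rep τ]

open Classical in
theorem exists_uprog_decides {k : ℕ} {L : Set (List Bool)} (hk : 1 ≤ k) (hL : L ∈ SPC k) :
    ∃ (U : UProg) (C : ℕ), ∀ (z : List Bool) (W : ℕ), C * (z.length ^ k + 1) ≤ W →
      urun U W z = [decide (z ∈ L)] := by
  obtain ⟨M, C, hM, hS⟩ := hL
  obtain ⟨C₁, hC₁⟩ := FromTM.exists_prog_decides M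
  obtain ⟨N₂, ⟨e⟩⟩ := Finite.exists_equiv_fin (FromTM.Ix M.K)
  obtain ⟨N₁, ⟨g⟩⟩ := Finite.exists_equiv_fin (FromTM.progD M).Pos
  refine ⟨(encP e g (FromTM.progD M).instr, (g (FromTM.progD M).entry : ℕ),
    (e FromTM.Ix.io : ℕ), List.ofFn (fun _ : Fin N₂ => ([] : List Bool))),
    2 * N₁ + N₂ * (4 * (C₁ * (C + 2) + 1) + 2) + 4, ?_⟩
  intro z W hW
  obtain ⟨n, hn, hy⟩ := hM z
  have hz := le_pow_self' z.length hk
  obtain ⟨P, hP⟩ : ∃ P, P = z.length ^ k + 1 := ⟨_, rfl⟩
  have hzP : z.length + 1 ≤ P := by omega
  have h := hC₁ z n (z.length + C * (z.length ^ k + 1)) (by omega) hn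
    (fun j k' => (M.abs_head_le_of_visited ((hS z).2 k') j).trans (by push_cast; omega))
  obtain ⟨t, ht, hE⟩ := h
  have hdec : [M.accept (M.conf z n).state] = [decide (z ∈ L)] := by
    congr 1
    rw [Bool.eq_iff_iff, hy, decide_eq_true_iff]
  rw [hdec] at hE
  rw [← hP] at hE hW
  refine urun_of_exec (FromTM.progD M) FromTM.Ix.io e g (B := (C₁ * (C + 2) + 1) * P)
    (hE.mono ?_) ?_ ?_
  · have h1 : z.length + C * P + 1 ≤ (C + 2) * P := by
      have : (C + 2) * P = C * P + 2 * P := by ring
      omega
    have h2 := Nat.mul_le_mul_left C₁ h1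
    have h3 : (C₁ * (C + 2) + 1) * P = C₁ * ((C + 2) * P) + P := by ring
    omega
  · have h3 : (C₁ * (C + 2) + 1) * P = C₁ * (C + 2) * P + P := by ring
    omega
  · refine le_trans ?_ hW
    have h4 : 1 ≤ P := by omega
    generalize C₁ * (C + 2) + 1 = K
    have e1 : (2 * N₁ + N₂ * (4 * K + 2) + 4) * P =
      2 * N₁ * P + N₂ * (4 * (K * P) + 2 * P) + 4 * P := by ring
    rw [e1]
    have e2 : 2 * N₁ ≤ 2 * N₁ * P := Nat.le_mul_of_pos_right _ h4
    have e3 : N₂ * (4 * (K * P) + 2) ≤ N₂ * (4 * (K * P) + 2 * P) :=
      Nat.mul_le_mul_left _ (by omega)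
    omega

/-! ### The machine -/

/-- The new content of the memory: a function of the input length, the own content and the
content that was read. The first four bits are the answer, a blank, the mark that the memory
is initialised, and the parity of the round; then there are two blocks. The answer is computed
by the program `U` in space `C (s + 1)`, where `s` is the size of the memory. -/
def gaU (U : UProg) (C : ℕ) (nb v w : List Bool) : List Bool :=
  bif v.getD 2 false then
    bif v.getD 3 false then
      [(urun U (C * (v.length + 1)) ((hdB (tlB (v.drop 4)) ++ hdB (w.drop 4)).take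
        (valCap (hdB (tlB (v.drop 4)) ++ hdB (w.drop 4)).length nb))).getD 0 false,
          false, true, false] ++
        blk (hdB (tlB (v.drop 4)) ++ hdB (w.drop 4)) ++ blk []
    else [false, false, true, true] ++ blk (hdB (v.drop 4)) ++ blk (hdB (w.drop 4))
  else [false, false, true, false] ++ blk [v.getD 0 false] ++ blk []

theorem LT.gaU' (U : UProg) (C : ℕ) {nb v w : α → List Bool} (hn : LT nb)
    (hv : LT v) (hw : LT w) : LT (fun z => gaU U C (nb z) (v z) (w z)) := by
  have h : LT (fun z => C * ((v z).length + 1)) := LT.cmul C (by fun_prop)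
  unfold gaU
  fun_prop

/-- The machine that gathers the input and then runs the program `U`. -/
def gaM (U : UProg) (C : ℕ) : PMach where
  addr z := ipA (hdB (tlB z)) (hdB (tlB (tlB z)))
  upd z := gaU U C (hdB z) (hdB (tlB (tlB z))) (hdB (tlB (tlB (tlB z))))

theorem gaM_addr_mem (U : UProg) (C : ℕ) : (gaM U C).addr ∈ FLIN := ipM_addr_mem

theorem gaM_upd_mem (U : UProg) (C : ℕ) : (gaM U C).upd ∈ FLIN :=
  mem_FLIN_of_LT (LT.gaU' U C (by fun_prop) (by fun_prop) (by fun_prop))

theorem gaM_addr (U : UProg) (C : ℕ) (nb i v : List Bool) :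
    (gaM U C).addr (blk nb ++ blk i ++ blk v) = v.getD 3 false :: i := ipM_addr nb i v

theorem gaM_upd (U : UProg) (C : ℕ) (nb i v w : List Bool) :
    (gaM U C).upd (blk nb ++ blk i ++ blk v ++ blk w) = gaU U C nb v w := by
  have h1 : blk nb ++ blk i ++ blk v ++ blk w =
      blk nb ++ (blk i ++ (blk v ++ (blk w ++ []))) := by simp
  rw [h1]
  simp only [gaM, hdB_blk, tlB_blk]

/-- The gathered words. -/
def lvs (m : ℕ) (f : List Bool → Bool) : ℕ → List Bool → List Bool
  | 0, i => [f i]
  | k + 1, i => lvs m f k (fit m (false :: i)) ++ lvs m f k (fit m (true :: i))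

theorem length_lvs (m : ℕ) (f : List Bool → Bool) (k : ℕ) (i : List Bool) :
    (lvs m f k i).length = 2 ^ k := by
  induction k generalizing i with
  | zero => rfl
  | succ k ih => rw [lvs, List.length_append, ih, ih, pow_succ]; ring

theorem fit_cons4 {s : ℕ} (a b c d : Bool) (u : List Bool) (h : 4 + u.length ≤ s) :
    fit s ([a, b, c, d] ++ u) = [a, b, c, d] ++ (u ++ List.replicate (s - 4 - u.length) false) := by
  unfold fit
  have h1 : s = 4 + u.length + (s - 4 - u.length) := by omega
  rw [List.append_assoc]
  have h2 : ([a, b, c, d] ++ (u ++ List.replicate s false)).take s =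
      ([a, b, c, d] ++ (u ++ List.replicate s false)).take (4 + (u.length +
        (s - 4 - u.length))) := by congr 1; omega
  rw [h2]
  have h3 : ([a, b, c, d] : List Bool).length = 4 := rfl
  rw [← h3, List.take_length_add_append, List.take_length_add_append, List.take_replicate]
  congr 3
  omega

theorem valW_bits (n : ℕ) : valW n.bits = n := by
  induction n using Nat.binaryRec' with
  | zero => rfl
  | bit b n h ih =>
    rw [Nat.bits_append_bit n b h, valW, ih, Nat.bit_val]
    ring

/-- The content of the memory after an odd number of rounds. -/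
theorem mem_gaM {n m s : ℕ} (U : UProg) (C : ℕ) (x α : List Bool) (hs : 6 + 2 * 2 ^ m ≤ s)
    (k : ℕ) (hk : k ≤ m) : ∀ i : List Bool, ∃ r : List Bool,
    (gaM U C).mem n m s x α (1 + 2 * k) i =
      [decide (k ≠ 0) && (urun U (C * (s + 1))
        ((lvs m (fun i => x.getD (valW i) false) k i).take n)).getD 0 false,
        false, true, false] ++
        (blk (lvs m (fun i => x.getD (valW i) false) k i) ++ (blk [] ++ r)) := by
  have h2m : 1 ≤ 2 ^ m := Nat.one_le_two_pow
  induction k with
  | zero =>
    intro i
    have e1 : 1 + 2 * 0 = 0 + 1 := rfl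
    have hf : fit s [x.getD (valW i) false, α.getD (valW i) false] =
        [x.getD (valW i) false, α.getD (valW i) false, false, false] ++
          List.replicate (s - 4) false := by
      have h1 := fit_cons4 (s := s) (x.getD (valW i) false) (α.getD (valW i) false) false false
        [] (by simp; omega)
      have h2 : fit s [x.getD (valW i) false, α.getD (valW i) false] =
        fit s ([x.getD (valW i) false, α.getD (valW i) false, false, false] ++ []) := by
        unfold fit
        rw [List.append_nil]
        obtain ⟨s', rfl⟩ : ∃ s', s = s' + 4 := ⟨s - 4, by omega⟩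
        simp only [List.cons_append, List.nil_append, List.take_succ_cons]
        congr 2
        rw [List.take_replicate]
        obtain ⟨a, ha⟩ : ∃ a, a = min (s' + 2) (s' + 4) := ⟨_, rfl⟩
        rw [← ha]
        obtain rfl : a = s' + 1 + 1 := by omega
        rw [List.replicate_succ, List.replicate_succ, List.take_replicate]
        congr 3
        omega
      rw [h2, h1]
      simp
    rw [e1]
    refine ⟨List.replicate (s - 4 - (blk [x.getD (valW i) false] ++ blk []).length) false, ?_⟩
    rw [mem_succ, gaM_upd, mem_zero, hf]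
    have h3 : gaU U C n.bits ([x.getD (valW i) false, α.getD (valW i) false, false, false] ++
          List.replicate (s - 4) false) ((gaM U C).mem n m s x α 0 (fit m ((gaM U C).addr
            (blk n.bits ++ blk i ++ blk ([x.getD (valW i) false, α.getD (valW i) false, false,
              false] ++ List.replicate (s - 4) false))))) =
        [false, false, true, false] ++ (blk [x.getD (valW i) false] ++ blk []) := by
      unfold gaU
      simp
    rw [h3, fit_cons4 _ _ _ _ _ (by simp [length_blk]; omega)]
    simp [lvs]
  | succ k ih =>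
    intro i
    have ih := ih (by omega)
    have e : 1 + 2 * (k + 1) = (1 + 2 * k) + 1 + 1 := by ring
    have hpow : 2 * 2 ^ k ≤ 2 ^ m := by
      rw [← pow_succ']; exact Nat.pow_le_pow_right (by omega) (by omega)
    have h1 : ∀ i : List Bool, ∃ r : List Bool, (gaM U C).mem n m s x α (1 + 2 * k + 1) i =
        [false, false, true, true] ++ (blk (lvs m (fun i => x.getD (valW i) false) k i) ++
          (blk (lvs m (fun i => x.getD (valW i) false) k (fit m (false :: i))) ++ r)) := by
      intro i
      obtain ⟨r, hr⟩ := ih i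
      obtain ⟨r', hr'⟩ := ih (fit m (false :: i))
      refine ⟨List.replicate (s - 4 - (blk (lvs m (fun i => x.getD (valW i) false) k i) ++
        blk (lvs m (fun i => x.getD (valW i) false) k (fit m (false :: i)))).length) false, ?_⟩
      rw [mem_succ, gaM_upd, gaM_addr, hr]
      have h2 : ([decide (k ≠ 0) && (urun U (C * (s + 1))
        ((lvs m (fun i => x.getD (valW i) false) k i).take n)).getD 0 false,
        false, true, false] ++
        (blk (lvs m (fun i => x.getD (valW i) false) k i) ++ (blk [] ++ r))).getD 3 false =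
        false := rfl
      rw [h2, hr']
      unfold gaU
      have h3 : ∀ (a b c d : Bool) (u : List Bool), ([a, b, c, d] ++ u).getD 2 false = c :=
        fun _ _ _ _ _ => rfl
      have h4 : ∀ (a b c d : Bool) (u : List Bool), ([a, b, c, d] ++ u).getD 3 false = d :=
        fun _ _ _ _ _ => rfl
      have h5 : ∀ (a b c d : Bool) (u : List Bool), ([a, b, c, d] ++ u).drop 4 = u :=
        fun _ _ _ _ _ => rfl
      rw [h3, h4, h5, h5, hdB_blk, hdB_blk, cond_true, cond_false, List.append_assoc,
        fit_cons4 _ _ _ _ _ (by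
          simp only [List.length_append, length_blk, length_lvs]; omega)]
      simp
    obtain ⟨r, hr⟩ := h1 i
    obtain ⟨r', hr'⟩ := h1 (fit m (true :: i))
    obtain ⟨u, hu⟩ : ∃ u, u = lvs m (fun i => x.getD (valW i) false) (k + 1) i := ⟨_, rfl⟩
    refine ⟨List.replicate (s - 4 - (blk u ++ blk []).length) false, ?_⟩
    rw [e, mem_succ, gaM_upd, gaM_addr, hr]
    have h2 : ([false, false, true, true] ++ (blk (lvs m (fun i => x.getD (valW i) false) k i) ++
          (blk (lvs m (fun i => x.getD (valW i) false) k (fit m (false :: i))) ++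
            r))).getD 3 false = true := rfl
    rw [h2, hr']
    unfold gaU
    have h3 : ∀ (a b c d : Bool) (u : List Bool), ([a, b, c, d] ++ u).getD 2 false = c :=
      fun _ _ _ _ _ => rfl
    have h4 : ∀ (a b c d : Bool) (u : List Bool), ([a, b, c, d] ++ u).getD 3 false = d :=
      fun _ _ _ _ _ => rfl
    have h5 : ∀ (a b c d : Bool) (u : List Bool), ([a, b, c, d] ++ u).drop 4 = u :=
      fun _ _ _ _ _ => rfl
    have h6 : lvs m (fun i => x.getD (valW i) false) k (fit m (false :: i)) ++
      lvs m (fun i => x.getD (valW i) false) k (fit m (true :: i)) = u := hu.symm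
    have h7 : u.length = 2 ^ (k + 1) := by rw [hu, length_lvs]
    have h8 : u.take (valCap u.length n.bits) = u.take n := by
      unfold valCap
      rw [valW_bits]
      rcases Nat.lt_or_ge n u.length with h | h
      · rw [Nat.min_eq_right h.le]
      · rw [Nat.min_eq_left h, List.take_length, List.take_of_length_le h]
    have h9 : ([false, false, true, true] ++ (blk (lvs m (fun i => x.getD (valW i) false) k i)
        ++ (blk (lvs m (fun i => x.getD (valW i) false) k (fit m (false :: i))) ++
          r))).length = s := by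
      rw [← hr]; exact length_mem _ _ _ _ _ _ _ _
    rw [h3, h4, h5, h5, tlB_blk, hdB_blk, hdB_blk, cond_true, cond_true, h6, h8, h9, ← hu,
      List.append_assoc, fit_cons4 _ _ _ _ _ (by
        simp only [List.length_append, length_blk, h7, pow_succ]
        simp only [List.length_nil]; omega)]
    simp

theorem lvs_eq (m : ℕ) (f : List Bool → Bool) (k : ℕ) (hk : k ≤ m) : ∀ i : List Bool,
    lvs m f k (fit m i) = (List.range (2 ^ k)).map (fun t => f (fit m (wordN k t ++ i))) := by
  induction k with
  | zero => intro i; rfl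
  | succ k ih =>
    intro i
    have ih := ih (by omega)
    have h1 : ∀ b : Bool, fit m (b :: fit m i) = fit m (b :: i) := fun b =>
      fit_fit m [b] i
    rw [lvs, h1, h1, ih, ih, pow_succ, Nat.mul_two, List.range_add, List.map_append,
      List.map_map]
    congr 1
    · refine List.map_congr_left ?_
      intro t ht
      rw [List.mem_range] at ht
      rw [wordN_succ', Nat.div_eq_of_lt ht]
      simp
    · refine List.map_congr_left ?_
      intro t ht
      rw [List.mem_range] at ht
      simp only [Function.comp_apply]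
      rw [wordN_succ', wordN_add_pow, Nat.add_div_left _ (Nat.two_pow_pos k),
        Nat.div_eq_of_lt ht]
      simp

theorem take_lvs {n m : ℕ} (hm : n ≤ 2 ^ m) (x : List Bool) (hx : x.length = n) :
    (lvs m (fun i => x.getD (valW i) false) m (List.replicate m false)).take n = x := by
  have h1 : List.replicate m false = fit m (List.replicate m false) :=
    (fit_of_length (by simp)).symm
  rw [h1, lvs_eq m _ m le_rfl]
  refine List.ext_getElem (by simp; omega) ?_
  intro j h2 h3
  have h4 : j < 2 ^ m := by omega
  simp only [List.getElem_take, List.getElem_map, List.getElem_range]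
  have h5 : fit m (wordN m j ++ List.replicate m false) = wordN m j := by
    unfold fit
    rw [List.append_assoc]
    exact List.take_left' (by simp)
  rw [h5, valW_wordN m j h4, List.getD_eq_getElem?_getD, List.getElem?_eq_getElem h3]
  rfl

open Classical in
/-- `2 n` processors with `10 (n ^ k + 1)` bits of memory decide a given language in space
`O(n ^ k)` in `O(log n)` rounds. -/
theorem gather {k : ℕ} (hk : 1 ≤ k) {L : Set (List Bool)} (hL : L ∈ SPC k) :
    ∃ M : PMach, M.addr ∈ FLIN ∧ M.upd ∈ FLIN ∧ ∀ (n : ℕ) (x : List Bool), x.length = n →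
      (M.out n (Nat.log 2 n + 1) (10 * (n ^ k + 1)) (2 * Nat.log 2 n + 3) x [] = true ↔
        x ∈ L) := by
  obtain ⟨U, C, hU⟩ := exists_uprog_decides hk hL
  refine ⟨gaM U C, gaM_addr_mem U C, gaM_upd_mem U C, ?_⟩
  intro n x hx
  have h1 : n ≤ 2 ^ (Nat.log 2 n + 1) := (Nat.lt_pow_succ_log_self (by omega) n).le
  have hnk := le_pow_self' n hk
  have h2 : 6 + 2 * 2 ^ (Nat.log 2 n + 1) ≤ 10 * (n ^ k + 1) := by
    rcases Nat.eq_zero_or_pos n with h | h
    · subst h; simp
    · have := Nat.pow_log_le_self 2 (show n ≠ 0 by omega)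
      rw [pow_succ]; omega
  have e : 2 * Nat.log 2 n + 3 = 1 + 2 * (Nat.log 2 n + 1) := by ring
  obtain ⟨r, hr⟩ := mem_gaM (n := n) U C x [] h2 (Nat.log 2 n + 1) le_rfl
    (List.replicate (Nat.log 2 n + 1) false)
  unfold PMach.out
  rw [e, hr, take_lvs h1 x hx, hU x _ (Nat.mul_le_mul_left _ (by rw [hx]; omega))]
  simp

end Pool.Agent.H7LS
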