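import Pool.Agent.H7LS.Final

/-!
# With `n` bits of advice the hard language is easy
-/

namespace Pool.Agent.H7LS

open Pool.Agent.PPS
open Pool.Agent.PPS.Prog

variable {α β γ δ σ τ : Type} [Rep α] [Rep β] [Rep γ] [Rep δ] [Rep σ] [Rep τ]

/-! ### Functions on words in linear space -/

theorem LT.exists_raw {f : List Bool → List Bool} (h : LT f) :
    ∃ (ι : Type) (_ : DecidableEq ι) (_ : Finite ι) (c : Prog ι) (io : ι) (C : ℕ),
      ∀ x, ∃ T, Run (C * (x.length + 1)) T c (one io x.reverse) (one io (f x).reverse) ∧
        x.length ≤ C * (x.length + 1) := by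
  obtain ⟨I⟩ := h.impl
  refine ⟨(Rg ⊕ I.ι) ⊕ I.ι, inferInstance, inferInstance,
    seq ((rev3.map Sum.inl).map Sum.inl) (seq ((toCode.map Sum.inl).map Sum.inl)
    (seq (lcall1 I I .a) (seq ((toRaw.map Sum.inl).map Sum.inl)
      ((rev3.map Sum.inl).map Sum.inl)))), jr .a, 40 * I.C + 100, ?_⟩
  intro x
  have h1 : I.C * size x ≤ I.C * (4 * x.length + 1) :=
    Nat.mul_le_mul_left _ (size_le_length x)
  have h2 : (40 * I.C + 100) * (x.length + 1) =
    10 * (I.C * (4 * x.length + 1)) + 30 * I.C + 100 * x.length + 100 := by ring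
  have h3 := I.pos
  have hfx : (f x).length ≤ I.C * (4 * x.length + 1) :=
    (length_le_size (f x)).trans ((I.size_le x).trans h1)
  generalize hB : (40 * I.C + 100) * (x.length + 1) = B at h2
  have s1 := run_lift (ι₁ := I.ι) (ι₂ := I.ι) (rg_rev3 (B := B) (T := 12 * x.length + 15)
    x.reverse (by simp; omega) (by simp))
  rw [List.reverse_reverse] at s1
  have s2 := run_lift (ι₁ := I.ι) (ι₂ := I.ι) (rg_toCode (B := B) (T := 20 * x.length + 20)
    x (by omega) le_rfl)
  obtain ⟨T, s3⟩ := run_lcall1 I I .a (by simp) (by simp) x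
    (rg (code x) [] [] [] [] []) rfl rfl (B := B) (by omega)
    (by simp only [rg, List.length_nil]; omega)
  rw [upd_a] at s3
  have s4 := run_lift (ι₁ := I.ι) (ι₂ := I.ι) (rg_toRaw (B := B)
    (T := 20 * (f x).length + 20) (f x) (by omega) le_rfl)
  have s5 := run_lift (ι₁ := I.ι) (ι₂ := I.ι) (rg_rev3 (B := B) (T := 12 * (f x).length + 15)
    (f x) (by omega) le_rfl)
  refine ⟨(12 * x.length + 15) + ((20 * x.length + 20) + (T + ((20 * (f x).length + 20) +
      (12 * (f x).length + 15)))), ?_, by omega⟩
  rw [one_EE, one_EE]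
  exact Run.seq s1 (Run.seq s2 (Run.seq s3 (Run.seq s4 s5)))

theorem mem_FLIN_of_LT {f : List Bool → List Bool} (h : LT f) : f ∈ FLIN := by
  obtain ⟨ι, _, _, c, io, C, h⟩ := h.exists_raw
  obtain ⟨M, hM⟩ := exists_TM_computes c io
  refine ⟨M, C + 2, ?_, ?_⟩
  · intro x
    obtain ⟨T, ⟨t, ht, hE⟩, hx⟩ := h x
    obtain ⟨⟨N, hN, h1, h2⟩, h3⟩ := hM x _ t _ hE hx
    refine ⟨N, h1, ?_⟩
    rw [h2]
    simp [one]
  · intro x
    obtain ⟨T, ⟨t, ht, hE⟩, hx⟩ := h x
    obtain ⟨⟨N, hN, h1, h2⟩, h3⟩ := hM x _ t _ hE hx
    refine ⟨⟨N, h1⟩, fun k => (M.visited_encard_le (h3 k)).trans ?_⟩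
    have : C * (x.length + 1) + 2 ≤ (C + 2) * (x.length + 1) := by
      have e : (C + 2) * (x.length + 1) = C * (x.length + 1) + 2 * (x.length + 1) := by ring
      omega
    exact_mod_cast this

/-! ### Parsing -/

/-- The state of the parser: done, expecting a bit, the block, the rest (both reversed). -/
abbrev PSt := (Bool × Bool) × (List Bool × List Bool)

/-- One step of the parser. -/
def pStep (y : PSt) (b : Bool) : PSt :=
  bif y.1.1 then (y.1, (y.2.1, b :: y.2.2))
  else bif y.1.2 then ((false, false), (b :: y.2.1, y.2.2))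
  else bif b then ((false, true), y.2) else ((true, false), y.2)

/-- Split off the first block. -/
def parse (w : List Bool) : List Bool × List Bool :=
  ((w.foldl (fun y b => pStep y b) ((false, false), ([], []))).2.1.reverse,
    (w.foldl (fun y b => pStep y b) ((false, false), ([], []))).2.2.reverse)

theorem foldl_pStep_done (r acc rest : List Bool) :
    r.foldl (fun y b => pStep y b) ((true, false), (acc, rest)) =
      ((true, false), (acc, r.reverse ++ rest)) := by
  induction r generalizing rest with
  | nil => rfl
  | cons b r ih =>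
    rw [List.foldl_cons]
    have : pStep ((true, false), (acc, rest)) b = ((true, false), (acc, b :: rest)) := rfl
    rw [this, ih]; simp

theorem foldl_pStep (u r acc : List Bool) :
    (blk u ++ r).foldl (fun y b => pStep y b) ((false, false), (acc, [])) =
      ((true, false), (u.reverse ++ acc, r.reverse)) := by
  induction u generalizing acc with
  | nil =>
    show (false :: r).foldl (fun y b => pStep y b) ((false, false), (acc, [])) = _
    rw [List.foldl_cons]
    have : pStep ((false, false), (acc, [])) false = ((true, false), (acc, [])) := rfl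
    rw [this, foldl_pStep_done]; simp
  | cons b u ih =>
    show (true :: b :: (blk u ++ r)).foldl (fun y b => pStep y b)
      ((false, false), (acc, [])) = _
    rw [List.foldl_cons, List.foldl_cons]
    have : pStep (pStep ((false, false), (acc, [])) true) b =
      ((false, false), (b :: acc, [])) := rfl
    rw [this, ih]; simp

theorem parse_blk (u r : List Bool) : parse (blk u ++ r) = (u, r) := by
  unfold parse
  rw [foldl_pStep]; simp

@[fun_prop]
theorem LT.pStep' {y : α → PSt} {b : α → Bool} (hy : LT y) (hb : LT b) :
    LT (fun z => pStep (y z) (b z)) := by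
  unfold pStep; fun_prop

@[fun_prop]
theorem LT.parse' {w : α → List Bool} (hw : LT w) : LT (fun z => parse (w z)) := by
  obtain ⟨C, hC0, hC⟩ := hw.exists_size_le
  have hl : ∀ (l : List Bool) (y : PSt),
      (l.foldl (fun y b => pStep y b) y).2.1.length +
        (l.foldl (fun y b => pStep y b) y).2.2.length ≤
      y.2.1.length + y.2.2.length + l.length := by
    intro l
    induction l with
    | nil => intro y; simp
    | cons b l ih =>
      intro y
      rw [List.foldl_cons]
      refine (ih _).trans ?_
      have : (pStep y b).2.1.length + (pStep y b).2.2.length ≤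
          y.2.1.length + y.2.2.length + 1 := by
        unfold pStep
        cases y.1.1
        · cases y.1.2
          · cases b <;> simp <;> omega
          · simp; omega
        · simp; omega
      rw [List.length_cons]
      omega
  have h : LT (fun z => (w z).foldl (fun y b => pStep y b)
      ((false, false), (([] : List Bool), ([] : List Bool)))) := by
    refine LT.foldl (l := w) (ini := fun _ => ((false, false), ([], [])))
      (s := fun v : α × (PSt × Bool) => pStep v.2.1 v.2.2) hw (by fun_prop) (by fun_prop)
      (4 * C + 11) ?_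
    intro z k
    show size (((w z).take k).foldl (fun y b => pStep y b) ((false, false), ([], []))) ≤ _
    have h1 := hl ((w z).take k) ((false, false), ([], []))
    generalize ((w z).take k).foldl (fun y b => pStep y b) ((false, false), ([], [])) = y at h1
    obtain ⟨⟨b1, b2⟩, ⟨y1, y2⟩⟩ := y
    simp only [size_pair]
    have h2 := size_bool_le b1
    have h3 := size_bool_le b2
    have h4 := size_word_le y1
    have h5 := size_word_le y2
    have h6 : ((w z).take k).length ≤ (w z).length := by simp
    have h7 := le_size_word (w z)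
    have h8 := hC z
    have h9 := size_pos z
    have h10 : (4 * C + 11) * size z = 4 * (C * size z) + 11 * size z := by ring
    simp only [List.length_nil] at h1
    omega
  unfold parse
  fun_prop

/-- The first block. -/
def hdB (w : List Bool) : List Bool := (parse w).1

/-- What follows the first block. -/
def tlB (w : List Bool) : List Bool := (parse w).2

@[fun_prop]
theorem LT.hdB' {w : α → List Bool} (hw : LT w) : LT (fun z => hdB (w z)) :=
  LT.fst.comp (LT.parse' hw)

@[fun_prop]
theorem LT.tlB' {w : α → List Bool} (hw : LT w) : LT (fun z => tlB (w z)) :=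
  LT.snd.comp (LT.parse' hw)

theorem hdB_blk (u r : List Bool) : hdB (blk u ++ r) = u := by
  unfold hdB; rw [parse_blk]

theorem tlB_blk (u r : List Bool) : tlB (blk u ++ r) = r := by
  unfold tlB; rw [parse_blk]

/-! ### The machine -/

/-- The processor that is read: a function of the name and the memory. -/
def ipA (i v : List Bool) : List Bool := v.getD 3 false :: i

/-- The new content of the memory: a function of both contents. -/
def ipU (v w : List Bool) : List Bool :=
  bif v.getD 2 false then
    bif v.getD 3 false then [xor (v.getD 1 false) (w.getD 0 false), false, true, false]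
    else [v.getD 0 false, w.getD 0 false, true, true]
  else [v.getD 0 false && v.getD 1 false, false, true, false]

@[fun_prop]
theorem LT.ipA' {i v : α → List Bool} (hi : LT i) (hv : LT v) :
    LT (fun z => ipA (i z) (v z)) := by
  unfold ipA; fun_prop

@[fun_prop]
theorem LT.ipU' {v w : α → List Bool} (hv : LT v) (hw : LT w) :
    LT (fun z => ipU (v z) (w z)) := by
  unfold ipU; fun_prop

/-- The machine that computes the inner product of the input and the advice: it forms the
products of the bits and adds them up in a tree. -/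
def ipM : PMach where
  addr z := ipA (hdB (tlB z)) (hdB (tlB (tlB z)))
  upd z := ipU (hdB (tlB (tlB z))) (hdB (tlB (tlB (tlB z))))

theorem ipM_addr_mem : ipM.addr ∈ FLIN := by
  refine mem_FLIN_of_LT ?_
  show LT (fun z => ipA (hdB (tlB z)) (hdB (tlB (tlB z))))
  fun_prop

theorem ipM_upd_mem : ipM.upd ∈ FLIN := by
  refine mem_FLIN_of_LT ?_
  show LT (fun z => ipU (hdB (tlB (tlB z))) (hdB (tlB (tlB (tlB z)))))
  fun_prop

theorem ipM_addr (nb i v : List Bool) :
    ipM.addr (blk nb ++ blk i ++ blk v) = v.getD 3 false :: i := by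
  have h1 : blk nb ++ blk i ++ blk v = blk nb ++ (blk i ++ (blk v ++ [])) := by simp
  rw [h1]
  simp only [ipM, hdB_blk, tlB_blk, ipA]

theorem ipM_upd (nb i v w : List Bool) :
    ipM.upd (blk nb ++ blk i ++ blk v ++ blk w) =
      bif v.getD 2 false then
        bif v.getD 3 false then [xor (v.getD 1 false) (w.getD 0 false), false, true, false]
        else [v.getD 0 false, w.getD 0 false, true, true]
      else [v.getD 0 false && v.getD 1 false, false, true, false] := by
  have h1 : blk nb ++ blk i ++ blk v ++ blk w =
      blk nb ++ (blk i ++ (blk v ++ (blk w ++ []))) := by simp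
  rw [h1]
  simp only [ipM, hdB_blk, tlB_blk, ipU]

/-- The partial sums. -/
def psum (m : ℕ) (f : List Bool → Bool) : ℕ → List Bool → Bool
  | 0, i => f i
  | k + 1, i => xor (psum m f k (fit m (false :: i))) (psum m f k (fit m (true :: i)))

theorem fit4 (a b c d : Bool) : fit 4 [a, b, c, d] = [a, b, c, d] := rfl

theorem fit42 (a b : Bool) : fit 4 [a, b] = [a, b, false, false] := rfl

theorem mem_zero (M : PMach) (n m s : ℕ) (x α i : List Bool) :
    M.mem n m s x α 0 i = fit s [x.getD (valW i) false, α.getD (valW i) false] := rfl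

theorem mem_succ (M : PMach) (n m s : ℕ) (x α : List Bool) (r : ℕ) (i : List Bool) :
    M.mem n m s x α (r + 1) i =
      fit s (M.upd (blk n.bits ++ blk i ++ blk (M.mem n m s x α r i) ++
        blk (M.mem n m s x α r (fit m (M.addr (blk n.bits ++ blk i ++
          blk (M.mem n m s x α r i))))))) := rfl

theorem mem_ipM (n m : ℕ) (x α : List Bool) (k : ℕ) : ∀ i : List Bool,
    ipM.mem n m 4 x α (1 + 2 * k) i =
      [psum m (fun i => x.getD (valW i) false && α.getD (valW i) false) k i, false, true,
        false] := by
  induction k with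
  | zero =>
    intro i
    have e1 : 1 + 2 * 0 = 0 + 1 := rfl
    rw [e1, mem_succ, ipM_upd, mem_zero, fit42]
    simp only [List.getD_cons_zero, List.getD_cons_succ, cond_false, fit4, psum]
  | succ k ih =>
    intro i
    have e : 1 + 2 * (k + 1) = (1 + 2 * k) + 1 + 1 := by ring
    have h1 : ∀ i : List Bool, ipM.mem n m 4 x α (1 + 2 * k + 1) i =
        [psum m (fun i => x.getD (valW i) false && α.getD (valW i) false) k i,
          psum m (fun i => x.getD (valW i) false && α.getD (valW i) false) k
            (fit m (false :: i)), true, true] := by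
      intro i
      rw [mem_succ, ipM_upd, ipM_addr, ih i, ih]
      simp only [List.getD_cons_zero, List.getD_cons_succ, cond_false, cond_true, fit4]
    rw [e, mem_succ, ipM_upd, ipM_addr, h1 i, h1]
    simp only [List.getD_cons_zero, List.getD_cons_succ, cond_true, fit4, psum]

/-! ### The sum -/

/-- A bit as an integer modulo 2. -/
def bz (b : Bool) : ZMod 2 := if b then 1 else 0

theorem bz_xor (a b : Bool) : (bz (xor a b) : ZMod 2) = bz a + bz b := by
  cases a <;> cases b <;> decide

theorem bz_inj {a b : Bool} (h : (bz a : ZMod 2) = bz b) : a = b := by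
  revert h
  cases a <;> cases b <;> decide

theorem fit_fit (m : ℕ) (u y : List Bool) :
    fit m (u ++ fit m y) = fit m (u ++ y) := by
  unfold fit
  rw [List.append_assoc, List.append_assoc, List.take_append, List.take_append (l₁ := u)]
  congr 1
  have h1 : ∀ (z : List Bool) (j : ℕ), j ≤ m →
      ((z ++ List.replicate m false).take m ++ List.replicate m false).take j =
      (z ++ List.replicate m false).take j := by
    intro z j hj
    rw [List.take_append_of_le_length (by simp; omega), List.take_take, Nat.min_eq_left hj]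
  exact h1 y _ (by omega)

theorem bz_psum (m : ℕ) (f : List Bool → Bool) (k : ℕ) : ∀ i : List Bool,
    (bz (psum m f k (fit m i)) : ZMod 2) = ∑ u ∈ WF k, bz (f (fit m (u ++ i))) := by
  induction k with
  | zero =>
    intro i
    have h : WF 0 = {[]} := by ext w; simp [mem_WF]
    rw [h, Finset.sum_singleton]
    rfl
  | succ k ih =>
    intro i
    have h1 : ∀ b : Bool, fit m (b :: fit m i) = fit m (b :: i) := fun b =>
      fit_fit m [b] i
    show (bz (xor (psum m f k (fit m (false :: fit m i)))
      (psum m f k (fit m (true :: fit m i)))) : ZMod 2) = _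
    rw [bz_xor, h1, h1, ih, ih, sum_WF_add k 1, ← Finset.sum_add_distrib]
    refine Finset.sum_congr rfl (fun u _ => ?_)
    have h2 : WF 1 = {[false], [true]} := by
      ext w
      rw [mem_WF]
      constructor
      · intro h
        match w, h with
        | [false], _ => simp
        | [true], _ => simp
      · intro h
        simp only [Finset.mem_insert, Finset.mem_singleton] at h
        rcases h with rfl | rfl <;> rfl
    rw [h2, Finset.sum_pair (by simp)]
    simp

theorem bz_ip (a x : List Bool) (N : ℕ) (h : a.length = x.length) (hN : x.length ≤ N) :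
    (bz (ip a x) : ZMod 2) =
      ∑ j ∈ Finset.range N, bz (x.getD j false && a.getD j false) := by
  induction x generalizing a N with
  | nil =>
    have : a = [] := List.length_eq_zero_iff.mp h
    subst this
    rw [Finset.sum_eq_zero]
    · rfl
    · intro j _
      rfl
  | cons c x ih =>
    cases a with
    | nil => simp at h
    | cons b a =>
      obtain ⟨N, rfl⟩ : ∃ N', N = N' + 1 := ⟨N - 1, by simp at hN; omega⟩
      rw [ip_cons, bz_xor, ih a N (by simpa using h) (by simpa using hN),
        Finset.sum_range_succ']
      simp only [List.getD_cons_succ, List.getD_cons_zero]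
      rw [add_comm, Bool.and_comm b c]

theorem sum_valW (m : ℕ) (g : ℕ → ZMod 2) :
    ∑ u ∈ WF m, g (valW u) = ∑ j ∈ Finset.range (2 ^ m), g j := by
  refine Finset.sum_nbij' valW (wordN m) ?_ ?_ ?_ ?_ ?_
  · intro u hu
    rw [mem_WF] at hu
    rw [Finset.mem_range, ← hu]
    exact valW_lt u
  · intro j _
    rw [mem_WF]; simp
  · intro u hu
    rw [mem_WF] at hu
    rw [← hu]; exact wordN_valW u
  · intro j hj
    exact valW_wordN m j (Finset.mem_range.mp hj)
  · intro u _; rfl

theorem out_ipM (n m : ℕ) (hm : n ≤ 2 ^ m) (x a : List Bool) (hx : x.length = n)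
    (ha : a.length = n) : ipM.out n m 4 (1 + 2 * m) x a = ip a x := by
  unfold PMach.out
  rw [mem_ipM]
  show psum m _ m (List.replicate m false) = _
  refine bz_inj ?_
  have h1 : List.replicate m false = fit m (List.replicate m false) :=
    (fit_of_length (by simp)).symm
  rw [h1, bz_psum, bz_ip a x (2 ^ m) (by omega) (by omega), ← sum_valW m]
  refine Finset.sum_congr rfl (fun u hu => ?_)
  rw [mem_WF] at hu
  have h2 : fit m (u ++ List.replicate m false) = u := by
    unfold fit
    rw [List.append_assoc]
    exact List.take_left' hu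
  rw [h2]

open Classical in
/-- With `n` bits of advice, `2 n` processors with four bits of memory achieve a correlation
`2 ^ (- n / 2)` with any language in `O(log n)` rounds. -/
theorem ip_sharp (L : Set (List Bool)) (n : ℕ) : ∃ α : List Bool, α.length = n ∧
    (2 : ℝ) ^ (-((n : ℝ) / 2 + 1)) ≤ |({x : List Bool | x.length = n ∧
      (ipM.out n (Nat.log 2 n + 1) 4 (2 * Nat.log 2 n + 3) x α = true ↔
        x ∈ L)}.ncard : ℝ) / 2 ^ n - 1 / 2| := by
  obtain ⟨a, ha, hcorr⟩ := exists_corr n (fun x => decide (x ∈ L))
  rw [mem_WF] at ha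
  refine ⟨a, ha, ?_⟩
  have h1 : n ≤ 2 ^ (Nat.log 2 n + 1) := (Nat.lt_pow_succ_log_self (by omega) n).le
  have e : 2 * Nat.log 2 n + 3 = 1 + 2 * (Nat.log 2 n + 1) := by ring
  have hset : {x : List Bool | x.length = n ∧
      (ipM.out n (Nat.log 2 n + 1) 4 (2 * Nat.log 2 n + 3) x a = true ↔ x ∈ L)} =
      (((WF n).filter (fun x => decide (x ∈ L) = ip a x) : Finset (List Bool)) :
        Set (List Bool)) := by
    ext x
    simp only [Set.mem_ofPred_eq, Finset.coe_filter, mem_WF]
    refine and_congr_right (fun hx => ?_)
    rw [e, out_ipM n _ h1 x a hx ha]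
    rw [Bool.eq_iff_iff (a := decide (x ∈ L)), decide_eq_true_iff]
    exact iff_comm
  rw [hset, Set.ncard_coe_finset]
  have hag : (((WF n).filter (fun x => decide (x ∈ L) = ip a x)).card : ℝ) =
      (corr n (fun x => decide (x ∈ L)) a + 2 ^ n) / 2 := by
    have h2 := cor_eq n (fun x => decide (x ∈ L)) (ip a)
    have h3 : cor n (fun x => decide (x ∈ L)) (ip a) = corr n (fun x => decide (x ∈ L)) a := rfl
    rw [← h3, h2]
    unfold agree
    ring
  rw [hag]
  generalize corr n (fun x => decide (x ∈ L)) a = r at hcorr
  have e1 : (r + 2 ^ n) / 2 / 2 ^ n - 1 / 2 = r / (2 * 2 ^ n) := by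
    field_simp
    ring
  rw [e1, abs_div, abs_of_pos (show (0 : ℝ) < 2 * 2 ^ n by positivity),
    le_div_iff₀ (by positivity)]
  have h2 : (2 : ℝ) ^ (-((n : ℝ) / 2 + 1)) * (2 * 2 ^ n) = 2 ^ ((n : ℝ) / 2) := by
    rw [← pow_succ', ← Real.rpow_natCast 2 (n + 1), ← Real.rpow_add (by norm_num)]
    congr 1
    push_cast
    ring
  rw [h2]
  refine le_of_sq_le_sq ?_ (abs_nonneg r)
  rw [sq_abs, ← Real.rpow_natCast, ← Real.rpow_mul (by norm_num)]
  have h3 : (n : ℝ) / 2 * ((2 : ℕ) : ℝ) = (n : ℝ) := by push_cast; ring
  rw [h3, Real.rpow_natCast]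
  exact hcorr

end Pool.Agent.H7LS
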