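import Pool.Agent.H7LS.Order

/-!
# Arithmetic modulo `q` on binary words
-/

namespace Pool.Agent.H7LS

open Pool.Agent.PPS

variable {α β γ δ σ τ : Type} [Rep α] [Rep β] [Rep γ] [Rep δ] [Rep σ] [Rep τ]

/-! ### Comparison -/

theorem valW_zeros (m : ℕ) : valW (List.replicate m false) = 0 := by
  induction m with
  | zero => rfl
  | succ m ih => rw [List.replicate_succ, valW, ih]; rfl

/-- Comparison of words as numbers. -/
def leW (u v : List Bool) : Bool :=
  (u.zip v).foldl (fun r p => bif p.1 == p.2 then r else p.2) true

theorem foldl_leW (u v : List Bool) (h : u.length = v.length) (r : Bool) :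
    (u.zip v).foldl (fun r p => bif p.1 == p.2 then r else p.2) r = true ↔
      valW u < valW v ∨ (valW u = valW v ∧ r = true) := by
  induction u generalizing v r with
  | nil =>
    cases v with
    | nil => simp
    | cons b v => simp at h
  | cons a u ih =>
    cases v with
    | nil => simp at h
    | cons b v =>
      rw [List.zip_cons_cons, List.foldl_cons, ih v (by simpa using h)]
      simp only [valW]
      cases a <;> cases b <;> simp <;> omega

theorem leW_iff (u v : List Bool) (h : u.length = v.length) :
    leW u v = true ↔ valW u ≤ valW v := by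
  unfold leW
  rw [foldl_leW u v h]
  simp
  omega

@[fun_prop]
theorem LT.leW' {u v : α → List Bool} (hu : LT u) (hv : LT v) :
    LT (fun z => leW (u z) (v z)) := by
  refine LT.foldl (l := fun z => (u z).zip (v z)) (ini := fun _ => true)
    (s := fun w : α × (Bool × (Bool × Bool)) => bif w.2.2.1 == w.2.2.2 then w.2.1
      else w.2.2.2)
    (by fun_prop) (by fun_prop) (by fun_prop) 3 ?_
  intro z k
  have h1 := size_bool_le ((((u z).zip (v z)).take k).foldl
    (fun r p => bif p.1 == p.2 then r else p.2) true)
  have h2 := size_pos z
  show size ((((u z).zip (v z)).take k).foldl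
    (fun r p => bif p.1 == p.2 then r else p.2) true) ≤ _
  omega

/-- Strict comparison of words as numbers. -/
def ltW (u v : List Bool) : Bool := !(leW v u)

theorem ltW_iff (u v : List Bool) (h : u.length = v.length) :
    ltW u v = true ↔ valW u < valW v := by
  unfold ltW
  have := leW_iff v u h.symm
  rw [Bool.not_eq_true', ← Bool.not_eq_true, this]
  omega

@[fun_prop]
theorem LT.ltW' {u v : α → List Bool} (hu : LT u) (hv : LT v) :
    LT (fun z => ltW (u z) (v z)) := by
  unfold ltW; fun_prop

/-! ### Iteration with a binary counter -/

theorem foldl_range_lt {κ : Type} (f : κ → κ) (x : κ) (N Y : ℕ) :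
    (List.range N).foldl (fun z t => bif decide (t < Y) then f z else z) x =
      f^[min N Y] x := by
  induction N with
  | zero => simp
  | succ N ih =>
    rw [List.range_succ, List.foldl_append, ih]
    simp only [List.foldl_cons, List.foldl_nil]
    by_cases h : N < Y
    · simp only [h, decide_true, cond_true]
      rw [← Function.iterate_succ_apply' f]
      congr 1
      omega
    · simp only [h, decide_false, cond_false]
      congr 1
      omega

theorem foldl_allW_lt {κ : Type} (f : κ → κ) (x : κ) (y : List Bool) :
    (allW y.length).foldl (fun z w => bif ltW w y then f z else z) x = f^[valW y] x := by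
  unfold allW
  rw [List.foldl_map]
  have h1 : ∀ (l : List ℕ) (x : κ), (∀ t ∈ l, t < 2 ^ y.length) →
      l.foldl (fun z t => bif ltW (wordN y.length t) y then f z else z) x =
      l.foldl (fun z t => bif decide (t < valW y) then f z else z) x := by
    intro l
    induction l with
    | nil => intro x _; rfl
    | cons t l ih =>
      intro x ht
      rw [List.foldl_cons, List.foldl_cons]
      have h2 : ltW (wordN y.length t) y = decide (t < valW y) := by
        rw [Bool.eq_iff_iff, ltW_iff _ _ (by simp), valW_wordN _ _ (ht t (by simp))]
        simp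
      rw [h2]
      exact ih _ (fun t ht' => ht t (by simp [ht']))
  rw [h1 _ x (fun t ht => List.mem_range.mp ht), foldl_range_lt]
  congr 1
  have := valW_lt y
  omega

/-- Iteration where the number of iterations is given in binary. -/
theorem LT.iterateW {ini : α → σ} {s : α × σ → σ} {y : α → List Bool} (hy : LT y)
    (hini : LT ini) (hs : LT s) (Inv : α → σ → Prop) (Q : ℕ)
    (hsz : ∀ a z, Inv a z → size z ≤ Q * size a) (h0 : ∀ a, Inv a (ini a))
    (hstep : ∀ a z, Inv a z → Inv a (s (a, z))) :
    LT (fun a => (fun z => s (a, z))^[valW (y a)] (ini a)) := by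
  have h1 : LT (fun v : α × (σ × List Bool) => bif ltW v.2.2 (y v.1) then s (v.1, v.2.1)
      else v.2.1) := by
    have h2 : LT (fun v : α × (σ × List Bool) => s (v.1, v.2.1)) :=
      hs.comp (f := fun v : α × (σ × List Bool) => (v.1, v.2.1)) (by fun_prop)
    fun_prop
  have := LT.foldWords (L := fun a => (y a).length) (ini := ini)
    (s := fun v : α × (σ × List Bool) => bif ltW v.2.2 (y v.1) then s (v.1, v.2.1)
      else v.2.1) (by fun_prop) hini h1 Inv Q hsz h0 (by
      intro a z w _ hz
      simp only
      cases ltW w (y a) with
      | false => exact hz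
      | true => exact hstep a z hz)
  refine LT.of_eq this ?_
  intro a
  exact (foldl_allW_lt _ _ _).symm

/-! ### Arithmetic -/

/-- Successor modulo `q`. -/
def incM (q z : List Bool) : List Bool :=
  bif decide (incW z = q) then List.replicate z.length false else incW z

/-- Addition modulo `q`. -/
def addM (q x y : List Bool) : List Bool := (fun z => incM q z)^[valW y] x

/-- Multiplication modulo `q`. -/
def mulM (q x y : List Bool) : List Bool :=
  (fun z => addM q z x)^[valW y] (List.replicate x.length false)

/-- Power modulo `q`. -/
def powM (q x y : List Bool) : List Bool :=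
  (fun z => mulM q z x)^[valW y] (incM q (List.replicate x.length false))

theorem length_incM (q z : List Bool) : (incM q z).length = z.length := by
  unfold incM
  cases decide (incW z = q) <;> simp

theorem length_addM (q x y : List Bool) : (addM q x y).length = x.length := by
  unfold addM
  induction valW y with
  | zero => rfl
  | succ k ih => rw [Function.iterate_succ_apply', length_incM, ih]

theorem length_mulM (q x y : List Bool) : (mulM q x y).length = x.length := by
  unfold mulM
  induction valW y with
  | zero => simp
  | succ k ih => rw [Function.iterate_succ_apply', length_addM, ih]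

theorem length_powM (q x y : List Bool) : (powM q x y).length = x.length := by
  unfold powM
  induction valW y with
  | zero => simp [length_incM]
  | succ k ih => rw [Function.iterate_succ_apply', length_mulM, ih]

@[fun_prop]
theorem LT.incM' {q z : α → List Bool} (hq : LT q) (hz : LT z) :
    LT (fun a => incM (q a) (z a)) := by
  unfold incM; fun_prop

theorem size_le_of_length {C : ℕ} {a : α} {x z : List Bool} (hx : size x ≤ C * size a)
    (hz : z.length = x.length) : size z ≤ (2 * C + 1) * size a := by
  have h1 := size_word_le z
  have h2 := le_size_word x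
  have h3 := size_pos a
  have h4 : (2 * C + 1) * size a = 2 * (C * size a) + size a := by ring
  omega

@[fun_prop]
theorem LT.addM' {q x y : α → List Bool} (hq : LT q) (hx : LT x) (hy : LT y) :
    LT (fun a => addM (q a) (x a) (y a)) := by
  obtain ⟨C, hC0, hC⟩ := hx.exists_size_le
  exact LT.iterateW (s := fun v : α × List Bool => incM (q v.1) v.2) hy hx (by fun_prop)
    (fun a z => z.length = (x a).length) (2 * C + 1)
    (fun a z hz => size_le_of_length (hC a) hz) (fun a => rfl)
    (fun a z hz => by rw [length_incM]; exact hz)

@[fun_prop]
theorem LT.mulM' {q x y : α → List Bool} (hq : LT q) (hx : LT x) (hy : LT y) :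
    LT (fun a => mulM (q a) (x a) (y a)) := by
  obtain ⟨C, hC0, hC⟩ := hx.exists_size_le
  exact LT.iterateW (ini := fun a => List.replicate (x a).length false)
    (s := fun v : α × List Bool => addM (q v.1) v.2 (x v.1)) hy (by fun_prop) (by fun_prop)
    (fun a z => z.length = (x a).length) (2 * C + 1)
    (fun a z hz => size_le_of_length (hC a) hz) (fun a => by simp)
    (fun a z hz => by rw [length_addM]; exact hz)

@[fun_prop]
theorem LT.powM' {q x y : α → List Bool} (hq : LT q) (hx : LT x) (hy : LT y) :
    LT (fun a => powM (q a) (x a) (y a)) := by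
  obtain ⟨C, hC0, hC⟩ := hx.exists_size_le
  exact LT.iterateW (ini := fun a => incM (q a) (List.replicate (x a).length false))
    (s := fun v : α × List Bool => mulM (q v.1) v.2 (x v.1)) hy (by fun_prop) (by fun_prop)
    (fun a z => z.length = (x a).length) (2 * C + 1)
    (fun a z hz => size_le_of_length (hC a) hz) (fun a => by simp [length_incM])
    (fun a z hz => by rw [length_mulM]; exact hz)

/-! ### Correctness of the arithmetic -/

section enc

variable {q l : ℕ}

/-- The word for a residue. -/
def eW (l : ℕ) (a : ZMod q) : List Bool := wordN l a.val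

@[simp] theorem length_eW (a : ZMod q) : (eW l a).length = l := length_wordN _ _

variable [hq : Fact q.Prime]

theorem valW_eW (hl : q < 2 ^ l) (a : ZMod q) : valW (eW l a) = a.val := by
  have := ZMod.val_lt a
  exact valW_wordN _ _ (by omega)

theorem eW_zero : eW l (0 : ZMod q) = List.replicate l false := by
  unfold eW; rw [ZMod.val_zero, wordN_zero]

theorem wordN_inj {L s t : ℕ} (hs : s < 2 ^ L) (ht : t < 2 ^ L) (h : wordN L s = wordN L t) :
    s = t := by
  rw [← valW_wordN L s hs, ← valW_wordN L t ht, h]

theorem incM_eW (hl : q < 2 ^ l) (a : ZMod q) :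
    incM (wordN l q) (eW l a) = eW l (a + 1) := by
  have h1 := ZMod.val_lt a
  have hq2 := hq.out.two_le
  have h5 : Fact (1 < q) := ⟨by omega⟩
  unfold incM
  have h2 : incW (eW l a) = wordN l (a.val + 1) := incW_wordN _ _
  rw [h2]
  by_cases h : a.val + 1 = q
  · rw [h]
    simp only [decide_true, cond_true, length_eW]
    have h3 : a + 1 = 0 := by
      have : ((a.val + 1 : ℕ) : ZMod q) = ((q : ℕ) : ZMod q) := by rw [h]
      rw [Nat.cast_add, ZMod.natCast_zmod_val, ZMod.natCast_self] at this
      simpa using this
    rw [h3, eW_zero]
  · have h3 : ¬ (wordN l (a.val + 1) = wordN l q) := by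
      intro h4
      exact h (wordN_inj (by omega) hl h4)
    simp only [h3, decide_false, cond_false]
    unfold eW
    congr 1
    rw [ZMod.val_add, ZMod.val_one, Nat.mod_eq_of_lt (by omega)]

theorem addM_eW (hl : q < 2 ^ l) (a b : ZMod q) :
    addM (wordN l q) (eW l a) (eW l b) = eW l (a + b) := by
  have key : ∀ k : ℕ, (fun z => incM (wordN l q) z)^[k] (eW l a) =
      eW l (a + (k : ZMod q)) := by
    intro k
    induction k with
    | zero => simp
    | succ k ih =>
      rw [Function.iterate_succ_apply', ih, incM_eW hl]
      congr 1
      push_cast; ring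
  unfold addM
  rw [valW_eW hl, key, ZMod.natCast_zmod_val]

theorem mulM_eW (hl : q < 2 ^ l) (a b : ZMod q) :
    mulM (wordN l q) (eW l a) (eW l b) = eW l (a * b) := by
  have key : ∀ k : ℕ, (fun z => addM (wordN l q) z (eW l a))^[k] (eW l (0 : ZMod q)) =
      eW l (a * (k : ZMod q)) := by
    intro k
    induction k with
    | zero => simp
    | succ k ih =>
      rw [Function.iterate_succ_apply', ih, addM_eW hl]
      congr 1
      push_cast; ring
  unfold mulM
  rw [valW_eW hl, length_eW, ← eW_zero (q := q), key, ZMod.natCast_zmod_val]

theorem powM_eW (hl : q < 2 ^ l) (a : ZMod q) (y : List Bool) :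
    powM (wordN l q) (eW l a) y = eW l (a ^ valW y) := by
  have h0 : incM (wordN l q) (List.replicate l false) = eW l (1 : ZMod q) := by
    rw [← eW_zero (q := q), incM_eW hl, zero_add]
  have key : ∀ k : ℕ, (fun z => mulM (wordN l q) z (eW l a))^[k] (eW l (1 : ZMod q)) =
      eW l (a ^ k) := by
    intro k
    induction k with
    | zero => simp
    | succ k ih =>
      rw [Function.iterate_succ_apply', ih, mulM_eW hl, pow_succ]
  unfold powM
  rw [length_eW, h0, key]

theorem powM_inv (hl : q < 2 ^ l) {a : ZMod q} (ha : a ≠ 0) :
    powM (wordN l q) (eW l a) (wordN l (q - 2)) = eW l a⁻¹ := by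
  have hq2 := hq.out.two_le
  rw [powM_eW hl, valW_wordN _ _ (by omega)]
  congr 1
  have h4 := ZMod.pow_card_sub_one_eq_one ha
  rw [show q - 1 = (q - 2) + 1 by omega, pow_succ] at h4
  exact eq_inv_of_mul_eq_one_left h4

end enc

end Pool.Agent.H7LS
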