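import Pool.Agent.H7LS.Interp

/-!
# Linear space: from stack programs to Turing machines
-/

namespace Pool.Agent.H7LS

open Pool.Agent.PPS
open Pool.Agent.PPS.Prog

theorem LT.exists_rawBool {f : List Bool → Bool} (h : LT f) :
    ∃ (ι : Type) (_ : DecidableEq ι) (_ : Finite ι) (c : Prog ι) (io : ι) (C : ℕ),
      ∀ x, ∃ T, Run (C * (x.length + 1)) T c (one io x.reverse) (one io (code (f x))) ∧
        x.length ≤ C * (x.length + 1) := by
  obtain ⟨I⟩ := h.impl
  refine ⟨(Rg ⊕ I.ι) ⊕ I.ι, inferInstance, inferInstance,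
    seq ((rev3.map Sum.inl).map Sum.inl) (seq ((toCode.map Sum.inl).map Sum.inl)
    (lcall1 I I .a)), jr .a, 4 * I.C + 10, ?_⟩
  intro x
  have h1 : I.C * size x ≤ I.C * (4 * x.length + 1) :=
    Nat.mul_le_mul_left _ (size_le_length x)
  have h2 : (4 * I.C + 10) * (x.length + 1) =
    I.C * (4 * x.length + 1) + 3 * I.C + 10 * x.length + 10 := by ring
  have h3 := I.pos
  generalize hB : (4 * I.C + 10) * (x.length + 1) = B at h2
  have s1 := run_lift (ι₁ := I.ι) (ι₂ := I.ι) (rg_rev3 (B := B) (T := 12 * x.length + 15)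
    x.reverse (by simp; omega) (by simp))
  rw [List.reverse_reverse] at s1
  have s2 := run_lift (ι₁ := I.ι) (ι₂ := I.ι) (rg_toCode (B := B) (T := 20 * x.length + 20)
    x (by omega) le_rfl)
  obtain ⟨T, s3⟩ := run_lcall1 I I .a (by simp) (by simp) x
    (rg (code x) [] [] [] [] []) rfl rfl (B := B) (by omega)
    (by simp only [rg, List.length_nil]; omega)
  rw [upd_a] at s3
  refine ⟨(12 * x.length + 15) + ((20 * x.length + 20) + T), ?_, by omega⟩
  rw [one_EE, one_EE]
  exact Run.seq s1 (Run.seq s2 s3)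

end Pool.Agent.H7LS
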