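import Pool.Agent.H7LS.Words
import Pool.Agent.PPS.Codes

/-!
# Coding and decoding in linear space
-/

namespace Pool.Agent.H7LS

open Pool.Agent.PPS
open Pool.Agent.PPS.Prog

variable {α β γ δ σ τ : Type} [Rep α] [Rep β] [Rep γ] [Rep δ] [Rep σ] [Rep τ]

/-! ### More on lists -/

/-- Iteration with an invariant. -/
theorem LT.iterateInv {ini : α → σ} {s : α × σ → σ} {n : α → ℕ} (hn : LT n)
    (hini : LT ini) (hs : LT s) (Inv : α → σ → Prop) (Q : ℕ)
    (hsz : ∀ a y, Inv a y → size y ≤ Q * size a) (h0 : ∀ a, Inv a (ini a))
    (hstep : ∀ a y, Inv a y → Inv a (s (a, y))) :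
    LT (fun a => (fun y => s (a, y))^[n a] (ini a)) := by
  refine LT.iterate hn hini hs Q ?_
  intro a k _
  refine hsz a _ ?_
  induction k with
  | zero => exact h0 a
  | succ k ih =>
    rw [Function.iterate_succ_apply']
    exact hstep a _ (ih (by omega))

theorem LT.foldr {ini : α → σ} {s : α × (β × σ) → σ} {l : α → List β} (hl : LT l)
    (hini : LT ini) (hs : LT s) (Q : ℕ)
    (hsz : ∀ a k, size (((l a).drop k).foldr (fun b y => s (a, (b, y))) (ini a)) ≤
      Q * size a) :
    LT (fun a => (l a).foldr (fun b y => s (a, (b, y))) (ini a)) := by
  have h1 : LT (fun z : α × (σ × β) => s (z.1, (z.2.2, z.2.1))) :=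
    hs.comp (f := fun z : α × (σ × β) => (z.1, (z.2.2, z.2.1))) (by fun_prop)
  have := LT.foldl (l := fun a => (l a).reverse) (ini := ini)
    (s := fun z : α × (σ × β) => s (z.1, (z.2.2, z.2.1))) (by fun_prop) hini h1 Q (by
      intro a k
      have h := hsz a ((l a).length - k)
      rw [← List.foldr_reverse]
      rw [List.reverse_take, List.reverse_reverse, List.length_reverse]
      exact h)
  refine LT.of_eq this ?_
  intro a
  rw [List.foldl_reverse]

theorem size_map_le {l : List β} {f : β → γ} {c : ℕ} (hc : 1 ≤ c)
    (h : ∀ b ∈ l, size (f b) ≤ c * size b) : size (l.map f) ≤ c * size l := by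
  induction l with
  | nil => simpa [size_nil] using hc
  | cons b l ih =>
    rw [List.map_cons, size_cons, size_cons]
    have h1 := h b (by simp)
    have h2 := ih (fun b hb => h b (by simp [hb]))
    have h3 : c * (size b + size l + 1) = c * size b + c * size l + c := by ring
    omega

theorem size_zip_le (l : List β) (l' : List γ) : size (l.zip l') ≤ size l + size l' := by
  induction l generalizing l' with
  | nil => simp [size_nil]
  | cons b l ih =>
    cases l' with
    | nil => simp [size_nil]
    | cons c l' =>
      rw [List.zip_cons_cons, size_cons, size_cons, size_cons, size_pair]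
      have := ih l'
      omega

theorem foldl_zip (l : List β) (l' : List γ) (acc : List (β × γ)) :
    (l.foldl (fun (y : List γ × List (β × γ)) b => match y.1 with
      | [] => y
      | c :: r => (r, (b, c) :: y.2)) (l', acc)).2 = (l.zip l').reverse ++ acc := by
  induction l generalizing l' acc with
  | nil => simp
  | cons b l ih =>
    cases l' with
    | nil =>
      rw [List.foldl_cons]
      simp only
      rw [ih]; simp
    | cons c l' =>
      rw [List.foldl_cons]
      simp only
      rw [ih, List.zip_cons_cons, List.reverse_cons]
      simp

@[fun_prop]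
theorem LT.zip' {l : α → List β} {l' : α → List γ} (hl : LT l) (hl' : LT l') :
    LT (fun a => (l a).zip (l' a)) := by
  obtain ⟨C, hC0, hC⟩ := hl.exists_size_le
  obtain ⟨C', hC0', hC'⟩ := hl'.exists_size_le
  have hs : LT (fun z : α × ((List γ × List (β × γ)) × β) => match z.2.1.1 with
      | [] => z.2.1
      | c :: r => (r, (z.2.2, c) :: z.2.1.2)) :=
    LT.listCase (l := fun z : α × ((List γ × List (β × γ)) × β) => z.2.1.1)
      (f := fun z => z.2.1)
      (g := fun w : (γ × List γ) × (α × ((List γ × List (β × γ)) × β)) =>
        (w.1.2, (w.2.2.2, w.1.1) :: w.2.2.1.2)) (by fun_prop) (by fun_prop) (by fun_prop)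
  have := LT.foldl (σ := List γ × List (β × γ)) (ini := fun a : α => (l' a, []))
    (s := fun z : α × ((List γ × List (β × γ)) × β) => match z.2.1.1 with
      | [] => z.2.1
      | c :: r => (r, (z.2.2, c) :: z.2.1.2)) hl (by fun_prop) hs
    (C + 2 * C' + 2) (by
      intro a k
      show size (((l a).take k).foldl (fun (y : List γ × List (β × γ)) b => match y.1 with
        | [] => y
        | c :: r => (r, (b, c) :: y.2)) (l' a, [])) ≤ _
      have h1 := foldl_zip ((l a).take k) (l' a) []
      have h2 : ∀ (l : List β) (y : List γ × List (β × γ)),
          size ((l.foldl (fun (y : List γ × List (β × γ)) b => match y.1 with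
            | [] => y
            | c :: r => (r, (b, c) :: y.2)) y).1) ≤ size y.1 := by
        intro l
        induction l with
        | nil => intro y; simp
        | cons b l ih =>
          intro y
          rw [List.foldl_cons]
          refine (ih _).trans ?_
          rcases y with ⟨_ | ⟨c, r⟩, y⟩
          · exact le_rfl
          · simp only [size_cons]; omega
      have h2' := h2 ((l a).take k) (l' a, [])
      have h3 := size_pair (((l a).take k).foldl (fun (y : List γ × List (β × γ)) b =>
        match y.1 with
        | [] => y
        | c :: r => (r, (b, c) :: y.2)) (l' a, [])).1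
        (((l a).take k).foldl (fun (y : List γ × List (β × γ)) b =>
        match y.1 with
        | [] => y
        | c :: r => (r, (b, c) :: y.2)) (l' a, [])).2
      rw [Prod.mk.eta] at h3
      rw [h3, h1, List.append_nil, size_reverse]
      have h4 := size_zip_le ((l a).take k) (l' a)
      have h5 := size_take_le (l a) k
      have h6 := hC a
      have h7 := hC' a
      have h8 := size_pos a
      have h9 : (C + 2 * C' + 2) * size a = C * size a + 2 * (C' * size a) + 2 * size a := by
        ring
      simp only at h2'
      omega)
  refine LT.of_eq this.snd'.reverse' ?_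
  intro a
  show _ = (((l a).foldl (fun (y : List γ × List (β × γ)) b => match y.1 with
        | [] => y
        | c :: r => (r, (b, c) :: y.2)) (l' a, [])).2).reverse
  rw [foldl_zip]; simp

/-! ### Codes -/

@[fun_prop]
theorem LT.code' {f : α → β} (hf : LT f) : LT (fun a => code (f a)) := by
  have key : LT (fun b : β => (code b : List Bool)) := by
    refine LT.of_rg toCode 20 ?_
    intro b
    have hb := size_pos b
    exact ⟨_, rg_toCode (T := 20 * size b + 20) (code b) (by unfold size at *; omega)
      (by unfold size; omega)⟩
  exact key.comp hf

@[fun_prop]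
theorem LT.size' {f : α → β} (hf : LT f) : LT (fun a => size (f a)) := by
  have : LT (fun a => (code (f a)).length) := by fun_prop
  exact this

theorem LT.decStep' : LT (fun z : Bool × List D => decStep z.1 z.2) := by
  have h1 : LT (fun z : Bool × List D => D.nil :: z.2) := by fun_prop
  have h2 : LT (fun w : D × List D × (Bool × List D) => match w.2.1 with
      | [] => ([] : List D)
      | y :: r => D.cons w.1 y :: r) := by
    have := LT.listCase (l := fun w : D × List D × (Bool × List D) => w.2.1)
      (f := fun _ => ([] : List D)) (g := fun v => D.cons v.2.1 v.1.1 :: v.1.2)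
      (by fun_prop) (by fun_prop) (by fun_prop)
    refine this.of_eq (fun w => ?_)
    rcases w.2.1 with _ | ⟨y, r⟩ <;> rfl
  have h3 : LT (fun z : Bool × List D => match z.2 with
      | [] => ([] : List D)
      | x :: l => match l with
        | [] => []
        | y :: r => D.cons x y :: r) := by
    have := LT.listCase (l := fun z : Bool × List D => z.2)
      (f := fun _ => ([] : List D))
      (g := fun v : (D × List D) × (Bool × List D) => match v.1.2 with
        | [] => []
        | y :: r => D.cons v.1.1 y :: r) (by fun_prop) (by fun_prop)
      (h2.comp (f := fun v : (D × List D) × (Bool × List D) => (v.1.1, v.1.2, v.2))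
        (by fun_prop))
    refine this.of_eq (fun w => ?_)
    rcases w.2 with _ | ⟨x, _ | ⟨y, r⟩⟩ <;> rfl
  have h4 : LT (fun z : Bool × List D => z.1) := by fun_prop
  exact h4.cond h3 h1

@[fun_prop]
theorem LT.decodeD' {u : α → List Bool} (hu : LT u) : LT (fun a => decodeD (u a)) := by
  have key : LT (fun u : List Bool => decStack u) := by
    have := LT.foldr (l := fun u : List Bool => u) (ini := fun _ => ([] : List D))
      (s := fun z : List Bool × (Bool × List D) => decStep z.2.1 z.2.2) (by fun_prop)
      (by fun_prop) (LT.decStep'.comp (f := fun z : List Bool × (Bool × List D) => z.2)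
        (by fun_prop)) 1 (by
        intro u k
        refine (size_decStack (u.drop k)).trans ?_
        have h1 := le_size_word u
        have h2 : (u.drop k).length ≤ u.length := by simp
        omega)
    exact this
  have := LT.headD' (key.comp hu) (LT.const' (α := α) D.nil)
  exact this

@[fun_prop]
theorem LT.spine' {f : α → D} (hf : LT f) : LT (fun a => spine (f a)) := by
  refine LT.congr_code hf (fun a => ?_)
  show D.code (listTree (spine (f a))) = D.code (f a)
  rw [listTree_spine]

@[fun_prop]
theorem LT.toBit' {f : α → D} (hf : LT f) : LT (fun a => toBit (f a)) := by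
  have := LT.treeCase (f := fun _ : α => false) (g := fun _ => true) hf
    (by fun_prop) (by fun_prop)
  convert this using 2 with a
  cases f a <;> rfl

@[fun_prop]
theorem LT.hd' {f : α → D} (hf : LT f) : LT (fun a => hd (f a)) := by
  have := LT.treeCase (f := fun _ : α => D.nil) (g := fun z => z.1.1) hf
    (by fun_prop) (by fun_prop)
  convert this using 2 with a
  cases f a <;> rfl

@[fun_prop]
theorem LT.tl' {f : α → D} (hf : LT f) : LT (fun a => tl (f a)) := by
  have := LT.treeCase (f := fun _ : α => D.nil) (g := fun z => z.1.2) hf
    (by fun_prop) (by fun_prop)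
  convert this using 2 with a
  cases f a <;> rfl

/-! ### Decoding of typed data -/

/-- Types whose elements can be decoded from trees, in linear space. -/
class DRep (α : Type) [Rep α] where
  dec : D → α
  dec_rep : ∀ a, dec (Rep.rep a) = a
  c : ℕ
  one_le : 1 ≤ c
  size_dec : ∀ d, size (dec d) ≤ c * size d
  lt : LT dec

@[fun_prop]
theorem LT.dec' [DRep β] {f : α → D} (hf : LT f) : LT (fun a => (DRep.dec (f a) : β)) :=
  DRep.lt.comp hf

instance : DRep D where
  dec d := d
  dec_rep _ := rfl
  c := 1
  one_le := le_rfl
  size_dec d := by omega
  lt := by fun_prop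

instance : DRep Bool where
  dec := toBit
  dec_rep := toBit_rep
  c := 3
  one_le := by omega
  size_dec d := by
    have := size_bool_le (toBit d)
    have := size_pos d
    omega
  lt := by fun_prop

instance : DRep ℕ where
  dec := PPS.toNat
  dec_rep := toNat_rep
  c := 2
  one_le := by omega
  size_dec d := by
    have h1 : size d = size (spine d) := by
      show (D.code d).length = (D.code (listTree (spine d))).length
      rw [listTree_spine]
    have h2 : ∀ l : List D, 2 * l.length + 1 ≤ size l := by
      intro l
      induction l with
      | nil => simp [size_nil]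
      | cons a l ih =>
        rw [size_cons, List.length_cons]
        have := size_pos a
        omega
    have h3 := h2 (spine d)
    rw [size_nat]
    unfold PPS.toNat
    omega
  lt := by
    have : LT (fun d : D => (spine d).length) := by fun_prop
    exact this

instance [DRep α] [DRep β] : DRep (α × β) where
  dec d := (DRep.dec (hd d), DRep.dec (tl d))
  dec_rep p := by rw [hd_rep, tl_rep, DRep.dec_rep, DRep.dec_rep]
  c := DRep.c α + DRep.c β + 1
  one_le := by omega
  size_dec d := by
    rw [size_pair]
    have h1 := DRep.size_dec (α := α) (hd d)
    have h2 := DRep.size_dec (α := β) (tl d)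
    cases d with
    | nil =>
      have e1 : hd D.nil = D.nil := rfl
      have e2 : tl D.nil = D.nil := rfl
      rw [e1, size_tree_nil] at h1
      rw [e2, size_tree_nil] at h2
      rw [e1, e2, size_tree_nil]
      omega
    | cons a b =>
      have e1 : hd (D.cons a b) = a := rfl
      have e2 : tl (D.cons a b) = b := rfl
      rw [e1] at h1
      rw [e2] at h2
      rw [e1, e2, size_tree_cons]
      have h3 : (DRep.c α + DRep.c β + 1) * (size a + size b + 1) =
        DRep.c α * size a + DRep.c β * size b + (DRep.c α * (size b + 1) +
          DRep.c β * (size a + 1) + size a + size b + 1) := by ring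
      omega
  lt := by fun_prop

instance [DRep α] : DRep (List α) where
  dec d := (spine d).map DRep.dec
  dec_rep l := by
    show (spine (listTree l)).map DRep.dec = l
    rw [spine_listTree, List.map_map]
    have : ((DRep.dec : D → α) ∘ Rep.rep) = id := funext DRep.dec_rep
    rw [this, List.map_id]
  c := DRep.c α
  one_le := DRep.one_le
  size_dec d := by
    have h1 : size d = size (spine d) := by
      show (D.code d).length = (D.code (listTree (spine d))).length
      rw [listTree_spine]
    rw [h1]
    exact size_map_le DRep.one_le (fun b _ => DRep.size_dec b)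
  lt := by
    refine LT.map' (f := fun z : D × D => (DRep.dec z.2 : α)) (l := fun d : D => spine d)
      (by fun_prop) (by fun_prop) (DRep.c α) ?_
    intro d
    have h1 : size d = size (spine d) := by
      show (D.code d).length = (D.code (listTree (spine d))).length
      rw [listTree_spine]
    rw [h1]
    exact size_map_le DRep.one_le (fun b _ => DRep.size_dec b)

@[fun_prop]
theorem LT.padTo' {w : α → ℕ} {u : α → List Bool} (hw : LT w) (hu : LT u) :
    LT (fun a => padTo (w a) (u a)) := by
  unfold padTo
  fun_prop

end Pool.Agent.H7LS
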