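import Pool.Agent.H7LS.Order

/-!
# The identity of Cook and Mertz
-/

namespace Pool.Agent.H7LS

open Pool.Agent.PPS

section wt

variable {q : ℕ}

/-- The Lagrange polynomial for the node `z` among the nodes `0, …, 2 ^ w - 1`. -/
def lagP (w : ℕ) (z y : ZMod q) : ZMod q :=
  ∏ u ∈ Finset.range (2 ^ w), if ((u : ℕ) : ZMod q) = z then 1 else (y - u) * (z - u)⁻¹

/-- The product of the Lagrange polynomials for the nodes in `Z` at the points in `Y`. -/
def wt (w : ℕ) (Z Y : List (ZMod q)) : ZMod q :=
  ((Y.zip Z).map (fun p => lagP w p.2 p.1)).prod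

theorem wt_cons (w : ℕ) (z : ZMod q) (Z : List (ZMod q)) (y : ZMod q) (Y : List (ZMod q)) :
    wt w (z :: Z) (y :: Y) = lagP w z y * wt w Z Y := by
  simp [wt]

theorem lagP_nodes [Fact q.Prime] {w : ℕ} (hw : 2 ^ w ≤ q) {a b : ℕ} (ha : a < 2 ^ w)
    (hb : b < 2 ^ w) : lagP w (a : ZMod q) (b : ZMod q) = if a = b then 1 else 0 := by
  have hinj : ∀ u v : ℕ, u < 2 ^ w → v < 2 ^ w → ((u : ZMod q) = v ↔ u = v) := by
    intro u v hu hv
    constructor
    · intro h
      have h1 := congrArg ZMod.val h
      rwa [ZMod.val_natCast_of_lt (by omega), ZMod.val_natCast_of_lt (by omega)] at h1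
    · intro h; rw [h]
  unfold lagP
  by_cases hab : a = b
  · rw [if_pos hab]
    subst hab
    refine Finset.prod_eq_one ?_
    intro u hu
    rw [Finset.mem_range] at hu
    by_cases h : ((u : ℕ) : ZMod q) = a
    · rw [if_pos h]
    · rw [if_neg h]
      exact mul_inv_cancel₀ (sub_ne_zero.mpr (fun h' => h h'.symm))
  · rw [if_neg hab]
    refine Finset.prod_eq_zero (Finset.mem_range.mpr hb) ?_
    have h : ¬ ((b : ℕ) : ZMod q) = a := by
      rw [hinj b a hb ha]
      exact fun h' => hab h'.symm
    rw [if_neg h]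
    simp

theorem wt_vals [Fact q.Prime] {w : ℕ} (hw : 2 ^ w ≤ q) (Z Y : List ℕ)
    (h : Z.length = Y.length) (hZ : ∀ a ∈ Z, a < 2 ^ w) (hY : ∀ a ∈ Y, a < 2 ^ w) :
    wt w (Z.map (fun a : ℕ => (a : ZMod q))) (Y.map (fun a : ℕ => (a : ZMod q))) =
      if Z = Y then 1 else 0 := by
  induction Z generalizing Y with
  | nil =>
    cases Y with
    | nil => simp [wt]
    | cons b w => simp at h
  | cons a Z ih =>
    cases Y with
    | nil => simp at h
    | cons b Y =>
      rw [List.map_cons, List.map_cons, wt_cons, ih Y (by simpa using h)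
        (fun a ha => hZ a (by simp [ha])) (fun a ha => hY a (by simp [ha])),
        lagP_nodes hw (hZ a (by simp)) (hY b (by simp))]
      by_cases hab : a = b
      · subst hab
        by_cases hzy : Z = Y
        · subst hzy; simp
        · simp [hzy]
      · simp [hab]

theorem exists_polyL (w : ℕ) (z a v : ZMod q) :
    ∃ P : Polynomial (ZMod q), P.natDegree ≤ 2 ^ w ∧
      ∀ x : ZMod q, P.eval x = lagP w z (x * a + v) := by
  refine ⟨∏ u ∈ Finset.range (2 ^ w), if ((u : ℕ) : ZMod q) = z then 1 else
    (Polynomial.C (a * (z - u)⁻¹) * Polynomial.X +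
      Polynomial.C ((v - u) * (z - u)⁻¹)), ?_, ?_⟩
  · refine (Polynomial.natDegree_prod_le _ _).trans ?_
    refine (Finset.sum_le_card_nsmul _ _ 1 ?_).trans (by simp)
    intro u _
    split_ifs
    · simp
    · exact Polynomial.natDegree_linear_le
  · intro x
    rw [Polynomial.eval_prod]
    unfold lagP
    refine Finset.prod_congr rfl ?_
    intro u _
    split_ifs
    · simp
    · simp; ring

theorem exists_poly (w : ℕ) (Z A V : List (ZMod q)) :
    ∃ P : Polynomial (ZMod q), P.natDegree ≤ A.length * 2 ^ w ∧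
      ∀ x : ZMod q, P.eval x = wt w Z (List.zipWith (fun a v => x * a + v) A V) := by
  induction A generalizing Z V with
  | nil => exact ⟨1, by simp, fun x => by simp [wt]⟩
  | cons a A ih =>
    cases V with
    | nil => exact ⟨1, by simp, fun x => by simp [wt]⟩
    | cons v V =>
      cases Z with
      | nil => exact ⟨1, by simp, fun x => by simp [wt]⟩
      | cons z Z =>
        obtain ⟨P, hP, hx⟩ := ih Z V
        obtain ⟨P', hP', hx'⟩ := exists_polyL w z a v
        refine ⟨P' * P, ?_, ?_⟩
        · refine Polynomial.natDegree_mul_le.trans ?_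
          rw [List.length_cons, Nat.add_mul, Nat.one_mul]
          omega
        · intro x
          rw [List.zipWith_cons_cons, wt_cons, Polynomial.eval_mul, hx, hx']

variable [Fact q.Prime]

theorem sum_poly (P : Polynomial (ZMod q)) (h : P.natDegree < q - 1) :
    ∑ x : ZMod q, P.eval x = 0 := by
  simp only [Polynomial.eval_eq_sum_range]
  rw [Finset.sum_comm]
  refine Finset.sum_eq_zero ?_
  intro i hi
  rw [← Finset.mul_sum]
  rw [Finset.mem_range] at hi
  have : ∑ x : ZMod q, x ^ i = 0 := by
    apply FiniteField.sum_pow_lt_card_sub_one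
    rw [ZMod.card]
    omega
  rw [this, mul_zero]

/-- The sum over the nonzero residues. -/
theorem sum_wt (w : ℕ) (Z A V : List (ZMod q)) (hl : A.length = V.length)
    (h : A.length * 2 ^ w < q - 1) :
    ∑ x ∈ Finset.univ.filter (fun x : ZMod q => x ≠ 0),
      wt w Z (List.zipWith (fun a v => x * a + v) A V) = - wt w Z V := by
  obtain ⟨P, hP, hx⟩ := exists_poly w Z A V
  have h1 := sum_poly P (lt_of_le_of_lt hP h)
  have h2 : ∑ x : ZMod q, P.eval x = P.eval 0 +
      ∑ x ∈ Finset.univ.filter (fun x : ZMod q => x ≠ 0), P.eval x := by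
    rw [← Finset.sum_filter_add_sum_filter_not Finset.univ (fun x : ZMod q => x = 0)]
    congr 1
    have : Finset.univ.filter (fun x : ZMod q => x = 0) = {0} := by
      ext x; simp
    rw [this, Finset.sum_singleton]
  rw [h1] at h2
  have h3 : P.eval 0 = wt w Z V := by
    rw [hx]
    congr 1
    clear hP hx h h1 h2 P
    induction A generalizing V with
    | nil =>
      cases V with
      | nil => rfl
      | cons v V => simp at hl
    | cons a A ih =>
      cases V with
      | nil => simp at hl
      | cons v V =>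
        rw [List.zipWith_cons_cons, ih V (by simpa using hl)]
        simp
  rw [← h3]
  simp only [← hx]
  linear_combination -h2

/-- Sums over nonzero residues as sums over words. -/
theorem sum_words {R : Type} [AddCommMonoid R] {l : ℕ} (hl : q ≤ 2 ^ l) (φ : ZMod q → R) :
    ∑ u ∈ WF l, (if 1 ≤ valW u ∧ valW u < q then φ (valW u : ZMod q) else 0) =
      ∑ x ∈ Finset.univ.filter (fun x : ZMod q => x ≠ 0), φ x := by
  rw [← Finset.sum_filter]
  refine Finset.sum_nbij' (fun u => ((valW u : ℕ) : ZMod q)) (fun x => wordN l x.val) ?_ ?_ ?_ ?_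
    ?_
  · intro u hu
    rw [Finset.mem_filter] at hu ⊢
    refine ⟨Finset.mem_univ _, ?_⟩
    intro h0
    rw [ZMod.natCast_eq_zero_iff] at h0
    have := Nat.le_of_dvd (by omega) h0
    omega
  · intro x hx
    rw [Finset.mem_filter] at hx ⊢
    have h1 := ZMod.val_lt x
    rw [valW_wordN l x.val (by omega)]
    refine ⟨mem_WF.mpr (length_wordN _ _), ?_, h1⟩
    have : x.val ≠ 0 := by
      rw [ne_eq, ZMod.val_eq_zero]; exact hx.2
    omega
  · intro u hu
    rw [Finset.mem_filter] at hu
    rw [ZMod.val_natCast_of_lt hu.2.2]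
    have h1 := mem_WF.mp hu.1
    have h2 := wordN_valW u
    rw [h1] at h2
    exact h2
  · intro x hx
    have h1 := ZMod.val_lt x
    rw [valW_wordN l x.val (by omega)]
    exact ZMod.natCast_zmod_val x
  · intro u hu
    rfl

end wt

end Pool.Agent.H7LS
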