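import Pool.Agent.H7LS.Enc

/-!
# Correctness of the simulation
-/

namespace Pool.Agent.H7LS

open Pool.Agent.PPS

/-- The environment `E` describes the machine `M` on inputs of length `n`. -/
structure Desc (E : Env) (M : PMach) (n m s q l c w : ℕ) : Prop where
  hq : eq E = wordN l q
  hq1 : eq1 E = wordN l (q - 1)
  hq2 : eq2 E = wordN l (q - 2)
  hm : em E = m
  hs : es E = s
  hl : el E = l
  hw : ew E = w
  hl2 : q < 2 ^ l
  hw1 : 1 ≤ w
  hw2 : 2 ^ w ≤ q
  hwl : w ≤ l
  hc : s ≤ c * w
  hs2 : (c + c) * 2 ^ w < q - 1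
  ask : ∀ i v : List Bool, i.length = m → v.length = s →
    ask E i v = fit m (M.addr (blk n.bits ++ blk i ++ blk v))
  new : ∀ i v w : List Bool, i.length = m → v.length = s → w.length = s →
    new E i v w = fit s (M.upd (blk n.bits ++ blk i ++ blk v ++ blk w))

theorem allF_iff (u : List Bool) : allF u = true ↔ valW u = 0 := by
  unfold allF
  rw [decide_eq_true_iff]
  constructor
  · intro h; rw [h, valW_zeros]
  · intro h
    exact valW_inj (by simp) (by rw [h, valW_zeros])

section corr

variable {E : Env} {M : PMach} {n m s q l c w : ℕ} {x α : List Bool}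

theorem foldl_ENC {κ : Type} (L : List κ) (st : RR → κ → RR) (g : κ → Fin c → ZMod q) (t : ℕ)
    (b d : Fin c → ZMod q)
    (h : ∀ z ∈ L, ∀ a, st (ENC q l c t a b d) z = ENC q l c t (a + g z) b d)
    (a : Fin c → ZMod q) :
    L.foldl st (ENC q l c t a b d) = ENC q l c t (a + (L.map g).sum) b d := by
  induction L generalizing a with
  | nil => simp
  | cons z L ih =>
    rw [List.foldl_cons, h z (by simp), ih (fun z hz => h z (by simp [hz]))]
    simp [add_assoc]

theorem leafW_eq (s : ℕ) (x α i : List Bool) :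
    leafW s x α i = fit s [x.getD (valW i) false, α.getD (valW i) false] := by
  have key : ∀ y : List Bool, y.getD (valCap y.length i) false = y.getD (valW i) false := by
    intro y
    unfold valCap
    rcases Nat.lt_or_ge (valW i) y.length with h | h
    · rw [Nat.min_eq_right h.le]
    · rw [Nat.min_eq_left h]
      rw [List.getD_eq_default _ _ le_rfl, List.getD_eq_default _ _ h]
  unfold leafW
  rw [key, key]

variable [hq : Fact q.Prime]

theorem exec_leaf (G : Desc E M n m s q l c w) (i : List Bool) {t : ℕ} (ht : t ≤ 2)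
    (σ : Bool) (k : List Bool) (a b d : Fin c → ZMod q) :
    exec E x α (i, t, σ) (0, k) (ENC q l c t a b d) =
      ENC q l c t (a + sS q σ • vec q c w (M.mem n m s x α 0 i)) b d := by
  show setB t (addBlk (eq E) (sgnM (eq E) (eq1 E) (oneM (eq E)) σ) (ew E)
    (getB t (ENC q l c t a b d)) (leafW (es E) x α i)) (ENC q l c t a b d) = _
  rw [G.hq, G.hq1, G.hw, G.hs, getB_ENC ht, oneM_eW G.hl2, sgnM_eW G.hl2,
    addBlk_enc G.hl2 G.hw2 G.hwl, setB_ENC ht, leafW_eq, mul_one]
  rfl

theorem exec_scale (G : Desc E M n m s q l c w) (i : List Bool) {t : ℕ} (ht : t ≤ 2)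
    (σ : Bool) (k : List Bool) (lam : ZMod q) (hk : k.take l = eW l lam)
    (a b d : Fin c → ZMod q) :
    exec E x α (i, t, σ) (1, k) (ENC q l c t a b d) =
      ENC q l c t a (lam • b) (lam • d) := by
  show scale2 (eq E) (k.take (el E)) t (ENC q l c t a b d) = _
  rw [G.hq, G.hl, hk, scale2_enc G.hl2 _ ht]

theorem exec_unscale (G : Desc E M n m s q l c w) (i : List Bool) {t : ℕ} (ht : t ≤ 2)
    (σ : Bool) (k : List Bool) (lam : ZMod q) (hk : k.take l = eW l lam) (h0 : lam ≠ 0)
    (a b d : Fin c → ZMod q) :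
    exec E x α (i, t, σ) (3, k) (ENC q l c t a b d) =
      ENC q l c t a (lam⁻¹ • b) (lam⁻¹ • d) := by
  show scale2 (eq E) (powM (eq E) (k.take (el E)) (eq2 E)) t (ENC q l c t a b d) = _
  rw [G.hq, G.hq2, G.hl, hk, powM_inv G.hl2 h0, scale2_enc G.hl2 _ ht]

omit hq in
theorem exec_none (c : CD) (k : List Bool) (ρ : RR) : exec E x α c (4, k) ρ = ρ := rfl

/-- The contribution of the words `z` to the accumulation. -/
def accSum (E : Env) (q s c w : ℕ) (i j : List Bool) (b d : Fin c → ZMod q) :
    Fin c → ZMod q :=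
  ∑ z ∈ WF (s + s), (if ask E i (z.take s) = j then
    (wt w (List.ofFn (vec q c w (z.take s)) ++ List.ofFn (vec q c w (z.drop s)))
      (List.ofFn b ++ List.ofFn d)) • vec q c w (new E i (z.take s) (z.drop s)) else 0)

theorem sS_not (σ : Bool) : sS q (!σ) = - sS q σ := by cases σ <;> simp [sS]

theorem exec_acc (G : Desc E M n m s q l c w) (i : List Bool) {t : ℕ} (ht : t ≤ 2) (σ : Bool)
    (k : List Bool) (a b d : Fin c → ZMod q) :
    exec E x α (i, t, σ) (2, k) (ENC q l c t a b d) =
      ENC q l c t (a - sS q σ • accSum E q s c w i (k.drop l) b d) b d := by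
  show accum E i (k.drop (el E)) t σ (ENC q l c t a b d) = _
  unfold accum
  rw [G.hs, G.hl]
  have hst : ∀ z ∈ allB (s + s), ∀ a, accStep E i (k.drop l) t σ (ENC q l c t a b d) z =
      ENC q l c t (a + (if ask E i (z.take s) = k.drop l then
        (sS q (!σ) * wt w (List.ofFn (vec q c w (z.take s)) ++
          List.ofFn (vec q c w (z.drop s))) (List.ofFn b ++ List.ofFn d)) •
          vec q c w (new E i (z.take s) (z.drop s)) else 0)) b d := by
    intro z hz a
    unfold accStep
    rw [G.hs, G.hq, G.hq1, G.hq2, G.hw]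
    by_cases h : ask E i (z.take s) = k.drop l
    · simp only [h, decide_true, cond_true, if_true]
      rw [getB_ENC ht, getB_ENC1 ht, getB_ENC2 ht, weight_enc2 G.hl2 G.hw2 G.hwl,
        sgnM_eW G.hl2, addBlk_enc G.hl2 G.hw2 G.hwl, setB_ENC ht]
    · simp only [h, decide_false, cond_false, if_false, add_zero]
  rw [foldl_ENC (allB (s + s)) (accStep E i (k.drop l) t σ) _ t b d hst a, sum_allB]
  congr 1
  unfold accSum
  rw [sub_eq_add_neg, ← neg_smul, ← sS_not, Finset.smul_sum]
  congr 1
  refine Finset.sum_congr rfl ?_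
  intro z _
  split_ifs
  · rw [smul_smul]
  · simp

/-! ### The descent -/

omit hq in
theorem opAt_succ (E : Env) (c : CD) (r : ℕ) (cnt ph rest : List Bool)
    (hcnt : cnt.length = el E + em E) (hph : ph.length = 3) :
    opAt E c (r + 1) (cnt ++ (ph ++ rest)) =
      (fun S => dstep E S)^[r] (dsel E c cnt ph rest) := by
  unfold opAt
  rw [Function.iterate_succ_apply]
  congr 1
  unfold dstep
  simp only [decide_true, cond_true]
  have h1 : (cnt ++ (ph ++ rest)).take (el E + em E) = cnt := List.take_left' hcnt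
  have h2 : (cnt ++ (ph ++ rest)).drop (el E + em E) = ph ++ rest := List.drop_left' hcnt
  have h3 : (ph ++ rest).take 3 = ph := List.take_left' hph
  have h4 : (cnt ++ (ph ++ rest)).drop (el E + em E + 3) = rest := by
    rw [← List.append_assoc]
    exact List.drop_left' (by simp [hcnt, hph])
  rw [h1, h2, h3, h4]

omit hq in
theorem iter_stop (E : Env) (S : DS) (r : ℕ) (h : S.2.2.1 ≠ 0) :
    (fun S => dstep E S)^[r] S = S := by
  induction r with
  | zero => rfl
  | succ r ih =>
    rw [Function.iterate_succ_apply', ih]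
    unfold dstep
    simp [h]

/-- The operation at time `T`, executed. -/
def EX (E : Env) (x α : List Bool) (r : ℕ) (c : CD) (ρ : RR) (T : List Bool) : RR :=
  exec E x α (opAt E c r T).2.1 (opAt E c r T).2.2 ρ

omit hq in
theorem EX_call {c c' : CD} {r : ℕ} {cnt ph : List Bool}
    (hcnt : cnt.length = el E + em E) (hph : ph.length = 3)
    (h : ∀ rest, dsel E c cnt ph rest = (rest, c', 0, [])) (ρ : RR) :
    (allB (r * (l + m + 3))).foldl (fun ρ rest => EX E x α (r + 1) c ρ (cnt ++ (ph ++ rest)))
      ρ = (allB (r * (l + m + 3))).foldl (EX E x α r c') ρ := by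
  have : (fun ρ rest => EX E x α (r + 1) c ρ (cnt ++ (ph ++ rest))) = EX E x α r c' := by
    funext ρ rest
    unfold EX
    rw [opAt_succ E c r cnt ph rest hcnt hph, h]
    rfl
  rw [this]

omit hq in
theorem EX_stop {c : CD} {r k : ℕ} {cnt ph : List Bool}
    (hcnt : cnt.length = el E + em E) (hph : ph.length = 3) (hk : k ≠ 0)
    (h : ∀ rest, dsel E c cnt ph rest = dstop k rest c cnt) (ρ : RR) :
    (allB (r * (l + m + 3))).foldl (fun ρ rest => EX E x α (r + 1) c ρ (cnt ++ (ph ++ rest)))
      ρ = exec E x α c (k, cnt) ρ := by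
  have : (fun ρ rest => EX E x α (r + 1) c ρ (cnt ++ (ph ++ rest))) =
      fun ρ rest => bif allF rest then exec E x α c (k, cnt) ρ else ρ := by
    funext ρ rest
    unfold EX
    rw [opAt_succ E c r cnt ph rest hcnt hph, h, iter_stop]
    · unfold dstop
      cases allF rest <;> rfl
    · unfold dstop
      cases allF rest
      · simp
      · simpa using hk
  rw [this, foldl_once]

omit hq in
theorem EX_none {c : CD} {r : ℕ} {cnt ph : List Bool}
    (hcnt : cnt.length = el E + em E) (hph : ph.length = 3)
    (h : ∀ rest, dsel E c cnt ph rest = (rest, c, 4, cnt)) (ρ : RR) :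
    (allB (r * (l + m + 3))).foldl (fun ρ rest => EX E x α (r + 1) c ρ (cnt ++ (ph ++ rest)))
      ρ = ρ := by
  have : (fun ρ rest => EX E x α (r + 1) c ρ (cnt ++ (ph ++ rest))) = fun ρ _ => ρ := by
    funext ρ rest
    unfold EX
    rw [opAt_succ E c r cnt ph rest hcnt hph, h, iter_stop]
    · rfl
    · simp
  rw [this]
  generalize allB (r * (l + m + 3)) = L
  induction L with
  | nil => rfl
  | cons z L ih => rw [List.foldl_cons]; exact ih

/-- The contribution of one value of the counter. -/
def contr (E : Env) (M : PMach) (n m s q l c w : ℕ) (x α : List Bool) (r : ℕ) (i : List Bool)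
    (σ : Bool) (b d : Fin c → ZMod q) (cnt : List Bool) : Fin c → ZMod q :=
  if 1 ≤ valW (cnt.take l) ∧ valW (cnt.take l) < q then
    - (sS q σ • accSum E q s c w i (cnt.drop l)
      ((valW (cnt.take l) : ZMod q) • b + vec q c w (M.mem n m s x α r i))
      ((valW (cnt.take l) : ZMod q) • d + vec q c w (M.mem n m s x α r (cnt.drop l))))
  else 0

omit hq in
theorem allB_three : allB 3 = [[false, false, false], [false, false, true],
    [false, true, false], [false, true, true], [true, false, false], [true, false, true],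
    [true, true, false], [true, true, true]] := rfl

theorem body_eq (G : Desc E M n m s q l c w) (r : ℕ)
    (ih : ∀ (i : List Bool), i.length = m → ∀ (t : ℕ), t ≤ 2 → ∀ (σ : Bool)
      (a b d : Fin c → ZMod q), (allB (r * (l + m + 3))).foldl (EX E x α r (i, t, σ))
        (ENC q l c t a b d) =
      ENC q l c t (a + sS q σ • vec q c w (M.mem n m s x α r i)) b d)
    (i : List Bool) (hi : i.length = m) {t : ℕ} (ht : t ≤ 2) (σ : Bool)
    (cnt : List Bool) (hcnt : cnt.length = l + m) (a b d : Fin c → ZMod q) :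
    (allB 3).foldl (fun ρ ph => (allB (r * (l + m + 3))).foldl (fun ρ rest =>
      EX E x α (r + 1) (i, t, σ) ρ (cnt ++ (ph ++ rest))) ρ) (ENC q l c t a b d) =
    ENC q l c t (a + contr E M n m s q l c w x α r i σ b d cnt) b d := by
  have hcnt' : cnt.length = el E + em E := by rw [G.hl, G.hm, hcnt]
  have hlw : (cnt.take l).length = l := by simp [hcnt]
  have hval : valW (wordN l q) = q := valW_wordN l q G.hl2
  rw [allB_three]
  simp only [List.foldl_cons, List.foldl_nil]
  unfold contr
  split_ifs with hv
  · -- a valid counter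
    obtain ⟨hv1, hv2⟩ := hv
    have hsel : (!(!(allF (cnt.take (el E))) && ltW (cnt.take (el E)) (eq E))) = false := by
      rw [G.hq, G.hl]
      have h1 : allF (cnt.take l) = false := by
        rw [← Bool.not_eq_true, allF_iff]; omega
      have h2 : ltW (cnt.take l) (wordN l q) = true := by
        rw [ltW_iff _ _ (by rw [hlw, length_wordN]), hval]; exact hv2
      rw [h1, h2]; rfl
    have hj : (cnt.drop l).length = m := by rw [List.length_drop, hcnt]; omega
    have ht1 : nx t ≤ 2 := nx_le _
    have ht2 : nx (nx t) ≤ 2 := nx_le _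
    have hlam : cnt.take l = eW l ((valW (cnt.take l) : ℕ) : ZMod q) := by
      rw [eW_natCast hv2]
      have := wordN_valW (cnt.take l)
      rw [hlw] at this
      exact this.symm
    have hlam0 : ((valW (cnt.take l) : ℕ) : ZMod q) ≠ 0 := by
      intro h0
      rw [ZMod.natCast_eq_zero_iff] at h0
      have := Nat.le_of_dvd (by omega) h0
      omega
    generalize ((valW (cnt.take l) : ℕ) : ZMod q) = lam at hlam hlam0
    rw [EX_stop (ph := [false, false, false]) (k := 1) hcnt' rfl (by simp) (by
      intro rest; unfold dsel; rw [hsel]; rfl)]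
    rw [exec_scale G i ht σ cnt lam hlam]
    rw [EX_call (ph := [false, false, true]) (c' := (i, nx t, false)) hcnt' rfl (by
      intro rest; unfold dsel; rw [hsel]; rfl)]
    rw [ENC_nx ht, ih i hi (nx t) ht1 false, ← ENC_nx ht]
    rw [EX_call (ph := [false, true, false]) (c' := (cnt.drop (el E), nx (nx t), false))
      hcnt' rfl (by intro rest; unfold dsel; rw [hsel]; rfl)]
    rw [ENC_nx2 ht, G.hl, ih _ hj (nx (nx t)) ht2 false, ← ENC_nx2 ht]
    rw [EX_stop (ph := [false, true, true]) (k := 2) hcnt' rfl (by simp) (by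
      intro rest; unfold dsel; rw [hsel]; rfl)]
    rw [exec_acc G i ht σ cnt]
    rw [EX_call (ph := [true, false, false]) (c' := (cnt.drop (el E), nx (nx t), true))
      hcnt' rfl (by intro rest; unfold dsel; rw [hsel]; rfl)]
    rw [ENC_nx2 ht, G.hl, ih _ hj (nx (nx t)) ht2 true, ← ENC_nx2 ht]
    rw [EX_call (ph := [true, false, true]) (c' := (i, nx t, true)) hcnt' rfl (by
      intro rest; unfold dsel; rw [hsel]; rfl)]
    rw [ENC_nx ht, ih i hi (nx t) ht1 true, ← ENC_nx ht]
    rw [EX_stop (ph := [true, true, false]) (k := 3) hcnt' rfl (by simp) (by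
      intro rest; unfold dsel; rw [hsel]; rfl)]
    rw [exec_unscale G i ht σ cnt lam hlam hlam0]
    rw [EX_none (ph := [true, true, true]) hcnt' rfl (by
      intro rest; unfold dsel; rw [hsel]; rfl)]
    have e1 : sS q false = 1 := rfl
    have e2 : sS q true = -1 := rfl
    rw [e1, e2, one_smul, one_smul, neg_one_smul, neg_one_smul, add_neg_cancel_right,
      add_neg_cancel_right, smul_smul, smul_smul, inv_mul_cancel₀ hlam0, one_smul, one_smul,
      sub_eq_add_neg]
  · -- an invalid counter
    have hsel : (!(!(allF (cnt.take (el E))) && ltW (cnt.take (el E)) (eq E))) = true := by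
      rw [G.hq, G.hl]
      by_cases h1 : allF (cnt.take l) = true
      · rw [h1]; rfl
      · have h2 : ltW (cnt.take l) (wordN l q) = false := by
          rw [← Bool.not_eq_true, ltW_iff _ _ (by rw [hlw, length_wordN]), hval]
          rw [allF_iff] at h1
          omega
        rw [h2]; simp
    have hd : ∀ ph rest, dsel E (i, t, σ) cnt ph rest = (rest, (i, t, σ), 4, cnt) := by
      intro ph rest; unfold dsel; rw [hsel]; rfl
    rw [EX_none hcnt' rfl (hd _), EX_none hcnt' rfl (hd _), EX_none hcnt' rfl (hd _),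
      EX_none hcnt' rfl (hd _), EX_none hcnt' rfl (hd _), EX_none hcnt' rfl (hd _),
      EX_none hcnt' rfl (hd _), EX_none hcnt' rfl (hd _), add_zero]

end corr

end Pool.Agent.H7LS
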