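import Pool.Agent.H7LS.Correct

/-!
# Correctness of the simulation: the main theorem
-/

namespace Pool.Agent.H7LS

open Pool.Agent.PPS

section corr

variable {E : Env} {M : PMach} {n m s q l c w : ℕ} {x α : List Bool}

theorem ofFn_vec (q c w : ℕ) (v : List Bool) :
    List.ofFn (vec q c w v) = (List.ofFn (fun j : Fin c => cv w v j)).map
      (fun a : ℕ => (a : ZMod q)) := by
  rw [List.map_ofFn]
  rfl

theorem ofFn_lin (y : ZMod q) (b v : Fin c → ZMod q) :
    List.ofFn (y • b + v) = List.zipWith (fun a v => y * a + v) (List.ofFn b) (List.ofFn v) := by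
  refine List.ext_getElem (by simp) ?_
  intro i h1 h2
  simp

/-- The chunks of two words. -/
def cvs (c w : ℕ) (v v' : List Bool) : List ℕ :=
  List.ofFn (fun j : Fin c => cv w v j) ++ List.ofFn (fun j : Fin c => cv w v' j)

theorem cvs_lt (v v' : List Bool) : ∀ a ∈ cvs c w v v', a < 2 ^ w := by
  intro a ha
  rw [cvs, List.mem_append, List.mem_ofFn, List.mem_ofFn] at ha
  rcases ha with ⟨j, rfl⟩ | ⟨j, rfl⟩ <;> exact cv_lt _ _ _

theorem cvs_inj {v v' u u' : List Bool} (hc : s ≤ c * w) (hv : v.length = s)
    (hv' : v'.length = s) (hu : u.length = s) (hu' : u'.length = s)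
    (h : cvs c w v v' = cvs c w u u') : v = u ∧ v' = u' := by
  unfold cvs at h
  obtain ⟨h1, h2⟩ := List.append_inj h (by simp)
  refine ⟨cv_inj c w _ _ (by omega) (by omega) ?_, cv_inj c w _ _ (by omega) (by omega) ?_⟩
  · intro j hj
    exact congrFun (List.ofFn_injective h1) ⟨j, hj⟩
  · intro j hj
    exact congrFun (List.ofFn_injective h2) ⟨j, hj⟩

variable [hq : Fact q.Prime]

theorem sum_accSum (G : Desc E M n m s q l c w) (i j wi wj : List Bool)
    (hwi : wi.length = s) (hwj : wj.length = s) (b d : Fin c → ZMod q) :
    ∑ y ∈ Finset.univ.filter (fun y : ZMod q => y ≠ 0),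
      accSum E q s c w i j (y • b + vec q c w wi) (y • d + vec q c w wj) =
    - (if ask E i wi = j then vec q c w (new E i wi wj) else 0) := by
  unfold accSum
  rw [Finset.sum_comm]
  have h1 : ∀ z ∈ WF (s + s), ∑ y ∈ Finset.univ.filter (fun y : ZMod q => y ≠ 0),
      (if ask E i (z.take s) = j then
        (wt w (List.ofFn (vec q c w (z.take s)) ++ List.ofFn (vec q c w (z.drop s)))
          (List.ofFn (y • b + vec q c w wi) ++ List.ofFn (y • d + vec q c w wj))) •
          vec q c w (new E i (z.take s) (z.drop s)) else 0) =
      if z = wi ++ wj then - (if ask E i wi = j then vec q c w (new E i wi wj) else 0)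
        else 0 := by
    intro z hz
    rw [mem_WF] at hz
    by_cases ha : ask E i (z.take s) = j
    · simp only [ha, if_true]
      rw [← Finset.sum_smul]
      have h2 : ∀ y : ZMod q, wt w (List.ofFn (vec q c w (z.take s)) ++
          List.ofFn (vec q c w (z.drop s))) (List.ofFn (y • b + vec q c w wi) ++
          List.ofFn (y • d + vec q c w wj)) = wt w (List.ofFn (vec q c w (z.take s)) ++
          List.ofFn (vec q c w (z.drop s))) (List.zipWith (fun a v => y * a + v)
            (List.ofFn b ++ List.ofFn d)
            (List.ofFn (vec q c w wi) ++ List.ofFn (vec q c w wj))) := by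
        intro y
        rw [List.zipWith_append (by simp), ofFn_lin, ofFn_lin]
      simp only [h2]
      rw [sum_wt w _ _ _ (by simp) (by
        have := G.hs2
        simp only [List.length_append, List.length_ofFn]
        exact this)]
      have h5 : wt w (List.ofFn (vec q c w (z.take s)) ++ List.ofFn (vec q c w (z.drop s)))
          (List.ofFn (vec q c w wi) ++ List.ofFn (vec q c w wj)) =
          if cvs c w (z.take s) (z.drop s) = cvs c w wi wj then 1 else 0 := by
        rw [← wt_vals G.hw2 _ _ (by simp [cvs]) (cvs_lt _ _) (cvs_lt _ _)]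
        unfold cvs
        rw [List.map_append, List.map_append, ofFn_vec, ofFn_vec, ofFn_vec, ofFn_vec]
      rw [h5]
      by_cases hzw : z = wi ++ wj
      · subst hzw
        have h3 : (wi ++ wj).take s = wi := List.take_left' hwi
        have h4 : (wi ++ wj).drop s = wj := List.drop_left' hwi
        rw [h3] at ha
        simp only [h3, h4, ha, if_true]
        simp
      · have h6 : ¬ cvs c w (z.take s) (z.drop s) = cvs c w wi wj := by
          intro h7
          obtain ⟨h8, h9⟩ := cvs_inj G.hc (by simp [hz]) (by simp [hz]) hwi hwj h7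
          apply hzw
          rw [← h8, ← h9, List.take_append_drop]
        simp [hzw, h6]
    · simp only [ha, if_false, Finset.sum_const_zero]
      by_cases hzw : z = wi ++ wj
      · subst hzw
        have h3 : (wi ++ wj).take s = wi := List.take_left' hwi
        rw [h3] at ha
        simp [ha]
      · simp [hzw]
  rw [Finset.sum_congr rfl h1, Finset.sum_ite_eq']
  rw [if_pos (mem_WF.mpr (by simp [hwi, hwj]))]

theorem sum_contr (G : Desc E M n m s q l c w) (r : ℕ) (i : List Bool) (hi : i.length = m)
    (σ : Bool) (b d : Fin c → ZMod q) :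
    ∑ cnt ∈ WF (l + m), contr E M n m s q l c w x α r i σ b d cnt =
      sS q σ • vec q c w (M.mem n m s x α (r + 1) i) := by
  have hq2 := hq.out.two_le
  rw [sum_WF_add, Finset.sum_comm]
  have hwi := length_mem M n m s x α r i
  have h1 : ∀ j ∈ WF m, ∑ u ∈ WF l, contr E M n m s q l c w x α r i σ b d (u ++ j) =
      if j = ask E i (M.mem n m s x α r i) then
        sS q σ • vec q c w (new E i (M.mem n m s x α r i) (M.mem n m s x α r j)) else 0 := by
    intro j hj
    rw [mem_WF] at hj
    have hwj := length_mem M n m s x α r j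
    obtain ⟨φ, hφ⟩ : ∃ φ : ZMod q → Fin c → ZMod q, φ = fun y : ZMod q =>
        - (sS q σ • accSum E q s c w i j
            (y • b + vec q c w (M.mem n m s x α r i))
            (y • d + vec q c w (M.mem n m s x α r j))) := ⟨_, rfl⟩
    have h2 : ∀ u ∈ WF l, contr E M n m s q l c w x α r i σ b d (u ++ j) =
        if 1 ≤ valW u ∧ valW u < q then φ (valW u : ZMod q) else 0 := by
      intro u hu
      rw [hφ]
      rw [mem_WF] at hu
      have h3 : (u ++ j).take l = u := List.take_left' hu
      have h4 : (u ++ j).drop l = j := List.drop_left' hu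
      unfold contr
      rw [h3, h4]
    rw [Finset.sum_congr rfl h2, sum_words G.hl2.le φ, hφ, Finset.sum_neg_distrib,
      ← Finset.smul_sum,
      sum_accSum G i j _ _ hwi hwj b d]
    by_cases h6 : ask E i (M.mem n m s x α r i) = j
    · rw [if_pos h6, if_pos h6.symm, smul_neg, neg_neg]
    · rw [if_neg h6, if_neg (fun h => h6 h.symm)]
      simp
  rw [Finset.sum_congr rfl h1, Finset.sum_ite_eq']
  have h7 : ask E i (M.mem n m s x α r i) ∈ WF m := by
    rw [mem_WF, G.ask i _ hi hwi, length_fit]
  rw [if_pos h7]
  congr 2
  rw [G.new i _ _ hi hwi (length_mem M n m s x α r _), G.ask i _ hi hwi]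
  rfl

theorem main_enc (G : Desc E M n m s q l c w) (r : ℕ) : ∀ (i : List Bool), i.length = m →
    ∀ (t : ℕ), t ≤ 2 → ∀ (σ : Bool) (a b d : Fin c → ZMod q),
    (allB (r * (l + m + 3))).foldl (EX E x α r (i, t, σ)) (ENC q l c t a b d) =
      ENC q l c t (a + sS q σ • vec q c w (M.mem n m s x α r i)) b d := by
  induction r with
  | zero =>
    intro i hi t ht σ a b d
    rw [Nat.zero_mul]
    exact exec_leaf G i ht σ [] a b d
  | succ r ih =>
    intro i hi t ht σ a b d
    have e1 : (r + 1) * (l + m + 3) = (l + m) + (3 + r * (l + m + 3)) := by ring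
    rw [e1, allB_add, List.foldl_flatMap]
    have h1 : ∀ cnt ∈ allB (l + m), ∀ a : Fin c → ZMod q,
        (fun ρ cnt => ((allB (3 + r * (l + m + 3))).map (fun v => cnt ++ v)).foldl
          (EX E x α (r + 1) (i, t, σ)) ρ) (ENC q l c t a b d) cnt =
        ENC q l c t (a + contr E M n m s q l c w x α r i σ b d cnt) b d := by
      intro cnt hcnt a
      simp only
      rw [List.foldl_map, allB_add, List.foldl_flatMap]
      have h2 := body_eq G r ih i hi ht σ cnt (mem_allB.mp hcnt) a b d
      simp only [List.foldl_map]
      exact h2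
    rw [foldl_ENC (allB (l + m)) (fun ρ cnt => ((allB (3 + r * (l + m + 3))).map
      (fun v => cnt ++ v)).foldl (EX E x α (r + 1) (i, t, σ)) ρ) _ t b d h1 a, sum_allB,
      sum_contr G r i hi σ b d]

/-- The simulation gives the right answer. -/
theorem simP_eq (G : Desc E M n m s q l c w) :
    simP (E, er E * (l + m + 3), List.replicate c (List.replicate l false)) x α =
      M.out n m s (er E) x α := by
  have hq2 := hq.out.two_le
  have h0 : List.replicate c (List.replicate l false) = encB q l c 0 := by
    unfold encB
    simp only [Pi.zero_apply, eW_zero]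
    exact (List.ofFn_const _ _).symm
  unfold simP simR
  simp only
  have h1 : (List.replicate c (List.replicate l false), List.replicate c (List.replicate l false),
      List.replicate c (List.replicate l false)) = ENC q l c 0 0 0 0 := by
    rw [h0]; rfl
  rw [h1]
  have h2 := main_enc (x := x) (α := α) G (er E) (List.replicate m false) (by simp) 0 (by omega)
    false 0 0 0
  have h3 : (allB (er E * (l + m + 3))).foldl (fun ρ T => exec E x α
      (opAt E (List.replicate (em E) false, 0, false) (er E) T).2.1
      (opAt E (List.replicate (em E) false, 0, false) (er E) T).2.2 ρ) (ENC q l c 0 0 0 0) =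
      (allB (er E * (l + m + 3))).foldl (EX E x α (er E) (List.replicate m false, 0, false))
        (ENC q l c 0 0 0 0) := by
    rw [G.hm]; rfl
  rw [h3, h2]
  have e1 : sS q false = 1 := rfl
  rw [e1, one_smul, zero_add]
  unfold PMach.out
  show ((encB q l c (vec q c w (M.mem n m s x α (er E)
    (List.replicate m false)))).getD 0 []).getD 0 false = _
  have hlen := length_mem M n m s x α (er E) (List.replicate m false)
  generalize M.mem n m s x α (er E) (List.replicate m false) = v at hlen
  rcases Nat.eq_zero_or_pos c with hc | hc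
  · subst hc
    have h4 := G.hc
    have : v = [] := List.length_eq_zero_iff.mp (by omega)
    subst this
    rfl
  · unfold encB
    have h4 : (List.ofFn fun j : Fin c => eW l (vec q c w v j)).getD 0 [] =
        eW l (vec q c w v ⟨0, hc⟩) := by
      rw [List.getD_eq_getElem?_getD, List.getElem?_ofFn]
      simp [hc]
    rw [h4]
    have h5 : vec q c w v ⟨0, hc⟩ = ((cv w v 0 : ℕ) : ZMod q) := rfl
    have h6 := cv_lt w v 0
    have h7 := G.hw2
    have h8 := G.hw1
    have h9 := G.hwl
    rw [h5, eW_natCast (by omega), cv_zero, ← fit_eq_wordN (by simp; omega)]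
    unfold fit
    cases v with
    | nil =>
      simp only [List.take_nil, List.nil_append]
      rw [List.getD_eq_getElem?_getD, List.getD_eq_getElem?_getD, List.take_replicate]
      cases h : min l l with
      | zero => rfl
      | succ k => rfl
    | cons b v =>
      obtain ⟨w', rfl⟩ : ∃ w', w = w' + 1 := ⟨w - 1, by omega⟩
      obtain ⟨l', rfl⟩ : ∃ l', l = l' + 1 := ⟨l - 1, by omega⟩
      rw [List.take_succ_cons, List.cons_append, List.take_succ_cons]
      rfl

end corr

end Pool.Agent.H7LS
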