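import Pool.Agent.H7LS.Order

/-!
# Parities with small correlation
-/

namespace Pool.Agent.H7LS

open Pool.Agent.PPS

/-- The inner product of two words, modulo 2. -/
def ip (a x : List Bool) : Bool := (a.zip x).foldl (fun y p => xor y (p.1 && p.2)) false

theorem foldl_ip (l : List (Bool × Bool)) (y : Bool) :
    l.foldl (fun y p => xor y (p.1 && p.2)) y =
      xor y (l.foldl (fun y p => xor y (p.1 && p.2)) false) := by
  induction l generalizing y with
  | nil => simp
  | cons p l ih =>
    rw [List.foldl_cons, List.foldl_cons, ih, ih (xor false _)]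
    simp

theorem ip_nil : ip [] [] = false := rfl

theorem ip_cons (b c : Bool) (a x : List Bool) :
    ip (b :: a) (c :: x) = xor (b && c) (ip a x) := by
  unfold ip
  rw [List.zip_cons_cons, List.foldl_cons, foldl_ip]
  simp

/-- The sign of a bit. -/
def sg (b : Bool) : ℝ := if b then -1 else 1

theorem sg_xor (b c : Bool) : sg (xor b c) = sg b * sg c := by
  cases b <;> cases c <;> simp [sg]

theorem sg_sq (b : Bool) : sg b ^ 2 = 1 := by cases b <;> simp [sg]

/-- Parseval's identity. -/
theorem parseval (n : ℕ) (g : List Bool → ℝ) :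
    ∑ a ∈ WF n, (∑ x ∈ WF n, g x * sg (ip a x)) ^ 2 = 2 ^ n * ∑ x ∈ WF n, g x ^ 2 := by
  induction n generalizing g with
  | zero =>
    have h : WF 0 = {[]} := by
      ext w; simp [mem_WF]
    rw [h]
    simp [ip_nil, sg]
  | succ n ih =>
    rw [sum_WF_succ, sum_WF_succ]
    have h1 : ∀ (b : Bool) (a : List Bool), ∑ x ∈ WF (n + 1), g x * sg (ip (b :: a) x) =
        (∑ x ∈ WF n, g (false :: x) * sg (ip a x)) +
          sg b * ∑ x ∈ WF n, g (true :: x) * sg (ip a x) := by
      intro b a
      rw [sum_WF_succ, Finset.mul_sum]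
      congr 1
      · refine Finset.sum_congr rfl (fun x _ => ?_)
        rw [ip_cons]; simp
      · refine Finset.sum_congr rfl (fun x _ => ?_)
        rw [ip_cons, Bool.and_true, sg_xor]; ring
    have h2 : ∑ a ∈ WF n, (∑ x ∈ WF (n + 1), g x * sg (ip (false :: a) x)) ^ 2 +
        ∑ a ∈ WF n, (∑ x ∈ WF (n + 1), g x * sg (ip (true :: a) x)) ^ 2 =
        2 * (∑ a ∈ WF n, (∑ x ∈ WF n, g (false :: x) * sg (ip a x)) ^ 2) +
        2 * (∑ a ∈ WF n, (∑ x ∈ WF n, g (true :: x) * sg (ip a x)) ^ 2) := by
      rw [← Finset.sum_add_distrib, Finset.mul_sum, Finset.mul_sum, ← Finset.sum_add_distrib]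
      refine Finset.sum_congr rfl (fun a _ => ?_)
      rw [h1, h1]
      have e1 : sg false = 1 := rfl
      have e2 : sg true = -1 := rfl
      rw [e1, e2]
      ring
    rw [h2, ih (fun x => g (false :: x)), ih (fun x => g (true :: x))]
    ring

/-- The number of agreements minus the number of disagreements of `f` and the parity `a`. -/
def corr (n : ℕ) (f : List Bool → Bool) (a : List Bool) : ℝ :=
  ∑ x ∈ WF n, sg (f x) * sg (ip a x)

theorem sum_corr_sq (n : ℕ) (f : List Bool → Bool) :
    ∑ a ∈ WF n, corr n f a ^ 2 = 4 ^ n := by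
  unfold corr
  rw [parseval]
  simp only [sg_sq, Finset.sum_const, card_WF, nsmul_eq_mul, mul_one]
  push_cast
  rw [← mul_pow]
  norm_num

/-- Every function is correlated with a parity. -/
theorem exists_corr (n : ℕ) (f : List Bool → Bool) :
    ∃ a ∈ WF n, (2 : ℝ) ^ n ≤ corr n f a ^ 2 := by
  by_contra hcon
  push Not at hcon
  have hne : (WF n).Nonempty := by
    rw [← Finset.card_pos, card_WF]; positivity
  have h1 := Finset.sum_lt_sum_of_nonempty hne hcon
  rw [sum_corr_sq, Finset.sum_const, card_WF, nsmul_eq_mul] at h1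
  push_cast at h1
  rw [← mul_pow] at h1
  norm_num at h1

end Pool.Agent.H7LS
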