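import Pool.Agent.H7LS.GF
import Pool.Agent.H7LS.Parseval

/-!
# Functions with small correlation: the moment method
-/

namespace Pool.Agent.H7LS

open Pool.Agent.PPS

/-! ### Even tuples -/

/-- All values of the tuple occur an even number of times. -/
def EvenT {t : ℕ} (p : Fin (2 * t) → List Bool) : Prop :=
  ∀ z, Even (Finset.univ.filter (fun i => p i = z)).card

open Classical in
theorem card_image_evenT {t : ℕ} (p : Fin (2 * t) → List Bool) (hp : EvenT p) :
    (Finset.univ.image p).card ≤ t := by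
  have h1 := Finset.card_eq_sum_card_image p Finset.univ
  rw [Finset.card_univ, Fintype.card_fin] at h1
  have h2 : ∀ z ∈ Finset.univ.image p, 2 ≤ (Finset.univ.filter (fun i => p i = z)).card := by
    intro z hz
    have h3 := hp z
    have h4 : 0 < (Finset.univ.filter (fun i => p i = z)).card := by
      rw [Finset.card_pos]
      rw [Finset.mem_image] at hz
      obtain ⟨i, _, hi⟩ := hz
      exact ⟨i, by simp [hi]⟩
    obtain ⟨r, hr⟩ := h3
    omega
  have h3 : (Finset.univ.image p).card • 2 ≤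
      ∑ z ∈ Finset.univ.image p, (Finset.univ.filter (fun i => p i = z)).card :=
    Finset.card_nsmul_le_sum _ _ _ h2
  rw [← h1, smul_eq_mul] at h3
  omega

open Classical in
theorem card_evenT (t n : ℕ) :
    ((Fintype.piFinset (fun _ : Fin (2 * t) => WF n)).filter (fun p => EvenT p)).card ≤
      t ^ (2 * t) * (2 ^ n) ^ t := by
  have h1 : ((Fintype.piFinset (fun _ : Fin (2 * t) => WF n)).filter (fun p => EvenT p)) ⊆
      ((Finset.univ : Finset (Fin (2 * t) → Fin t)) ×ˢ
        Fintype.piFinset (fun _ : Fin t => WF n)).image (fun z => z.2 ∘ z.1) := by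
    intro p hp
    rw [Finset.mem_filter, Fintype.mem_piFinset] at hp
    obtain ⟨hp1, hp2⟩ := hp
    rw [Finset.mem_image]
    have hc := card_image_evenT p hp2
    generalize hS : Finset.univ.image p = S at hc
    have hpS : ∀ i, p i ∈ S := by
      intro i; rw [← hS]; simp
    have hSW : ∀ y ∈ S, y ∈ WF n := by
      intro y hy
      rw [← hS, Finset.mem_image] at hy
      obtain ⟨i, _, hi⟩ := hy
      rw [← hi]
      exact hp1 i
    rcases Nat.eq_zero_or_pos t with ht | ht
    · subst ht
      refine ⟨(fun i => i, fun i => i.elim0), ?_, ?_⟩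
      · rw [Finset.mem_product]
        exact ⟨Finset.mem_univ _, Fintype.mem_piFinset.mpr (fun i => i.elim0)⟩
      · funext i; exact i.elim0
    · let e := S.equivFin
      let q : Fin t → List Bool := fun j => if h : (j : ℕ) < S.card then (e.symm ⟨j, h⟩ : S)
        else p ⟨0, by omega⟩
      refine ⟨(fun i => ⟨(e ⟨p i, hpS i⟩ : ℕ), lt_of_lt_of_le (e ⟨p i, hpS i⟩).2 hc⟩, q), ?_, ?_⟩
      · simp only [Finset.mem_product, Finset.mem_univ, true_and, Fintype.mem_piFinset]
        intro j
        simp only [q]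
        split_ifs with h
        · exact hSW _ (e.symm ⟨j, h⟩).2
        · exact hp1 _
      · funext i
        simp only [Function.comp_apply, q]
        rw [dif_pos (e ⟨p i, hpS i⟩).2]
        simp
  refine (Finset.card_le_card h1).trans (Finset.card_image_le.trans ?_)
  rw [Finset.card_product, Fintype.card_piFinset]
  simp [card_WF]

section field

variable {F : Type} [Field F] [CharP F 2] {θ : F} {n : ℕ} {f : List Bool}

/-- A change of the coefficients changes the value at `z` and no other value in `T`. -/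
theorem exists_flip (hn : 1 ≤ n) (hf : f.length = n) (hθ : vG θ f = θ ^ n)
    (hinj : ∀ u v : List Bool, u.length = n → v.length = n → vG θ u = vG θ v → u = v)
    (hsurj : ∀ x : F, ∃ w : List Bool, w.length = n ∧ vG θ w = x) (D : ℕ)
    (T : Finset (List Bool)) (hT : ∀ y ∈ T, y.length = n) (hTD : T.card ≤ D)
    (z : List Bool) (hz : z ∈ T) :
    ∃ g : List Bool, g.length = D * n ∧ ∀ y ∈ T, ∀ c : List Bool, c.length = D * n →
      (evG f y (xorW c g)).getD 0 false =
        xor ((evG f y c).getD 0 false) (decide (y = z)) := by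
  classical
  let v₁ : List Bool := true :: List.replicate (n - 1) false
  have hv₁ : v₁.length = n := by simp [v₁]; omega
  let q : Polynomial F := ∏ y ∈ T.erase z, (Polynomial.X - Polynomial.C (vG θ y))
  have hqz : q.eval (vG θ z) ≠ 0 := by
    rw [Polynomial.eval_prod, Finset.prod_ne_zero_iff]
    intro y hy
    rw [Finset.mem_erase] at hy
    simp only [Polynomial.eval_sub, Polynomial.eval_X, Polynomial.eval_C]
    rw [sub_ne_zero]
    intro h
    exact hy.1 (hinj _ _ (hT z hz) (hT y hy.2) h).symm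
  have hqy : ∀ y ∈ T, y ≠ z → q.eval (vG θ y) = 0 := by
    intro y hy hyz
    rw [Polynomial.eval_prod]
    refine Finset.prod_eq_zero (Finset.mem_erase.mpr ⟨hyz, hy⟩) ?_
    simp
  have hqd : q.natDegree ≤ T.card - 1 := by
    refine (Polynomial.natDegree_prod_le _ _).trans ?_
    simp only [Polynomial.natDegree_X_sub_C]
    rw [Finset.sum_const, Finset.card_erase_of_mem hz]
    simp
  have hT1 : 1 ≤ T.card := Finset.card_pos.mpr ⟨z, hz⟩
  let p : Polynomial F := Polynomial.C (vG θ v₁ / q.eval (vG θ z)) * q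
  have hpd : p.degree < (D : WithBot ℕ) := by
    have h1 : p.natDegree ≤ T.card - 1 :=
      (Polynomial.natDegree_C_mul_le _ _).trans hqd
    refine lt_of_le_of_lt Polynomial.degree_le_natDegree ?_
    exact_mod_cast (by omega : p.natDegree < D)
  obtain ⟨g, hg, hgv⟩ := exists_coeffs θ n hsurj D p hpd
  refine ⟨g, hg, ?_⟩
  intro y hy c hc
  have hyl := hT y hy
  have h1 : vG θ (evG f y (xorW c g)) = vG θ (evG f y c) + p.eval (vG θ y) := by
    rw [vG_evG θ (D := D) (by omega) (by rw [hyl]; exact hθ) (by rw [length_xorW, hc, hyl])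
      (by omega), vG_evG θ (D := D) (by omega) (by rw [hyl]; exact hθ) (by rw [hc, hyl])
      (by omega), ← hgv, hyl]
    have h2 := evF_add θ n (vG θ y) D 0 0 c g (by rw [hc, hg])
    rw [add_zero] at h2
    exact h2
  by_cases hyz : y = z
  · subst hyz
    have h2 : p.eval (vG θ y) = vG θ v₁ := by
      simp only [p, Polynomial.eval_mul, Polynomial.eval_C]
      exact div_mul_cancel₀ _ hqz
    rw [h2, ← vG_xorW θ (by rw [length_evG, hyl, hv₁])] at h1
    have h3 := hinj _ _ (by rw [length_evG, hyl]) (by rw [length_xorW, length_evG, hyl]) h1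
    rw [h3]
    have h4 : (evG f y c).length = n := by rw [length_evG, hyl]
    generalize evG f y c = w at h4
    cases w with
    | nil => simp at h4; omega
    | cons b w =>
      simp only [decide_true, List.getD_cons_zero]
      unfold xorW
      rw [fit_of_length (by rw [hv₁, h4])]
      simp [v₁]
  · have h2 : p.eval (vG θ y) = 0 := by
      simp only [p, Polynomial.eval_mul, Polynomial.eval_C]
      rw [hqy y hy hyz, mul_zero]
    rw [h2, add_zero] at h1
    have h3 := hinj _ _ (by rw [length_evG, hyl]) (by rw [length_evG, hyl]) h1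
    rw [h3]
    simp [hyz]

theorem xorW_xorW (c g : List Bool) (h : c.length = g.length) : xorW (xorW c g) g = c := by
  refine List.ext_getElem (by simp) ?_
  intro i h1 h2
  have h3 : ∀ (u : List Bool) (hu : u.length = g.length) (hi : i < u.length),
      (xorW u g)[i]'(by simpa using hi) = xor (u[i]'hi) (g[i]'(by omega)) := by
    intro u hu hi
    unfold xorW
    simp only [List.getElem_map, List.getElem_zip]
    congr 1
    congr 1
    exact fit_of_length hu.symm
  rw [h3 (xorW c g) (by simpa using h) (by simpa using h2), h3 c h h2]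
  simp

theorem sum_prod_eq_zero (hn : 1 ≤ n) (hf : f.length = n) (hθ : vG θ f = θ ^ n)
    (hinj : ∀ u v : List Bool, u.length = n → v.length = n → vG θ u = vG θ v → u = v)
    (hsurj : ∀ x : F, ∃ w : List Bool, w.length = n ∧ vG θ w = x) (t : ℕ)
    (p : Fin (2 * t) → List Bool) (hp : ∀ i, (p i).length = n) (hodd : ¬ EvenT p) :
    ∑ c ∈ WF (2 * t * n), ∏ i, sg ((evG f (p i) c).getD 0 false) = 0 := by
  classical
  unfold EvenT at hodd
  push Not at hodd
  obtain ⟨z, hz⟩ := hodd
  rw [Nat.not_even_iff_odd] at hz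
  have hpos : 0 < (Finset.univ.filter (fun i => p i = z)).card := hz.pos
  rw [Finset.card_pos] at hpos
  obtain ⟨i₀, hi₀⟩ := hpos
  rw [Finset.mem_filter] at hi₀
  obtain ⟨g, hg, hflip⟩ := exists_flip hn hf hθ hinj hsurj (2 * t) (Finset.univ.image p)
    (by
      intro y hy
      rw [Finset.mem_image] at hy
      obtain ⟨i, _, hi⟩ := hy
      rw [← hi]; exact hp i)
    (by
      refine Finset.card_image_le.trans ?_
      simp) z (Finset.mem_image.mpr ⟨i₀, Finset.mem_univ _, hi₀.2⟩)
  have h1 : ∀ c ∈ WF (2 * t * n), ∏ i, sg ((evG f (p i) (xorW c g)).getD 0 false) =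
      - ∏ i, sg ((evG f (p i) c).getD 0 false) := by
    intro c hc
    rw [mem_WF] at hc
    have h2 : ∀ i, sg ((evG f (p i) (xorW c g)).getD 0 false) =
        sg ((evG f (p i) c).getD 0 false) * (if p i = z then -1 else 1) := by
      intro i
      rw [hflip (p i) (Finset.mem_image.mpr ⟨i, Finset.mem_univ _, rfl⟩) c hc, sg_xor]
      congr 1
      by_cases h : p i = z <;> simp [h, sg]
    rw [Finset.prod_congr rfl (fun i _ => h2 i), Finset.prod_mul_distrib, Finset.prod_ite]
    rw [Finset.prod_const, Finset.prod_const_one, mul_one, hz.neg_one_pow]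
    ring
  have h2 : ∑ c ∈ WF (2 * t * n), ∏ i, sg ((evG f (p i) c).getD 0 false) =
      ∑ c ∈ WF (2 * t * n), ∏ i, sg ((evG f (p i) (xorW c g)).getD 0 false) := by
    refine Finset.sum_nbij' (fun c => xorW c g) (fun c => xorW c g) ?_ ?_ ?_ ?_ ?_
    · intro c hc
      rw [mem_WF] at hc ⊢
      rw [length_xorW, hc]
    · intro c hc
      rw [mem_WF] at hc ⊢
      rw [length_xorW, hc]
    · intro c hc
      rw [mem_WF] at hc
      exact xorW_xorW _ _ (by rw [hc, hg])
    · intro c hc
      rw [mem_WF] at hc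
      exact xorW_xorW _ _ (by rw [hc, hg])
    · intro c hc
      rw [mem_WF] at hc
      rw [xorW_xorW _ _ (by rw [hc, hg])]
  rw [Finset.sum_congr rfl h1, Finset.sum_neg_distrib] at h2
  linarith

theorem abs_sg (b : Bool) : |sg b| = 1 := by cases b <;> simp [sg]

/-- The bound on the moment. -/
theorem moment (hn : 1 ≤ n) (hf : f.length = n) (hθ : vG θ f = θ ^ n)
    (hinj : ∀ u v : List Bool, u.length = n → v.length = n → vG θ u = vG θ v → u = v)
    (hsurj : ∀ x : F, ∃ w : List Bool, w.length = n ∧ vG θ w = x) (t : ℕ)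
    (G : List Bool → Bool) :
    ∑ c ∈ WF (2 * t * n), (∑ x ∈ WF n, sg (G x) * sg ((evG f x c).getD 0 false)) ^ (2 * t) ≤
      t ^ (2 * t) * (2 ^ n) ^ t * 2 ^ (2 * t * n) := by
  classical
  have h1 : ∀ c, (∑ x ∈ WF n, sg (G x) * sg ((evG f x c).getD 0 false)) ^ (2 * t) =
      ∑ p ∈ Fintype.piFinset (fun _ : Fin (2 * t) => WF n),
        (∏ i, sg (G (p i))) * ∏ i, sg ((evG f (p i) c).getD 0 false) := by
    intro c
    have h2 := Finset.prod_univ_sum (fun _ : Fin (2 * t) => WF n)
      (fun _ x => sg (G x) * sg ((evG f x c).getD 0 false))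
    rw [Finset.prod_const, Finset.card_univ, Fintype.card_fin] at h2
    rw [h2]
    refine Finset.sum_congr rfl (fun p _ => ?_)
    exact Finset.prod_mul_distrib
  simp only [h1]
  rw [Finset.sum_comm]
  simp only [← Finset.mul_sum]
  rw [← Finset.sum_filter_add_sum_filter_not
    (Fintype.piFinset (fun _ : Fin (2 * t) => WF n)) (fun p => EvenT p)]
  have h2 : ∑ p ∈ (Fintype.piFinset (fun _ : Fin (2 * t) => WF n)).filter (fun p => ¬ EvenT p),
      (∏ i, sg (G (p i))) * ∑ c ∈ WF (2 * t * n), ∏ i, sg ((evG f (p i) c).getD 0 false) =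
      0 := by
    refine Finset.sum_eq_zero ?_
    intro p hp
    rw [Finset.mem_filter, Fintype.mem_piFinset] at hp
    rw [sum_prod_eq_zero hn hf hθ hinj hsurj t p (fun i => mem_WF.mp (hp.1 i)) hp.2, mul_zero]
  rw [h2, add_zero]
  have h3 : ∀ p ∈ (Fintype.piFinset (fun _ : Fin (2 * t) => WF n)).filter (fun p => EvenT p),
      (∏ i, sg (G (p i))) * ∑ c ∈ WF (2 * t * n), ∏ i, sg ((evG f (p i) c).getD 0 false) ≤
      2 ^ (2 * t * n) := by
    intro p _
    refine (le_abs_self _).trans ?_
    rw [abs_mul, Finset.abs_prod]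
    simp only [abs_sg, Finset.prod_const_one, one_mul]
    refine (Finset.abs_sum_le_sum_abs _ _).trans ?_
    simp only [Finset.abs_prod, abs_sg, Finset.prod_const_one, Finset.sum_const, card_WF]
    simp
  refine (Finset.sum_le_card_nsmul _ _ _ h3).trans ?_
  rw [nsmul_eq_mul]
  refine mul_le_mul_of_nonneg_right ?_ (by positivity)
  have := card_evenT t n
  exact_mod_cast this

end field

/-- The number of agreements minus the number of disagreements of `f` and `h`. -/
def cor (n : ℕ) (f h : List Bool → Bool) : ℝ :=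
  ∑ x ∈ WF n, sg (f x) * sg (h x)

/-- There is a member of the family that is nearly uncorrelated with all functions given by
words of length `W`. -/
theorem exists_seed' (n u t W : ℕ) (hn : 1 ≤ n) (S : List Bool → List Bool → Bool)
    (h : 2 ^ W * (t ^ (2 * t) * (2 ^ n) ^ t) < (2 ^ (n - u)) ^ (2 * t)) :
    ∃ a ∈ WF (n + 2 * t * n), ∀ w ∈ WF W, |cor n (S w) (fam a)| ≤ 2 ^ (n - u) := by
  obtain ⟨F, _, _, θ, f, hf, hθ, hinj, hsurj⟩ := exists_field n hn
  have hfam : ∀ c ∈ WF (2 * t * n), ∀ x ∈ WF n,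
      fam (f ++ c) x = (evG f x c).getD 0 false := by
    intro c hc x hx
    rw [mem_WF] at hx
    unfold fam
    rw [hx, List.take_left' hf, List.drop_left' hf]
  by_contra hcon
  push Not at hcon
  have h1 : ∀ c ∈ WF (2 * t * n), (1 : ℝ) ≤ ∑ w ∈ WF W,
      (cor n (S w) (fam (f ++ c))) ^ (2 * t) / (2 ^ (n - u)) ^ (2 * t) := by
    intro c hc
    obtain ⟨w, hw, hlt⟩ := hcon (f ++ c) (by
      rw [mem_WF] at hc ⊢
      rw [List.length_append, hf, hc])
    have h2 : (cor n (S w) (fam (f ++ c))) ^ (2 * t) / (2 ^ (n - u)) ^ (2 * t) ≤ ∑ w ∈ WF W,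
        (cor n (S w) (fam (f ++ c))) ^ (2 * t) / (2 ^ (n - u)) ^ (2 * t) := by
      refine Finset.single_le_sum (f := fun w => (cor n (S w) (fam (f ++ c))) ^ (2 * t) /
        (2 ^ (n - u)) ^ (2 * t)) (fun w _ => ?_) hw
      have : (0 : ℝ) ≤ (cor n (S w) (fam (f ++ c))) ^ (2 * t) := by
        rw [pow_mul]; positivity
      positivity
    refine le_trans ?_ h2
    rw [le_div_iff₀ (by positivity), one_mul, ← Even.pow_abs (even_two_mul t)
      (cor n (S w) (fam (f ++ c)))]
    exact pow_le_pow_left₀ (by positivity) hlt.le _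
  have h2 : ((2 : ℝ) ^ (2 * t * n)) ≤ ∑ c ∈ WF (2 * t * n), ∑ w ∈ WF W,
      (cor n (S w) (fam (f ++ c))) ^ (2 * t) / (2 ^ (n - u)) ^ (2 * t) := by
    have := Finset.card_nsmul_le_sum (WF (2 * t * n)) _ 1 h1
    rw [card_WF, nsmul_eq_mul, mul_one] at this
    push_cast at this
    exact this
  rw [Finset.sum_comm] at h2
  have h3 : ∀ w ∈ WF W, ∑ c ∈ WF (2 * t * n),
      (cor n (S w) (fam (f ++ c))) ^ (2 * t) / (2 ^ (n - u)) ^ (2 * t) ≤
      (t ^ (2 * t) * (2 ^ n) ^ t * 2 ^ (2 * t * n)) / (2 ^ (n - u)) ^ (2 * t) := by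
    intro w _
    rw [← Finset.sum_div]
    refine div_le_div_of_nonneg_right ?_ (by positivity)
    have h4 := moment hn hf hθ hinj hsurj t (S w)
    refine le_trans (le_of_eq ?_) h4
    refine Finset.sum_congr rfl (fun c hc => ?_)
    congr 1
    unfold cor
    refine Finset.sum_congr rfl (fun x hx => ?_)
    rw [hfam c hc x hx]
  have h4 := h2.trans (Finset.sum_le_card_nsmul _ _ _ h3)
  rw [card_WF, nsmul_eq_mul] at h4
  push_cast at h4
  have h5 : (0 : ℝ) < 2 ^ (2 * t * n) := by positivity
  have h6 : (0 : ℝ) < (2 ^ (n - u)) ^ (2 * t) := by positivity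
  have h7 : (2 : ℝ) ^ W * (t ^ (2 * t) * (2 ^ n) ^ t) < (2 ^ (n - u)) ^ (2 * t) := by
    exact_mod_cast h
  have h8 : (2 : ℝ) ^ W * (t ^ (2 * t) * (2 ^ n) ^ t * 2 ^ (2 * t * n) /
      (2 ^ (n - u)) ^ (2 * t)) = 2 ^ (2 * t * n) * ((2 ^ W * (t ^ (2 * t) * (2 ^ n) ^ t)) /
      (2 ^ (n - u)) ^ (2 * t)) := by ring
  rw [h8] at h4
  have h9 : (2 ^ W * ((t : ℝ) ^ (2 * t) * (2 ^ n) ^ t)) / (2 ^ (n - u)) ^ (2 * t) < 1 := by
    rw [div_lt_one h6]; exact h7
  nlinarith

end Pool.Agent.H7LS
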