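import Pool.Agent.H7LS.Sim
import Pool.Agent.H7LS.Moment

/-!
# The hard language
-/

namespace Pool.Agent.H7LS

open Pool.Agent.PPS

variable {α β γ δ σ τ : Type} [Rep α] [Rep β] [Rep γ] [Rep δ] [Rep σ] [Rep τ]

/-- The word of length `k + 1 + m` that represents `2 ^ k`. -/
def p2W (k m : ℕ) : List Bool := List.replicate k false ++ true :: List.replicate m false

@[fun_prop]
theorem LT.p2W' {k m : α → ℕ} (hk : LT k) (hm : LT m) :
    LT (fun a => p2W (k a) (m a)) := by
  unfold p2W; fun_prop

theorem valW_p2W (k m : ℕ) : valW (p2W k m) = 2 ^ k := by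
  unfold p2W
  induction k with
  | zero => simp [valW, valW_zeros]
  | succ k ih =>
    rw [List.replicate_succ, List.cons_append, valW, ih, pow_succ]
    simp; ring

theorem p2W_eq (k m : ℕ) : p2W k m = wordN (k + 1 + m) (2 ^ k) := by
  have h := wordN_valW (p2W k m)
  rw [valW_p2W] at h
  have h2 : (p2W k m).length = k + 1 + m := by simp [p2W]; omega
  rw [h2] at h
  exact h.symm

/-! ### Counting -/

/-- The number of agreements. -/
def agree (n : ℕ) (f h : List Bool → Bool) : ℕ :=
  ((WF n).filter (fun x => f x = h x)).card

theorem cor_eq (n : ℕ) (f h : List Bool → Bool) :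
    cor n f h = 2 * agree n f h - 2 ^ n := by
  unfold cor agree
  have h1 : ∀ x, sg (f x) * sg (h x) = 2 * (if f x = h x then 1 else 0) - 1 := by
    intro x
    cases f x <;> cases h x <;> simp [sg] <;> norm_num
  simp only [h1]
  rw [Finset.sum_sub_distrib, ← Finset.mul_sum, Finset.sum_boole, Finset.sum_const, card_WF]
  simp

/-- The state of the counting: numbers of agreements and disagreements, each also with an
offset. -/
abbrev CS := (List Bool × List Bool) × (List Bool × List Bool)

/-- One step of the counting. -/
def cntStep (a w : List Bool) (y : CS) (x : List Bool) : CS :=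
  bif sim w x == fam a x then ((incW y.1.1, incW y.1.2), y.2)
  else (y.1, (incW y.2.1, incW y.2.2))

/-- Counting of agreements and disagreements. -/
def cntS (n u : ℕ) (a w : List Bool) : CS :=
  (allB n).foldl (fun y x => cntStep a w y x)
    ((List.replicate (n + 2) false, p2W (n - u) (u + 1)),
      (List.replicate (n + 2) false, p2W (n - u) (u + 1)))

@[fun_prop]
theorem LT.cntStep' {a w x : α → List Bool} {y : α → CS} (ha : LT a) (hw : LT w)
    (hy : LT y) (hx : LT x) : LT (fun z => cntStep (a z) (w z) (y z) (x z)) := by
  unfold cntStep; fun_prop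

/-- The total length. -/
def cl (y : CS) : ℕ := y.1.1.length + y.1.2.length + y.2.1.length + y.2.2.length

theorem cl_cntStep (a w : List Bool) (y : CS) (x : List Bool) :
    cl (cntStep a w y x) = cl y := by
  unfold cntStep cl
  cases (sim w x == fam a x) <;> simp

theorem size_CS (y : CS) : size y ≤ 4 * cl y + 7 := by
  obtain ⟨⟨a, b⟩, ⟨c, d⟩⟩ := y
  simp only [size_pair, cl]
  have := size_word_le a
  have := size_word_le b
  have := size_word_le c
  have := size_word_le d
  omega

theorem cl_le (y : CS) : cl y ≤ size y := by
  obtain ⟨⟨a, b⟩, ⟨c, d⟩⟩ := y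
  simp only [size_pair, cl]
  have := le_size_word a
  have := le_size_word b
  have := le_size_word c
  have := le_size_word d
  omega

@[fun_prop]
theorem LT.cntS' {n u : α → ℕ} {a w : α → List Bool} (hn : LT n) (hu : LT u) (ha : LT a)
    (hw : LT w) : LT (fun z => cntS (n z) (u z) (a z) (w z)) := by
  have hini : LT (fun z => (((List.replicate (n z + 2) false, p2W (n z - u z) (u z + 1)),
      (List.replicate (n z + 2) false, p2W (n z - u z) (u z + 1))) : CS)) := by fun_prop
  obtain ⟨C, hC0, hC⟩ := hini.exists_size_le
  refine LT.foldAll (L := n) (ini := fun z => (((List.replicate (n z + 2) false,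
      p2W (n z - u z) (u z + 1)),
      (List.replicate (n z + 2) false, p2W (n z - u z) (u z + 1))) : CS))
    (s := fun v : α × (CS × List Bool) => cntStep (a v.1) (w v.1) v.2.1 v.2.2) hn hini
    (by fun_prop) (fun z y => cl y ≤ C * size z) (4 * C + 7) ?_ ?_ ?_
  · intro z y hy
    have h1 := size_CS y
    have h2 := size_pos z
    have h3 : (4 * C + 7) * size z = 4 * (C * size z) + 7 * size z := by ring
    omega
  · intro z
    exact (cl_le _).trans (hC z)
  · intro z y x _ hy
    rw [cl_cntStep]; exact hy

/-- The first check. -/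
def chk1 (n u : ℕ) (a w : List Bool) : Bool :=
  leW (cntS n u a w).1.1 (cntS n u a w).2.2 && leW (cntS n u a w).2.1 (cntS n u a w).1.2

@[fun_prop]
theorem LT.chk1' {n u : α → ℕ} {a w : α → List Bool} (hn : LT n) (hu : LT u) (ha : LT a)
    (hw : LT w) : LT (fun z => chk1 (n z) (u z) (a z) (w z)) := by
  unfold chk1; fun_prop

theorem cntS_eq (n u : ℕ) (hu : u ≤ n) (a w : List Bool) :
    cntS n u a w = ((wordN (n + 2) (agree n (sim w) (fam a)),
      wordN (n + 2) (2 ^ (n - u) + agree n (sim w) (fam a))),
      (wordN (n + 2) (2 ^ n - agree n (sim w) (fam a)),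
      wordN (n + 2) (2 ^ (n - u) + (2 ^ n - agree n (sim w) (fam a))))) := by
  have key : ∀ (l : List (List Bool)) (A A' D D' : ℕ),
      l.foldl (fun y x => cntStep a w y x) ((wordN (n + 2) A, wordN (n + 2) A'),
        (wordN (n + 2) D, wordN (n + 2) D')) =
      ((wordN (n + 2) (A + (l.filter (fun x => sim w x = fam a x)).length),
        wordN (n + 2) (A' + (l.filter (fun x => sim w x = fam a x)).length)),
        (wordN (n + 2) (D + (l.length - (l.filter (fun x => sim w x = fam a x)).length)),
        wordN (n + 2) (D' + (l.length - (l.filter (fun x => sim w x = fam a x)).length)))) := by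
    intro l
    induction l with
    | nil => intro A A' D D'; simp
    | cons x l ih =>
      intro A A' D D'
      rw [List.foldl_cons]
      have hle := List.length_filter_le (fun x => decide (sim w x = fam a x)) l
      by_cases h : sim w x = fam a x
      · have h1 : cntStep a w ((wordN (n + 2) A, wordN (n + 2) A'),
            (wordN (n + 2) D, wordN (n + 2) D')) x =
            ((wordN (n + 2) (A + 1), wordN (n + 2) (A' + 1)),
            (wordN (n + 2) D, wordN (n + 2) D')) := by
          unfold cntStep
          have : (sim w x == fam a x) = true := by simp [h]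
          rw [this]
          simp only [cond_true, incW_wordN]
        rw [h1, ih, List.filter_cons_of_pos (by simp [h])]
        simp only [List.length_cons]
        have e1 : ∀ k, A + 1 + k = A + (k + 1) := by intro k; omega
        have e2 : ∀ k, A' + 1 + k = A' + (k + 1) := by intro k; omega
        have e3 : ∀ a b : ℕ, a + 1 - (b + 1) = a - b := by intro a b; omega
        rw [e1, e2, e3]
      · have h1 : cntStep a w ((wordN (n + 2) A, wordN (n + 2) A'),
            (wordN (n + 2) D, wordN (n + 2) D')) x =
            ((wordN (n + 2) A, wordN (n + 2) A'),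
            (wordN (n + 2) (D + 1), wordN (n + 2) (D' + 1))) := by
          unfold cntStep
          have : (sim w x == fam a x) = false := by simp [h]
          rw [this]
          simp only [cond_false, incW_wordN]
        rw [h1, ih, List.filter_cons_of_neg (by simp [h])]
        simp only [List.length_cons]
        have e1 : D + 1 + (l.length - (l.filter (fun x => sim w x = fam a x)).length) =
            D + (l.length + 1 - (l.filter (fun x => sim w x = fam a x)).length) := by omega
        have e2 : D' + 1 + (l.length - (l.filter (fun x => sim w x = fam a x)).length) =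
            D' + (l.length + 1 - (l.filter (fun x => sim w x = fam a x)).length) := by omega
        rw [e1, e2]
  have hA : ((allB n).filter (fun x => sim w x = fam a x)).length = agree n (sim w) (fam a) := by
    have h1 : (WF n).filter (fun x => sim w x = fam a x) =
        ((allB n).filter (fun x => decide (sim w x = fam a x))).toFinset := by
      ext x; simp [WF]
    unfold agree
    rw [h1, List.toFinset_card_of_nodup ((nodup_allB n).filter _)]
  unfold cntS
  have e : n - u + 1 + (u + 1) = n + 2 := by omega
  rw [p2W_eq, e, ← wordN_zero, key, hA, length_allB]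
  simp

theorem agree_le (n : ℕ) (f h : List Bool → Bool) : agree n f h ≤ 2 ^ n := by
  unfold agree
  exact (Finset.card_filter_le _ _).trans (card_WF n).le

theorem chk1_iff (n u : ℕ) (hu : u ≤ n) (a w : List Bool) :
    chk1 n u a w = true ↔ |cor n (sim w) (fam a)| ≤ 2 ^ (n - u) := by
  have h1 := agree_le n (sim w) (fam a)
  have h2 : 2 ^ (n - u) ≤ 2 ^ n := Nat.pow_le_pow_right (by omega) (by omega)
  have h3 : 2 ^ (n + 2) = 4 * 2 ^ n := by ring
  have h4 : 0 < 2 ^ n := Nat.two_pow_pos n
  unfold chk1
  rw [cntS_eq n u hu]
  simp only [Bool.and_eq_true]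
  rw [leW_iff _ _ (by simp), leW_iff _ _ (by simp), valW_wordN _ _ (by omega),
    valW_wordN _ _ (by omega), valW_wordN _ _ (by omega), valW_wordN _ _ (by omega),
    cor_eq, abs_le]
  generalize agree n (sim w) (fam a) = A at *
  have h5 : ((2 ^ n - A : ℕ) : ℝ) = 2 ^ n - A := by
    rw [Nat.cast_sub h1]; push_cast; rfl
  constructor
  · rintro ⟨h6, h7⟩
    have h6' : (A : ℝ) ≤ ((2 ^ (n - u) + (2 ^ n - A) : ℕ) : ℝ) := by exact_mod_cast h6
    have h7' : ((2 ^ n - A : ℕ) : ℝ) ≤ ((2 ^ (n - u) + A : ℕ) : ℝ) := by exact_mod_cast h7
    rw [Nat.cast_add, h5] at h6'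
    rw [h5, Nat.cast_add] at h7'
    push_cast at h6' h7'
    constructor <;> linarith
  · rintro ⟨h6, h7⟩
    constructor
    · have : (A : ℝ) ≤ ((2 ^ (n - u) + (2 ^ n - A) : ℕ) : ℝ) := by
        rw [Nat.cast_add, h5]; push_cast; linarith
      exact_mod_cast this
    · have : ((2 ^ n - A : ℕ) : ℝ) ≤ ((2 ^ (n - u) + A : ℕ) : ℝ) := by
        rw [h5, Nat.cast_add]; push_cast; linarith
      exact_mod_cast this

/-! ### Division by a constant -/

theorem iter_div (j n k : ℕ) (hj : 1 ≤ j) :
    (fun q => bif decide (j * (q + 1) ≤ n) then q + 1 else q)^[k] 0 = min k (n / j) := by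
  induction k with
  | zero => simp
  | succ k ih =>
    rw [Function.iterate_succ_apply', ih]
    rcases Nat.lt_or_ge k (n / j) with h | h
    · have h1 : min k (n / j) = k := Nat.min_eq_left h.le
      have h2 : j * (k + 1) ≤ n := by
        have h3 : k + 1 ≤ n / j := h
        rw [Nat.le_div_iff_mul_le (by omega)] at h3
        rw [Nat.mul_comm]; exact h3
      rw [h1]
      simp only [h2, decide_true, cond_true]
      omega
    · have h1 : min k (n / j) = n / j := Nat.min_eq_right h
      have h2 : ¬ (j * (n / j + 1) ≤ n) := by
        intro h3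
        have h4 : n / j + 1 ≤ n / j := by
          rw [Nat.le_div_iff_mul_le (by omega), Nat.mul_comm]; exact h3
        omega
      rw [h1]
      simp only [h2, decide_false, cond_false]
      omega

theorem LT.cmul {f : α → ℕ} (C : ℕ) (hf : LT f) : LT (fun a => C * f a) := by
  induction C with
  | zero =>
    have : LT (fun _ : α => 0) := by fun_prop
    exact LT.of_eq this (fun a => Nat.zero_mul _)
  | succ C ih =>
    have : LT (fun a : α => C * f a + f a) := by fun_prop
    exact LT.of_eq this (fun a => Nat.succ_mul _ _)

theorem LT.divC {f : α → ℕ} (j : ℕ) (hj : 1 ≤ j) (hf : LT f) : LT (fun a => f a / j) := by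
  obtain ⟨C, hC0, hC⟩ := hf.exists_size_le
  have h1 : LT (fun v : α × ℕ => f v.1) := hf.comp (f := fun v : α × ℕ => v.1) (by fun_prop)
  have h2 : LT (fun v : α × ℕ => j * (v.2 + 1)) := LT.cmul j (by fun_prop)
  have := LT.iterate (n := f) (ini := fun _ => 0)
    (s := fun v : α × ℕ => bif decide (j * (v.2 + 1) ≤ f v.1) then v.2 + 1 else v.2) hf
    (by fun_prop) (by fun_prop) (C + 1) (by
      intro a k hk
      show size ((fun q => bif decide (j * (q + 1) ≤ f a) then q + 1 else q)^[k] 0) ≤ _
      rw [iter_div _ _ _ hj, size_nat]
      have h3 := hC a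
      rw [size_nat] at h3
      have h4 : f a / j ≤ f a := Nat.div_le_self _ _
      have h5 : (C + 1) * size a = C * size a + size a := by ring
      omega)
  refine LT.of_eq this ?_
  intro a
  show f a / j = (fun q => bif decide (j * (q + 1) ≤ f a) then q + 1 else q)^[f a] 0
  rw [iter_div _ _ _ hj]
  exact (Nat.min_eq_right (Nat.div_le_self _ _)).symm

/-! ### The search for the seed -/

/-- The bound on the exponent. -/
def uB (j n : ℕ) : ℕ := (n - n / j) / 2

theorem LT.uB' {n : α → ℕ} (j : ℕ) (hj : 1 ≤ j) (hn : LT n) : LT (fun z => uB j (n z)) := by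
  have h := LT.divC j hj hn
  have h1 : LT (fun z => n z - n z / j) := by fun_prop
  exact LT.divC 2 (by omega) h1

/-- The second check. -/
def chk2 (K j n p : ℕ) (a : List Bool) : Bool :=
  (allB (K * p)).foldl (fun y w => y && chk1 n (uB j n) a w) true

theorem LT.chk2' {n p : α → ℕ} {a : α → List Bool} (K j : ℕ) (hj : 1 ≤ j) (hn : LT n)
    (hp : LT p) (ha : LT a) : LT (fun z => chk2 K j (n z) (p z) (a z)) := by
  have h0 := LT.uB' j hj hn
  have h3 : LT (fun v : α × (Bool × List Bool) => uB j (n v.1)) :=
    h0.comp (f := fun v : α × (Bool × List Bool) => v.1) (by fun_prop)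
  refine LT.foldAll (L := fun z => K * p z) (ini := fun _ => true)
    (s := fun v : α × (Bool × List Bool) => v.2.1 && chk1 (n v.1) (uB j (n v.1)) (a v.1) v.2.2)
    (LT.cmul K hp) (by fun_prop) (by fun_prop) (fun _ _ => True) 3 ?_ (fun _ => trivial)
    (fun _ _ _ _ _ => trivial)
  intro z y _
  have h1 := size_bool_le y
  have h2 := size_pos z
  omega

theorem uB_le (j n : ℕ) : uB j n ≤ n := by
  unfold uB
  exact (Nat.div_le_self _ _).trans (Nat.sub_le _ _)

theorem chk2_iff (K j n p : ℕ) (a : List Bool) :
    chk2 K j n p a = true ↔ ∀ w ∈ WF (K * p), |cor n (sim w) (fam a)| ≤ 2 ^ (n - uB j n) := by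
  have key : ∀ (l : List (List Bool)) (y : Bool),
      l.foldl (fun y w => y && chk1 n (uB j n) a w) y = true ↔
        y = true ∧ ∀ w ∈ l, chk1 n (uB j n) a w = true := by
    intro l
    induction l with
    | nil => intro y; simp
    | cons x l ih =>
      intro y
      rw [List.foldl_cons, ih]
      simp only [Bool.and_eq_true, List.mem_cons, forall_eq_or_imp]
      tauto
  unfold chk2
  rw [key]
  simp only [true_and, mem_allB, mem_WF, chk1_iff n (uB j n) (uB_le j n)]

/-- One step of the search. -/
def seedStep (K j n p : ℕ) (y : Option (List Bool)) (a : List Bool) : Option (List Bool) :=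
  bif y.isSome then y else (bif chk2 K j n p a then some a else none)

/-- The search for the seed. -/
def seed (K j D n p : ℕ) : List Bool :=
  ((allB (n + D * p)).foldl (fun y a => seedStep K j n p y a) none).getD []

theorem LT.seedStep' {n p : α → ℕ} {y : α → Option (List Bool)} {a : α → List Bool}
    (K j : ℕ) (hj : 1 ≤ j) (hn : LT n) (hp : LT p) (hy : LT y) (ha : LT a) :
    LT (fun z => seedStep K j (n z) (p z) (y z) (a z)) := by
  have h := LT.chk2' K j hj hn hp ha
  unfold seedStep; fun_prop

theorem LT.seed' {n p : α → ℕ} (K j D : ℕ) (hj : 1 ≤ j) (hn : LT n) (hp : LT p) :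
    LT (fun z => seed K j D (n z) (p z)) := by
  have hL : LT (fun z => n z + D * p z) := by
    have := LT.cmul D hp
    fun_prop
  obtain ⟨C, hC0, hC⟩ := hL.exists_size_le
  have h : LT (fun z => (allB (n z + D * p z)).foldl
      (fun y a => seedStep K j (n z) (p z) y a) none) := by
    have h1 : LT (fun v : α × (Option (List Bool) × List Bool) => n v.1) :=
      hn.comp (f := fun v : α × (Option (List Bool) × List Bool) => v.1) (by fun_prop)
    have h2 : LT (fun v : α × (Option (List Bool) × List Bool) => p v.1) :=
      hp.comp (f := fun v : α × (Option (List Bool) × List Bool) => v.1) (by fun_prop)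
    refine LT.foldAll (L := fun z => n z + D * p z) (ini := fun _ => none)
      (s := fun v : α × (Option (List Bool) × List Bool) =>
        seedStep K j (n v.1) (p v.1) v.2.1 v.2.2) hL
      (by fun_prop) (LT.seedStep' K j hj h1 h2 (by fun_prop) (by fun_prop))
      (fun z y => ∀ a ∈ y, a.length = n z + D * p z) (2 * C + 3) ?_ ?_ ?_
    · intro z y hy
      have h1 := hC z
      rw [size_nat] at h1
      have h2 := size_pos z
      have h3 : (2 * C + 3) * size z = 2 * (C * size z) + 3 * size z := by ring
      cases y with
      | none => rw [size_none]; omega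
      | some a =>
        have h4 := hy a rfl
        have h5 := size_word_le a
        rw [size_some]
        omega
    · intro z a ha
      cases ha
    · intro z y w hw hy
      unfold seedStep
      cases y with
      | some a => exact hy
      | none =>
        simp only [Option.isSome_none, cond_false]
        cases chk2 K j (n z) (p z) w with
        | false => intro a ha; cases ha
        | true =>
          intro a ha
          simp only [cond_true, Option.mem_some_iff] at ha
          subst ha
          exact hw
  exact h.getD_opt (by fun_prop)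

theorem seed_spec (K j D n p : ℕ) (h : ∃ a ∈ WF (n + D * p), ∀ w ∈ WF (K * p),
    |cor n (sim w) (fam a)| ≤ 2 ^ (n - uB j n)) :
    ∀ w ∈ WF (K * p), |cor n (sim w) (fam (seed K j D n p))| ≤ 2 ^ (n - uB j n) := by
  obtain ⟨a, ha, h⟩ := h
  rw [← chk2_iff] at h
  rw [mem_WF] at ha
  have key1 : ∀ (l : List (List Bool)) (a : List Bool),
      l.foldl (fun y a => seedStep K j n p y a) (some a) = some a := by
    intro l a
    induction l with
    | nil => rfl
    | cons x l ih => rw [List.foldl_cons]; exact ih
  have key2 : ∀ (l : List (List Bool)), (∃ a ∈ l, chk2 K j n p a = true) →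
      ∃ a ∈ l, chk2 K j n p a = true ∧
        l.foldl (fun y a => seedStep K j n p y a) none = some a := by
    intro l
    induction l with
    | nil => rintro ⟨a, ha, _⟩; cases ha
    | cons x l ih =>
      rintro ⟨a, ha, hc⟩
      rw [List.foldl_cons]
      by_cases hx : chk2 K j n p x = true
      · refine ⟨x, by simp, hx, ?_⟩
        have : seedStep K j n p none x = some x := by simp [seedStep, hx]
        rw [this, key1]
      · have h1 : seedStep K j n p none x = none := by simp [seedStep, hx]
        rw [h1]
        rcases List.mem_cons.mp ha with rfl | ha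
        · exact absurd hc hx
        · obtain ⟨b, hb, hb1, hb2⟩ := ih ⟨a, ha, hc⟩
          exact ⟨b, by simp [hb], hb1, hb2⟩
  obtain ⟨b, hb, hb1, hb2⟩ := key2 (allB (n + D * p)) ⟨a, mem_allB.mpr ha, h⟩
  have h2 : seed K j D n p = b := by unfold seed; rw [hb2]; rfl
  rw [h2]
  exact (chk2_iff K j n p b).mp hb1

/-- The characteristic function of the hard language, where `p` is a power of the length. -/
def hardF (K j D : ℕ) (z : List Bool × ℕ) : Bool := fam (seed K j D z.1.length z.2) z.1

theorem LT.hardF' (K j D : ℕ) (hj : 1 ≤ j) : LT (hardF K j D) := by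
  have h := LT.seed' (n := fun z : List Bool × ℕ => z.1.length) (p := fun z => z.2) K j D hj
    (by fun_prop) (by fun_prop)
  have : LT (fun z : List Bool × ℕ => fam (seed K j D z.1.length z.2) z.1) := by fun_prop
  exact this

/-- The hard language. -/
def hardL (K j D k : ℕ) : Set (List Bool) := {x | hardF K j D (x, x.length ^ k) = true}

end Pool.Agent.H7LS
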