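import Pool.Agent.H7LS.Sim
import Pool.Agent.H7LS.CookMertz

/-!
# Registers as elements of a vector space
-/

namespace Pool.Agent.H7LS

open Pool.Agent.PPS

/-! ### Chunks as numbers -/

theorem valW_append_zeros (u : List Bool) (k : ℕ) :
    valW (u ++ List.replicate k false) = valW u := by
  induction u with
  | nil => simp [valW_zeros, valW]
  | cons b u ih => rw [List.cons_append, valW, ih, valW]

theorem fit_eq_wordN {l : ℕ} {u : List Bool} (h : u.length ≤ l) :
    fit l u = wordN l (valW u) := by
  have h1 : fit l u = u ++ List.replicate (l - u.length) false := by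
    unfold fit
    rw [List.take_append, List.take_of_length_le h, List.take_replicate]
    congr 2
    omega
  have h2 := wordN_valW (fit l u)
  rw [length_fit, h1, valW_append_zeros] at h2
  rw [h1]
  exact h2.symm

/-- The value of the chunk number `j` of the word `v`. -/
def cv (w : ℕ) (v : List Bool) (j : ℕ) : ℕ := valW ((v.drop (j * w)).take w)

theorem cv_lt (w : ℕ) (v : List Bool) (j : ℕ) : cv w v j < 2 ^ w := by
  unfold cv
  refine (valW_lt _).trans_le (Nat.pow_le_pow_right (by omega) ?_)
  simp

theorem cv_zero (w : ℕ) (v : List Bool) : cv w v 0 = valW (v.take w) := by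
  simp [cv]

theorem cv_succ (w : ℕ) (v : List Bool) (j : ℕ) : cv w v (j + 1) = cv w (v.drop w) j := by
  unfold cv
  rw [List.drop_drop]
  congr 3
  ring

theorem valW_inj {u v : List Bool} (h : u.length = v.length) (h' : valW u = valW v) :
    u = v := by
  rw [← wordN_valW u, ← wordN_valW v, h, h']

/-- The chunks determine the word. -/
theorem cv_inj (c w : ℕ) : ∀ (v v' : List Bool), v.length = v'.length → v.length ≤ c * w →
    (∀ j < c, cv w v j = cv w v' j) → v = v' := by
  induction c with
  | zero =>
    intro v v' h1 h2 _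
    have h3 : v = [] := List.length_eq_zero_iff.mp (by omega)
    have h4 : v' = [] := List.length_eq_zero_iff.mp (by omega)
    rw [h3, h4]
  | succ c ih =>
    intro v v' h1 h2 h3
    have h4 : v.take w = v'.take w := by
      refine valW_inj (by simp [h1]) ?_
      have := h3 0 (by omega)
      rwa [cv_zero, cv_zero] at this
    have h5 : v.drop w = v'.drop w := by
      refine ih _ _ (by simp [h1]) ?_ ?_
      · rw [List.length_drop]
        have : (c + 1) * w = c * w + w := by ring
        omega
      · intro j hj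
        rw [← cv_succ, ← cv_succ]
        exact h3 (j + 1) (by omega)
    rw [← List.take_append_drop w v, ← List.take_append_drop w v', h4, h5]

section enc

variable (q l c w : ℕ)

/-- A block of registers with given values. -/
def encB (f : Fin c → ZMod q) : List (List Bool) := List.ofFn fun j => eW l (f j)

/-- The registers with block `t` equal to `a`, the next block equal to `b`, the block after
that equal to `d`. -/
def ENC (t : ℕ) (a b d : Fin c → ZMod q) : RR :=
  if t = 0 then (encB q l c a, encB q l c b, encB q l c d)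
  else if t = 1 then (encB q l c d, encB q l c a, encB q l c b)
  else (encB q l c b, encB q l c d, encB q l c a)

/-- The chunks of a word as a vector. -/
def vec (v : List Bool) : Fin c → ZMod q := fun j => (cv w v j : ZMod q)

/-- The sign. -/
def sS (σ : Bool) : ZMod q := if σ then -1 else 1

variable {q l c w}

theorem ENC_nx {t : ℕ} (ht : t ≤ 2) (a b d : Fin c → ZMod q) :
    ENC q l c t a b d = ENC q l c (nx t) b d a := by
  interval_cases t <;> rfl

theorem ENC_nx2 {t : ℕ} (ht : t ≤ 2) (a b d : Fin c → ZMod q) :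
    ENC q l c t a b d = ENC q l c (nx (nx t)) d a b := by
  interval_cases t <;> rfl

theorem getB_ENC {t : ℕ} (ht : t ≤ 2) (a b d : Fin c → ZMod q) :
    getB t (ENC q l c t a b d) = encB q l c a := by
  interval_cases t <;> rfl

theorem getB_ENC1 {t : ℕ} (ht : t ≤ 2) (a b d : Fin c → ZMod q) :
    getB (nx t) (ENC q l c t a b d) = encB q l c b := by
  interval_cases t <;> rfl

theorem getB_ENC2 {t : ℕ} (ht : t ≤ 2) (a b d : Fin c → ZMod q) :
    getB (nx (nx t)) (ENC q l c t a b d) = encB q l c d := by
  interval_cases t <;> rfl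

theorem setB_ENC {t : ℕ} (ht : t ≤ 2) (a b d a' : Fin c → ZMod q) :
    setB t (encB q l c a') (ENC q l c t a b d) = ENC q l c t a' b d := by
  interval_cases t <;> rfl

theorem setB_ENC1 {t : ℕ} (ht : t ≤ 2) (a b d b' : Fin c → ZMod q) :
    setB (nx t) (encB q l c b') (ENC q l c t a b d) = ENC q l c t a b' d := by
  interval_cases t <;> rfl

theorem setB_ENC2 {t : ℕ} (ht : t ≤ 2) (a b d d' : Fin c → ZMod q) :
    setB (nx (nx t)) (encB q l c d') (ENC q l c t a b d) = ENC q l c t a b d' := by
  interval_cases t <;> rfl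

variable [hq : Fact q.Prime]

theorem eW_natCast {k : ℕ} (hk : k < q) : eW l (k : ZMod q) = wordN l k := by
  unfold eW
  rw [ZMod.val_natCast_of_lt hk]

theorem eW_inj (hl : q < 2 ^ l) {a b : ZMod q} (h : eW l a = eW l b) : a = b := by
  have h1 := valW_eW hl a
  have h2 := valW_eW hl b
  rw [h] at h1
  exact ZMod.val_injective q (h1.symm.trans h2)

theorem chB_enc (hw : 2 ^ w ≤ q) (hwl : w ≤ l) (f : Fin c → ZMod q) (v : List Bool) :
    chB w (encB q l c f) v = List.ofFn (fun j => eW l (vec q c w v j)) := by
  induction c generalizing v with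
  | zero => simp [encB, chB]
  | succ c ih =>
    unfold encB
    rw [List.ofFn_succ, List.ofFn_succ]
    show fit (eW l (f 0)).length (v.take w) :: chB w (encB q l c (fun j => f j.succ))
      (v.drop w) = _
    rw [ih]
    congr 1
    · rw [length_eW, fit_eq_wordN (by simp; omega)]
      have h1 := cv_lt w v 0
      show _ = eW l ((cv w v ((0 : Fin (c + 1)) : ℕ) : ℕ) : ZMod q)
      rw [Fin.val_zero, eW_natCast (by omega), cv_zero]
    · congr 1
      funext j
      show eW l ((cv w (v.drop w) j : ℕ) : ZMod q) =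
        eW l ((cv w v ((j.succ : Fin (c + 1)) : ℕ) : ℕ) : ZMod q)
      rw [Fin.val_succ, cv_succ]

theorem addBlk_enc (hl : q < 2 ^ l) (hw : 2 ^ w ≤ q) (hwl : w ≤ l) (κ : ZMod q)
    (f : Fin c → ZMod q) (v : List Bool) :
    addBlk (wordN l q) (eW l κ) w (encB q l c f) v =
      encB q l c (f + κ • vec q c w v) := by
  unfold addBlk
  rw [chB_enc hw hwl]
  unfold encB
  refine List.ext_getElem (by simp) ?_
  intro i h1 h2
  simp only [List.getElem_map, List.getElem_zip, List.getElem_ofFn, mulM_eW hl, addM_eW hl,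
    Pi.add_apply, Pi.smul_apply, smul_eq_mul]

theorem scaleBlk_enc (hl : q < 2 ^ l) (κ : ZMod q) (f : Fin c → ZMod q) :
    scaleBlk (wordN l q) (eW l κ) (encB q l c f) = encB q l c (κ • f) := by
  unfold scaleBlk encB
  rw [List.map_ofFn]
  congr 1
  funext j
  simp only [Function.comp_apply, mulM_eW hl, Pi.smul_apply, smul_eq_mul, mul_comm]

theorem scale2_enc (hl : q < 2 ^ l) (κ : ZMod q) {t : ℕ} (ht : t ≤ 2)
    (a b d : Fin c → ZMod q) :
    scale2 (wordN l q) (eW l κ) t (ENC q l c t a b d) =
      ENC q l c t a (κ • b) (κ • d) := by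
  unfold scale2
  rw [getB_ENC1 ht, getB_ENC2 ht, scaleBlk_enc hl, scaleBlk_enc hl, setB_ENC2 ht,
    setB_ENC1 ht]

theorem oneM_eW (hl : q < 2 ^ l) : oneM (wordN l q) = eW l (1 : ZMod q) := by
  unfold oneM
  rw [length_wordN, ← eW_zero (q := q), incM_eW hl, zero_add]

theorem q1_eW : wordN l (q - 1) = eW l (-1 : ZMod q) := by
  have hq2 := hq.out.two_le
  have h : ((q - 1 : ℕ) : ZMod q) = -1 := by
    rw [Nat.cast_sub (by omega)]; simp
  rw [← h, eW_natCast (by omega)]

theorem subM_eW (hl : q < 2 ^ l) (a b : ZMod q) :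
    subM (wordN l q) (wordN l (q - 1)) (eW l a) (eW l b) = eW l (a - b) := by
  unfold subM
  rw [q1_eW, mulM_eW hl, addM_eW hl]
  congr 1
  ring

theorem sgnM_eW (hl : q < 2 ^ l) (κ : ZMod q) (σ : Bool) :
    sgnM (wordN l q) (wordN l (q - 1)) (eW l κ) σ = eW l (sS q σ * κ) := by
  unfold sgnM sS
  cases σ
  · simp
  · simp only [cond_true, if_true]
    rw [q1_eW, mulM_eW hl]
    congr 1
    ring

/-! ### Weights -/

theorem lag_eW (hl : q < 2 ^ l) (hw : 2 ^ w ≤ q) (hwl : w ≤ l) (y z : ZMod q) :
    lag (wordN l q) (wordN l (q - 1)) (wordN l (q - 2)) w (eW l y) (eW l z) =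
      eW l (lagP w z y) := by
  have key : ∀ N ≤ 2 ^ w, (List.range N).foldl (fun acc t => lagStep (wordN l q)
      (wordN l (q - 1)) (wordN l (q - 2)) (eW l y) (eW l z) acc (wordN w t))
      (oneM (wordN l q)) = eW l (∏ u ∈ Finset.range N,
        if ((u : ℕ) : ZMod q) = z then 1 else
          (y - ((u : ℕ) : ZMod q)) * (z - ((u : ℕ) : ZMod q))⁻¹) := by
    intro N
    induction N with
    | zero => intro _; simp [oneM_eW hl]
    | succ N ih =>
      intro hN
      rw [List.range_succ, List.foldl_append, ih (by omega), Finset.prod_range_succ]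
      simp only [List.foldl_cons, List.foldl_nil]
      generalize (∏ u ∈ Finset.range N,
        if ((u : ℕ) : ZMod q) = z then 1 else
          (y - ((u : ℕ) : ZMod q)) * (z - ((u : ℕ) : ZMod q))⁻¹) = P
      have h1 : fit l (wordN w N) = eW l ((N : ℕ) : ZMod q) := by
        rw [fit_eq_wordN (by simpa using hwl), valW_wordN _ _ (by omega),
          eW_natCast (by omega)]
      unfold lagStep
      rw [length_eW, h1]
      by_cases h : ((N : ℕ) : ZMod q) = z
      · rw [if_pos h, h]
        simp
      · have h2 : ¬ (eW l ((N : ℕ) : ZMod q) = eW l z) := fun h' => h (eW_inj hl h')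
        simp only [h2, decide_false, cond_false]
        rw [if_neg h, subM_eW hl, subM_eW hl, powM_inv hl
          (sub_ne_zero.mpr (fun h' => h h'.symm)), mulM_eW hl, mulM_eW hl]
        congr 1
        ring
  unfold lag allW
  rw [List.foldl_map]
  exact key _ le_rfl

theorem weight_eW (hl : q < 2 ^ l) (hw : 2 ^ w ≤ q) (hwl : w ≤ l) (Z Y : List (ZMod q)) :
    weight (wordN l q) (wordN l (q - 1)) (wordN l (q - 2)) w (Z.map (eW l)) (Y.map (eW l)) =
      eW l (wt w Z Y) := by
  have key : ∀ (Y Z : List (ZMod q)) (acc : ZMod q),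
      ((Y.map (eW l)).zip (Z.map (eW l))).foldl (fun acc p => mulM (wordN l q) acc
        (lag (wordN l q) (wordN l (q - 1)) (wordN l (q - 2)) w p.1 p.2)) (eW l acc) =
      eW l (acc * wt w Z Y) := by
    intro Y
    induction Y with
    | nil => intro Z acc; simp [wt]
    | cons y Y ih =>
      intro Z acc
      cases Z with
      | nil => simp [wt]
      | cons z Z =>
        rw [List.map_cons, List.map_cons, List.zip_cons_cons, List.foldl_cons]
        simp only
        rw [lag_eW hl hw hwl, mulM_eW hl, ih, wt_cons, mul_assoc]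
  unfold weight
  rw [oneM_eW hl, key, one_mul]

theorem weight_enc2 (hl : q < 2 ^ l) (hw : 2 ^ w ≤ q) (hwl : w ≤ l) (v v' : List Bool)
    (b d : Fin c → ZMod q) :
    weight (wordN l q) (wordN l (q - 1)) (wordN l (q - 2)) w
      (chB w (encB q l c b) v ++ chB w (encB q l c d) v') (encB q l c b ++ encB q l c d) =
      eW l (wt w (List.ofFn (vec q c w v) ++ List.ofFn (vec q c w v'))
        (List.ofFn b ++ List.ofFn d)) := by
  rw [chB_enc hw hwl, chB_enc hw hwl, ← weight_eW hl hw hwl, List.map_append,
    List.map_append, List.map_ofFn, List.map_ofFn, List.map_ofFn, List.map_ofFn]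
  rfl

end enc

end Pool.Agent.H7LS
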