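import Pool.Agent.H7LS.BridgeL

/-!
# Polynomial space with a given exponent
-/

namespace Pool.Agent.H7LS

open Pool.Agent.PPS
open Pool.Agent.PPS.Prog

variable {α β γ δ σ τ : Type} [Rep α] [Rep β] [Rep γ] [Rep δ] [Rep σ] [Rep τ]

/-- `GT B f`: the function `f` is computed by a stack program in space `B`. -/
def GT (B : α → ℕ) (f : α → β) : Prop :=
  ∃ (ι : Type) (_ : DecidableEq ι) (_ : Finite ι) (c : Prog ι) (io : ι),
    ∀ a, ∃ T, Run (B a) T c (one io (code a)) (one io (code (f a)))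

theorem LT.toGT {f : α → β} (h : LT f) : ∃ C : ℕ, 1 ≤ C ∧ (∀ a, size (f a) ≤ C * size a) ∧
    GT (fun a => C * size a) f := by
  obtain ⟨I⟩ := h.impl
  exact ⟨I.C, I.pos, I.size_le, I.ι, I.dec, I.fin, I.c, I.io, I.spec⟩

theorem GT.comp {B : α → ℕ} {B' : β → ℕ} {B'' : α → ℕ} {f : α → β} {g : β → γ}
    (hg : GT B' g) (hf : GT B f) (h1 : ∀ a, B a ≤ B'' a) (h2 : ∀ a, B' (f a) ≤ B'' a)
    (h3 : ∀ a, size a ≤ B'' a) (h4 : ∀ a, size (f a) ≤ B'' a)
    (h5 : ∀ a, size (g (f a)) ≤ B'' a) : GT B'' (fun a => g (f a)) := by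
  obtain ⟨ι₁, _, _, c₁, io₁, hc₁⟩ := hf
  obtain ⟨ι₂, _, _, c₂, io₂, hc₂⟩ := hg
  refine ⟨(Rg ⊕ ι₁) ⊕ ι₂, inferInstance, inferInstance,
    seq (callP c₁ io₁ (fun x => Sum.inl (Sum.inr x)) (jr .a) (jr .t) (jr .f))
      (callP c₂ io₂ (fun x => Sum.inr x) (jr .a) (jr .t) (jr .f)), jr .a, ?_⟩
  intro a
  obtain ⟨T₁, r₁⟩ := hc₁ a
  obtain ⟨T₂, r₂⟩ := hc₂ (f a)
  have hpos : 0 < B'' a := lt_of_lt_of_le (size_pos a) (h3 a)
  rw [one_EE, one_EE]
  have s1 := run_callRaw (J := (Rg ⊕ ι₁) ⊕ ι₂) (fun x => Sum.inl (Sum.inr x))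
    (fun x y h => by simpa using h) (jr .a) (jr .t) (jr .f) (by simp) (by simp) (by simp)
    (by simp) (by simp) (by simp) (code a) (code (f a)) (EE (rg (code a) [] [] [] [] []))
    rfl rfl (fun _ => rfl) (r₁.mono (h1 a) le_rfl) (h3 a) (h4 a) (by
      rw [EE_jr]; simpa [rg] using hpos)
  rw [upd_EE, upd_a] at s1
  have s2 := run_callRaw (J := (Rg ⊕ ι₁) ⊕ ι₂) (fun x => Sum.inr x)
    (fun x y h => by simpa using h) (jr .a) (jr .t) (jr .f) (by simp) (by simp) (by simp)
    (by simp) (by simp) (by simp) (code (f a)) (code (g (f a)))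
    (EE (rg (code (f a)) [] [] [] [] []))
    rfl rfl (fun _ => rfl) (r₂.mono (h2 a) le_rfl) (h4 a) (h5 a) (by
      rw [EE_jr]; simpa [rg] using hpos)
  rw [upd_EE, upd_a] at s2
  exact ⟨_, Run.seq s1 s2⟩

/-- A loop whose state may grow. -/
theorem GT.grow {s : σ → σ} {c : σ → Bool} (hs : LT s) (hc : LT c) : ∃ C : ℕ, 1 ≤ C ∧
    ∀ (P : σ → Prop) (N B : {y // P y} → ℕ),
    (∀ y k, k ≤ N y → C * size (s^[k] y.1) < B y) →
    (∀ y k, k < N y → c (s^[k] y.1) = true) → (∀ y, c (s^[N y] y.1) = false) →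
    GT B (fun y : {y // P y} => s^[N y] y.1) := by
  obtain ⟨I₁⟩ := hs.impl
  obtain ⟨I₂⟩ := hc.impl
  refine ⟨I₁.C + I₂.C + 3, by omega, ?_⟩
  intro P N B hsz h1 h2
  refine ⟨(Rg ⊕ I₁.ι) ⊕ I₂.ι, inferInstance, inferInstance,
    seq (push (jr .g) true) (loop (jr .g) (lwbody I₁ I₂)), jr .a, ?_⟩
  intro y
  rw [one_EE, one_EE]
  have hsy : size y = size y.1 := rfl
  have hbody : ∀ k ≤ N y, I₁.C * size (s^[k] y.1) + I₂.C * size (s^[k] y.1) +
      3 * size (s^[k] y.1) < B y := by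
    intro k hk
    have h3 := hsz y k hk
    have h5 : (I₁.C + I₂.C + 3) * size (s^[k] y.1) =
      I₁.C * size (s^[k] y.1) + I₂.C * size (s^[k] y.1) + 3 * size (s^[k] y.1) := by ring
    omega
  have key : ∀ j ≤ N y, ∃ T, Run (B y) T (loop (jr .g) (lwbody I₁ I₂))
      (EE (rg (code (s^[N y - j] y.1)) [] [] [] [] [true]))
      (EE (rg (code (s^[N y] y.1)) [] [] [] [] [])) := by
    intro j
    induction j with
    | zero =>
      intro hj
      have hb := hbody (N y) le_rfl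
      obtain ⟨T, r1⟩ := run_lwbody I₁ I₂ (s^[N y] y.1) (B := B y) (by omega)
      rw [h2] at r1
      simp only [Bool.false_eq_true, if_false] at r1
      refine ⟨T + 1 + 1, ?_⟩
      rw [Nat.sub_zero]
      refine Run.loopT (S' := EE (rg (code (s^[N y] y.1)) [] [] [] [] [false])) (l := [])
        rfl ?_ (Run.loopF' (l := []) rfl le_rfl ?_)
      · rw [upd_EE, upd_g]; exact r1
      · rw [upd_EE, upd_g]
    | succ j ih =>
      intro hj
      obtain ⟨T', r2⟩ := ih (by omega)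
      have hb := hbody (N y - (j + 1)) (by omega)
      obtain ⟨T, r1⟩ := run_lwbody I₁ I₂ (s^[N y - (j + 1)] y.1) (B := B y) (by omega)
      rw [h1 y (N y - (j + 1)) (by omega)] at r1
      simp only [if_true] at r1
      have e : s (s^[N y - (j + 1)] y.1) = s^[N y - j] y.1 := by
        rw [← Function.iterate_succ_apply' s, show (N y - (j + 1)).succ = N y - j by omega]
      rw [e] at r1
      refine ⟨T + T' + 1, Run.loopT (l := []) rfl ?_ r2⟩
      rw [upd_EE, upd_g]; exact r1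
  obtain ⟨T, r⟩ := key (N y) le_rfl
  rw [Nat.sub_self] at r
  have hb0 := hbody 0 (Nat.zero_le _)
  refine ⟨1 + T, Run.seq (Run.push' ?_ le_rfl ?_) r⟩
  · rw [EE_jr]; simp only [rg, List.length_nil]; omega
  · rw [upd_EE, upd_g]; rfl

/-! ### Powers with a cap -/

/-- Multiplication with a cap. -/
def cmulN (q a b : ℕ) : ℕ := (fun y => min q (y + b))^[a] 0

theorem cmulN_eq (q a b : ℕ) : cmulN q a b = min q (a * b) := by
  unfold cmulN
  induction a with
  | zero => simp
  | succ a ih =>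
    rw [Function.iterate_succ_apply', ih, Nat.succ_mul]
    omega

@[fun_prop]
theorem LT.cmulN' {q a b : α → ℕ} (hq : LT q) (ha : LT a) (hb : LT b) :
    LT (fun z => cmulN (q z) (a z) (b z)) := by
  obtain ⟨C, hC0, hC⟩ := hq.exists_size_le
  refine LT.iterate (n := a) (ini := fun _ => 0)
    (s := fun v : α × ℕ => min (q v.1) (v.2 + b v.1)) ha (by fun_prop) (by fun_prop) (C + 1) ?_
  intro z k _
  show size (cmulN (q z) k (b z)) ≤ _
  rw [cmulN_eq, size_nat]
  have h1 := hC z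
  rw [size_nat] at h1
  have h2 : min (q z) (k * b z) ≤ q z := Nat.min_le_left _ _
  have h3 : (C + 1) * size z = C * size z + size z := by ring
  omega

/-- Power with a cap. -/
def cpwN (q n : ℕ) : ℕ → ℕ
  | 0 => min q 1
  | k + 1 => cmulN q (cpwN q n k) n

theorem cpwN_eq (q n k : ℕ) : cpwN q n k = min q (n ^ k) := by
  induction k with
  | zero => rfl
  | succ k ih =>
    rw [cpwN, cmulN_eq, ih, pow_succ]
    rcases Nat.le_total q (n ^ k) with h | h
    · rw [Nat.min_eq_left h]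
      rcases Nat.eq_zero_or_pos n with h0 | h0
      · subst h0; simp
      · have h1 : q ≤ q * n := Nat.le_mul_of_pos_right _ h0
        have h2 : q * n ≤ n ^ k * n := Nat.mul_le_mul_right _ h
        rw [Nat.min_eq_left h1, Nat.min_eq_left (h1.trans h2)]
    · rw [Nat.min_eq_right h]

theorem LT.cpwN' {q n : α → ℕ} (k : ℕ) (hq : LT q) (hn : LT n) :
    LT (fun z => cpwN (q z) (n z) k) := by
  induction k with
  | zero =>
    show LT (fun z => min (q z) 1)
    fun_prop
  | succ k ih =>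
    show LT (fun z => cmulN (q z) (cpwN (q z) (n z) k) (n z))
    fun_prop

/-! ### Polynomial space -/

theorem le_pow_self' (n : ℕ) {k : ℕ} (hk : 1 ≤ k) : n ≤ n ^ k := by
  rcases Nat.eq_zero_or_pos n with h | h
  · subst h; simp
  · calc n = n ^ 1 := (pow_one n).symm
      _ ≤ n ^ k := Nat.pow_le_pow_right h hk

theorem GT.pow {F : List Bool × ℕ → β} (hF : LT F) (k : ℕ) (hk : 1 ≤ k) :
    ∃ C : ℕ, 1 ≤ C ∧ GT (fun x : List Bool => C * (x.length ^ k + 1))
      (fun x => F (x, x.length ^ k)) := by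
  have h1 : LT (fun z : List Bool × ℕ => (z.1, z.2 + 1)) := by fun_prop
  have h2 : LT (fun z : List Bool × ℕ => !(decide (cpwN (z.2 + 1) z.1.length k ≤ z.2))) := by
    have := LT.cpwN' (q := fun z : List Bool × ℕ => z.2 + 1)
      (n := fun z : List Bool × ℕ => z.1.length) k (by fun_prop) (by fun_prop)
    fun_prop
  have hit : ∀ (j : ℕ) (x : List Bool) (p : ℕ),
      (fun z : List Bool × ℕ => (z.1, z.2 + 1))^[j] (x, p) = (x, p + j) := by
    intro j x p
    induction j with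
    | zero => rfl
    | succ j ih => rw [Function.iterate_succ_apply', ih]; rfl
  obtain ⟨C₁, hC₁, hgrow⟩ := GT.grow h1 h2
  have h3 : LT (fun x : List Bool => (⟨(x, 0), rfl⟩ : {z : List Bool × ℕ // z.2 = 0})) :=
    LT.mkSub (p := fun z : List Bool × ℕ => z.2 = 0)
      (f := fun x : List Bool => (x, 0)) (by fun_prop) (fun _ => rfl)
  obtain ⟨C₂, hC₂, hs₂, hG₂⟩ := h3.toGT
  obtain ⟨C₃, hC₃, hs₃, hG₃⟩ := hF.toGT
  have hG₁ := hgrow (fun z => z.2 = 0) (fun y => y.1.1.length ^ k)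
    (fun y => C₁ * (10 * (y.1.1.length ^ k + 1)) + 1) (by
      rintro ⟨⟨x, p⟩, hp⟩ j hj
      simp only at hp hj ⊢
      subst hp
      rw [hit, size_pair, size_nat, Nat.zero_add]
      have h4 := size_word_le x
      have h5 := le_pow_self' x.length hk
      refine Nat.lt_succ_of_le (Nat.mul_le_mul_left _ ?_)
      omega) (by
      rintro ⟨⟨x, p⟩, hp⟩ j hj
      simp only at hp hj ⊢
      subst hp
      rw [hit]
      simp only [Nat.zero_add, cpwN_eq]
      rw [Bool.not_eq_true', decide_eq_false_iff_not]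
      omega) (by
      rintro ⟨⟨x, p⟩, hp⟩
      simp only at hp ⊢
      subst hp
      rw [hit]
      simp only [Nat.zero_add, cpwN_eq]
      rw [Bool.not_eq_false', decide_eq_true_iff]
      omega)
  have hx : ∀ x : List Bool, size x ≤ 5 * (x.length ^ k + 1) := by
    intro x
    have h4 := size_word_le x
    have h5 := le_pow_self' x.length hk
    omega
  have hxp : ∀ x : List Bool, size (x, x.length ^ k) ≤ 10 * (x.length ^ k + 1) := by
    intro x
    rw [size_pair, size_nat]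
    have := hx x
    omega
  refine ⟨10 * C₁ + 10 * C₂ + 10 * C₃ + 11, by omega, ?_⟩
  have key : ∀ x : List Bool, C₁ * (10 * (x.length ^ k + 1)) + 1 ≤
      (10 * C₁ + 10 * C₂ + 10 * C₃ + 11) * (x.length ^ k + 1) ∧
      C₂ * (10 * (x.length ^ k + 1)) ≤
      (10 * C₁ + 10 * C₂ + 10 * C₃ + 11) * (x.length ^ k + 1) ∧
      C₃ * (10 * (x.length ^ k + 1)) ≤
      (10 * C₁ + 10 * C₂ + 10 * C₃ + 11) * (x.length ^ k + 1) ∧
      10 * (x.length ^ k + 1) ≤
      (10 * C₁ + 10 * C₂ + 10 * C₃ + 11) * (x.length ^ k + 1) := by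
    intro x
    have hP : 1 ≤ x.length ^ k + 1 := by omega
    generalize x.length ^ k + 1 = P at hP
    have e : (10 * C₁ + 10 * C₂ + 10 * C₃ + 11) * (P : ℕ) =
      C₁ * (10 * P) + C₂ * (10 * P) + C₃ * (10 * P) + 11 * P := by ring
    rw [e]
    omega
  have hstep : GT (fun x : List Bool => (10 * C₁ + 10 * C₂ + 10 * C₃ + 11) *
      (x.length ^ k + 1)) (fun x : List Bool => (x, x.length ^ k)) := by
    have h4 := GT.comp (B'' := fun x : List Bool => (10 * C₁ + 10 * C₂ + 10 * C₃ + 11) *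
      (x.length ^ k + 1)) hG₁ hG₂ (fun x => (Nat.mul_le_mul_left _ ((hx x).trans
        (by omega))).trans (key x).2.1) (fun x => (key x).1)
      (fun x => (hx x).trans ((by omega : _ ≤ 10 * (x.length ^ k + 1)).trans (key x).2.2.2))
      (fun x => by
        have h5 : size (⟨(x, 0), rfl⟩ : {z : List Bool × ℕ // z.2 = 0}) =
          size ((x, 0) : List Bool × ℕ) := rfl
        show size (⟨(x, 0), rfl⟩ : {z : List Bool × ℕ // z.2 = 0}) ≤ _
        rw [h5, size_pair, size_nat]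
        have h6 := hx x
        have h7 := (key x).2.2.2
        omega) (fun x => by
        show size ((fun z : List Bool × ℕ => (z.1, z.2 + 1))^[x.length ^ k] (x, 0)) ≤ _
        rw [hit, Nat.zero_add]
        exact (hxp x).trans (key x).2.2.2)
    have h5 : (fun x : List Bool => (fun z : List Bool × ℕ => (z.1, z.2 + 1))^[x.length ^ k]
        (x, 0)) = fun x : List Bool => (x, x.length ^ k) := by
      funext x
      rw [hit, Nat.zero_add]
    rw [← h5]
    exact h4
  exact GT.comp hG₃ hstep (fun x => le_rfl)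
    (fun x => (Nat.mul_le_mul_left _ (hxp x)).trans (key x).2.2.1)
    (fun x => (hx x).trans ((by omega : _ ≤ 10 * (x.length ^ k + 1)).trans (key x).2.2.2))
    (fun x => (hxp x).trans (key x).2.2.2)
    (fun x => (hs₃ _).trans ((Nat.mul_le_mul_left _ (hxp x)).trans (key x).2.2.1))

theorem GT.exists_rawBool {f : List Bool → Bool} {B : List Bool → ℕ} (h : GT B f)
    (hB : ∀ x, size x ≤ B x) (hfB : ∀ x, size (f x) ≤ B x) :
    ∃ (ι : Type) (_ : DecidableEq ι) (_ : Finite ι) (c : Prog ι) (io : ι),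
      ∀ x, ∃ T, Run (B x + 10 * (x.length + 1)) T c (one io x.reverse) (one io (code (f x))) := by
  obtain ⟨ι, _, _, c, io, hc⟩ := h
  refine ⟨(Rg ⊕ ι) ⊕ ι, inferInstance, inferInstance,
    seq ((rev3.map Sum.inl).map Sum.inl) (seq ((toCode.map Sum.inl).map Sum.inl)
    (callP c io (fun x => Sum.inr x) (jr .a) (jr .t) (jr .f))), jr .a, ?_⟩
  intro x
  obtain ⟨T, r⟩ := hc x
  have h1 := hB x
  have h2 := hfB x
  have h3 := le_size_word x
  obtain ⟨A, hA⟩ : ∃ A, A = B x + 10 * (x.length + 1) := ⟨_, rfl⟩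
  rw [← hA]
  have s1 := run_lift (ι₁ := ι) (ι₂ := ι) (rg_rev3 (B := A) (T := 12 * x.length + 15)
    x.reverse (by simp; omega) (by simp))
  rw [List.reverse_reverse] at s1
  have s2 := run_lift (ι₁ := ι) (ι₂ := ι) (rg_toCode (B := A) (T := 20 * x.length + 20)
    x (by omega) le_rfl)
  have s3 := run_callRaw (J := (Rg ⊕ ι) ⊕ ι) (fun x => Sum.inr x)
    (fun x y h => by simpa using h) (jr .a) (jr .t) (jr .f) (by simp) (by simp) (by simp)
    (by simp) (by simp) (by simp) (code x) (code (f x))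
    (EE (rg (code x) [] [] [] [] []))
    rfl rfl (fun _ => rfl) (r.mono (by omega : B x ≤ A) le_rfl) (by
      show size x ≤ A
      omega) (by
      show size (f x) ≤ A
      omega) (by
      rw [EE_jr]; simp only [rg, List.length_nil]; omega)
  rw [upd_EE, upd_a] at s3
  rw [one_EE, one_EE]
  exact ⟨_, Run.seq s1 (Run.seq s2 s3)⟩

open Classical in
theorem mem_SPC_of_LT {L : Set (List Bool)} {F : List Bool × ℕ → Bool} (hF : LT F) (k : ℕ)
    (hk : 1 ≤ k) (h : ∀ x, x ∈ L ↔ F (x, x.length ^ k) = true) : L ∈ SPC k := by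
  obtain ⟨C, hC, hG⟩ := GT.pow hF k hk
  have hG' : GT (fun x : List Bool => (C + 5) * (x.length ^ k + 1))
      (fun x => F (x, x.length ^ k)) := by
    obtain ⟨ι, h1, h2, c, io, hc⟩ := hG
    refine ⟨ι, h1, h2, c, io, fun x => ?_⟩
    obtain ⟨T, r⟩ := hc x
    exact ⟨T, r.mono (Nat.mul_le_mul_right _ (by omega)) le_rfl⟩
  obtain ⟨ι, _, _, c, io, hc⟩ := hG'.exists_rawBool (by
    intro x
    have h4 := size_word_le x
    have h5 := le_pow_self' x.length hk
    have e : (C + 5) * (x.length ^ k + 1) = C * (x.length ^ k + 1) +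
      5 * (x.length ^ k + 1) := by ring
    omega) (by
    intro x
    have h4 := size_bool_le (F (x, x.length ^ k))
    have e : (C + 5) * (x.length ^ k + 1) = C * (x.length ^ k + 1) +
      5 * (x.length ^ k + 1) := by ring
    omega)
  obtain ⟨M, hM⟩ := exists_TM_decides c io
  have hbd : ∀ x : List Bool, (C + 5) * (x.length ^ k + 1) + 10 * (x.length + 1) ≤
      (C + 15) * (x.length ^ k + 1) := by
    intro x
    have h5 := le_pow_self' x.length hk
    have e : (C + 15) * (x.length ^ k + 1) = (C + 5) * (x.length ^ k + 1) +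
      10 * (x.length ^ k + 1) := by ring
    omega
  refine ⟨M, C + 17, ?_, ?_⟩
  · intro x
    obtain ⟨T, ⟨t, ht, hE⟩⟩ := hc x
    obtain ⟨⟨N, hN, h1, h2⟩, h3⟩ := hM x _ t _ hE (by omega)
    refine ⟨N, h1, ?_⟩
    rw [h2, h]
    cases hx : F (x, x.length ^ k)
    · simp [one, code_false]
    · simp [one, code_true]
  · intro x
    obtain ⟨T, ⟨t, ht, hE⟩⟩ := hc x
    obtain ⟨⟨N, hN, h1, h2⟩, h3⟩ := hM x _ t _ hE (by omega)
    refine ⟨⟨N, h1⟩, fun k' => (M.visited_encard_le (h3 k')).trans ?_⟩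
    have h6 := hbd x
    have e : (C + 17) * (x.length ^ k + 1) = (C + 15) * (x.length ^ k + 1) +
      2 * (x.length ^ k + 1) := by ring
    have : (C + 5) * (x.length ^ k + 1) + 10 * (x.length + 1) + 2 ≤
        (C + 17) * (x.length ^ k + 1) := by omega
    exact_mod_cast this

end Pool.Agent.H7LS
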