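import Pool.Agent.H7LS.Correct2
import Pool.Agent.H7LS.Diag
import Pool.Agent.H7LS.Growth

/-!
# The lower bound
-/

namespace Pool.Agent.H7LS

open Pool.Agent.PPS Filter Asymptotics

theorem mem_pad (M : PMach) (n m s : ℕ) (x α : List Bool) (k r : ℕ) (i : List Bool) :
    M.mem n m s x (α ++ List.replicate k false) r i = M.mem n m s x α r i := by
  have key : ∀ j, (α ++ List.replicate k false).getD j false = α.getD j false := by
    intro j
    simp only [List.getD_eq_getElem?_getD]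
    rcases Nat.lt_or_ge j α.length with h | h
    · rw [List.getElem?_append_left h]
    · rw [List.getElem?_append_right h, List.getElem?_eq_none h]
      rcases Nat.lt_or_ge (j - α.length) k with h2 | h2
      · rw [List.getElem?_replicate_of_lt h2]; rfl
      · rw [List.getElem?_eq_none (by simpa using h2)]
  induction r generalizing i with
  | zero => simp only [PMach.mem, key]
  | succ r ih => simp only [PMach.mem, ih]

/-- The simulation with a word that encodes parameters and advice. -/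
theorem sim_code (P : Params) (α : List Bool) (k : ℕ) (x : List Bool) :
    sim (code P ++ (α ++ List.replicate k false)) x =
      simP P x (α ++ List.replicate k false) := by
  have h1 : decodeD (code P ++ (α ++ List.replicate k false)) = Rep.rep P := by
    unfold decodeD
    have := decStack_code_append (Rep.rep P) (α ++ List.replicate k false)
    have h2 : (Rep.rep P).code = code P := rfl
    rw [h2] at this
    rw [this]
    rfl
  unfold sim
  rw [h1, DRep.dec_rep]
  have h3 : (code P ++ (α ++ List.replicate k false)).drop (size (Rep.rep P : D)) =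
      α ++ List.replicate k false := List.drop_left' rfl
  rw [h3]

theorem length_bits_le (n : ℕ) (hn : 1 ≤ n) : n.bits.length ≤ Nat.log 2 n + 1 := by
  rw [Nat.size_eq_bits_len]
  have h : n < 2 ^ (Nat.log 2 n + 1) := Nat.lt_pow_succ_log_self (by omega) n
  exact Nat.size_le.mpr h

/-- The parameters exist and are small. -/
theorem exists_params (M : PMach) (h1 : M.addr ∈ FLIN) (h2 : M.upd ∈ FLIN) (k : ℕ) :
    ∃ K : ℕ, ∀ n m s R : ℕ, 2 ≤ n → s ≤ n ^ k → ∃ P : Params,
      size P ≤ K * (m + s + R * (m + Nat.log 2 n) + Nat.log 2 n + 1) ∧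
      ∀ x α : List Bool, simP P x α = M.out n m s R x α := by
  obtain ⟨U₁, C₁, hU₁⟩ := exists_uprog h1
  obtain ⟨U₂, C₂, hU₂⟩ := exists_uprog h2
  refine ⟨size U₁ + size U₂ + 20 * (C₁ + C₂) + 300 * (k + 1), ?_⟩
  intro n m s R hn hs
  obtain ⟨w, hw⟩ : ∃ w, w = Nat.log 2 n := ⟨_, rfl⟩
  have hw1 : 1 ≤ w := by rw [hw]; exact Nat.log_pos (by omega) hn
  have hwn : 2 ^ w ≤ n := by rw [hw]; exact Nat.pow_log_le_self 2 (by omega)
  have hnw : n < 2 ^ (w + 1) := by rw [hw]; exact Nat.lt_pow_succ_log_self (by omega) n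
  obtain ⟨c, hc⟩ : ∃ c, c = s / w + 1 := ⟨_, rfl⟩
  have hcw : s ≤ c * w := by
    rw [hc, Nat.add_mul, Nat.one_mul]
    have h3 := Nat.div_add_mod s w
    have h4 := Nat.mod_lt s (show w > 0 by omega)
    have h5 : w * (s / w) = s / w * w := Nat.mul_comm _ _
    omega
  have hcs : c ≤ s + 1 := by
    rw [hc]
    have := Nat.div_le_self s w
    omega
  have hcws : c * w ≤ s + w := by
    rw [hc, Nat.add_mul, Nat.one_mul]
    have := Nat.div_mul_le_self s w
    omega
  have hc1 : 1 ≤ c := by rw [hc]; exact Nat.le_add_left _ _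
  clear hc
  obtain ⟨q, hq, hq1, hq2⟩ := Nat.exists_prime_lt_and_le_two_mul ((c + c) * 2 ^ w + 1) (by omega)
  have hqF : Fact q.Prime := ⟨hq⟩
  have hwq : 2 ^ w ≤ q := by
    have h3 : 1 * 2 ^ w ≤ (c + c) * 2 ^ w := Nat.mul_le_mul_right _ (by omega)
    omega
  obtain ⟨l, hl⟩ : ∃ l, l = Nat.log 2 q + 1 := ⟨_, rfl⟩
  have hl2 : q < 2 ^ l := by rw [hl]; exact Nat.lt_pow_succ_log_self (by omega) q
  have hwl : w ≤ l := by
    have h3 : 2 ^ w < 2 ^ l := lt_of_le_of_lt hwq hl2
    exact ((Nat.pow_lt_pow_iff_right (by omega)).mp h3).le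
  have hl3 : l ≤ (w + 1) * k + w + 5 := by
    have h3 : s ≤ 2 ^ ((w + 1) * k) := by
      rw [pow_mul]
      exact hs.trans (Nat.pow_le_pow_left hnw.le k)
    have h3' : 1 ≤ 2 ^ ((w + 1) * k) := Nat.one_le_two_pow
    have h4 : (c + c) * 2 ^ w ≤ (4 * 2 ^ ((w + 1) * k)) * 2 ^ w :=
      Nat.mul_le_mul_right _ (by omega)
    have h5 : (4 * 2 ^ ((w + 1) * k)) * 2 ^ w = 2 ^ ((w + 1) * k + w + 2) := by ring
    have h6 : 2 ≤ 2 ^ ((w + 1) * k + w + 2) := by
      calc 2 = 2 ^ 1 := rfl
        _ ≤ 2 ^ ((w + 1) * k + w + 2) := Nat.pow_le_pow_right (by omega) (by omega)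
    have h7 : 2 ^ ((w + 1) * k + w + 4) = 4 * 2 ^ ((w + 1) * k + w + 2) := by ring
    have h8 : q ≤ 2 ^ ((w + 1) * k + w + 4) := by omega
    have h9 : Nat.log 2 q ≤ (w + 1) * k + w + 4 := by
      have := Nat.log_mono_right (b := 2) h8
      rwa [Nat.log_pow (by omega)] at this
    omega
  have hbits := length_bits_le n (by omega)
  obtain ⟨W, hW⟩ : ∃ W, W = (C₁ + C₂) * (2 * (n.bits.length + m + s + s) + 5) := ⟨_, rfl⟩
  let E : Env := ((U₁, U₂), (W, wordN l q, wordN l (q - 1), wordN l (q - 2)), (m, s),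
    (l, w, R), n.bits)
  have hE : Desc E M n m s q l c w := by
    refine ⟨rfl, rfl, rfl, rfl, rfl, rfl, rfl, hl2, hw1, hwq, hwl, hcw, by omega, ?_, ?_⟩
    · intro i v hi hv
      show fit m (urun U₁ W (blk n.bits ++ blk i ++ blk v)) = _
      rw [hU₁]
      simp only [List.length_append, length_blk, hi, hv]
      rw [hW]
      exact Nat.mul_le_mul (by omega) (by omega)
    · intro i v w hi hv hw
      show fit s (urun U₂ W (blk n.bits ++ blk i ++ blk v ++ blk w)) = _
      rw [hU₂]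
      simp only [List.length_append, length_blk, hi, hv, hw]
      rw [hW]
      exact Nat.mul_le_mul (by omega) (by omega)
  refine ⟨(E, R * (l + m + 3), List.replicate c (List.replicate l false)), ?_, ?_⟩
  · have e1 : size E = (size U₁ + size U₂ + 1) + (((2 * W + 1) + (size (wordN l q) +
        (size (wordN l (q - 1)) + size (wordN l (q - 2)) + 1) + 1) + 1) +
        ((2 * m + 1 + (2 * s + 1) + 1) + ((2 * l + 1 + (2 * w + 1 + (2 * R + 1) + 1) + 1) +
        size n.bits + 1) + 1) + 1) + 1 := by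
      simp only [E, size_pair, size_nat]
    have e2 : size (List.replicate c (List.replicate l false)) ≤ c * (4 * l + 2) + 1 := by
      rw [size_replicate]
      have := size_word_le (List.replicate l false)
      rw [List.length_replicate] at this
      have h3 : c * (size (List.replicate l false) + 1) ≤ c * (4 * l + 2) :=
        Nat.mul_le_mul_left _ (by omega)
      omega
    have e3 := size_word_le n.bits
    have e4 := size_word_le (wordN l q)
    have e5 := size_word_le (wordN l (q - 1))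
    have e6 := size_word_le (wordN l (q - 2))
    rw [length_wordN] at e4 e5 e6
    have e0 : size ((E, R * (l + m + 3), List.replicate c (List.replicate l false)) : Params) =
        size E + ((2 * (R * (l + m + 3)) + 1) +
          size (List.replicate c (List.replicate l false)) + 1) + 1 := by
      rw [size_pair E, size_pair (R * (l + m + 3)), size_nat]
    rw [e0, e1]
    rw [← hw]
    rw [← hw] at hbits
    obtain ⟨F, hF⟩ : ∃ F, F = m + s + R * (m + w) + w + 1 := ⟨_, rfl⟩
    rw [← hF]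
    obtain ⟨G, hG⟩ : ∃ G, G = (k + 1) * F := ⟨_, rfl⟩
    have hFG : F ≤ G := by rw [hG]; exact Nat.le_mul_of_pos_left _ (by omega)
    have hR' : R ≤ R * (m + w) := Nat.le_mul_of_pos_right _ (by omega)
    have hlG : l ≤ G + 5 := by
      have h3 : (k + 1) * (w + 1) ≤ G := by
        rw [hG]; exact Nat.mul_le_mul_left _ (by omega)
      have h4 : (k + 1) * (w + 1) = (w + 1) * k + w + 1 := by ring
      omega
    have g1 : c * (4 * l + 2) ≤ 26 * G := by
      have h3 : 4 * l + 2 ≤ 26 * (k + 1) * w := by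
        have h5 : 4 * l + 2 ≤ 4 * ((w + 1) * k + w + 5) + 2 := by omega
        have h6 : k ≤ w * k := Nat.le_mul_of_pos_left _ (by omega)
        have h7 : 4 * ((w + 1) * k + w + 5) + 2 = 4 * (w * k) + 4 * k + 4 * w + 22 := by ring
        have h8 : 26 * (k + 1) * w = 26 * (w * k) + 26 * w := by ring
        omega
      have h4 : c * (4 * l + 2) ≤ c * (26 * (k + 1) * w) := Nat.mul_le_mul_left _ h3
      have h5 : c * (26 * (k + 1) * w) = 26 * ((k + 1) * (c * w)) := by ring
      have h6 : (k + 1) * (c * w) ≤ G := by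
        rw [hG]; exact Nat.mul_le_mul_left _ (by omega)
      omega
    have g3 : R * (l + m + 3) ≤ 9 * G := by
      have h3 : l + m + 3 ≤ 9 * (k + 1) * (m + w) := by
        have h6 : k ≤ w * k := Nat.le_mul_of_pos_left _ (by omega)
        have h7 : (w + 1) * k + w + 5 = w * k + k + w + 5 := by ring
        have h8 : 9 * (k + 1) * (m + w) = 9 * (w * k) + 9 * (m * k) + 9 * w + 9 * m := by ring
        omega
      have h4 : R * (l + m + 3) ≤ R * (9 * (k + 1) * (m + w)) := Nat.mul_le_mul_left _ h3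
      have h5 : R * (9 * (k + 1) * (m + w)) = 9 * ((k + 1) * (R * (m + w))) := by ring
      have h6 : (k + 1) * (R * (m + w)) ≤ G := by
        rw [hG]; exact Nat.mul_le_mul_left _ (by omega)
      omega
    have g5 : W ≤ (C₁ + C₂) * (9 * F) := by
      rw [hW]
      exact Nat.mul_le_mul_left _ (by omega)
    have g6 : (size U₁ + size U₂ + 20 * (C₁ + C₂) + 300 * (k + 1)) * F =
        (size U₁ + size U₂) * F + 2 * ((C₁ + C₂) * (9 * F)) + (2 * (C₁ + C₂)) * F +
          300 * G := by rw [hG]; ring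
    have g7 : size U₁ + size U₂ ≤ (size U₁ + size U₂) * F :=
      Nat.le_mul_of_pos_right _ (by omega)
    have g8 : 1 ≤ F := by omega
    rw [g6]
    omega
  · intro x α
    exact simP_eq (x := x) (α := α) hE

theorem log_isLittleO : (fun n : ℕ => (Nat.log 2 n : ℝ)) =o[atTop] (fun n : ℕ => (n : ℝ)) := by
  have h1 : (fun n : ℕ => Real.log (n : ℝ)) =o[atTop] (fun n : ℕ => (n : ℝ)) :=
    Real.isLittleO_log_id_atTop.comp_tendsto tendsto_natCast_atTop_atTop
  refine IsBigO.trans_isLittleO (IsBigO.of_bound (1 / Real.log 2) ?_) h1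
  filter_upwards [eventually_ge_atTop 1] with n hn
  have h2 : (Nat.log 2 n : ℝ) ≤ Real.logb 2 n := by
    have := Real.natLog_le_logb n 2
    exact_mod_cast this
  have h3 : Real.logb 2 n = Real.log n / Real.log 2 := rfl
  have h4 : 0 < Real.log 2 := Real.log_pos (by norm_num)
  have h5 : 0 ≤ Real.log n := Real.log_nonneg (by exact_mod_cast hn)
  rw [Real.norm_of_nonneg (by positivity), Real.norm_of_nonneg h5]
  rw [h3] at h2
  calc (Nat.log 2 n : ℝ) ≤ Real.log n / Real.log 2 := h2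
    _ = 1 / Real.log 2 * Real.log n := by ring

theorem hardL_mem (K j D k : ℕ) (hj : 1 ≤ j) (hk : 1 ≤ k) : hardL K j D k ∈ SPC k :=
  mem_SPC_of_LT (LT.hardF' K j D hj) k hk (fun _ => Iff.rfl)

theorem one_isLittleO : (fun _ : ℕ => (1 : ℝ)) =o[atTop] (fun n : ℕ => (n : ℝ)) :=
  isLittleO_const_left.mpr (Or.inr (by
    have := tendsto_natCast_atTop_atTop (R := ℝ)
    exact tendsto_norm_atTop_atTop.comp this))

/-- For large `n` the seed exists. -/
theorem eventually_seed (K j k : ℕ) (hj : 1 ≤ j) (hk : 1 ≤ k) :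
    ∀ᶠ n : ℕ in atTop, ∀ w ∈ WF (K * n ^ k),
      |cor n (sim w) (fam (seed K j (2 * (j * (K + 1))) n (n ^ k)))| ≤ 2 ^ (n - uB j n) := by
  obtain ⟨t₀, ht₀⟩ : ∃ t₀, t₀ = j * (K + 1) := ⟨_, rfl⟩
  have ho : (fun n : ℕ => (t₀ : ℝ) * (2 + 2 * ((t₀ : ℝ) + ((k : ℝ) - 1) *
      ((Nat.log 2 n : ℝ) + 1)))) =o[atTop] (fun n : ℕ => (n : ℝ)) := by
    have h1 := (log_isLittleO.const_mul_left (2 * (t₀ : ℝ) * ((k : ℝ) - 1))).add
      (one_isLittleO.const_mul_left ((t₀ : ℝ) * (2 + 2 * ((t₀ : ℝ) + ((k : ℝ) - 1)))))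
    refine h1.congr_left ?_
    intro n
    ring
  filter_upwards [ho.bound (show (0 : ℝ) < 1 / 2 by norm_num), eventually_ge_atTop 1]
    with n hn1 hn2
  refine seed_spec K j _ n (n ^ k) ?_
  have hk' : n ^ k = n ^ (k - 1) * n := by
    rw [← pow_succ]; congr 1; omega
  obtain ⟨t, ht⟩ : ∃ t, t = t₀ * n ^ (k - 1) := ⟨_, rfl⟩
  have h2t : n + 2 * (j * (K + 1)) * n ^ k = n + 2 * t * n := by
    rw [ht, ht₀, hk']; ring
  rw [h2t]
  refine exists_seed' n (uB j n) t (K * n ^ k) hn2 sim ?_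
  -- the numbers
  obtain ⟨b, hb⟩ : ∃ b, b = t₀ + (k - 1) * (Nat.log 2 n + 1) := ⟨_, rfl⟩
  have htb : t ≤ 2 ^ b := by
    rw [ht, hb, pow_add]
    refine Nat.mul_le_mul t₀.lt_two_pow_self.le ?_
    rw [mul_comm (k - 1), pow_mul]
    exact Nat.pow_le_pow_left (Nat.lt_pow_succ_log_self (by omega) n).le _
  have hnb : t₀ * (2 + 2 * b) < n := by
    have h1 : ((t₀ * (2 + 2 * b) : ℕ) : ℝ) ≤ 1 / 2 * n := by
      refine le_trans ?_ ((le_abs_self _).trans (hn1.trans ?_))
      · rw [hb]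
        push_cast [Nat.cast_sub hk]
        exact le_rfl
      · rw [Real.norm_of_nonneg (by positivity)]
    have h2 : (0 : ℝ) < n := by exact_mod_cast hn2
    have h3 : ((t₀ * (2 + 2 * b) : ℕ) : ℝ) < n := by linarith
    exact_mod_cast h3
  have h1 : 2 ^ (K * n ^ k) * (t ^ (2 * t) * (2 ^ n) ^ t) ≤
      2 ^ (K * n ^ k + (b * (2 * t) + n * t)) := by
    rw [pow_add, pow_add, pow_mul 2 b, pow_mul 2 n]
    exact Nat.mul_le_mul_left _ (Nat.mul_le_mul_right _ (Nat.pow_le_pow_left htb _))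
  refine lt_of_le_of_lt h1 ?_
  rw [← pow_mul]
  refine Nat.pow_lt_pow_right (by omega) ?_
  -- the exponents
  have h2 : n ≤ (n - 2 * uB j n) * j + j := by
    have h3 : 2 * uB j n ≤ n - n / j := by unfold uB; omega
    have h4 := Nat.div_add_mod n j
    have h5 := Nat.mod_lt n (show j > 0 by omega)
    have h6 : n / j ≤ n - 2 * uB j n := by
      have := Nat.div_le_self n j
      omega
    have h7 : j * (n / j) ≤ (n - 2 * uB j n) * j := by
      rw [Nat.mul_comm]; exact Nat.mul_le_mul_right _ h6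
    omega
  have h2u : 2 * uB j n ≤ n := by
    have h3 := Nat.sub_le n (n / j)
    unfold uB
    generalize n - n / j = d at h3
    omega
  have h3 : (n - uB j n) * (2 * t) = n * t + (n - 2 * uB j n) * t := by
    have : n - uB j n + (n - uB j n) = n + (n - 2 * uB j n) := by omega
    calc (n - uB j n) * (2 * t) = (n - uB j n + (n - uB j n)) * t := by ring
      _ = (n + (n - 2 * uB j n)) * t := by rw [this]
      _ = _ := by ring
  rw [h3]
  obtain ⟨v, hv⟩ : ∃ v, v = n - 2 * uB j n := ⟨_, rfl⟩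
  rw [← hv] at h2 ⊢
  obtain ⟨N, hN⟩ : ∃ N, N = n ^ (k - 1) := ⟨_, rfl⟩
  have hNpos : 1 ≤ N := by rw [hN]; exact Nat.one_le_pow _ _ hn2
  rw [hk', ← hN]
  rw [← hN] at ht
  have h4 : (K + 1) * N * n ≤ v * t + t := by
    rw [ht, ht₀]
    calc (K + 1) * N * n ≤ (K + 1) * N * (v * j + j) := Nat.mul_le_mul_left _ h2
      _ = v * (j * (K + 1) * N) + j * (K + 1) * N := by ring
  have h5 : N * (t₀ * (2 + 2 * b)) < N * n := Nat.mul_lt_mul_of_pos_left hnb (by omega)
  have h6 : N * (t₀ * (2 + 2 * b)) = 2 * t + b * (2 * t) := by rw [ht]; ring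
  have h7 : (K + 1) * N * n = K * (N * n) + N * n := by ring
  omega

/-- The lower bound. -/
theorem lower_bound (k : ℕ) (hk : 1 ≤ k) (K : ℕ) (c : ℝ) (hc : c < 1 / 2) :
    ∃ L ∈ SPC k, ∀ M : PMach, M.addr ∈ FLIN → M.upd ∈ FLIN → ∀ m s R : ℕ → ℕ,
      (fun n : ℕ => (m n : ℝ) + s n + R n * (m n + Nat.log 2 n)) =o[atTop]
        (fun n : ℕ => (n : ℝ) ^ k) →
      ∀ᶠ n : ℕ in atTop, ∀ α : List Bool, α.length ≤ K * n ^ k →
        |({x : List Bool | x.length = n ∧
            (M.out n (m n) (s n) (R n) x α = true ↔ x ∈ L)}.ncard : ℝ) / 2 ^ n - 1 / 2| ≤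
          2 ^ (-(c * n)) := by
  -- choice of the constants
  obtain ⟨j, hj1, hj2⟩ : ∃ j : ℕ, 1 ≤ j ∧ 2 * c ≤ 1 - 1 / (j : ℝ) := by
    obtain ⟨j, hj⟩ := exists_nat_gt (1 / (1 - 2 * c))
    have h1 : 0 < 1 - 2 * c := by linarith
    have h2 : 0 < 1 / (1 - 2 * c) := by positivity
    have h3 : (0 : ℝ) < j := h2.trans hj
    refine ⟨j, by exact_mod_cast h3, ?_⟩
    rw [div_lt_iff₀ h1] at hj
    have h4 : 1 / (j : ℝ) < 1 - 2 * c := by
      rw [div_lt_iff₀ h3]
      linarith
    linarith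
  refine ⟨hardL (K + 1) j (2 * (j * (K + 2))) k, hardL_mem _ _ _ _ hj1 hk, ?_⟩
  intro M h1 h2 m s R ho
  obtain ⟨K', hK⟩ := exists_params M h1 h2 k
  have hpow : (fun n : ℕ => (n : ℝ)) =O[atTop] (fun n : ℕ => (n : ℝ) ^ k) := by
    refine IsBigO.of_bound 1 ?_
    filter_upwards [eventually_ge_atTop 1] with n hn
    rw [one_mul, Real.norm_of_nonneg (by positivity), Real.norm_of_nonneg (by positivity)]
    have := le_pow_self' n hk
    exact_mod_cast this
  have ho1 : ∀ᶠ n : ℕ in atTop, (m n : ℝ) + s n + R n * (m n + Nat.log 2 n) ≤ (n : ℝ) ^ k := by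
    filter_upwards [ho.bound (show (0 : ℝ) < 1 by norm_num)] with n hn
    rw [Real.norm_of_nonneg (by positivity), Real.norm_of_nonneg (by positivity),
      one_mul] at hn
    exact hn
  have ho2 : (fun n : ℕ => (K' : ℝ) * (((m n : ℝ) + s n +
      R n * (m n + Nat.log 2 n)) + Nat.log 2 n + 1)) =o[atTop]
        (fun n : ℕ => (n : ℝ) ^ k) := by
    refine IsLittleO.const_mul_left ?_ _
    exact (ho.add (log_isLittleO.trans_isBigO hpow)).add (one_isLittleO.trans_isBigO hpow)
  filter_upwards [ho1, ho2.bound (show (0 : ℝ) < 1 by norm_num), eventually_ge_atTop 2,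
    eventually_seed (K + 1) j k hj1 hk] with n hn1 hn2 hn3 hseed
  intro α hα
  rw [Real.norm_of_nonneg (by positivity), Real.norm_of_nonneg (by positivity),
    one_mul] at hn2
  have hs : s n ≤ n ^ k := by
    have h4 : (0 : ℝ) ≤ (m n : ℝ) := Nat.cast_nonneg _
    have h5 : (0 : ℝ) ≤ R n * (m n + Nat.log 2 n) := by positivity
    have : (s n : ℝ) ≤ (n : ℝ) ^ k := by linarith
    exact_mod_cast this
  obtain ⟨P, hP1, hP2⟩ := hK n (m n) (s n) (R n) hn3 hs
  have hP1' : size P ≤ n ^ k := by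
    have h3 : (size P : ℝ) ≤ ((K' * (m n + s n + R n * (m n + Nat.log 2 n) +
      Nat.log 2 n + 1) : ℕ) : ℝ) := by exact_mod_cast hP1
    push_cast at h3
    have h4 : (size P : ℝ) ≤ (n : ℝ) ^ k := h3.trans hn2
    exact_mod_cast h4
  have htot : size P + α.length ≤ (K + 1) * n ^ k := by
    have : (K + 1) * n ^ k = K * n ^ k + n ^ k := by ring
    omega
  obtain ⟨w, hw⟩ : ∃ w, w = code P ++ (α ++ List.replicate
    ((K + 1) * n ^ k - size P - α.length) false) := ⟨_, rfl⟩
  have hwl : w ∈ WF ((K + 1) * n ^ k) := by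
    rw [mem_WF, hw]
    have h3 : (code P).length = size P := rfl
    simp only [List.length_append, List.length_replicate, h3]
    omega
  have hcorr := hseed w hwl
  have hsim : ∀ x, sim w x = M.out n (m n) (s n) (R n) x α := by
    intro x
    rw [hw, sim_code, hP2]
    unfold PMach.out
    rw [mem_pad]
  obtain ⟨a, ha⟩ : ∃ a, a = seed (K + 1) j (2 * (j * (K + 1 + 1))) n (n ^ k) := ⟨_, rfl⟩
  rw [← ha] at hcorr
  have hmem : ∀ x : List Bool, x.length = n →
      (x ∈ hardL (K + 1) j (2 * (j * (K + 2))) k ↔ fam a x = true) := by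
    intro x hx
    show hardF (K + 1) j (2 * (j * (K + 2))) (x, x.length ^ k) = true ↔ _
    unfold hardF
    simp only
    rw [hx, ha]
  have hset : {x : List Bool | x.length = n ∧
      (M.out n (m n) (s n) (R n) x α = true ↔ x ∈ hardL (K + 1) j (2 * (j * (K + 2))) k)} =
      (((WF n).filter (fun x => sim w x = fam a x) : Finset (List Bool)) :
        Set (List Bool)) := by
    ext x
    simp only [Set.mem_ofPred_eq, Finset.coe_filter, mem_WF, hsim]
    constructor
    · rintro ⟨h3, h4⟩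
      refine ⟨h3, ?_⟩
      rw [Bool.eq_iff_iff, h4]
      exact hmem x h3
    · rintro ⟨h3, h4⟩
      refine ⟨h3, ?_⟩
      rw [h4]
      exact (hmem x h3).symm
  rw [hset, Set.ncard_coe_finset]
  have hag : (((WF n).filter (fun x => sim w x = fam a x)).card : ℝ) =
      (cor n (sim w) (fam a) + 2 ^ n) / 2 := by
    rw [cor_eq]
    unfold agree
    ring
  rw [hag]
  have e1 : (cor n (sim w) (fam a) + 2 ^ n) / 2 / 2 ^ n - 1 / 2 =
      cor n (sim w) (fam a) / (2 * 2 ^ n) := by
    field_simp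
    ring
  rw [e1, abs_div, abs_of_pos (show (0 : ℝ) < 2 * 2 ^ n by positivity),
    div_le_iff₀ (by positivity)]
  refine hcorr.trans ?_
  have hu4 := uB_le j n
  have e2 : (2 : ℝ) ^ (n - uB j n) = 2 ^ (-((uB j n : ℝ) + 1)) * (2 * 2 ^ n) := by
    rw [← pow_succ', ← Real.rpow_natCast 2 (n - uB j n), ← Real.rpow_natCast 2 (n + 1),
      ← Real.rpow_add (by norm_num)]
    congr 1
    rw [Nat.cast_sub hu4]
    push_cast
    ring
  rw [e2]
  refine mul_le_mul_of_nonneg_right ?_ (by positivity)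
  refine Real.rpow_le_rpow_of_exponent_le (by norm_num) ?_
  have h3 : c * n ≤ uB j n + 1 := by
    have h4 : n - n / j ≤ 2 * uB j n + 1 := by unfold uB; omega
    have h5 : ((n / j : ℕ) : ℝ) ≤ (n : ℝ) / j := Nat.cast_div_le
    have h6 : (n : ℝ) - (n : ℝ) / j ≤ 2 * uB j n + 1 := by
      have h7 : ((n - n / j : ℕ) : ℝ) ≤ 2 * uB j n + 1 := by exact_mod_cast h4
      rw [Nat.cast_sub (Nat.div_le_self _ _)] at h7
      linarith
    have h8 : 2 * c * n ≤ (1 - 1 / (j : ℝ)) * n :=
      mul_le_mul_of_nonneg_right hj2 (by positivity)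
    have h9 : (1 - 1 / (j : ℝ)) * n = (n : ℝ) - (n : ℝ) / j := by ring
    linarith
  linarith

end Pool.Agent.H7LS
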