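import Pool.Agent.H7LS.Model
import Pool.Agent.H7LS.BinArith

/-!
# Polynomials over finite fields of characteristic two, on binary words
-/

namespace Pool.Agent.H7LS

open Pool.Agent.PPS

variable {α β γ δ σ τ : Type} [Rep α] [Rep β] [Rep γ] [Rep δ] [Rep σ] [Rep τ]

/-! ### The algorithms -/

/-- Bitwise sum; the result has the length of the first word. -/
def xorW (u v : List Bool) : List Bool :=
  (u.zip (fit u.length v)).map (fun p => xor p.1 p.2)

@[simp] theorem length_xorW (u v : List Bool) : (xorW u v).length = u.length := by
  simp [xorW, length_fit]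

@[fun_prop]
theorem LT.xorW' {u v : α → List Bool} (hu : LT u) (hv : LT v) :
    LT (fun a => xorW (u a) (v a)) := by
  obtain ⟨C, hC0, hC⟩ := hu.exists_size_le
  refine LT.map' (l := fun a => (u a).zip (fit (u a).length (v a)))
    (f := fun z : α × (Bool × Bool) => xor z.2.1 z.2.2) (by fun_prop) (by fun_prop)
    (2 * C + 1) ?_
  intro a
  exact size_le_of_length (hC a) (length_xorW (u a) (v a))

/-- Multiplication by the generator, where `f` describes the minimal polynomial of the
generator. -/
def shX (f y : List Bool) : List Bool :=
  bif y.getD (y.length - 1) false then xorW ((false :: y).take y.length) f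
  else (false :: y).take y.length

@[simp] theorem length_shX (f y : List Bool) : (shX f y).length = y.length := by
  unfold shX
  cases y.getD (y.length - 1) false <;> simp

@[fun_prop]
theorem LT.shX' {f y : α → List Bool} (hf : LT f) (hy : LT y) :
    LT (fun a => shX (f a) (y a)) := by
  unfold shX; fun_prop

/-- Multiplication. -/
def mulG (f y z : List Bool) : List Bool :=
  z.foldr (fun b acc => bif b then xorW (shX f acc) y else shX f acc)
    (List.replicate y.length false)

@[simp] theorem length_mulG (f y z : List Bool) : (mulG f y z).length = y.length := by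
  unfold mulG
  induction z with
  | nil => simp
  | cons b z ih =>
    rw [List.foldr_cons]
    cases b <;> simp only [cond_true, cond_false, length_xorW, length_shX, ih]

@[fun_prop]
theorem LT.mulG' {f y z : α → List Bool} (hf : LT f) (hy : LT y) (hz : LT z) :
    LT (fun a => mulG (f a) (y a) (z a)) := by
  obtain ⟨C, hC0, hC⟩ := hy.exists_size_le
  have h1 : LT (fun a : α × (Bool × List Bool) => f a.1) :=
    hf.comp (f := fun a : α × (Bool × List Bool) => a.1) (by fun_prop)
  have h2 : LT (fun a : α × (Bool × List Bool) => y a.1) :=
    hy.comp (f := fun a : α × (Bool × List Bool) => a.1) (by fun_prop)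
  refine LT.foldr (l := z) (ini := fun a => List.replicate (y a).length false)
    (s := fun v : α × (Bool × List Bool) => bif v.2.1 then xorW (shX (f v.1) v.2.2) (y v.1)
      else shX (f v.1) v.2.2) hz (by fun_prop) (by fun_prop) (2 * C + 1) ?_
  intro a k
  exact size_le_of_length (hC a) (length_mulG (f a) (y a) ((z a).drop k))

/-- One step of the evaluation of a polynomial. -/
def evS (f x : List Bool) (st : List Bool × List Bool) : List Bool × List Bool :=
  bif st.2.isEmpty then st
  else (xorW (mulG f st.1 x) (st.2.take st.1.length), st.2.drop st.1.length)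

@[fun_prop]
theorem LT.evS' {f x : α → List Bool} {st : α → List Bool × List Bool} (hf : LT f)
    (hx : LT x) (hst : LT st) : LT (fun a => evS (f a) (x a) (st a)) := by
  unfold evS; fun_prop

/-- The value at `x` of the polynomial whose coefficients are given by `c`. -/
def evG (f x c : List Bool) : List Bool :=
  ((fun st => evS f x st)^[c.length] (List.replicate x.length false, c)).1

theorem evS_inv (f x : List Bool) (st : List Bool × List Bool) (N : ℕ) :
    (((fun st => evS f x st)^[N] st).1).length = st.1.length ∧
      (((fun st => evS f x st)^[N] st).2).length ≤ st.2.length := by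
  induction N with
  | zero => simp
  | succ N ih =>
    rw [Function.iterate_succ_apply']
    generalize (fun st => evS f x st)^[N] st = s at ih
    unfold evS
    cases s.2.isEmpty
    · simp only [cond_false, length_xorW, length_mulG, List.length_drop]
      omega
    · exact ih

@[simp] theorem length_evG (f x c : List Bool) : (evG f x c).length = x.length := by
  unfold evG
  rw [(evS_inv f x _ _).1]; simp

@[fun_prop]
theorem LT.evG' {f x c : α → List Bool} (hf : LT f) (hx : LT x) (hc : LT c) :
    LT (fun a => evG (f a) (x a) (c a)) := by
  obtain ⟨C, hC0, hC⟩ := hx.exists_size_le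
  obtain ⟨C', hC0', hC'⟩ := hc.exists_size_le
  have h1 : LT (fun a : α × (List Bool × List Bool) => f a.1) :=
    hf.comp (f := fun a : α × (List Bool × List Bool) => a.1) (by fun_prop)
  have h2 : LT (fun a : α × (List Bool × List Bool) => x a.1) :=
    hx.comp (f := fun a : α × (List Bool × List Bool) => a.1) (by fun_prop)
  have h3 : LT (fun a => (fun st => evS (f a) (x a) st)^[(c a).length]
      (List.replicate (x a).length false, c a)) := by
    refine LT.iterate (n := fun a => (c a).length)
      (ini := fun a => (List.replicate (x a).length false, c a))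
      (s := fun v : α × (List Bool × List Bool) => evS (f v.1) (x v.1) v.2)
      (by fun_prop) (by fun_prop) (by fun_prop) (2 * C + 2 * C' + 3) ?_
    intro a k _
    show size ((fun st => evS (f a) (x a) st)^[k] (List.replicate (x a).length false, c a)) ≤ _
    have h4 := evS_inv (f a) (x a) (List.replicate (x a).length false, c a) k
    generalize (fun st => evS (f a) (x a) st)^[k] (List.replicate (x a).length false, c a) =
      s at h4
    obtain ⟨s1, s2⟩ := s
    simp only [List.length_replicate] at h4
    rw [size_pair]
    have h5 := size_word_le s1
    have h6 := size_word_le s2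
    have h7 := le_size_word (x a)
    have h8 := le_size_word (c a)
    have h9 := hC a
    have h10 := hC' a
    have h11 := size_pos a
    have h12 : (2 * C + 2 * C' + 3) * size a = 2 * (C * size a) + 2 * (C' * size a) +
      3 * size a := by ring
    omega
  exact h3.fst'

/-- The family of functions: the first bit of the value at `x` of a polynomial. -/
def fam (a x : List Bool) : Bool :=
  (evG (a.take x.length) x (a.drop x.length)).getD 0 false

@[fun_prop]
theorem LT.fam' {a x : α → List Bool} (ha : LT a) (hx : LT x) :
    LT (fun z => fam (a z) (x z)) := by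
  unfold fam; fun_prop

/-! ### Correctness -/

section field

variable {F : Type} [Field F] [CharP F 2] (θ : F)

/-- A bit as an element of the field. -/
def bG (b : Bool) : F := if b then 1 else 0

theorem bG_xor (a b : Bool) : (bG (xor a b) : F) = bG a + bG b := by
  have h : (1 : F) + 1 = 0 := CharTwo.add_self_eq_zero 1
  cases a <;> cases b <;> simp [bG, h]

/-- The element of the field that is given by a word. -/
def vG : List Bool → F
  | [] => 0
  | b :: w => bG b + θ * vG w

theorem vG_append (u v : List Bool) : vG θ (u ++ v) = vG θ u + θ ^ u.length * vG θ v := by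
  induction u with
  | nil => simp [vG]
  | cons b u ih => rw [List.cons_append, vG, vG, ih, List.length_cons, pow_succ]; ring

theorem vG_zeros (n : ℕ) : vG θ (List.replicate n false) = 0 := by
  induction n with
  | zero => rfl
  | succ n ih => rw [List.replicate_succ, vG, ih]; simp [bG]

theorem vG_xorW {u v : List Bool} (h : u.length = v.length) :
    vG θ (xorW u v) = vG θ u + vG θ v := by
  unfold xorW
  rw [fit_of_length h.symm]
  induction u generalizing v with
  | nil =>
    have : v = [] := List.length_eq_zero_iff.mp h.symm
    subst this
    simp [vG]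
  | cons b u ih =>
    cases v with
    | nil => simp at h
    | cons c v =>
      rw [List.zip_cons_cons, List.map_cons, vG, vG, vG, ih (by simpa using h), bG_xor]
      ring

theorem vG_shX {f y : List Bool} (hf : f.length = y.length) (hθ : vG θ f = θ ^ y.length) :
    vG θ (shX f y) = θ * vG θ y := by
  rcases List.eq_nil_or_concat y with h | ⟨y', b, h⟩
  · subst h
    simp [shX, vG]
  · rw [List.concat_eq_append] at h
    subst h
    have h1 : (y' ++ [b]).getD ((y' ++ [b]).length - 1) false = b := by
      simp
    have h2 : (false :: (y' ++ [b])).take (y' ++ [b]).length = false :: y' := by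
      simp
    unfold shX
    rw [h1, h2, vG_append]
    have h3 : (y' ++ [b]).length = y'.length + 1 := by simp
    rw [h3] at hθ hf
    cases b with
    | false => simp [vG, bG]
    | true =>
      rw [cond_true, vG_xorW θ (by simpa using hf.symm), hθ]
      simp [vG, bG]
      ring

theorem vG_mulG {f y z : List Bool} (hf : f.length = y.length)
    (hθ : vG θ f = θ ^ y.length) : vG θ (mulG f y z) = vG θ y * vG θ z := by
  induction z with
  | nil => simp [mulG, vG, vG_zeros]
  | cons b z ih =>
    have h1 : mulG f y (b :: z) = bif b then xorW (shX f (mulG f y z)) y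
      else shX f (mulG f y z) := rfl
    have h2 : vG θ (shX f (mulG f y z)) = θ * vG θ (mulG f y z) :=
      vG_shX θ (by simpa using hf) (by simpa using hθ)
    rw [h1, vG]
    cases b with
    | false =>
      rw [cond_false, h2, ih]
      simp [bG]
      ring
    | true =>
      rw [cond_true, vG_xorW θ (by simp), h2, ih]
      simp [bG]
      ring

/-- The value at `X` of the polynomial with `D` coefficients given by `c`. -/
def evF (n : ℕ) (X : F) : ℕ → F → List Bool → F
  | 0, A, _ => A
  | D + 1, A, c => evF n X D (A * X + vG θ (c.take n)) (c.drop n)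

theorem evF_lin (n : ℕ) (X : F) (D : ℕ) (A : F) (c : List Bool) :
    evF θ n X D A c = A * X ^ D + evF θ n X D 0 c := by
  induction D generalizing A c with
  | zero => simp [evF]
  | succ D ih =>
    rw [evF, evF, ih, ih (0 * X + vG θ (c.take n))]
    ring

theorem take_xorW (u v : List Bool) (h : u.length = v.length) (k : ℕ) :
    (xorW u v).take k = xorW (u.take k) (v.take k) := by
  unfold xorW
  rw [fit_of_length h.symm, fit_of_length (by simp [h]), ← List.map_take, List.zip,
    List.take_zipWith]

theorem drop_xorW (u v : List Bool) (h : u.length = v.length) (k : ℕ) :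
    (xorW u v).drop k = xorW (u.drop k) (v.drop k) := by
  unfold xorW
  rw [fit_of_length h.symm, fit_of_length (by simp [h]), ← List.map_drop, List.zip,
    List.drop_zipWith]

theorem evF_add (n : ℕ) (X : F) (D : ℕ) (A B : F) (c d : List Bool)
    (h : c.length = d.length) :
    evF θ n X D (A + B) (xorW c d) = evF θ n X D A c + evF θ n X D B d := by
  induction D generalizing A B c d with
  | zero => simp [evF]
  | succ D ih =>
    rw [evF, evF, evF, take_xorW _ _ h, drop_xorW _ _ h, vG_xorW θ (by simp [h])]
    rw [← ih _ _ _ _ (by simp [h])]
    congr 1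
    ring

theorem vG_evG {f x c : List Bool} {D : ℕ} (hf : f.length = x.length)
    (hθ : vG θ f = θ ^ x.length) (hc : c.length = D * x.length) (hx : 1 ≤ x.length) :
    vG θ (evG f x c) = evF θ x.length (vG θ x) D 0 c := by
  have key : ∀ (D N : ℕ) (acc c : List Bool), D ≤ N → acc.length = x.length →
      c.length = D * x.length → vG θ ((fun st => evS f x st)^[N] (acc, c)).1 =
        evF θ x.length (vG θ x) D (vG θ acc) c := by
    intro D
    induction D with
    | zero =>
      intro N acc c _ hacc hc
      have hc' : c = [] := List.length_eq_zero_iff.mp (by simpa using hc)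
      subst hc'
      have : ∀ N, (fun st => evS f x st)^[N] (acc, ([] : List Bool)) = (acc, []) := by
        intro N
        induction N with
        | zero => rfl
        | succ N ih => rw [Function.iterate_succ_apply', ih]; rfl
      rw [this]
      rfl
    | succ D ih =>
      intro N acc c hN hacc hc
      obtain ⟨N, rfl⟩ : ∃ N', N = N' + 1 := ⟨N - 1, by omega⟩
      have hD : (D + 1) * x.length = D * x.length + x.length := by ring
      rw [hD] at hc
      rw [Function.iterate_succ_apply]
      have h1 : evS f x (acc, c) = (xorW (mulG f acc x) (c.take acc.length),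
          c.drop acc.length) := by
        unfold evS
        have : c.isEmpty = false := by
          rw [← Bool.not_eq_true, List.isEmpty_iff]
          intro h; rw [h] at hc; simp at hc; omega
        simp only [this, cond_false]
      rw [h1, hacc, ih N _ _ (by omega) (by simp [hacc]) (by simp; omega)]
      rw [evF, vG_xorW θ (by simp [hacc]; omega), vG_mulG θ (by omega) (by rw [hacc]; exact hθ)]
  unfold evG
  rw [key D c.length _ _ (by rw [hc]; exact Nat.le_mul_of_pos_right _ hx) (by simp) hc,
    vG_zeros]

/-- Every polynomial is given by a word. -/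
theorem exists_coeffs (n : ℕ) (hs : ∀ x : F, ∃ w : List Bool, w.length = n ∧ vG θ w = x)
    (D : ℕ) (p : Polynomial F) (hp : p.degree < (D : WithBot ℕ)) :
    ∃ c : List Bool, c.length = D * n ∧ ∀ X : F, evF θ n X D 0 c = p.eval X := by
  induction D generalizing p with
  | zero =>
    have : p = 0 := by
      rw [← Polynomial.degree_eq_bot]
      exact Nat.WithBot.lt_zero_iff.mp (by simpa using hp)
    subst this
    exact ⟨[], by simp, fun X => by simp [evF]⟩
  | succ D ih =>
    obtain ⟨w, hw, hwv⟩ := hs (p.coeff D)
    have h1 : (p - Polynomial.C (p.coeff D) * Polynomial.X ^ D).degree < (D : WithBot ℕ) := by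
      rw [Polynomial.degree_lt_iff_coeff_zero]
      intro m hm
      rw [Polynomial.coeff_sub, Polynomial.coeff_C_mul_X_pow]
      rcases Nat.lt_or_ge D m with h | h
      · rw [if_neg (by omega), Polynomial.coeff_eq_zero_of_degree_lt, sub_zero]
        exact lt_of_lt_of_le hp (by exact_mod_cast h)
      · have : m = D := by omega
        rw [if_pos this, this, sub_self]
    obtain ⟨c, hc, hcv⟩ := ih _ h1
    refine ⟨w ++ c, by rw [List.length_append, hw, hc]; ring, ?_⟩
    intro X
    rw [evF, List.take_left' hw, List.drop_left' hw, evF_lin, hcv, hwv]
    simp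

end field

/-! ### Existence of the field -/

/-- The polynomial that is given by a word. -/
noncomputable def pG : List Bool → Polynomial (ZMod 2)
  | [] => 0
  | b :: w => Polynomial.C (bG b) + Polynomial.X * pG w

theorem degree_pG (w : List Bool) : (pG w).degree < (w.length : WithBot ℕ) := by
  induction w with
  | nil => simp [pG]
  | cons b w ih =>
    rw [Polynomial.degree_lt_iff_coeff_zero] at ih ⊢
    intro m hm
    rw [List.length_cons] at hm
    obtain ⟨m, rfl⟩ : ∃ m', m = m' + 1 := ⟨m - 1, by omega⟩
    rw [pG, Polynomial.coeff_add, Polynomial.coeff_X_mul, Polynomial.coeff_C_succ, zero_add]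
    exact ih m (by omega)

theorem pG_eq_zero (w : List Bool) (h : pG w = 0) : w = List.replicate w.length false := by
  induction w with
  | nil => rfl
  | cons b w ih =>
    rw [pG] at h
    have h1 : (bG b : ZMod 2) = 0 := by
      have := congrArg (fun p => Polynomial.coeff p 0) h
      simpa using this
    have h2 : pG w = 0 := by
      ext i
      have := congrArg (fun p => Polynomial.coeff p (i + 1)) h
      simpa [Polynomial.coeff_X_mul, Polynomial.coeff_C_succ] using this
    have h3 : b = false := by
      cases b
      · rfl
      · simp [bG] at h1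
    rw [List.length_cons, List.replicate_succ, ← ih h2, h3]

theorem aeval_pG {F : Type} [Field F] [Algebra (ZMod 2) F] (θ : F) (w : List Bool) :
    Polynomial.aeval θ (pG w) = vG θ w := by
  induction w with
  | nil => simp [pG, vG]
  | cons b w ih =>
    rw [pG, vG, map_add, map_mul, ih, Polynomial.aeval_X, Polynomial.aeval_C]
    congr 1
    cases b <;> simp [bG]

/-- For each `n ≥ 1`, the words of length `n` represent the elements of a field. -/
theorem exists_field (n : ℕ) (hn : 1 ≤ n) : ∃ (F : Type) (_ : Field F) (_ : CharP F 2) (θ : F)
    (f : List Bool), f.length = n ∧ vG θ f = θ ^ n ∧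
      (∀ u v : List Bool, u.length = n → v.length = n → vG θ u = vG θ v → u = v) ∧
      (∀ x : F, ∃ w : List Bool, w.length = n ∧ vG θ w = x) := by
  classical
  have : Fact (Nat.Prime 2) := ⟨Nat.prime_two⟩
  let F := GaloisField 2 n
  obtain ⟨θ, hθ⟩ := Field.exists_primitive_element (ZMod 2) F
  have hdeg : (minpoly (ZMod 2) θ).natDegree = n := by
    rw [(Field.primitive_element_iff_minpoly_natDegree_eq (ZMod 2) θ).mp hθ]
    exact GaloisField.finrank 2 (by omega)
  have hint : IsIntegral (ZMod 2) θ := Algebra.IsIntegral.isIntegral θ
  have hinj : ∀ u v : List Bool, u.length = n → v.length = n → vG θ u = vG θ v → u = v := by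
    intro u v hu hv h
    have h1 : vG θ (xorW u v) = 0 := by
      rw [vG_xorW θ (by omega), h]
      exact CharTwo.add_self_eq_zero _
    rw [← aeval_pG] at h1
    have h2 : pG (xorW u v) = 0 := by
      by_contra hne
      have h3 := minpoly.degree_le_of_ne_zero (ZMod 2) θ hne h1
      have h4 := degree_pG (xorW u v)
      rw [length_xorW, hu] at h4
      have h5 : (minpoly (ZMod 2) θ).degree = n := by
        rw [Polynomial.degree_eq_natDegree (minpoly.ne_zero hint), hdeg]
      rw [h5] at h3
      exact absurd (lt_of_le_of_lt h3 h4) (lt_irrefl _)
    have h3 := pG_eq_zero _ h2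
    rw [length_xorW] at h3
    refine List.ext_getElem (by omega) ?_
    intro i hi1 hi2
    have h4 : (xorW u v)[i]'(by simpa using hi1) = false := by
      have h6 : ∀ (w : List Bool) (k : ℕ) (hw : w = List.replicate k false) (hi : i < w.length),
          w[i] = false := by
        intro w k hw hi
        subst hw
        simp
      exact h6 _ _ h3 _
    unfold xorW at h4
    simp only [List.getElem_map, List.getElem_zip] at h4
    have h5 : (fit u.length v)[i]'(by rw [length_fit]; exact hi1) = v[i] := by
      congr 1
      exact fit_of_length (by omega)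
    rw [h5] at h4
    simpa using h4
  have hsurj : ∀ x : F, ∃ w : List Bool, w.length = n ∧ vG θ w = x := by
    have hfin : Finite F := inferInstance
    have hcard : Nat.card F = 2 ^ n := GaloisField.card 2 n (by omega)
    let G : List.Vector Bool n → F := fun w => vG θ w.1
    have hG : Function.Injective G := by
      intro u v h
      exact Subtype.ext (hinj u.1 v.1 u.2 v.2 h)
    have hbij : Function.Bijective G := by
      have h1 : Nat.card (List.Vector Bool n) = Nat.card F := by
        rw [hcard, Nat.card_eq_fintype_card, card_vector, Fintype.card_bool]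
      exact (Nat.bijective_iff_injective_and_card G).mpr ⟨hG, h1⟩
    intro x
    obtain ⟨w, hw⟩ := hbij.2 x
    exact ⟨w.1, w.2, hw⟩
  obtain ⟨f, hf, hfv⟩ := hsurj (θ ^ n)
  exact ⟨F, inferInstance, inferInstance, θ, f, hf, hfv, hinj, hsurj⟩

end Pool.Agent.H7LS
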