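import Pool.Agent.H7LS.Codes
import Pool.Agent.PPS.Flow
import Pool.Agent.PPS.Bridge
import Pool.Agent.PPS.PS

/-!
# A universal interpreter for linear-space computations
-/

namespace Pool.Agent.H7LS

open Pool.Agent.PPS
open Pool.Agent.PPS.Prog

variable {α β γ δ σ τ : Type} [Rep α] [Rep β] [Rep γ] [Rep δ] [Rep σ] [Rep τ]

/-- Instructions as data: kind, bit, index of the stack, three successors. -/
abbrev UInstr := ℕ × Bool × ℕ × ℕ × ℕ × ℕ

/-- Programs as data: instructions, entry, index of the input and output stack, initial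
stacks. -/
abbrev UProg := List UInstr × ℕ × ℕ × List (List Bool)

/-- Replace an entry of a list. -/
def setAt (i : ℕ) (v : List Bool) (L : List (List Bool)) : List (List Bool) :=
  L.take i ++ v :: L.drop (i + 1)

@[fun_prop]
theorem LT.setAt' {i : α → ℕ} {v : α → List Bool} {L : α → List (List Bool)} (hi : LT i)
    (hv : LT v) (hL : LT L) : LT (fun a => setAt (i a) (v a) (L a)) := by
  unfold setAt
  fun_prop

/-- Successor after a pop. -/
def uNext (o : Option Bool) (p : ℕ × ℕ × ℕ) : ℕ :=
  match o with
  | none => p.1
  | some b => bif b then p.2.2 else p.2.1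

@[fun_prop]
theorem LT.uNext' {o : α → Option Bool} {p : α → ℕ × ℕ × ℕ} (ho : LT o) (hp : LT p) :
    LT (fun a => uNext (o a) (p a)) := by
  have := LT.optCase (o := o) (f := fun a => (p a).1)
    (g := fun z : Bool × α => bif z.1 then (p z.2).2.2 else (p z.2).2.1) ho (by fun_prop) (by
      have h : LT (fun z : Bool × α => p z.2) := hp.comp (f := fun z : Bool × α => z.2)
        (by fun_prop)
      fun_prop)
  refine LT.of_eq this (fun a => ?_)
  unfold uNext
  cases o a <;> rfl

/-- Execute an instruction. -/
def uexec (x : UInstr) (L : List (List Bool)) : ℕ × List (List Bool) :=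
  bif decide (x.1 = 0) then (x.2.2.2.1, L)
  else bif decide (x.1 = 1) then
    (x.2.2.2.1, setAt x.2.2.1 (x.2.1 :: L.getD x.2.2.1 []) L)
  else (uNext (L.getD x.2.2.1 []).head? x.2.2.2, setAt x.2.2.1 (L.getD x.2.2.1 []).tail L)

@[fun_prop]
theorem LT.uexec' {x : α → UInstr} {L : α → List (List Bool)} (hx : LT x) (hL : LT L) :
    LT (fun a => uexec (x a) (L a)) := by
  unfold uexec
  fun_prop

/-- One step of the interpreter. -/
def ustep (P : List UInstr) (S : ℕ × List (List Bool)) : ℕ × List (List Bool) :=
  bif decide (S.1 < P.length) then uexec (P.getD S.1 (0, false, 0, 0, 0, 0)) S.2 else S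

@[fun_prop]
theorem LT.ustep' {P : α → List UInstr} {S : α → ℕ × List (List Bool)} (hP : LT P)
    (hS : LT S) : LT (fun a => ustep (P a) (S a)) := by
  unfold ustep
  fun_prop

/-- One step of the interpreter, with a space bound. -/
def gstep (P : List UInstr) (W : ℕ) (S : ℕ × List (List Bool)) : ℕ × List (List Bool) :=
  bif decide (size (ustep P S) ≤ W) then ustep P S else S

@[fun_prop]
theorem LT.gstep' {P : α → List UInstr} {W : α → ℕ} {S : α → ℕ × List (List Bool)}
    (hP : LT P) (hW : LT W) (hS : LT S) : LT (fun a => gstep (P a) (W a) (S a)) := by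
  unfold gstep
  fun_prop

/-- The universal interpreter. -/
def urun (U : UProg) (W : ℕ) (z : List Bool) : List Bool :=
  ((allW W).foldl (fun S _ => gstep U.1 W S) (U.2.1, setAt U.2.2.1 z U.2.2.2)).2.getD
    U.2.2.1 []

@[fun_prop]
theorem LT.urun' {U : α → UProg} {W : α → ℕ} {z : α → List Bool} (hU : LT U) (hW : LT W)
    (hz : LT z) : LT (fun a => urun (U a) (W a) (z a)) := by
  have hini : LT (fun a => ((U a).2.1, setAt (U a).2.2.1 (z a) (U a).2.2.2)) := by fun_prop
  obtain ⟨C, hC0, hC⟩ := hini.exists_size_le
  obtain ⟨C', hC0', hC'⟩ := hW.exists_size_le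
  have hs : LT (fun y : α × ((ℕ × List (List Bool)) × List Bool) =>
      gstep (U y.1).1 (W y.1) y.2.1) := by
    have h1 : LT (fun y : α × ((ℕ × List (List Bool)) × List Bool) => U y.1) :=
      hU.comp (f := fun y : α × ((ℕ × List (List Bool)) × List Bool) => y.1) (by fun_prop)
    have h2 : LT (fun y : α × ((ℕ × List (List Bool)) × List Bool) => W y.1) :=
      hW.comp (f := fun y : α × ((ℕ × List (List Bool)) × List Bool) => y.1) (by fun_prop)
    fun_prop
  have key := LT.foldWords (s := fun y : α × ((ℕ × List (List Bool)) × List Bool) =>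
      gstep (U y.1).1 (W y.1) y.2.1) hW hini hs
    (fun a y => size y ≤ (C + C') * size a) (C + C') (fun a y h => h) (by
      intro a
      have := hC a
      have e : (C + C') * size a = C * size a + C' * size a := by ring
      omega) (by
      intro a y w _ hy
      simp only [gstep]
      by_cases h : size (ustep (U a).1 y) ≤ W a
      · simp only [h, decide_true, cond_true]
        have h1 := hC' a
        rw [size_nat] at h1
        have e : (C + C') * size a = C * size a + C' * size a := by ring
        omega
      · simp only [h, decide_false, cond_false]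
        exact hy)
  unfold urun
  fun_prop

/-! ### Correctness -/

section sim

variable {ι : Type} [DecidableEq ι] {P : Type} {N₁ N₂ : ℕ} (e : ι ≃ Fin N₂) (g : P ≃ Fin N₁)

/-- Positions as numbers. -/
def pn (o : Option P) : ℕ :=
  match o with
  | none => N₁
  | some p => (g p : ℕ)

/-- Instructions as data. -/
def encI (x : Instr ι (Option P)) : UInstr :=
  match x with
  | .nop p => (0, false, 0, pn g p, 0, 0)
  | .push i b p => (1, b, (e i : ℕ), pn g p, 0, 0)
  | .pop i p => (2, false, (e i : ℕ), pn g (p none), pn g (p (some false)),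
      pn g (p (some true)))

/-- Configurations as data. -/
def convU (x : Option P × Store ι) : ℕ × List (List Bool) :=
  (pn g x.1, List.ofFn fun j => x.2 (e.symm j))

theorem pn_injective : Function.Injective (pn g) := by
  intro o o' h
  cases o with
  | none =>
    cases o' with
    | none => rfl
    | some p => simp only [pn] at h; have := (g p).2; omega
  | some q =>
    cases o' with
    | none => simp only [pn] at h; have := (g q).2; omega
    | some p =>
      simp only [pn] at h
      rw [g.injective (Fin.ext h)]

omit [DecidableEq ι] in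
theorem convU_injective : Function.Injective (convU e g) := by
  rintro ⟨o, S⟩ ⟨o', S'⟩ h
  simp only [convU, Prod.mk.injEq] at h
  obtain ⟨h1, h2⟩ := h
  have h3 := pn_injective g h1
  have h4 := List.ofFn_injective h2
  refine Prod.ext h3 ?_
  funext i
  have := congrFun h4 (e i)
  simpa using this

theorem setAt_ofFn {n : ℕ} (F : Fin n → List Bool) (j : Fin n) (v : List Bool) :
    setAt (j : ℕ) v (List.ofFn F) = List.ofFn (Function.update F j v) := by
  have h1 : setAt (j : ℕ) v (List.ofFn F) = (List.ofFn F).set j v := by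
    rw [List.set_eq_take_append_cons_drop]
    simp [setAt]
  rw [h1]
  refine List.ext_getElem (by simp) ?_
  intro i h2 h3
  rw [List.getElem_set]
  simp only [List.getElem_ofFn]
  split_ifs with h
  · have : (⟨i, by simpa using h3⟩ : Fin n) = j := Fin.ext h.symm
    rw [this]; simp
  · rw [Function.update_of_ne]
    intro h'
    apply h
    rw [← h']

theorem convU_exec (x : Instr ι (Option P)) (S : Store ι) :
    convU e g (x.exec S) = uexec (encI e g x) (List.ofFn fun j => S (e.symm j)) := by
  have upd : ∀ (i : ι) (v : List Bool),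
      (List.ofFn fun j => Function.update S i v (e.symm j)) =
        setAt (e i : ℕ) v (List.ofFn fun j => S (e.symm j)) := by
    intro i v
    rw [setAt_ofFn]
    congr 1
    funext j
    by_cases hj : j = e i
    · subst hj; simp
    · rw [Function.update_of_ne hj, Function.update_of_ne]
      intro h
      apply hj
      rw [← h]; simp
  have getD : ∀ i, (List.ofFn fun j => S (e.symm j)).getD (e i : ℕ) [] = S i := by
    intro i
    rw [getD_ofFn (fun j => S (e.symm j))]
    simp
  cases x with
  | nop p => rfl
  | push i b p =>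
    simp only [Instr.exec, convU, encI, uexec]
    simp only [getD, upd]
    rfl
  | pop i p =>
    simp only [Instr.exec, convU, encI, uexec]
    simp only [getD, upd]
    refine Prod.ext ?_ rfl
    show pn g (p (S i).head?) = uNext (S i).head? _
    rcases (S i).head? with _ | b
    · rfl
    · cases b <;> rfl

/-- The program as data. -/
def encP (c : P → Instr ι (Option P)) : List UInstr :=
  List.ofFn fun j => encI e g (c (g.symm j))

theorem convU_step (c : P → Instr ι (Option P)) (x : Option P × Store ι) :
    convU e g (fstep c x) = ustep (encP e g c) (convU e g x) := by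
  obtain ⟨o, S⟩ := x
  have hl : (encP e g c).length = N₁ := by simp [encP]
  cases o with
  | none =>
    unfold ustep
    rw [hl]
    simp only [convU, pn, lt_irrefl, decide_false, cond_false, fstep_none]
  | some p =>
    rw [fstep_some, convU_exec]
    unfold ustep
    have h1 : (convU e g (some p, S)).1 = (g p : ℕ) := rfl
    rw [hl, h1]
    have h2 : (encP e g c).getD (g p : ℕ) (0, false, 0, 0, 0, 0) = encI e g (c p) := by
      rw [List.getD_eq_getElem?_getD, encP, List.getElem?_ofFn]
      simp
    rw [h2]
    simp only [(g p).2, decide_true, cond_true]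
    rfl

theorem size_convU_le (x : Option P × Store ι) {B : ℕ} (hx : ∀ i, (x.2 i).length ≤ B) :
    size (convU e g x) ≤ 2 * N₁ + N₂ * (4 * B + 2) + 3 := by
  have h2 : size (convU e g x) = size (pn g x.1) +
      size (List.ofFn fun j => x.2 (e.symm j)) + 1 := size_pair _ _
  have h3 : pn g x.1 ≤ N₁ := by
    unfold pn
    split
    · exact le_rfl
    · exact (g _).2.le
  have h4 : size (List.ofFn fun j => x.2 (e.symm j)) ≤ N₂ * (4 * B + 1 + 1) + 1 := by
    have := size_list_le (l := List.ofFn fun j => x.2 (e.symm j)) (B := 4 * B + 1) (by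
        intro b hb
        rw [List.mem_ofFn] at hb
        obtain ⟨j, rfl⟩ := hb
        have := (size_bits (x.2 (e.symm j))).2
        have := hx (e.symm j)
        omega)
    simpa using this
  have h5 : 4 * B + 1 + 1 = 4 * B + 2 := rfl
  rw [h5] at h4
  rw [size_nat] at h2
  omega

end sim

theorem urun_of_exec {ι : Type} [DecidableEq ι] {N₁ N₂ : ℕ} (c : Prog ι) (io : ι)
    (e : ι ≃ Fin N₂) (g : c.Pos ≃ Fin N₁) {B t W : ℕ} {z w : List Bool}
    (h : Exec B c (one io z) (one io w) t) (hz : z.length ≤ B)
    (hW : 2 * N₁ + N₂ * (4 * B + 2) + 4 ≤ W) :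
    urun (encP e g c.instr, (g c.entry : ℕ), (e io : ℕ),
      List.ofFn (fun _ : Fin N₂ => ([] : List Bool))) W z = w := by
  classical
  let x₀ : Option c.Pos × Store ι := (some c.entry, one io z)
  have hS0 : ∀ i, (one io z i).length ≤ B := by
    intro i
    simp only [one]
    split_ifs
    · exact hz
    · simp
  have hflow0 := flowRun_of_exec h (embeds_self c) hS0
  have hflow1 : (fstep c.instr)^[t] x₀ = (none, one io w) := hflow0.1
  have hflow2 : ∀ j ≤ t, ∀ i, (((fstep c.instr)^[j] x₀).2 i).length ≤ B := hflow0.2
  have hex : ∃ t, ((fstep c.instr)^[t] x₀).1 = none := ⟨t, by rw [hflow1]⟩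
  let t₀ := Nat.find hex
  have ht₀ : ((fstep c.instr)^[t₀] x₀).1 = none := Nat.find_spec hex
  have hmin : ∀ j < t₀, ((fstep c.instr)^[j] x₀).1 ≠ none := fun j hj => Nat.find_min hex hj
  have ht₀t : t₀ ≤ t := Nat.find_min' hex (by rw [hflow1])
  have hstay : ∀ j, t₀ ≤ j → (fstep c.instr)^[j] x₀ = (fstep c.instr)^[t₀] x₀ := by
    intro j hj
    obtain ⟨d, rfl⟩ := Nat.exists_eq_add_of_le hj
    rw [Nat.add_comm, Function.iterate_add_apply]
    generalize hx : (fstep c.instr)^[t₀] x₀ = x at ht₀
    obtain ⟨o, S⟩ := x
    simp only at ht₀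
    subst ht₀
    exact fstep_iterate_none c.instr S d
  have hfin : (fstep c.instr)^[t₀] x₀ = (none, one io w) := by
    rw [← hstay t ht₀t, hflow1]
  have hbd : ∀ j i, (((fstep c.instr)^[j] x₀).2 i).length ≤ B := by
    intro j i
    rcases le_total j t with h | h
    · exact hflow2 j h i
    · rw [hstay j (by omega), ← hstay t ht₀t]
      exact hflow2 t le_rfl i
  have hsz : ∀ j, size (convU e g ((fstep c.instr)^[j] x₀)) < W := by
    intro j
    have := size_convU_le e g ((fstep c.instr)^[j] x₀) (hbd j)
    omega
  -- the interpreter follows the flow chart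
  have hiter : ∀ j, (fun S => gstep (encP e g c.instr) W S)^[j] (convU e g x₀) =
      convU e g ((fstep c.instr)^[j] x₀) := by
    intro j
    induction j with
    | zero => rfl
    | succ j ih =>
      rw [Function.iterate_succ_apply', ih, Function.iterate_succ_apply' (fstep c.instr)]
      have h3 := hsz (j + 1)
      rw [Function.iterate_succ_apply' (fstep c.instr), convU_step] at h3
      unfold gstep
      rw [convU_step]
      have h4 : size (ustep (encP e g c.instr) (convU e g ((fstep c.instr)^[j] x₀))) ≤ W :=
        h3.le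
      simp only [h4, decide_true, cond_true]
  -- the exit is reached in time
  have htime : t₀ < 2 ^ W := by
    let F : Fin (t₀ + 1) → List.Vector Bool W := fun i =>
      ⟨padTo W (code (convU e g ((fstep c.instr)^[(i : ℕ)] x₀))),
        length_padTo (hsz i)⟩
    have hF : Function.Injective F := by
      intro i j hij
      have h1 : padTo W (code (convU e g ((fstep c.instr)^[(i : ℕ)] x₀))) =
          padTo W (code (convU e g ((fstep c.instr)^[(j : ℕ)] x₀))) := congrArg Subtype.val hij
      have h2 := congrArg unpad h1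
      rw [unpad_padTo, unpad_padTo] at h2
      have h3 := convU_injective e g (code_injective h2)
      by_contra hne
      rcases lt_or_gt_of_ne (fun h => hne (Fin.ext h) : (i : ℕ) ≠ j) with h | h
      · exact flow_distinct c.instr x₀ t₀ ht₀ hmin i j h (by omega) h3
      · exact flow_distinct c.instr x₀ t₀ ht₀ hmin j i h (by omega) h3.symm
    have := Fintype.card_le_of_injective F hF
    rw [Fintype.card_fin, card_vector, Fintype.card_bool] at this
    omega
  have h0 : (((g c.entry : ℕ)), setAt (e io : ℕ) z
      (List.ofFn (fun _ : Fin N₂ => ([] : List Bool)))) = convU e g x₀ := by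
    refine Prod.ext rfl ?_
    rw [setAt_ofFn]
    have hu : Function.update (fun _ : Fin N₂ => ([] : List Bool)) (e io) z =
        fun j => one io z (e.symm j) := ?_
    · exact congrArg List.ofFn hu
    funext j
    simp only [one]
    by_cases hj : j = e io
    · subst hj; simp
    · rw [Function.update_of_ne hj, if_neg]
      intro h
      apply hj
      rw [← h]; simp
  unfold urun
  simp only
  rw [h0, List.foldl_const, hiter]
  have hl : (allW W).length = 2 ^ W := by simp [allW]
  rw [hl, hstay _ htime.le, hfin]
  show (List.ofFn fun j => one io w (e.symm j)).getD (e io : ℕ) [] = w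
  rw [getD_ofFn (fun j => one io w (e.symm j))]
  simp [one]

theorem exists_uprog {f : List Bool → List Bool} (hf : f ∈ FLIN) :
    ∃ (U : UProg) (C : ℕ), ∀ (z : List Bool) (W : ℕ), C * (z.length + 1) ≤ W →
      urun U W z = f z := by
  obtain ⟨M, C, hM, hS⟩ := hf
  obtain ⟨C₁, hC₁⟩ := FromTM.exists_prog_computes M
  obtain ⟨N₂, ⟨e⟩⟩ := Finite.exists_equiv_fin (FromTM.Ix M.K)
  obtain ⟨N₁, ⟨g⟩⟩ := Finite.exists_equiv_fin (FromTM.progC M).Pos
  refine ⟨(encP e g (FromTM.progC M).instr, (g (FromTM.progC M).entry : ℕ),
    (e FromTM.Ix.io : ℕ), List.ofFn (fun _ : Fin N₂ => ([] : List Bool))),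
    2 * N₁ + N₂ * (4 * (C₁ * (C + 2) + 1) + 2) + 4, ?_⟩
  intro z W hW
  obtain ⟨n, hn, hy⟩ := hM z
  have h := hC₁ z (f z) n (z.length + C * (z.length + 1)) (by omega) hn hy
    (fun j k => (M.abs_head_le_of_visited ((hS z).2 k) j).trans (by push_cast; omega))
  obtain ⟨t, ht, hE⟩ := h
  refine urun_of_exec (FromTM.progC M) FromTM.Ix.io e g (B := (C₁ * (C + 2) + 1) *
    (z.length + 1)) (hE.mono ?_) ?_ ?_
  · have h1 : z.length + C * (z.length + 1) + 1 ≤ (C + 2) * (z.length + 1) := by
      have : (C + 2) * (z.length + 1) = C * (z.length + 1) + 2 * (z.length + 1) := by ring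
      omega
    have h2 := Nat.mul_le_mul_left C₁ h1
    have h3 : (C₁ * (C + 2) + 1) * (z.length + 1) =
      C₁ * ((C + 2) * (z.length + 1)) + (z.length + 1) := by ring
    omega
  · have h3 : (C₁ * (C + 2) + 1) * (z.length + 1) =
      C₁ * (C + 2) * (z.length + 1) + (z.length + 1) := by ring
    omega
  · refine le_trans ?_ hW
    have h4 : 1 ≤ z.length + 1 := by omega
    generalize z.length + 1 = L at h4 ⊢
    generalize C₁ * (C + 2) + 1 = K
    have e1 : (2 * N₁ + N₂ * (4 * K + 2) + 4) * L =
      2 * N₁ * L + N₂ * (4 * (K * L) + 2 * L) + 4 * L := by ring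
    rw [e1]
    have e2 : 2 * N₁ ≤ 2 * N₁ * L := Nat.le_mul_of_pos_right _ h4
    have e3 : N₂ * (4 * (K * L) + 2) ≤ N₂ * (4 * (K * L) + 2 * L) :=
      Nat.mul_le_mul_left _ (by omega)
    omega

end Pool.Agent.H7LS
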