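import Pool.Agent.PPS.Basic

/-!
# Functions computed in linear space by stack programs
-/

namespace Pool.Agent.H7LS

open Pool.Agent.PPS
open Pool.Agent.PPS.Prog

/-- `LT f`: the function `f` is computed by a stack program in linear space. -/
def LT {α β : Type} [Rep α] [Rep β] (f : α → β) : Prop :=
  ∃ (ι : Type) (_ : DecidableEq ι) (_ : Finite ι) (c : Prog ι) (io : ι) (C : ℕ),
    ∀ a, ∃ T, Run (C * size a) T c (one io (code a)) (one io (code (f a)))

/-- A program for `f` with its constant, as data. -/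
structure LImpl {α β : Type} [Rep α] [Rep β] (f : α → β) where
  ι : Type
  [dec : DecidableEq ι]
  [fin : Finite ι]
  c : Prog ι
  io : ι
  C : ℕ
  pos : 1 ≤ C
  spec : ∀ a, ∃ T, Run (C * size a) T c (one io (code a)) (one io (code (f a)))

attribute [instance] LImpl.dec LImpl.fin

variable {α β γ δ σ τ : Type} [Rep α] [Rep β] [Rep γ] [Rep δ] [Rep σ] [Rep τ]

theorem LT.impl {f : α → β} (h : LT f) : Nonempty (LImpl f) := by
  obtain ⟨ι, h1, h2, c, io, C, h3⟩ := h
  refine ⟨⟨ι, c, io, C + 1, by omega, ?_⟩⟩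
  intro a
  obtain ⟨T, hT⟩ := h3 a
  exact ⟨T, hT.mono (Nat.mul_le_mul_right _ (by omega)) le_rfl⟩

theorem LImpl.size_self {f : α → β} (I : LImpl f) (a : α) : size a ≤ I.C * size a :=
  Nat.le_mul_of_pos_left _ I.pos

theorem LImpl.size_le {f : α → β} (I : LImpl f) (a : α) : size (f a) ≤ I.C * size a := by
  obtain ⟨T, ⟨t, ht, hE⟩⟩ := I.spec a
  have := hE.length_le (by
    intro i
    unfold one
    split_ifs
    · exact I.size_self a
    · simp) I.io
  simpa [one, size] using this

theorem LT.exists_size_le {f : α → β} (h : LT f) :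
    ∃ C : ℕ, 1 ≤ C ∧ ∀ a, size (f a) ≤ C * size a := by
  obtain ⟨I⟩ := h.impl
  exact ⟨I.C, I.pos, I.size_le⟩

theorem run_callL {f : α → β} (I : LImpl f) {J : Type} [DecidableEq J] (e : I.ι → J)
    (he : Function.Injective e) (a t g : J) (hat : a ≠ t) (hag : a ≠ g) (htg : t ≠ g)
    (ha : ∀ i, e i ≠ a) (ht : ∀ i, e i ≠ t) (hg : ∀ i, e i ≠ g) (x : α) (R : Store J)
    (hRa : R a = code x) (hRt : R t = []) (hRe : ∀ i, R (e i) = []) {B : ℕ}
    (hB : I.C * size x ≤ B) (hRg : (R g).length < B) :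
    ∃ T, Run B T (callP I.c I.io e a t g) R (Function.update R a (code (f x))) := by
  obtain ⟨T, hT⟩ := I.spec x
  have hx : size x ≤ I.C * size x := I.size_self x
  have hfx : size (f x) ≤ I.C * size x := I.size_le x
  have hxl : (code x).length = size x := rfl
  have hfl : (code (f x)).length = size (f x) := rfl
  exact ⟨_, run_callRaw e he a t g hat hag htg ha ht hg (code x) (code (f x)) R hRa hRt hRe
    (hT.mono hB le_rfl) (by omega) (by omega) hRg⟩

/-- Call the first function on register `i`. -/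
def lcall1 {f₁ : α → β} {f₂ : γ → δ} (I₁ : LImpl f₁) (I₂ : LImpl f₂) (i : Rg) :
    Prog ((Rg ⊕ I₁.ι) ⊕ I₂.ι) :=
  callP I₁.c I₁.io (fun x => Sum.inl (Sum.inr x)) (jr i) (jr .t) (jr .f)

/-- Call the second function on register `i`. -/
def lcall2 {f₁ : α → β} {f₂ : γ → δ} (I₁ : LImpl f₁) (I₂ : LImpl f₂) (i : Rg) :
    Prog ((Rg ⊕ I₁.ι) ⊕ I₂.ι) :=
  callP I₂.c I₂.io (fun x => Sum.inr x) (jr i) (jr .t) (jr .f)

theorem run_lcall1 {f₁ : α → β} {f₂ : γ → δ} (I₁ : LImpl f₁) (I₂ : LImpl f₂) (i : Rg)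
    (hit : i ≠ .t) (hif : i ≠ .f) (x : α) (r : Store Rg) (hi : r i = code x)
    (ht : r .t = []) {B : ℕ} (hB : I₁.C * size x ≤ B) (hf : (r .f).length < B) :
    ∃ T, Run B T (lcall1 I₁ I₂ i) (EE r) (EE (Function.update r i (code (f₁ x)))) := by
  obtain ⟨T, h⟩ := run_callL I₁ (J := (Rg ⊕ I₁.ι) ⊕ I₂.ι)
    (fun x => Sum.inl (Sum.inr x)) (fun x y h => by simpa using h) (jr i) (jr .t) (jr .f)
    (by simpa using hit) (by simpa using hif) (by simp) (by simp) (by simp) (by simp) x
    (EE r) hi ht (fun _ => rfl) hB hf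
  rw [upd_EE] at h
  exact ⟨T, h⟩

theorem run_lcall2 {f₁ : α → β} {f₂ : γ → δ} (I₁ : LImpl f₁) (I₂ : LImpl f₂) (i : Rg)
    (hit : i ≠ .t) (hif : i ≠ .f) (x : γ) (r : Store Rg) (hi : r i = code x)
    (ht : r .t = []) {B : ℕ} (hB : I₂.C * size x ≤ B) (hf : (r .f).length < B) :
    ∃ T, Run B T (lcall2 I₁ I₂ i) (EE r) (EE (Function.update r i (code (f₂ x)))) := by
  obtain ⟨T, h⟩ := run_callL I₂ (J := (Rg ⊕ I₁.ι) ⊕ I₂.ι)
    (fun x => Sum.inr x) (fun x y h => by simpa using h) (jr i) (jr .t) (jr .f)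
    (by simpa using hit) (by simpa using hif) (by simp) (by simp) (by simp) (by simp) x
    (EE r) hi ht (fun _ => rfl) hB hf
  rw [upd_EE] at h
  exact ⟨T, h⟩

/-- A program over registers only. -/
theorem LT.of_rg {f : α → β} (c : Prog Rg) (C : ℕ)
    (h : ∀ a, ∃ T, Run (C * size a) T c (rg (code a) [] [] [] [] [])
      (rg (code (f a)) [] [] [] [] [])) : LT f := by
  refine ⟨Rg, inferInstance, inferInstance, c, .a, C, ?_⟩
  intro a
  have e : ∀ x, one Rg.a x = rg x [] [] [] [] [] := by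
    intro x; funext i; cases i <;> simp [one, rg]
  obtain ⟨T, hT⟩ := h a
  refine ⟨T, ?_⟩
  rw [e, e]
  exact hT

/-- A program over registers and two functions. -/
theorem LT.of_two {f₁ : α → β} {f₂ : γ → δ} {F : σ → τ} (I₁ : LImpl f₁) (I₂ : LImpl f₂)
    (c : Prog ((Rg ⊕ I₁.ι) ⊕ I₂.ι)) (C : ℕ)
    (h : ∀ a, ∃ T, Run (C * size a) T c (EE (rg (code a) [] [] [] [] []))
      (EE (rg (code (F a)) [] [] [] [] []))) :
    LT F := by
  refine ⟨(Rg ⊕ I₁.ι) ⊕ I₂.ι, inferInstance, inferInstance, c, jr .a, C, ?_⟩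
  intro a
  obtain ⟨T, h⟩ := h a
  refine ⟨T, ?_⟩
  rw [one_EE, one_EE]
  exact h

theorem LT.id : LT (fun a : α => a) := by
  refine LT.of_rg .skip 1 ?_
  intro a
  exact ⟨1, Run.skip le_rfl⟩

theorem LT.comp {g : β → γ} {f : α → β} (hg : LT g) (hf : LT f) :
    LT (fun a => g (f a)) := by
  obtain ⟨I₁⟩ := hf.impl
  obtain ⟨I₂⟩ := hg.impl
  refine LT.of_two I₁ I₂ (seq (lcall1 I₁ I₂ .a) (lcall2 I₁ I₂ .a))
    (I₁.C + I₂.C * I₁.C) ?_
  intro x
  have h1 : I₂.C * size (f x) ≤ I₂.C * (I₁.C * size x) :=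
    Nat.mul_le_mul_left _ (I₁.size_le x)
  have hx := size_pos x
  have hp : 0 < I₁.C * size x := Nat.mul_pos I₁.pos hx
  have hB : (I₁.C + I₂.C * I₁.C) * size x = I₁.C * size x + I₂.C * (I₁.C * size x) := by ring
  rw [hB]
  obtain ⟨T, h2⟩ := run_lcall1 I₁ I₂ .a (by simp) (by simp) x
    (rg (code x) [] [] [] [] []) rfl rfl (B := I₁.C * size x + I₂.C * (I₁.C * size x))
    (by omega) (by simp only [rg, List.length_nil]; omega)
  rw [upd_a] at h2
  obtain ⟨T', h2'⟩ := run_lcall2 I₁ I₂ .a (by simp) (by simp) (f x)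
    (rg (code (f x)) [] [] [] [] []) rfl rfl (B := I₁.C * size x + I₂.C * (I₁.C * size x))
    (by omega) (by simp only [rg, List.length_nil]; omega)
  rw [upd_a] at h2'
  exact ⟨T + T', Run.seq h2 h2'⟩

theorem LT.const (b : β) : LT (fun _ : α => b) := by
  refine LT.of_rg (seq (clear .a .f) (pushWord .a (code b))) (1 + (code b).length) ?_
  intro a
  have ha := size_pos a
  have e1 : (code b).length ≤ (code b).length * size a := Nat.le_mul_of_pos_right _ ha
  have e2 : (1 + (code b).length) * size a = size a + (code b).length * size a := by ring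
  rw [e2]
  have h1 := rg_clear_a (B := size a + (code b).length * size a) (T := 3 * size a + 5)
    (code a) [] [] [] [] [] (by simp; omega) (by simp [size])
  have h2 := run_pushWord (B := size a + (code b).length * size a)
    (T := (code b).length + 1) Rg.a (code b) (rg [] [] [] [] [] []) (by simp [rg]; omega) le_rfl
  rw [upd_a] at h2
  simp only [rg, List.append_nil] at h2
  exact ⟨_, Run.seq h1 h2⟩

theorem LT.pair {f₁ : α → β} {f₂ : α → γ} (h₁ : LT f₁) (h₂ : LT f₂) :
    LT (fun a => (f₁ a, f₂ a)) := by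
  obtain ⟨I₁⟩ := h₁.impl
  obtain ⟨I₂⟩ := h₂.impl
  refine LT.of_two I₁ I₂ (seq ((copyAB.map Sum.inl).map Sum.inl) (seq (lcall1 I₁ I₂ .b)
    (seq (lcall2 I₁ I₂ .a) (((seq (moveRev .b .t .f) (seq (moveRev .t .a .f)
      (push .a true))).map Sum.inl).map Sum.inl))))
    (I₁.C + I₂.C + 3) ?_
  intro x
  have hx₁ : size x ≤ I₁.C * size x := I₁.size_self x
  have hf₁ : size (f₁ x) ≤ I₁.C * size x := I₁.size_le x
  have hf₂ : size (f₂ x) ≤ I₂.C * size x := I₂.size_le x
  have e1 : (code x).length = size x := rfl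
  have e2 : (code (f₁ x)).length = size (f₁ x) := rfl
  have e3 : (code (f₂ x)).length = size (f₂ x) := rfl
  have hpos := size_pos x
  have hB0 : (I₁.C + I₂.C + 3) * size x = I₁.C * size x + I₂.C * size x + 3 * size x := by ring
  rw [hB0]
  generalize hB : I₁.C * size x + I₂.C * size x + 3 * size x = B
  have s1 := run_lift (ι₁ := I₁.ι) (ι₂ := I₂.ι) (rg_copyAB (B := B) (T := 9 * size x + 10)
    (code x) [] [] (by omega) (by omega))
  obtain ⟨T₁, s2⟩ := run_lcall1 I₁ I₂ .b (by simp) (by simp) x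
    (rg (code x) (code x) [] [] [] []) rfl rfl (B := B) (by omega)
    (by simp only [rg, List.length_nil]; omega)
  rw [upd_b] at s2
  obtain ⟨T₂, s3⟩ := run_lcall2 I₁ I₂ .a (by simp) (by simp) x
    (rg (code x) (code (f₁ x)) [] [] [] []) rfl rfl (B := B) (by omega)
    (by simp only [rg, List.length_nil]; omega)
  rw [upd_a] at s3
  have t1 := rg_moveRev_bt (B := B) (T := 4 * size (f₁ x) + 5) (code (f₂ x)) (code (f₁ x))
    [] [] [] [] (by simp; omega) (by simp; omega) (by omega)
  have t2 := rg_moveRev_ta (B := B) (T := 4 * size (f₁ x) + 5) (code (f₂ x)) []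
    [] ((code (f₁ x)).reverse ++ []) [] [] (by simp; omega) (by simp; omega) (by simp; omega)
  simp only [List.append_nil, List.reverse_reverse] at t1 t2
  have t3 : Run B 1 (push .a true) (rg (code (f₁ x) ++ code (f₂ x)) [] [] [] [] [])
      (rg (code (f₁ x, f₂ x)) [] [] [] [] []) := by
    refine Run.push' ?_ le_rfl ?_
    · simp [rg]; omega
    · rw [upd_a]; rfl
  have s4 := run_lift (ι₁ := I₁.ι) (ι₂ := I₂.ι) (Run.seq t1 (Run.seq t2 t3))
  exact ⟨_, Run.seq s1 (Run.seq s2 (Run.seq s3 s4))⟩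

theorem LT.snd : LT (fun p : α × β => p.2) := by
  refine LT.of_rg (seq (pop .a skip skip skip) (seq split (clear .b .f))) 18 ?_
  rintro ⟨x, y⟩
  have hs := size_pair x y
  have hx := size_pos x
  have hy := size_pos y
  have e1 : (Rep.rep x).code.length = size x := rfl
  have e2 : (code x).length = size x := rfl
  generalize hB : 18 * size (x, y) = B
  have h1 : Run B 2 (pop .a skip skip skip) (rg (code (x, y)) [] [] [] [] [])
      (rg (code x ++ code y) [] [] [] [] []) := by
    refine Run.popT (T := 1) (l := code x ++ code y) rfl ?_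
    rw [upd_a]; exact Run.skip le_rfl
  have h2 := rg_split (B := B) (T := 5 * size x + 2) (Rep.rep x) (code y) [] [] [] []
    (by simp; omega) (by omega) (by omega)
  have h3 := rg_clear_b (B := B) (T := 3 * size x + 5) (code y)
    ((Rep.rep x).code.reverse ++ []) [] [] [] [] (by simp; omega) (by simp; omega)
  exact ⟨_, Run.seq h1 (Run.seq h2 h3)⟩

theorem LT.fst : LT (fun p : α × β => p.1) := by
  refine LT.of_rg (seq (pop .a skip skip skip) (seq split (seq (clear .a .f)
    (moveRev .b .a .f)))) 32 ?_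
  rintro ⟨x, y⟩
  have hs := size_pair x y
  have hx := size_pos x
  have hy := size_pos y
  have e1 : (Rep.rep x).code.length = size x := rfl
  have e2 : (code x).length = size x := rfl
  have e3 : (code y).length = size y := rfl
  generalize hB : 32 * size (x, y) = B
  have h1 : Run B 2 (pop .a skip skip skip) (rg (code (x, y)) [] [] [] [] [])
      (rg (code x ++ code y) [] [] [] [] []) := by
    refine Run.popT (T := 1) (l := code x ++ code y) rfl ?_
    rw [upd_a]; exact Run.skip le_rfl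
  have h2 := rg_split (B := B) (T := 5 * size x + 2) (Rep.rep x) (code y) [] [] [] []
    (by simp; omega) (by omega) (by omega)
  have h3 := rg_clear_a (B := B) (T := 3 * size y + 5) (code y)
    ((Rep.rep x).code.reverse ++ []) [] [] [] [] (by simp; omega) (by omega)
  have h4 := rg_moveRev_ba (B := B) (T := 4 * size x + 5) []
    ((Rep.rep x).code.reverse ++ []) [] [] [] [] (by simp; omega) (by simp; omega)
    (by simp; omega)
  simp only [List.append_nil, List.reverse_reverse] at h2 h3 h4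
  exact ⟨_, Run.seq h1 (Run.seq h2 (Run.seq h3 h4))⟩

/-- Case distinction on the code. -/
theorem LT.caseD {F : σ → τ} {f₁ : α → τ} {f₂ : γ → τ} (h₁ : LT f₁) (h₂ : LT f₂)
    (h : ∀ x : σ, (∃ y : α, code x = true :: false :: code y ∧ F x = f₁ y) ∨
      (∃ z : γ, code x = code z ∧ (∃ l, code z = true :: true :: l) ∧ F x = f₂ z)) :
    LT F := by
  obtain ⟨I₁⟩ := h₁.impl
  obtain ⟨I₂⟩ := h₂.impl
  refine LT.of_two I₁ I₂ (pop (jr .a) skip skip (pop (jr .a) skip (lcall1 I₁ I₂ .a)
    (seq (push (jr .a) true) (seq (push (jr .a) true) (lcall2 I₁ I₂ .a)))))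
    (I₁.C + I₂.C + 3) ?_
  intro x
  have hpos := size_pos x
  have hB0 : (I₁.C + I₂.C + 3) * size x = I₁.C * size x + I₂.C * size x + 3 * size x := by ring
  rw [hB0]
  generalize hB : I₁.C * size x + I₂.C * size x + 3 * size x = B
  rcases h x with ⟨y, h1, h2⟩ | ⟨z, h0, ⟨l, h1⟩, h2⟩
  · have hy : size y ≤ size x := by
      unfold size; rw [h1]; simp; omega
    have hyp := Nat.mul_le_mul_left I₁.C hy
    obtain ⟨T₁, s2⟩ := run_lcall1 I₁ I₂ .a (by simp) (by simp) y
      (rg (code y) [] [] [] [] []) rfl rfl (B := B) (by omega)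
      (by simp only [rg, List.length_nil]; omega)
    rw [upd_a] at s2
    refine ⟨T₁ + 1 + 1, ?_⟩
    rw [h1]
    refine Run.popT (l := false :: code y) rfl ?_
    rw [upd_EE, upd_a]
    refine Run.popF (l := code y) rfl ?_
    rw [upd_EE, upd_a, h2]
    exact s2
  · have hzx : size z = size x := by unfold size; rw [h0]
    obtain ⟨T₁, s2⟩ := run_lcall2 I₁ I₂ .a (by simp) (by simp) z
      (rg (code z) [] [] [] [] []) rfl rfl (B := B) (by rw [hzx]; omega)
      (by simp only [rg, List.length_nil]; omega)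
    rw [upd_a] at s2
    have hl : l.length + 2 = size x := by
      rw [← hzx]; unfold size; rw [h1]; simp
    refine ⟨1 + (1 + T₁) + 1 + 1, ?_⟩
    rw [h0, h1]
    refine Run.popT (l := true :: l) rfl ?_
    rw [upd_EE, upd_a]
    refine Run.popT (l := l) rfl ?_
    rw [upd_EE, upd_a, h2]
    refine Run.seq (Run.push' (S' := EE (rg (true :: l) [] [] [] [] [])) ?_ le_rfl ?_)
      (Run.seq (Run.push' (S' := EE (rg (code z) [] [] [] [] [])) ?_ le_rfl ?_) s2)
    · rw [EE_jr]; simp only [rg]; omega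
    · rw [upd_EE, upd_a]; rfl
    · rw [EE_jr]; simp only [rg, List.length_cons]; omega
    · rw [upd_EE, upd_a, h1]; rfl

/-! ### While loops -/

/-- The body of a while loop with step `s` and test `c`. -/
def lwbody {s : σ → σ} {c : σ → Bool} (I₁ : LImpl s) (I₂ : LImpl c) :
    Prog ((Rg ⊕ I₁.ι) ⊕ I₂.ι) :=
  seq ((copyAB.map Sum.inl).map Sum.inl) (seq (lcall2 I₁ I₂ .b)
    (pop (jr .b) skip (push (jr .g) false) (seq (pop (jr .b) skip skip skip)
      (seq (pop (jr .b) skip skip skip) (seq (lcall1 I₁ I₂ .a) (push (jr .g) true))))))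

theorem run_lwbody {s : σ → σ} {c : σ → Bool} (I₁ : LImpl s) (I₂ : LImpl c) (y : σ) {B : ℕ}
    (hB : I₁.C * size y + I₂.C * size y + 3 * size y ≤ B) :
    ∃ T, Run B T (lwbody I₁ I₂) (EE (rg (code y) [] [] [] [] []))
      (EE (if c y then rg (code (s y)) [] [] [] [] [true]
        else rg (code y) [] [] [] [] [false])) := by
  have hy : size y ≤ I₁.C * size y := I₁.size_self _
  have hy' : size y ≤ I₂.C * size y := I₂.size_self _
  have hpos := size_pos y
  have e1 : (code y).length = size y := rfl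
  have s1 := run_lift (ι₁ := I₁.ι) (ι₂ := I₂.ι) (rg_copyAB (B := B) (T := 9 * size y + 10)
    (code y) [] [] (by omega) (by omega))
  obtain ⟨T₂, s2⟩ := run_lcall2 I₁ I₂ .b (by simp) (by simp) y
    (rg (code y) (code y) [] [] [] []) rfl rfl (B := B) (by omega)
    (by simp only [rg, List.length_nil]; omega)
  rw [upd_b] at s2
  cases hc : c y with
  | false =>
    rw [hc, code_false] at s2
    simp only [Bool.false_eq_true, if_false]
    refine ⟨(9 * size y + 10) + (T₂ + (1 + 1)), Run.seq s1 (Run.seq s2 (Run.popF (l := [])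
      rfl ?_))⟩
    rw [upd_EE, upd_b]
    refine Run.push' ?_ le_rfl ?_
    · rw [EE_jr]; simp only [rg, List.length_nil]; omega
    · rw [upd_EE, upd_g]; rfl
  | true =>
    rw [hc, code_true] at s2
    simp only [if_true]
    obtain ⟨T₁, s3⟩ := run_lcall1 I₁ I₂ .a (by simp) (by simp) y
      (rg (code y) [] [] [] [] []) rfl rfl (B := B) (by omega)
      (by simp only [rg, List.length_nil]; omega)
    rw [upd_a] at s3
    refine ⟨(9 * size y + 10) + (T₂ + ((1 + 1) + ((1 + 1) + (T₁ + 1)) + 1)),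
      Run.seq s1 (Run.seq s2 (Run.popT (l := [false, false])
      rfl ?_))⟩
    rw [upd_EE, upd_b]
    refine Run.seq (S' := EE (rg (code y) [false] [] [] [] [])) (Run.popF (l := [false])
      rfl ?_) (Run.seq (S' := EE (rg (code y) [] [] [] [] [])) (Run.popF (l := []) rfl ?_)
      (Run.seq s3 (Run.push' ?_ le_rfl ?_)))
    · rw [upd_EE, upd_b]; exact Run.skip le_rfl
    · rw [upd_EE, upd_b]; exact Run.skip le_rfl
    · rw [EE_jr]; simp only [rg, List.length_nil]; omega
    · rw [upd_EE, upd_g]; rfl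

theorem LT.whileSub {s : σ → σ} {c : σ → Bool} (hs : LT s) (hc : LT c) (P : σ → Prop)
    (N : {y // P y} → ℕ) (Q : ℕ)
    (hsz : ∀ y k, k ≤ N y → size (s^[k] y.1) ≤ Q * size y.1)
    (h1 : ∀ y k, k < N y → c (s^[k] y.1) = true) (h2 : ∀ y, c (s^[N y] y.1) = false) :
    LT (fun y : {y // P y} => s^[N y] y.1) := by
  obtain ⟨I₁⟩ := hs.impl
  obtain ⟨I₂⟩ := hc.impl
  refine LT.of_two I₁ I₂ (seq (push (jr .g) true) (loop (jr .g) (lwbody I₁ I₂)))
    ((I₁.C + I₂.C + 3) * Q + 1) ?_
  intro y
  have hpos : 0 < size y := size_pos y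
  have hsy : size y = size y.1 := rfl
  have hB0 : ((I₁.C + I₂.C + 3) * Q + 1) * size y =
      (I₁.C + I₂.C + 3) * (Q * size y.1) + size y := by rw [← hsy]; ring
  rw [hB0]
  obtain ⟨W, hW⟩ : ∃ W, W = (I₁.C + I₂.C + 3) * (Q * size y.1) := ⟨_, rfl⟩
  rw [← hW]
  generalize hB : W + size y = B
  have hbody : ∀ k ≤ N y, I₁.C * size (s^[k] y.1) + I₂.C * size (s^[k] y.1) +
      3 * size (s^[k] y.1) ≤ W := by
    intro k hk
    have h3 := hsz y k hk
    rw [hW]
    have h4 : (I₁.C + I₂.C + 3) * size (s^[k] y.1) ≤ (I₁.C + I₂.C + 3) * (Q * size y.1) :=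
      Nat.mul_le_mul_left _ h3
    have h5 : (I₁.C + I₂.C + 3) * size (s^[k] y.1) =
      I₁.C * size (s^[k] y.1) + I₂.C * size (s^[k] y.1) + 3 * size (s^[k] y.1) := by ring
    omega
  have key : ∀ j ≤ N y, ∃ T, Run B T (loop (jr .g) (lwbody I₁ I₂))
      (EE (rg (code (s^[N y - j] y.1)) [] [] [] [] [true]))
      (EE (rg (code (s^[N y] y.1)) [] [] [] [] [])) := by
    intro j
    induction j with
    | zero =>
      intro hj
      have hb := hbody (N y) le_rfl
      obtain ⟨T, r1⟩ := run_lwbody I₁ I₂ (s^[N y] y.1) (B := B) (by omega)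
      rw [h2] at r1
      simp only [Bool.false_eq_true, if_false] at r1
      refine ⟨T + 1 + 1, ?_⟩
      rw [Nat.sub_zero]
      refine Run.loopT (S' := EE (rg (code (s^[N y] y.1)) [] [] [] [] [false])) (l := [])
        rfl ?_ (Run.loopF' (l := []) rfl le_rfl ?_)
      · rw [upd_EE, upd_g]; exact r1
      · rw [upd_EE, upd_g]
    | succ j ih =>
      intro hj
      obtain ⟨T', r2⟩ := ih (by omega)
      have hb := hbody (N y - (j + 1)) (by omega)
      obtain ⟨T, r1⟩ := run_lwbody I₁ I₂ (s^[N y - (j + 1)] y.1) (B := B) (by omega)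
      rw [h1 y (N y - (j + 1)) (by omega)] at r1
      simp only [if_true] at r1
      have e : s (s^[N y - (j + 1)] y.1) = s^[N y - j] y.1 := by
        rw [← Function.iterate_succ_apply' s, show (N y - (j + 1)).succ = N y - j by omega]
      rw [e] at r1
      refine ⟨T + T' + 1, Run.loopT (l := []) rfl ?_ r2⟩
      rw [upd_EE, upd_g]; exact r1
  obtain ⟨T, r⟩ := key (N y) le_rfl
  rw [Nat.sub_self] at r
  refine ⟨1 + T, Run.seq (Run.push' ?_ le_rfl ?_) r⟩
  · rw [EE_jr]; simp only [rg, List.length_nil]; omega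
  · rw [upd_EE, upd_g]; rfl

/-! ### Equality -/

theorem LT.eqCode : LT (fun p : α × α => decide (code p.1 = code p.2)) := by
  refine LT.of_rg (seq (pop .a skip skip skip) (seq split (seq (moveRev .b .c .f)
    (seq (push .g true) (seq cmp (seq (clear .a .f) (seq (clear .c .f)
    (pop .b skip (push .a false) (seq (push .a false) (seq (push .a false)
      (push .a true))))))))))) 60 ?_
  rintro ⟨x, y⟩
  have hs := size_pair x y
  have hx := size_pos x
  have hy := size_pos y
  have e1 : (Rep.rep x).code.length = size x := rfl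
  have e2 : (code x).length = size x := rfl
  have e3 : (code y).length = size y := rfl
  generalize hB : 60 * size (x, y) = B
  have h1 : Run B 2 (pop .a skip skip skip) (rg (code (x, y)) [] [] [] [] [])
      (rg (code x ++ code y) [] [] [] [] []) := by
    refine Run.popT (T := 1) (l := code x ++ code y) rfl ?_
    rw [upd_a]; exact Run.skip le_rfl
  have h2 := rg_split (B := B) (T := 5 * size x + 2) (Rep.rep x) (code y) [] [] [] []
    (by simp; omega) (by omega) (by omega)
  have h3 := rg_moveRev_bc (B := B) (T := 4 * size x + 5) (code y)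
    ((Rep.rep x).code.reverse ++ []) [] [] [] [] (by simp; omega) (by simp; omega)
    (by simp; omega)
  simp only [List.append_nil, List.reverse_reverse] at h2 h3
  have h4 : Run B 1 (push .g true) (rg (code y) [] (Rep.rep x).code [] [] [])
      (rg (code y) [] (Rep.rep x).code [] [] [true]) :=
    Run.push' (by simp [rg]; omega) le_rfl (by rw [upd_g]; rfl)
  obtain ⟨a', c', ha, hc, h5⟩ := rg_cmp (B := B) (by omega) [] [] (code y) (Rep.rep x).code
  have h6 := rg_clear_a (B := B) (T := 3 * size y + 5) a' [decide (code y = (Rep.rep x).code)]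
    c' [] [] [] (by simp; omega) (by omega)
  have h7 := rg_clear_c (B := B) (T := 3 * size x + 5) [] [decide (code y = (Rep.rep x).code)]
    c' [] [] [] (by simp; omega) (by omega)
  have h8 : Run B 4 (pop .b skip (push .a false) (seq (push .a false) (seq (push .a false)
      (push .a true)))) (rg [] [decide (code y = (Rep.rep x).code)] [] [] [] [])
      (rg (code (decide (code x = code y))) [] [] [] [] []) := by
    have e : decide (code x = code y) = decide (code y = (Rep.rep x).code) :=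
      decide_eq_decide.mpr eq_comm
    rw [e]
    cases decide (code y = (Rep.rep x).code) with
    | false =>
      refine Run.mono (T := 1 + 1) (Run.popF (l := []) rfl ?_) le_rfl (by omega)
      rw [upd_b]
      exact Run.push' (by simp [rg]; omega) le_rfl (by rw [upd_a]; rfl)
    | true =>
      refine Run.popT (T := 3) (l := []) rfl ?_
      rw [upd_b]
      exact Run.seq (T := 1) (T' := 2) (Run.push' (S' := rg [false] [] [] [] [] [])
        (by simp [rg]; omega) le_rfl (by rw [upd_a]; rfl))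
        (Run.seq (T := 1) (T' := 1) (Run.push' (S' := rg [false, false] [] [] [] [] [])
        (by simp [rg]; omega) le_rfl (by rw [upd_a]; rfl))
        (Run.push' (by simp [rg]; omega) le_rfl (by rw [upd_a]; rfl)))
  exact ⟨_, Run.seq h1 (Run.seq h2 (Run.seq h3 (Run.seq h4 (Run.seq h5 (Run.seq h6
    (Run.seq h7 h8))))))⟩

end Pool.Agent.H7LS
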