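import Pool.Agent.H7LS.Order

/-!
# Massively parallel machines: basic facts
-/

namespace Pool.Agent.H7LS

open Pool.Agent.PPS

theorem length_fit (k : ℕ) (w : List Bool) : (fit k w).length = k := by
  simp [fit]

theorem fit_of_length {k : ℕ} {w : List Bool} (h : w.length = k) : fit k w = w := by
  subst h
  simp [fit]

theorem length_mem (M : PMach) (n m s : ℕ) (x α : List Bool) (r : ℕ) (i : List Bool) :
    (M.mem n m s x α r i).length = s := by
  cases r <;> exact length_fit _ _

theorem length_blk (w : List Bool) : (blk w).length = 2 * w.length + 1 := by
  unfold blk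
  rw [List.length_append, List.length_flatMap]
  simp
  ring

variable {α β γ δ σ τ : Type} [Rep α] [Rep β] [Rep γ] [Rep δ] [Rep σ] [Rep τ]

@[fun_prop]
theorem LT.fit' {k : α → ℕ} {w : α → List Bool} (hk : LT k) (hw : LT w) :
    LT (fun a => fit (k a) (w a)) := by
  unfold fit
  fun_prop

theorem foldl_blk (w acc : List Bool) :
    w.foldl (fun acc b => b :: true :: acc) acc =
      (w.flatMap (fun b => [true, b])).reverse ++ acc := by
  induction w generalizing acc with
  | nil => rfl
  | cons b w ih => rw [List.foldl_cons, ih]; simp

@[fun_prop]
theorem LT.blk' {w : α → List Bool} (hw : LT w) : LT (fun a => blk (w a)) := by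
  obtain ⟨C, hC0, hC⟩ := hw.exists_size_le
  have := LT.foldl (σ := List Bool) (ini := fun _ : α => [])
    (s := fun z : α × (List Bool × Bool) => z.2.2 :: true :: z.2.1) hw (by fun_prop)
    (by fun_prop) (4 * C + 1) (by
      intro a k
      show size (((w a).take k).foldl (fun acc b => b :: true :: acc) []) ≤ _
      rw [foldl_blk, List.append_nil, size_reverse]
      have h1 := size_word_le (((w a).take k).flatMap (fun b => [true, b]))
      have h2 : (((w a).take k).flatMap (fun b => [true, b])).length =
          2 * ((w a).take k).length := by
        rw [List.length_flatMap]; simp; ring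
      have h3 : ((w a).take k).length ≤ (w a).length := by simp
      have h4 := le_size_word (w a)
      have h5 := hC a
      have h6 := size_pos a
      have h7 : (4 * C + 1) * size a = 4 * (C * size a) + size a := by ring
      omega)
  have h2 : LT (fun a => (((w a).foldl (fun acc b => b :: true :: acc) []).reverse ++
      [false])) := by fun_prop
  refine LT.of_eq h2 ?_
  intro a
  rw [foldl_blk]
  simp [blk]

end Pool.Agent.H7LS
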