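import Pool.Agent.H7LS.Codes

/-!
# All words of a given length, in lexicographic order
-/

namespace Pool.Agent.H7LS

open Pool.Agent.PPS

variable {α β γ δ σ τ : Type} [Rep α] [Rep β] [Rep γ] [Rep δ] [Rep σ] [Rep τ]

/-- All words of length `L`, in lexicographic order. -/
def allB : ℕ → List (List Bool)
  | 0 => [[]]
  | L + 1 => (allB L).map (fun w => false :: w) ++ (allB L).map (fun w => true :: w)

theorem mem_allB {L : ℕ} {w : List Bool} : w ∈ allB L ↔ w.length = L := by
  induction L generalizing w with
  | zero => simp [allB]
  | succ L ih =>
    simp only [allB, List.mem_append, List.mem_map, ih]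
    constructor
    · rintro (⟨u, hu, rfl⟩ | ⟨u, hu, rfl⟩) <;> simp [hu]
    · intro h
      cases w with
      | nil => simp at h
      | cons b w =>
        have h' : w.length = L := by simpa using h
        cases b
        · exact Or.inl ⟨w, h', rfl⟩
        · exact Or.inr ⟨w, h', rfl⟩

theorem nodup_allB (L : ℕ) : (allB L).Nodup := by
  induction L with
  | zero => simp [allB]
  | succ L ih =>
    simp only [allB]
    rw [List.nodup_append]
    refine ⟨ih.map (by intro a b h; simpa using h), ih.map (by intro a b h; simpa using h), ?_⟩
    intro a ha b hb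
    rw [List.mem_map] at ha hb
    obtain ⟨u, -, rfl⟩ := ha
    obtain ⟨v, -, rfl⟩ := hb
    simp

theorem length_allB (L : ℕ) : (allB L).length = 2 ^ L := by
  induction L with
  | zero => rfl
  | succ L ih => simp [allB, ih]; ring

theorem allB_add (a b : ℕ) :
    allB (a + b) = (allB a).flatMap (fun u => (allB b).map (fun v => u ++ v)) := by
  induction a with
  | zero => simp [allB]
  | succ a ih =>
    rw [Nat.succ_add]
    simp only [allB, ih, List.flatMap_append, List.map_flatMap, List.flatMap_map, List.map_map]
    rfl

theorem wordN_succ' (L t : ℕ) :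
    wordN (L + 1) t = wordN L t ++ [decide (t / 2 ^ L % 2 = 1)] := by
  induction L generalizing t with
  | zero => simp [wordN]
  | succ L ih =>
    rw [wordN, ih (t / 2)]
    have : t / 2 / 2 ^ L = t / 2 ^ (L + 1) := by
      rw [Nat.div_div_eq_div_mul, pow_succ, Nat.mul_comm]
    rw [this]
    rfl

theorem wordN_add_pow (L t : ℕ) : wordN L (2 ^ L + t) = wordN L t := by
  induction L generalizing t with
  | zero => rfl
  | succ L ih =>
    have h1 : (2 ^ (L + 1) + t) % 2 = t % 2 := by rw [pow_succ]; omega
    have h2 : (2 ^ (L + 1) + t) / 2 = 2 ^ L + t / 2 := by rw [pow_succ]; omega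
    simp only [wordN, h1, h2, ih]

theorem allW_eq (L : ℕ) : allW L = (allB L).map List.reverse := by
  induction L with
  | zero => rfl
  | succ L ih =>
    have h1 : allW (L + 1) = (allW L).map (fun w => w ++ [false]) ++
        (allW L).map (fun w => w ++ [true]) := by
      unfold allW
      have : 2 ^ (L + 1) = 2 ^ L + 2 ^ L := by ring
      rw [this, List.range_add, List.map_append, List.map_map, List.map_map, List.map_map]
      congr 1
      · refine List.map_congr_left ?_
        intro t ht
        rw [List.mem_range] at ht
        rw [wordN_succ', Nat.div_eq_of_lt ht]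
        simp
      · refine List.map_congr_left ?_
        intro t ht
        rw [List.mem_range] at ht
        simp only [Function.comp_apply]
        rw [wordN_succ', wordN_add_pow]
        have : (2 ^ L + t) / 2 ^ L = 1 := by
          rw [Nat.add_div_left _ (Nat.two_pow_pos L), Nat.div_eq_of_lt ht]
        rw [this]
        simp
    rw [h1, ih]
    simp only [allB, List.map_append, List.map_map]
    congr 1
    · refine List.map_congr_left ?_
      intro t _; simp
    · refine List.map_congr_left ?_
      intro t _; simp

theorem LT.foldAll {ini : α → σ} {s : α × (σ × List Bool) → σ} {L : α → ℕ} (hL : LT L)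
    (hini : LT ini) (hs : LT s) (Inv : α → σ → Prop) (Q : ℕ)
    (hsz : ∀ a y, Inv a y → size y ≤ Q * size a) (h0 : ∀ a, Inv a (ini a))
    (hstep : ∀ a y w, w.length = L a → Inv a y → Inv a (s (a, (y, w)))) :
    LT (fun a => (allB (L a)).foldl (fun y w => s (a, (y, w))) (ini a)) := by
  have h1 : LT (fun z : α × (σ × List Bool) => s (z.1, (z.2.1, z.2.2.reverse))) :=
    hs.comp (f := fun z : α × (σ × List Bool) => (z.1, (z.2.1, z.2.2.reverse))) (by fun_prop)
  have key := LT.foldWords (s := fun z : α × (σ × List Bool) => s (z.1, (z.2.1, z.2.2.reverse)))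
    hL hini h1 Inv Q hsz h0 (by
      intro a y w hw hy
      exact hstep a y _ (by simpa using hw) hy)
  refine LT.of_eq key ?_
  intro a
  rw [allW_eq, List.foldl_map]
  simp only [List.reverse_reverse]

/-- The word consists of zeros. -/
def allF (w : List Bool) : Bool := decide (w = List.replicate w.length false)

@[fun_prop]
theorem LT.allF' {w : α → List Bool} (hw : LT w) : LT (fun a => allF (w a)) := by
  unfold allF
  fun_prop

theorem allF_nil : allF [] = true := rfl

theorem allF_false (w : List Bool) : allF (false :: w) = allF w := by
  simp [allF, List.replicate_succ]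

theorem allF_true (w : List Bool) : allF (true :: w) = false := by
  simp [allF, List.replicate_succ]

/-- A fold whose step acts on the first word only. -/
theorem foldl_once {κ : Type} (f : κ → κ) (L : ℕ) (y : κ) :
    (allB L).foldl (fun y w => bif allF w then f y else y) y = f y := by
  have hno : ∀ (l : List (List Bool)) (y : κ),
      (l.map (fun w => true :: w)).foldl (fun y w => bif allF w then f y else y) y = y := by
    intro l
    induction l with
    | nil => intro y; rfl
    | cons w l ih =>
      intro y
      rw [List.map_cons, List.foldl_cons, allF_true]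
      exact ih y
  induction L with
  | zero => rfl
  | succ L ih =>
    simp only [allB, List.foldl_append]
    rw [hno, List.foldl_map]
    simp only [allF_false]
    exact ih

/-- The set of all words of length `L`. -/
def WF (L : ℕ) : Finset (List Bool) := (allB L).toFinset

theorem mem_WF {L : ℕ} {w : List Bool} : w ∈ WF L ↔ w.length = L := by
  simp [WF, mem_allB]

theorem card_WF (L : ℕ) : (WF L).card = 2 ^ L := by
  rw [WF, List.toFinset_card_of_nodup (nodup_allB L), length_allB]

theorem sum_allB {R : Type} [AddCommMonoid R] (L : ℕ) (f : List Bool → R) :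
    ((allB L).map f).sum = ∑ w ∈ WF L, f w :=
  (List.sum_toFinset f (nodup_allB L)).symm

theorem sum_WF_add {R : Type} [AddCommMonoid R] (a b : ℕ) (f : List Bool → R) :
    ∑ w ∈ WF (a + b), f w = ∑ u ∈ WF a, ∑ v ∈ WF b, f (u ++ v) := by
  rw [← sum_allB, ← sum_allB, allB_add]
  simp only [← sum_allB]
  generalize allB a = l
  induction l with
  | nil => simp
  | cons u l ih =>
    simp only [List.flatMap_cons, List.map_append, List.sum_append, List.map_cons,
      List.sum_cons, ih, List.map_map]
    rfl

theorem sum_WF_succ {R : Type} [AddCommMonoid R] (L : ℕ) (f : List Bool → R) :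
    ∑ w ∈ WF (L + 1), f w = ∑ w ∈ WF L, f (false :: w) + ∑ w ∈ WF L, f (true :: w) := by
  rw [← sum_allB, ← sum_allB, ← sum_allB]
  simp only [allB, List.map_append, List.sum_append, List.map_map]
  rfl

end Pool.Agent.H7LS
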