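import Pool.Agent.H7LS.Model
import Pool.Agent.H7LS.Interp
import Pool.Agent.H7LS.BinArith

/-!
# Simulation of massively parallel machines in linear space: the algorithm

The algorithm is the tree evaluation procedure of Cook and Mertz, with registers that hold
residues modulo a prime number `q`.
-/

namespace Pool.Agent.H7LS

open Pool.Agent.PPS

variable {α β γ δ σ τ : Type} [Rep α] [Rep β] [Rep γ] [Rep δ] [Rep σ] [Rep τ]

/-! ### Blocks of registers -/

/-- The maximal size of a list of words with given lengths. -/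
def bmax (B : List (List Bool)) : ℕ := (B.map (fun w => 4 * w.length + 2)).sum + 1

theorem bmax_cons (w : List Bool) (B : List (List Bool)) :
    bmax (w :: B) = bmax B + (4 * w.length + 2) := by
  simp only [bmax, List.map_cons, List.sum_cons]; omega

theorem size_le_bmax (B : List (List Bool)) : size B ≤ bmax B := by
  induction B with
  | nil => simp [size_nil, bmax]
  | cons w B ih =>
    rw [size_cons, bmax_cons]
    have := size_word_le w
    omega

theorem bmax_le_size (B : List (List Bool)) : bmax B ≤ 2 * size B := by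
  induction B with
  | nil => simp [size_nil, bmax]
  | cons w B ih =>
    rw [size_cons, bmax_cons]
    have := le_size_word w
    omega

/-- Three blocks of registers. -/
abbrev RR := List (List Bool) × List (List Bool) × List (List Bool)

/-- Read a block. -/
def getB (t : ℕ) (ρ : RR) : List (List Bool) :=
  bif decide (t = 0) then ρ.1 else bif decide (t = 1) then ρ.2.1 else ρ.2.2

/-- Write a block. -/
def setB (t : ℕ) (B : List (List Bool)) (ρ : RR) : RR :=
  bif decide (t = 0) then (B, ρ.2) else bif decide (t = 1) then (ρ.1, B, ρ.2.2)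
    else (ρ.1, ρ.2.1, B)

/-- The next block. -/
def nx (t : ℕ) : ℕ := bif decide (t = 0) then 1 else bif decide (t = 1) then 2 else 0

@[fun_prop]
theorem LT.getB' {t : α → ℕ} {ρ : α → RR} (ht : LT t) (hρ : LT ρ) :
    LT (fun a => getB (t a) (ρ a)) := by
  unfold getB; fun_prop

@[fun_prop]
theorem LT.setB' {t : α → ℕ} {B : α → List (List Bool)} {ρ : α → RR} (ht : LT t)
    (hB : LT B) (hρ : LT ρ) : LT (fun a => setB (t a) (B a) (ρ a)) := by
  unfold setB; fun_prop

@[fun_prop]
theorem LT.nx' {t : α → ℕ} (ht : LT t) : LT (fun a => nx (t a)) := by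
  unfold nx; fun_prop

/-- The order on triples of blocks given by `bmax`. -/
def RLe (ρ ρ' : RR) : Prop :=
  bmax ρ.1 ≤ bmax ρ'.1 ∧ bmax ρ.2.1 ≤ bmax ρ'.2.1 ∧ bmax ρ.2.2 ≤ bmax ρ'.2.2

theorem RLe.refl (ρ : RR) : RLe ρ ρ := ⟨le_rfl, le_rfl, le_rfl⟩

theorem RLe.trans {ρ ρ' ρ'' : RR} (h : RLe ρ ρ') (h' : RLe ρ' ρ'') : RLe ρ ρ'' :=
  ⟨h.1.trans h'.1, h.2.1.trans h'.2.1, h.2.2.trans h'.2.2⟩

theorem RLe.size_le {ρ ρ' : RR} (h : RLe ρ ρ') : size ρ ≤ 2 * size ρ' := by
  obtain ⟨A, B, C⟩ := ρ
  obtain ⟨A', B', C'⟩ := ρ'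
  obtain ⟨h1, h2, h3⟩ := h
  simp only at h1 h2 h3
  simp only [size_pair]
  have := size_le_bmax A
  have := size_le_bmax B
  have := size_le_bmax C
  have := bmax_le_size A'
  have := bmax_le_size B'
  have := bmax_le_size C'
  omega

theorem RLe.setB {t : ℕ} {B : List (List Bool)} {ρ : RR} (h : bmax B ≤ bmax (getB t ρ)) :
    RLe (setB t B ρ) ρ := by
  unfold getB at h
  unfold H7LS.setB
  by_cases h0 : t = 0
  · simp only [h0, decide_true, cond_true] at *
    exact ⟨h, le_rfl, le_rfl⟩
  · simp only [h0, decide_false, cond_false] at *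
    by_cases h1 : t = 1
    · simp only [h1, decide_true, cond_true] at *
      exact ⟨le_rfl, h, le_rfl⟩
    · simp only [h1, decide_false, cond_false] at *
      exact ⟨le_rfl, le_rfl, h⟩

/-! ### Chunks -/

/-- The chunks of length `w` of the word `v`, in the shape of the block `B`. -/
def chB (w : ℕ) : List (List Bool) → List Bool → List (List Bool)
  | [], _ => []
  | b :: B, v => fit b.length (v.take w) :: chB w B (v.drop w)

theorem bmax_chB (w : ℕ) (B : List (List Bool)) (v : List Bool) :
    bmax (chB w B v) = bmax B := by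
  induction B generalizing v with
  | nil => rfl
  | cons b B ih =>
    show bmax (fit b.length (v.take w) :: chB w B (v.drop w)) = _
    rw [bmax_cons, bmax_cons, ih, length_fit]

theorem bmax_take_le (B : List (List Bool)) (k : ℕ) : bmax (B.take k) ≤ bmax B := by
  induction B generalizing k with
  | nil => simp
  | cons b B ih =>
    cases k with
    | zero => rw [List.take_zero, bmax_cons]; simp [bmax]; omega
    | succ k =>
      rw [List.take_succ_cons, bmax_cons, bmax_cons]
      have := ih k
      omega

theorem foldl_chB (w : ℕ) (B : List (List Bool)) (v : List Bool) (acc : List (List Bool)) :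
    (B.foldl (fun (y : List Bool × List (List Bool)) b =>
      (y.1.drop w, fit b.length (y.1.take w) :: y.2)) (v, acc)).2 =
      (chB w B v).reverse ++ acc := by
  induction B generalizing v acc with
  | nil => rfl
  | cons b B ih => rw [List.foldl_cons]; simp only; rw [ih]; simp [chB]

@[fun_prop]
theorem LT.chB' {w : α → ℕ} {B : α → List (List Bool)} {v : α → List Bool} (hw : LT w)
    (hB : LT B) (hv : LT v) : LT (fun a => chB (w a) (B a) (v a)) := by
  obtain ⟨C, hC0, hC⟩ := hB.exists_size_le
  obtain ⟨C', hC0', hC'⟩ := hv.exists_size_le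
  have h : LT (fun a => (B a).foldl (fun (y : List Bool × List (List Bool)) b =>
      (y.1.drop (w a), fit b.length (y.1.take (w a)) :: y.2)) (v a, [])) := by
    refine LT.foldl (l := B) (ini := fun a => (v a, []))
      (s := fun z : α × ((List Bool × List (List Bool)) × List Bool) =>
        (z.2.1.1.drop (w z.1), fit z.2.2.length (z.2.1.1.take (w z.1)) :: z.2.1.2)) hB
      (by fun_prop) (by fun_prop) (2 * C + C' + 1) ?_
    intro a k
    show size (((B a).take k).foldl (fun (y : List Bool × List (List Bool)) b =>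
      (y.1.drop (w a), fit b.length (y.1.take (w a)) :: y.2)) (v a, [])) ≤ _
    have h1 := foldl_chB (w a) ((B a).take k) (v a) []
    have h2 : ∀ (l : List (List Bool)) (y : List Bool × List (List Bool)),
        size (l.foldl (fun (y : List Bool × List (List Bool)) b =>
          (y.1.drop (w a), fit b.length (y.1.take (w a)) :: y.2)) y).1 ≤ size y.1 := by
      intro l
      induction l with
      | nil => intro y; exact le_rfl
      | cons b l ih =>
        intro y
        rw [List.foldl_cons]
        exact (ih _).trans (size_drop_le _ _)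
    have h3 := h2 ((B a).take k) (v a, [])
    generalize ((B a).take k).foldl (fun (y : List Bool × List (List Bool)) b =>
      (y.1.drop (w a), fit b.length (y.1.take (w a)) :: y.2)) (v a, []) = y at h1 h3
    obtain ⟨y1, y2⟩ := y
    simp only [List.append_nil] at h1 h3
    rw [size_pair, h1, size_reverse]
    have h4 := size_le_bmax (chB (w a) ((B a).take k) (v a))
    rw [bmax_chB] at h4
    have h5 := bmax_take_le (B a) k
    have h6 := bmax_le_size (B a)
    have h7 := hC a
    have h8 := hC' a
    have h9 := size_pos a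
    have h10 : (2 * C + C' + 1) * size a = 2 * (C * size a) + C' * size a + size a := by ring
    omega
  refine LT.of_eq h.snd'.reverse' ?_
  intro a
  rw [foldl_chB]; simp

/-! ### Arithmetic on registers -/

/-- Subtraction modulo `q`, where `q₁` stands for `-1`. -/
def subM (q q₁ x y : List Bool) : List Bool := addM q x (mulM q y q₁)

/-- Change of sign. -/
def sgnM (q q₁ κ : List Bool) (σ : Bool) : List Bool := bif σ then mulM q κ q₁ else κ

/-- The word for `1`. -/
def oneM (q : List Bool) : List Bool := incM q (List.replicate q.length false)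

@[fun_prop]
theorem LT.subM' {q q₁ x y : α → List Bool} (hq : LT q) (hq₁ : LT q₁) (hx : LT x)
    (hy : LT y) : LT (fun a => subM (q a) (q₁ a) (x a) (y a)) := by
  unfold subM; fun_prop

@[fun_prop]
theorem LT.sgnM' {q q₁ κ : α → List Bool} {σ : α → Bool} (hq : LT q) (hq₁ : LT q₁)
    (hκ : LT κ) (hσ : LT σ) : LT (fun a => sgnM (q a) (q₁ a) (κ a) (σ a)) := by
  unfold sgnM; fun_prop

@[fun_prop]
theorem LT.oneM' {q : α → List Bool} (hq : LT q) : LT (fun a => oneM (q a)) := by
  unfold oneM; fun_prop

/-- Add `κ` times the chunks of the word `v` to the registers of a block. -/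
def addBlk (q κ : List Bool) (w : ℕ) (B : List (List Bool)) (v : List Bool) :
    List (List Bool) :=
  (B.zip (chB w B v)).map (fun p => addM q p.1 (mulM q κ p.2))

/-- Multiply the registers of a block by `κ`. -/
def scaleBlk (q κ : List Bool) (B : List (List Bool)) : List (List Bool) :=
  B.map (fun b => mulM q b κ)

theorem bmax_map_zip (f : List Bool × List Bool → List Bool)
    (hf : ∀ p, (f p).length = p.1.length) (B V : List (List Bool)) :
    bmax ((B.zip V).map f) ≤ bmax B := by
  induction B generalizing V with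
  | nil => simp
  | cons w B ih =>
    cases V with
    | nil => simp [bmax]
    | cons b V =>
      rw [List.zip_cons_cons, List.map_cons, bmax_cons, bmax_cons]
      have h1 := ih V
      have h2 : (f (w, b)).length = w.length := hf (w, b)
      rw [h2]
      omega

theorem bmax_addBlk (q κ : List Bool) (w : ℕ) (B : List (List Bool)) (v : List Bool) :
    bmax (addBlk q κ w B v) ≤ bmax B :=
  bmax_map_zip _ (fun _ => length_addM _ _ _) _ _

theorem bmax_scaleBlk (q κ : List Bool) (B : List (List Bool)) :
    bmax (scaleBlk q κ B) = bmax B := by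
  unfold scaleBlk
  induction B with
  | nil => rfl
  | cons w B ih => rw [List.map_cons, bmax_cons, bmax_cons, ih, length_mulM]

@[fun_prop]
theorem LT.addBlk' {q κ : α → List Bool} {w : α → ℕ} {B : α → List (List Bool)}
    {v : α → List Bool} (hq : LT q) (hκ : LT κ) (hw : LT w) (hB : LT B) (hv : LT v) :
    LT (fun a => addBlk (q a) (κ a) (w a) (B a) (v a)) := by
  obtain ⟨C, hC0, hC⟩ := hB.exists_size_le
  refine LT.map' (l := fun a => (B a).zip (chB (w a) (B a) (v a)))
    (f := fun z : α × (List Bool × List Bool) => addM (q z.1) z.2.1 (mulM (q z.1) (κ z.1) z.2.2))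
    (by fun_prop) (by fun_prop) (2 * C) ?_
  intro a
  show size (addBlk (q a) (κ a) (w a) (B a) (v a)) ≤ _
  have h1 := size_le_bmax (addBlk (q a) (κ a) (w a) (B a) (v a))
  have h2 := bmax_addBlk (q a) (κ a) (w a) (B a) (v a)
  have h3 := bmax_le_size (B a)
  have h4 := hC a
  have h5 : 2 * C * size a = 2 * (C * size a) := by ring
  omega

@[fun_prop]
theorem LT.scaleBlk' {q κ : α → List Bool} {B : α → List (List Bool)} (hq : LT q)
    (hκ : LT κ) (hB : LT B) : LT (fun a => scaleBlk (q a) (κ a) (B a)) := by
  obtain ⟨C, hC0, hC⟩ := hB.exists_size_le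
  refine LT.map' (l := fun a => B a)
    (f := fun z : α × List Bool => mulM (q z.1) z.2 (κ z.1)) (by fun_prop) (by fun_prop)
    (2 * C) ?_
  intro a
  show size (scaleBlk (q a) (κ a) (B a)) ≤ _
  have h1 := size_le_bmax (scaleBlk (q a) (κ a) (B a))
  have h2 := bmax_scaleBlk (q a) (κ a) (B a)
  have h3 := bmax_le_size (B a)
  have h4 := hC a
  have h5 : 2 * C * size a = 2 * (C * size a) := by ring
  omega

/-- One factor of the Lagrange polynomial. -/
def lagStep (q q₁ q₂ y z acc u : List Bool) : List Bool :=
  bif decide (fit y.length u = z) then acc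
  else mulM q (mulM q acc (subM q q₁ y (fit y.length u)))
    (powM q (subM q q₁ z (fit y.length u)) q₂)

/-- The Lagrange polynomial for the node `z` among the nodes `0, …, 2 ^ w - 1`, at `y`. -/
def lag (q q₁ q₂ : List Bool) (w : ℕ) (y z : List Bool) : List Bool :=
  (allW w).foldl (fun acc u => lagStep q q₁ q₂ y z acc u) (oneM q)

theorem length_lagStep (q q₁ q₂ y z acc u : List Bool) :
    (lagStep q q₁ q₂ y z acc u).length = acc.length := by
  unfold lagStep
  cases decide (fit y.length u = z) <;> simp [length_mulM]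

@[fun_prop]
theorem LT.lagStep' {q q₁ q₂ y z acc u : α → List Bool} (hq : LT q) (hq₁ : LT q₁)
    (hq₂ : LT q₂) (hy : LT y) (hz : LT z) (hacc : LT acc) (hu : LT u) :
    LT (fun a => lagStep (q a) (q₁ a) (q₂ a) (y a) (z a) (acc a) (u a)) := by
  unfold lagStep; fun_prop

@[fun_prop]
theorem LT.lag' {q q₁ q₂ y z : α → List Bool} {w : α → ℕ} (hq : LT q) (hq₁ : LT q₁)
    (hq₂ : LT q₂) (hw : LT w) (hy : LT y) (hz : LT z) :
    LT (fun a => lag (q a) (q₁ a) (q₂ a) (w a) (y a) (z a)) := by
  obtain ⟨C, hC0, hC⟩ := hq.exists_size_le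
  exact LT.foldWords (L := w) (ini := fun a => oneM (q a))
    (s := fun v : α × (List Bool × List Bool) =>
      lagStep (q v.1) (q₁ v.1) (q₂ v.1) (y v.1) (z v.1) v.2.1 v.2.2) hw (by fun_prop)
    (by fun_prop) (fun a r => r.length = (q a).length) (2 * C + 1)
    (fun a r hr => size_le_of_length (hC a) hr)
    (fun a => by simp [oneM, length_incM])
    (fun a r u _ hr => by
      show (lagStep _ _ _ _ _ r u).length = _
      rw [length_lagStep]; exact hr)

/-- The product of the Lagrange polynomials for the nodes in `Z` at the points in `Y`. -/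
def weight (q q₁ q₂ : List Bool) (w : ℕ) (Z Y : List (List Bool)) : List Bool :=
  (Y.zip Z).foldl (fun acc p => mulM q acc (lag q q₁ q₂ w p.1 p.2)) (oneM q)

@[fun_prop]
theorem LT.weight' {q q₁ q₂ : α → List Bool} {w : α → ℕ} {Z Y : α → List (List Bool)}
    (hq : LT q) (hq₁ : LT q₁) (hq₂ : LT q₂) (hw : LT w) (hZ : LT Z) (hY : LT Y) :
    LT (fun a => weight (q a) (q₁ a) (q₂ a) (w a) (Z a) (Y a)) := by
  obtain ⟨C, hC0, hC⟩ := hq.exists_size_le
  exact LT.foldlInv (l := fun a => (Y a).zip (Z a)) (ini := fun a => oneM (q a))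
    (s := fun v : α × (List Bool × (List Bool × List Bool)) =>
      mulM (q v.1) v.2.1 (lag (q v.1) (q₁ v.1) (q₂ v.1) (w v.1) v.2.2.1 v.2.2.2))
    (by fun_prop) (by fun_prop) (by fun_prop) (fun a r => r.length = (q a).length) (2 * C + 1)
    (fun a r hr => size_le_of_length (hC a) hr)
    (fun a => by simp [oneM, length_incM])
    (fun a r b _ hr => by
      show (mulM _ r _).length = _
      rw [length_mulM]; exact hr)

/-! ### The environment -/

/-- The parameters: the programs for the two functions, the space bound for the interpreter,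
the words for the modulus `q`, for `q - 1` and `q - 2`, the lengths of names and memories, the
length of a register and of a chunk, the number of rounds, the length of the input in
binary. -/
abbrev Env := (UProg × UProg) × (ℕ × List Bool × List Bool × List Bool) × (ℕ × ℕ) ×
  (ℕ × ℕ × ℕ) × List Bool

/-- The modulus. -/
def eq (E : Env) : List Bool := E.2.1.2.1

/-- The modulus minus one. -/
def eq1 (E : Env) : List Bool := E.2.1.2.2.1

/-- The modulus minus two. -/
def eq2 (E : Env) : List Bool := E.2.1.2.2.2

/-- The length of a name. -/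
def em (E : Env) : ℕ := E.2.2.1.1

/-- The length of a memory. -/
def es (E : Env) : ℕ := E.2.2.1.2

/-- The length of a register. -/
def el (E : Env) : ℕ := E.2.2.2.1.1

/-- The length of a chunk. -/
def ew (E : Env) : ℕ := E.2.2.2.1.2.1

/-- The number of rounds. -/
def er (E : Env) : ℕ := E.2.2.2.1.2.2

/-- The processor that is read. -/
def ask (E : Env) (i v : List Bool) : List Bool :=
  fit (em E) (urun E.1.1 E.2.1.1 (blk E.2.2.2.2 ++ blk i ++ blk v))

/-- The new content of the memory. -/
def new (E : Env) (i v w : List Bool) : List Bool :=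
  fit (es E) (urun E.1.2 E.2.1.1 (blk E.2.2.2.2 ++ blk i ++ blk v ++ blk w))

/-- The content of the memory at the beginning. -/
def leafW (s : ℕ) (x α i : List Bool) : List Bool :=
  fit s [x.getD (valCap x.length i) false, α.getD (valCap α.length i) false]

section env

variable {E : α → Env}

@[fun_prop]
theorem LT.eq' (hE : LT E) : LT (fun a => eq (E a)) := by unfold eq; fun_prop

@[fun_prop]
theorem LT.eq1' (hE : LT E) : LT (fun a => eq1 (E a)) := by unfold eq1; fun_prop

@[fun_prop]
theorem LT.eq2' (hE : LT E) : LT (fun a => eq2 (E a)) := by unfold eq2; fun_prop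

@[fun_prop]
theorem LT.ew' (hE : LT E) : LT (fun a => ew (E a)) := by unfold ew; fun_prop

@[fun_prop]
theorem LT.em' (hE : LT E) : LT (fun a => em (E a)) := by unfold em; fun_prop

@[fun_prop]
theorem LT.es' (hE : LT E) : LT (fun a => es (E a)) := by unfold es; fun_prop

@[fun_prop]
theorem LT.el' (hE : LT E) : LT (fun a => el (E a)) := by unfold el; fun_prop

@[fun_prop]
theorem LT.er' (hE : LT E) : LT (fun a => er (E a)) := by unfold er; fun_prop

@[fun_prop]
theorem LT.ask' {i v : α → List Bool} (hE : LT E) (hi : LT i) (hv : LT v) :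
    LT (fun a => ask (E a) (i a) (v a)) := by
  unfold ask; fun_prop

@[fun_prop]
theorem LT.new' {i v w : α → List Bool} (hE : LT E) (hi : LT i) (hv : LT v) (hw : LT w) :
    LT (fun a => new (E a) (i a) (v a) (w a)) := by
  unfold new; fun_prop

@[fun_prop]
theorem LT.leafW' {s : α → ℕ} {x α' i : α → List Bool} (hs : LT s) (hx : LT x)
    (hα : LT α') (hi : LT i) : LT (fun a => leafW (s a) (x a) (α' a) (i a)) := by
  unfold leafW; fun_prop

end env

/-! ### Accumulation -/

/-- One step of the accumulation. -/
def accStep (E : Env) (i j : List Bool) (t : ℕ) (σ : Bool) (ρ : RR) (z : List Bool) : RR :=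
  bif decide (ask E i (z.take (es E)) = j) then
    setB t (addBlk (eq E) (sgnM (eq E) (eq1 E) (weight (eq E) (eq1 E) (eq2 E) (ew E)
      (chB (ew E) (getB (nx t) ρ) (z.take (es E)) ++
        chB (ew E) (getB (nx (nx t)) ρ) (z.drop (es E)))
      (getB (nx t) ρ ++ getB (nx (nx t)) ρ)) (!σ)) (ew E) (getB t ρ)
      (new E i (z.take (es E)) (z.drop (es E)))) ρ
  else ρ

/-- Accumulation. -/
def accum (E : Env) (i j : List Bool) (t : ℕ) (σ : Bool) (ρ : RR) : RR :=
  (allB (es E + es E)).foldl (accStep E i j t σ) ρ

theorem RLe.accStep (E : Env) (i j : List Bool) (t : ℕ) (σ : Bool) (ρ : RR)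
    (z : List Bool) : RLe (accStep E i j t σ ρ z) ρ := by
  unfold H7LS.accStep
  cases decide (ask E i (z.take (es E)) = j) with
  | false => exact RLe.refl _
  | true => exact RLe.setB (bmax_addBlk _ _ _ _ _)

theorem RLe.accum (E : Env) (i j : List Bool) (t : ℕ) (σ : Bool) (ρ : RR) :
    RLe (accum E i j t σ ρ) ρ := by
  unfold H7LS.accum
  generalize allB (es E + es E) = l
  induction l generalizing ρ with
  | nil => exact RLe.refl _
  | cons z l ih => exact (ih _).trans (RLe.accStep E i j t σ ρ z)

@[fun_prop]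
theorem LT.accStep' {E : α → Env} {i j : α → List Bool} {t : α → ℕ} {σ : α → Bool}
    {ρ : α → RR} {z : α → List Bool} (hE : LT E) (hi : LT i) (hj : LT j) (ht : LT t)
    (hσ : LT σ) (hρ : LT ρ) (hz : LT z) :
    LT (fun a => accStep (E a) (i a) (j a) (t a) (σ a) (ρ a) (z a)) := by
  unfold accStep; fun_prop

@[fun_prop]
theorem LT.accum' {E : α → Env} {i j : α → List Bool} {t : α → ℕ} {σ : α → Bool}
    {ρ : α → RR} (hE : LT E) (hi : LT i) (hj : LT j) (ht : LT t)
    (hσ : LT σ) (hρ : LT ρ) :
    LT (fun a => accum (E a) (i a) (j a) (t a) (σ a) (ρ a)) := by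
  obtain ⟨C, hC0, hC⟩ := hρ.exists_size_le
  refine LT.foldAll (L := fun a => es (E a) + es (E a)) (ini := ρ)
    (s := fun w : α × (RR × List Bool) => accStep (E w.1) (i w.1) (j w.1) (t w.1) (σ w.1)
      w.2.1 w.2.2) (by fun_prop) hρ (by fun_prop) (fun a y => RLe y (ρ a)) (2 * C) ?_ ?_ ?_
  · intro a y hy
    have h1 := hy.size_le
    have h2 := hC a
    have h5 : 2 * C * size a = 2 * (C * size a) := by ring
    omega
  · intro a; exact RLe.refl _
  · intro a y w _ hy
    exact (RLe.accStep _ _ _ _ _ _ _).trans hy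

/-! ### Scaling -/

/-- Multiply the blocks `t + 1` and `t + 2` by `κ`. -/
def scale2 (q κ : List Bool) (t : ℕ) (ρ : RR) : RR :=
  setB (nx t) (scaleBlk q κ (getB (nx t) ρ))
    (setB (nx (nx t)) (scaleBlk q κ (getB (nx (nx t)) ρ)) ρ)

theorem RLe.scale2 (q κ : List Bool) (t : ℕ) (ρ : RR) : RLe (scale2 q κ t ρ) ρ := by
  unfold H7LS.scale2
  have h1 : RLe (H7LS.setB (nx (nx t)) (scaleBlk q κ (getB (nx (nx t)) ρ)) ρ) ρ :=
    RLe.setB (bmax_scaleBlk _ _ _).le
  refine RLe.trans (RLe.setB ?_) h1
  rw [bmax_scaleBlk]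
  -- the blocks are different, or equal
  unfold getB H7LS.setB nx
  by_cases h0 : t = 0
  · simp [h0]
  · by_cases h1 : t = 1
    · simp [h1]
    · simp [h0, h1]

@[fun_prop]
theorem LT.scale2' {q κ : α → List Bool} {t : α → ℕ} {ρ : α → RR} (hq : LT q) (hκ : LT κ)
    (ht : LT t) (hρ : LT ρ) : LT (fun a => scale2 (q a) (κ a) (t a) (ρ a)) := by
  unfold scale2; fun_prop

/-! ### Execution of an operation -/

/-- Call data: name, block, sign. -/
abbrev CD := List Bool × ℕ × Bool

/-- Execute an operation. -/
def exec (E : Env) (x α : List Bool) (c : CD) (k : ℕ × List Bool) (ρ : RR) : RR :=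
  bif decide (k.1 = 0) then
    setB c.2.1 (addBlk (eq E) (sgnM (eq E) (eq1 E) (oneM (eq E)) c.2.2) (ew E) (getB c.2.1 ρ)
      (leafW (es E) x α c.1)) ρ
  else bif decide (k.1 = 1) then scale2 (eq E) (k.2.take (el E)) c.2.1 ρ
  else bif decide (k.1 = 2) then accum E c.1 (k.2.drop (el E)) c.2.1 c.2.2 ρ
  else bif decide (k.1 = 3) then
    scale2 (eq E) (powM (eq E) (k.2.take (el E)) (eq2 E)) c.2.1 ρ
  else ρ

theorem RLe.exec (E : Env) (x α : List Bool) (c : CD) (k : ℕ × List Bool) (ρ : RR) :
    RLe (exec E x α c k ρ) ρ := by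
  unfold H7LS.exec
  cases decide (k.1 = 0) with
  | true => exact RLe.setB (bmax_addBlk _ _ _ _ _)
  | false =>
    cases decide (k.1 = 1) with
    | true => exact RLe.scale2 _ _ _ _
    | false =>
      cases decide (k.1 = 2) with
      | true => exact RLe.accum _ _ _ _ _ _
      | false =>
        cases decide (k.1 = 3) with
        | true => exact RLe.scale2 _ _ _ _
        | false => exact RLe.refl _

@[fun_prop]
theorem LT.exec' {E : α → Env} {x α' : α → List Bool} {c : α → CD} {k : α → ℕ × List Bool}
    {ρ : α → RR} (hE : LT E) (hx : LT x) (hα : LT α') (hc : LT c) (hk : LT k) (hρ : LT ρ) :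
    LT (fun a => exec (E a) (x a) (α' a) (c a) (k a) (ρ a)) := by
  unfold exec; fun_prop

/-! ### From the time to the operation -/

/-- The state of the descent: what remains of the time word, call data, kind and word of the
operation (kind `0`: not yet known). -/
abbrev DS := List Bool × CD × ℕ × List Bool

/-- The end of the descent. -/
def dstop (k : ℕ) (rest : List Bool) (c : CD) (cnt : List Bool) : DS :=
  (rest, c, bif allF rest then k else 4, cnt)

/-- One step of the descent, as a function of the three parts of the time word. -/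
def dsel (E : Env) (c : CD) (cnt ph rest : List Bool) : DS :=
  bif !(!(allF (cnt.take (el E))) && ltW (cnt.take (el E)) (eq E)) then (rest, c, 4, cnt)
  else bif ph.getD 0 false then
    (bif ph.getD 1 false then
      (bif ph.getD 2 false then (rest, c, 4, cnt) else dstop 3 rest c cnt)
    else
      (bif ph.getD 2 false then (rest, (c.1, nx c.2.1, true), 0, [])
      else (rest, (cnt.drop (el E), nx (nx c.2.1), true), 0, [])))
  else
    (bif ph.getD 1 false then
      (bif ph.getD 2 false then dstop 2 rest c cnt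
      else (rest, (cnt.drop (el E), nx (nx c.2.1), false), 0, []))
    else
      (bif ph.getD 2 false then (rest, (c.1, nx c.2.1, false), 0, [])
      else dstop 1 rest c cnt))

/-- One step of the descent. -/
def dstep (E : Env) (S : DS) : DS :=
  bif decide (S.2.2.1 = 0) then
    dsel E S.2.1 (S.1.take (el E + em E)) ((S.1.drop (el E + em E)).take 3)
      (S.1.drop (el E + em E + 3))
  else S

@[fun_prop]
theorem LT.dstop' {k : α → ℕ} {rest cnt : α → List Bool} {c : α → CD} (hk : LT k)
    (hr : LT rest) (hc : LT c) (hcnt : LT cnt) :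
    LT (fun a => dstop (k a) (rest a) (c a) (cnt a)) := by
  unfold dstop; fun_prop

@[fun_prop]
theorem LT.dsel' {E : α → Env} {c : α → CD} {cnt ph rest : α → List Bool} (hE : LT E)
    (hc : LT c) (hcnt : LT cnt) (hph : LT ph) (hr : LT rest) :
    LT (fun a => dsel (E a) (c a) (cnt a) (ph a) (rest a)) := by
  unfold dsel; fun_prop

@[fun_prop]
theorem LT.dstep' {E : α → Env} {S : α → DS} (hE : LT E) (hS : LT S) :
    LT (fun a => dstep (E a) (S a)) := by
  unfold dstep; fun_prop

/-- The invariant of the descent. -/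
def DInv (N : ℕ) (S : DS) : Prop :=
  size S.1 ≤ N ∧ size S.2.1.1 ≤ N ∧ S.2.1.2.1 ≤ 2 ∧ S.2.2.1 ≤ 4 ∧ size S.2.2.2 ≤ N

theorem DInv.size_le {N : ℕ} {S : DS} (h : DInv N S) : size S ≤ 3 * N + 30 := by
  obtain ⟨rest, ⟨i, t, σ⟩, k, cnt⟩ := S
  obtain ⟨h1, h2, h3, h4, h5⟩ := h
  simp only at h1 h2 h3 h4 h5
  simp only [size_pair, size_nat]
  have := size_bool_le σ
  omega

theorem nx_le (t : ℕ) : nx t ≤ 2 := by
  unfold nx
  cases decide (t = 0) with
  | true => simp
  | false => cases decide (t = 1) <;> simp

theorem DInv.dstop {N k : ℕ} {rest cnt : List Bool} {c : CD} (h1 : size rest ≤ N)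
    (h2 : size c.1 ≤ N) (h3 : c.2.1 ≤ 2) (h4 : k ≤ 4) (h5 : size cnt ≤ N) :
    DInv N (dstop k rest c cnt) := by
  refine ⟨h1, h2, h3, ?_, h5⟩
  unfold H7LS.dstop
  cases allF rest
  · simp
  · simpa using h4

theorem DInv.dsel {N : ℕ} (E : Env) {rest cnt ph : List Bool} {c : CD} (h1 : size rest ≤ N)
    (h2 : size c.1 ≤ N) (h3 : c.2.1 ≤ 2) (h5 : size cnt ≤ N) (h6 : 1 ≤ N) :
    DInv N (dsel E c cnt ph rest) := by
  have h7 : size (cnt.drop (el E)) ≤ N := (size_drop_le _ _).trans h5
  unfold H7LS.dsel
  generalize (!(!(allF (cnt.take (el E))) && ltW (cnt.take (el E)) (eq E))) = b0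
  generalize ph.getD 0 false = b1
  generalize ph.getD 1 false = b2
  generalize ph.getD 2 false = b3
  cases b0
  · cases b1
    · cases b2
      · cases b3
        · exact DInv.dstop h1 h2 h3 (by omega) h5
        · exact ⟨h1, h2, nx_le _, by simp, h6⟩
      · cases b3
        · exact ⟨h1, h7, nx_le _, by simp, h6⟩
        · exact DInv.dstop h1 h2 h3 (by omega) h5
    · cases b2
      · cases b3
        · exact ⟨h1, h7, nx_le _, by simp, h6⟩
        · exact ⟨h1, h2, nx_le _, by simp, h6⟩
      · cases b3
        · exact DInv.dstop h1 h2 h3 (by omega) h5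
        · exact ⟨h1, h2, h3, by simp, h5⟩
  · exact ⟨h1, h2, h3, by simp, h5⟩

theorem DInv.dstep {N : ℕ} (E : Env) {S : DS} (h : DInv N S) : DInv N (dstep E S) := by
  unfold H7LS.dstep
  cases decide (S.2.2.1 = 0) with
  | false => exact h
  | true =>
    obtain ⟨h1, h2, h3, h4, h5⟩ := h
    exact DInv.dsel E ((size_drop_le _ _).trans h1) h2 h3 ((size_take_le _ _).trans h1)
      ((size_pos S.1).trans_le h1)

/-- The operation at a given time. -/
def opAt (E : Env) (c : CD) (r : ℕ) (T : List Bool) : DS :=
  (fun S => dstep E S)^[r] (T, c, 0, [])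

@[fun_prop]
theorem LT.opAt' {E : α → Env} {c : α → CD} {r : α → ℕ} {T : α → List Bool} (hE : LT E)
    (hc : LT c) (hr : LT r) (hT : LT T) (h2 : ∀ a, (c a).2.1 ≤ 2) :
    LT (fun a => opAt (E a) (c a) (r a) (T a)) := by
  have hini : LT (fun a => ((T a, c a, 0, []) : DS)) := by fun_prop
  obtain ⟨C, hC0, hC⟩ := hini.exists_size_le
  refine LT.iterateInv (n := r) (ini := fun a => ((T a, c a, 0, []) : DS))
    (s := fun w : α × DS => dstep (E w.1) w.2) (by fun_prop) hini
    (by fun_prop) (fun a y => DInv (C * size a) y) (3 * C + 30) ?_ ?_ ?_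
  · intro a y hy
    have h1 := hy.size_le
    have h2 := size_pos a
    have h5 : (3 * C + 30) * size a = 3 * (C * size a) + 30 * size a := by ring
    omega
  · intro a
    have h1 := hC a
    have h3 := h2 a
    generalize c a = ca at h1 h3
    obtain ⟨i, t, σ⟩ := ca
    simp only [size_pair] at h1
    refine ⟨?_, ?_, h3, by simp, ?_⟩
    · show size (T a) ≤ C * size a
      omega
    · show size i ≤ C * size a
      omega
    · show size ([] : List Bool) ≤ C * size a
      omega
  · intro a y hy
    exact DInv.dstep (E a) hy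

/-! ### The simulation -/

/-- The registers at the end of the simulation. -/
def simR (E : Env) (x α : List Bool) (TL : ℕ) (B : List (List Bool)) : RR :=
  (allB TL).foldl (fun ρ T => exec E x α (opAt E (List.replicate (em E) false, 0, false)
    (er E) T).2.1 (opAt E (List.replicate (em E) false, 0, false) (er E) T).2.2 ρ) (B, B, B)

@[fun_prop]
theorem LT.simR' {E : α → Env} {x α' : α → List Bool} {TL : α → ℕ}
    {B : α → List (List Bool)} (hE : LT E) (hx : LT x) (hα : LT α') (hT : LT TL)
    (hB : LT B) : LT (fun a => simR (E a) (x a) (α' a) (TL a) (B a)) := by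
  have hini : LT (fun a => (B a, B a, B a)) := by fun_prop
  obtain ⟨C, hC0, hC⟩ := hini.exists_size_le
  have hop : LT (fun w : α × (RR × List Bool) =>
      opAt (E w.1) (List.replicate (em (E w.1)) false, 0, false) (er (E w.1)) w.2.2) :=
    LT.opAt' (by fun_prop) (by fun_prop) (by fun_prop) (by fun_prop) (fun a => by simp)
  refine LT.foldAll (L := TL) (ini := fun a => (B a, B a, B a))
    (s := fun w : α × (RR × List Bool) => exec (E w.1) (x w.1) (α' w.1)
      (opAt (E w.1) (List.replicate (em (E w.1)) false, 0, false) (er (E w.1)) w.2.2).2.1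
      (opAt (E w.1) (List.replicate (em (E w.1)) false, 0, false) (er (E w.1)) w.2.2).2.2
      w.2.1) hT hini (by fun_prop) (fun a y => RLe y (B a, B a, B a)) (2 * C) ?_ ?_ ?_
  · intro a y hy
    have h1 := hy.size_le
    have h2 := hC a
    have h5 : 2 * C * size a = 2 * (C * size a) := by ring
    omega
  · intro a; exact RLe.refl _
  · intro a y w _ hy
    exact (RLe.exec _ _ _ _ _ _).trans hy

/-- The full parameters. -/
abbrev Params := Env × ℕ × List (List Bool)

/-- The answer of the simulation with parameters `P` on input `x` with advice `α`. -/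
def simP (P : Params) (x α : List Bool) : Bool :=
  ((simR P.1 x α P.2.1 P.2.2).1.getD 0 []).getD 0 false

@[fun_prop]
theorem LT.simP' {P : α → Params} {x α' : α → List Bool} (hP : LT P) (hx : LT x)
    (hα : LT α') : LT (fun a => simP (P a) (x a) (α' a)) := by
  unfold simP; fun_prop

/-- The simulation with the parameters and the advice given by one word. -/
def sim (w x : List Bool) : Bool :=
  simP (DRep.dec (decodeD w)) x (w.drop (size (decodeD w)))

@[fun_prop]
theorem LT.sim' {w x : α → List Bool} (hw : LT w) (hx : LT x) :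
    LT (fun a => sim (w a) (x a)) := by
  unfold sim; fun_prop

end Pool.Agent.H7LS
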