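import Pool.Agent.H7LS.LT
import Pool.Agent.PPS.Lists

/-!
# A toolkit for typed linear-space functions
-/

namespace Pool.Agent.H7LS

open Pool.Agent.PPS

variable {α β γ δ σ τ : Type} [Rep α] [Rep β] [Rep γ] [Rep δ] [Rep σ] [Rep τ]

attribute [fun_prop] LT

@[fun_prop]
theorem LT.id' : LT (fun a : α => a) := LT.id

@[fun_prop]
theorem LT.const' (b : β) : LT (fun _ : α => b) := LT.const b

@[fun_prop]
theorem LT.comp' {g : β → γ} {f : α → β} (hg : LT g) (hf : LT f) :
    LT (fun a => g (f a)) := hg.comp hf

@[fun_prop]
theorem LT.prodMk {f : α → β} {g : α → γ} (hf : LT f) (hg : LT g) :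
    LT (fun a => (f a, g a)) := hf.pair hg

@[fun_prop]
theorem LT.fst' {f : α → β × γ} (hf : LT f) : LT (fun a => (f a).1) := LT.fst.comp hf

@[fun_prop]
theorem LT.snd' {f : α → β × γ} (hf : LT f) : LT (fun a => (f a).2) := LT.snd.comp hf

example {f : α → β} (hf : LT f) : LT (fun a => ((f a, a), a)) := by fun_prop

/-! ### Changing the types -/

theorem LT.congr_code {f : α → β} {g : α → γ} (hf : LT f)
    (h : ∀ a, code (g a) = code (f a)) : LT g := by
  obtain ⟨ι, h1, h2, c, io, p, h3⟩ := hf
  refine ⟨ι, h1, h2, c, io, p, fun a => ?_⟩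
  obtain ⟨T, hT⟩ := h3 a
  exact ⟨T, by rw [h a]; exact hT⟩

theorem LT.congr_dom {f : β → γ} (hf : LT f) {e : α → β} (h : ∀ a, code (e a) = code a) :
    LT (fun a => f (e a)) :=
  hf.comp (LT.congr_code LT.id h)

theorem LT.of_eq {f g : α → β} (hf : LT f) (h : ∀ a, g a = f a) : LT g :=
  (funext h : g = f) ▸ hf

@[fun_prop]
theorem LT.rep : LT (Rep.rep : α → D) := LT.congr_code LT.id (fun _ => rfl)

theorem LT.val {p : α → Prop} : LT (Subtype.val : {a : α // p a} → α) :=
  LT.congr_code LT.id (fun _ => rfl)

theorem LT.mkSub {p : β → Prop} {f : α → β} (hf : LT f) (h : ∀ a, p (f a)) :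
    LT (fun a => (⟨f a, h a⟩ : {b : β // p b})) :=
  LT.congr_code hf (fun _ => rfl)

/-! ### Case distinctions -/

theorem LT.ite {c : α → Bool} {f g : α → β} (hc : LT c) (hf : LT f) (hg : LT g) :
    LT (fun a => if c a then f a else g a) := by
  have key : LT (fun p : Bool × α => if p.1 then f p.2 else g p.2) := by
    refine LT.caseD (f₁ := g) (f₂ := fun z : (Unit × Unit) × α => f z.2) hg
      (by fun_prop) ?_
    rintro ⟨b, a⟩
    cases b with
    | false => exact Or.inl ⟨a, rfl, rfl⟩
    | true => exact Or.inr ⟨(((), ()), a), rfl, ⟨_, rfl⟩, rfl⟩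
  exact key.comp (hc.pair LT.id)

@[fun_prop]
theorem LT.cond {c : α → Bool} {f g : α → β} (hc : LT c) (hf : LT f) (hg : LT g) :
    LT (fun a => bif c a then f a else g a) := by
  have := hc.ite hf hg
  convert this using 2 with a
  cases c a <;> rfl

theorem LT.dite {p : α → Prop} [DecidablePred p] {f : {a // p a} → β} {g : {a // ¬ p a} → β}
    (hc : LT (fun a => decide (p a))) (hf : LT f) (hg : LT g) :
    LT (fun a => if h : p a then f ⟨a, h⟩ else g ⟨a, h⟩) := by
  have key : LT (fun q : {q : Bool × α // q.1 = decide (p q.2)} =>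
      if h : p q.1.2 then f ⟨q.1.2, h⟩ else g ⟨q.1.2, h⟩) := by
    refine LT.caseD (f₁ := g) (f₂ := fun z : (Unit × Unit) × {a // p a} => f z.2) hg
      (by fun_prop) ?_
    rintro ⟨⟨b, a⟩, hb⟩
    cases b with
    | false =>
      have ha : ¬ p a := by simpa using hb.symm
      exact Or.inl ⟨⟨a, ha⟩, rfl, by simp [ha]⟩
    | true =>
      have ha : p a := by simpa using hb.symm
      exact Or.inr ⟨(((), ()), ⟨a, ha⟩), rfl, ⟨_, rfl⟩, by simp [ha]⟩
  exact key.comp (LT.mkSub (hc.pair LT.id) (fun a => rfl))

theorem LT.listCase {l : α → List β} {f : α → γ} {g : (β × List β) × α → γ} (hl : LT l)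
    (hf : LT f) (hg : LT g) :
    LT (fun a => match l a with
      | [] => f a
      | x :: l => g ((x, l), a)) := by
  have key : LT (fun p : List β × α => match p.1 with
      | [] => f p.2
      | x :: l => g ((x, l), p.2)) := by
    refine LT.caseD (f₁ := f) (f₂ := g) hf hg ?_
    rintro ⟨l, a⟩
    cases l with
    | nil => exact Or.inl ⟨a, rfl, rfl⟩
    | cons x l => exact Or.inr ⟨((x, l), a), rfl, ⟨_, rfl⟩, rfl⟩
  exact key.comp (hl.pair LT.id)

theorem LT.natCase {n : α → ℕ} {f : α → γ} {g : ℕ × α → γ} (hn : LT n)
    (hf : LT f) (hg : LT g) :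
    LT (fun a => match n a with
      | 0 => f a
      | k + 1 => g (k, a)) := by
  have key : LT (fun p : ℕ × α => match p.1 with
      | 0 => f p.2
      | k + 1 => g (k, p.2)) := by
    refine LT.caseD (f₁ := f) (f₂ := fun z : (Unit × ℕ) × α => g (z.1.2, z.2)) hf
      (by fun_prop) ?_
    rintro ⟨k, a⟩
    cases k with
    | zero => exact Or.inl ⟨a, rfl, rfl⟩
    | succ k => exact Or.inr ⟨(((), k), a), rfl, ⟨_, rfl⟩, rfl⟩
  exact key.comp (hn.pair LT.id)

theorem LT.optCase {o : α → Option β} {f : α → γ} {g : β × α → γ} (ho : LT o)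
    (hf : LT f) (hg : LT g) :
    LT (fun a => match o a with
      | none => f a
      | some b => g (b, a)) := by
  have key : LT (fun p : Option β × α => match p.1 with
      | none => f p.2
      | some b => g (b, p.2)) := by
    refine LT.caseD (f₁ := f) (f₂ := fun z : (β × Unit) × α => g (z.1.1, z.2)) hf
      (by fun_prop) ?_
    rintro ⟨o, a⟩
    cases o with
    | none => exact Or.inl ⟨a, rfl, rfl⟩
    | some b =>
      refine Or.inr ⟨((b, ()), a), ?_, ⟨_, rfl⟩, rfl⟩
      rfl
  exact key.comp (ho.pair LT.id)

theorem LT.treeCase {d : α → D} {f : α → γ} {g : (D × D) × α → γ} (hd : LT d)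
    (hf : LT f) (hg : LT g) :
    LT (fun a => match d a with
      | .nil => f a
      | .cons x y => g ((x, y), a)) := by
  have key : LT (fun p : D × α => match p.1 with
      | .nil => f p.2
      | .cons x y => g ((x, y), p.2)) := by
    refine LT.caseD (f₁ := f) (f₂ := g) hf hg ?_
    rintro ⟨l, a⟩
    cases l with
    | nil => exact Or.inl ⟨a, rfl, rfl⟩
    | cons x l => exact Or.inr ⟨((x, l), a), rfl, ⟨_, rfl⟩, rfl⟩
  exact key.comp (hd.pair LT.id)

/-! ### Constructors -/

@[fun_prop]
theorem LT.cons' {f : α → β} {g : α → List β} (hf : LT f) (hg : LT g) :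
    LT (fun a => f a :: g a) :=
  LT.congr_code (hf.pair hg) (fun _ => rfl)

@[fun_prop]
theorem LT.succ' {f : α → ℕ} (hf : LT f) : LT (fun a => f a + 1) :=
  LT.congr_code ((LT.const' ()).pair hf) (fun _ => rfl)

@[fun_prop]
theorem LT.some' {f : α → β} (hf : LT f) : LT (fun a => some (f a)) :=
  LT.congr_code (hf.pair (LT.const' ())) (fun _ => rfl)

@[fun_prop]
theorem LT.treeCons {f g : α → D} (hf : LT f) (hg : LT g) :
    LT (fun a => D.cons (f a) (g a)) :=
  LT.congr_code (hf.pair hg) (fun _ => rfl)

@[fun_prop]
theorem LT.tail' {f : α → List β} (hf : LT f) : LT (fun a => (f a).tail) := by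
  have := LT.listCase (γ := List β) (f := fun _ : α => []) (g := fun z => z.1.2) hf
    (by fun_prop) (by fun_prop)
  convert this using 2 with a
  cases f a <;> rfl

@[fun_prop]
theorem LT.head?' {f : α → List β} (hf : LT f) : LT (fun a => (f a).head?) := by
  have := LT.listCase (γ := Option β) (f := fun _ : α => none)
    (g := fun z => some z.1.1) hf (by fun_prop) (by fun_prop)
  convert this using 2 with a
  cases f a <;> rfl

@[fun_prop]
theorem LT.headD' {f : α → List β} {d : α → β} (hf : LT f) (hd : LT d) :
    LT (fun a => (f a).headD (d a)) := by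
  have := LT.listCase (γ := β) (f := d)
    (g := fun z => z.1.1) hf (by fun_prop) (by fun_prop)
  convert this using 2 with a
  cases f a <;> rfl

@[fun_prop]
theorem LT.pred' {f : α → ℕ} (hf : LT f) : LT (fun a => f a - 1) := by
  have := LT.natCase (γ := ℕ) (f := fun _ : α => 0)
    (g := fun z => z.1) hf (by fun_prop) (by fun_prop)
  convert this using 2 with a
  cases f a <;> rfl

@[fun_prop]
theorem LT.isEmpty' {f : α → List β} (hf : LT f) : LT (fun a => (f a).isEmpty) := by
  have := LT.listCase (γ := Bool) (f := fun _ : α => true)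
    (g := fun _ => false) hf (by fun_prop) (by fun_prop)
  convert this using 2 with a
  cases f a <;> rfl

@[fun_prop]
theorem LT.isSome' {f : α → Option β} (hf : LT f) : LT (fun a => (f a).isSome) := by
  have := LT.optCase (γ := Bool) (f := fun _ : α => false)
    (g := fun _ => true) hf (by fun_prop) (by fun_prop)
  convert this using 2 with a
  cases f a <;> rfl

@[fun_prop]
theorem LT.getD_opt {f : α → Option β} {d : α → β} (hf : LT f) (hd : LT d) :
    LT (fun a => (f a).getD (d a)) := by
  have := LT.optCase (γ := β) (f := d)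
    (g := fun z => z.1) hf (by fun_prop) (by fun_prop)
  convert this using 2 with a
  cases f a <;> rfl

/-! ### Booleans -/

@[fun_prop]
theorem LT.not' {f : α → Bool} (hf : LT f) : LT (fun a => !(f a)) := by
  have := hf.cond (LT.const' false) (LT.const' true)
  convert this using 2 with a
  cases f a <;> rfl

@[fun_prop]
theorem LT.and' {f g : α → Bool} (hf : LT f) (hg : LT g) :
    LT (fun a => f a && g a) := by
  have := hf.cond hg (LT.const' false)
  convert this using 2 with a
  cases f a <;> rfl

@[fun_prop]
theorem LT.or' {f g : α → Bool} (hf : LT f) (hg : LT g) :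
    LT (fun a => f a || g a) := by
  have := hf.cond (LT.const' true) hg
  convert this using 2 with a
  cases f a <;> rfl

@[fun_prop]
theorem LT.xor' {f g : α → Bool} (hf : LT f) (hg : LT g) :
    LT (fun a => xor (f a) (g a)) := by
  have := hf.cond hg.not' hg
  convert this using 2 with a
  cases f a <;> cases g a <;> rfl

@[fun_prop]
theorem LT.decideEq [DecidableEq β] {f g : α → β} (hf : LT f) (hg : LT g) :
    LT (fun a => decide (f a = g a)) := by
  have := (LT.eqCode (α := β)).comp (hf.pair hg)
  convert this using 2 with a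
  exact decide_eq_decide.mpr code_injective.eq_iff.symm

@[fun_prop]
theorem LT.beq' {f g : α → Bool} (hf : LT f) (hg : LT g) :
    LT (fun a => f a == g a) := by
  have := hf.decideEq hg
  convert this using 2 with a
  cases f a <;> cases g a <;> rfl

/-! ### Loops -/

theorem LT.loop {ini : α → σ} {s : α × σ → σ} {c : α × σ → Bool} (N : α → ℕ)
    (hini : LT ini) (hs : LT s) (hc : LT c) (Q : ℕ)
    (hsz : ∀ a k, k ≤ N a → size ((fun y => s (a, y))^[k] (ini a)) ≤ Q * size a)
    (h1 : ∀ a k, k < N a → c (a, (fun y => s (a, y))^[k] (ini a)) = true)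
    (h2 : ∀ a, c (a, (fun y => s (a, y))^[N a] (ini a)) = false) :
    LT (fun a => (fun y => s (a, y))^[N a] (ini a)) := by
  let s' : α × σ → α × σ := fun z => (z.1, s z)
  have hs' : LT s' := by
    have h : LT (fun z : α × σ => z.1) := by fun_prop
    exact h.pair hs
  have hit : ∀ (k : ℕ) (a : α) (y : σ), s'^[k] (a, y) = (a, (fun y => s (a, y))^[k] y) := by
    intro k a y
    induction k with
    | zero => rfl
    | succ k ih => rw [Function.iterate_succ_apply', Function.iterate_succ_apply', ih]
  have key := LT.whileSub hs' hc (fun z => z.2 = ini z.1) (fun z => N z.1.1)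
    (Q + 2) (by
      rintro ⟨⟨a, y⟩, hy⟩ k hk
      simp only at hy hk
      subst hy
      simp only [hit, size_pair]
      have h3 := hsz a k hk
      have h4 := size_pos a
      have h5 : (Q + 2) * (size a + size (ini a) + 1) =
        Q * size a + 2 * size a + (Q + 2) * (size (ini a) + 1) := by ring
      omega) (by
      rintro ⟨⟨a, y⟩, hy⟩ k hk
      simp only at hy hk
      subst hy
      simp only [hit]
      exact h1 a k hk) (by
      rintro ⟨⟨a, y⟩, hy⟩
      simp only at hy
      subst hy
      simp only [hit]
      exact h2 a)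
  have h5 : LT (fun a => (⟨(a, ini a), rfl⟩ : {z : α × σ // z.2 = ini z.1})) :=
    LT.mkSub (p := fun z : α × σ => z.2 = ini z.1) (LT.id.pair hini) (fun _ => rfl)
  have h6 := LT.snd.comp (key.comp h5)
  convert h6 using 2 with a
  simp only [hit]

/-- The result of a terminating while loop. -/
noncomputable def whileR {σ : Type} (s : σ → σ) (c : σ → Bool) (y : σ) : σ :=
  open Classical in
  if h : ∃ N, c (s^[N] y) = false then s^[Nat.find h] y else y

theorem whileR_eq {σ : Type} (s : σ → σ) (c : σ → Bool) (y : σ) (N : ℕ)
    (h1 : ∀ k < N, c (s^[k] y) = true) (h2 : c (s^[N] y) = false) :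
    whileR s c y = s^[N] y := by
  classical
  have h : ∃ N, c (s^[N] y) = false := ⟨N, h2⟩
  have e : Nat.find h = N := by
    rw [Nat.find_eq_iff]
    refine ⟨h2, ?_⟩
    intro k hk
    rw [h1 k hk]; simp
  unfold whileR
  rw [dif_pos h, e]

/-- The while loop with an invariant. -/
theorem LT.whileInv {ini : α → σ} {s : α × σ → σ} {c : α × σ → Bool}
    (hini : LT ini) (hs : LT s) (hc : LT c) (Inv : α → σ → Prop) (Q : ℕ)
    (hsz : ∀ a y, Inv a y → size y ≤ Q * size a)
    (h0 : ∀ a, Inv a (ini a))
    (hstep : ∀ a y, Inv a y → c (a, y) = true → Inv a (s (a, y)))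
    (hterm : ∀ a, ∃ N, c (a, (fun y => s (a, y))^[N] (ini a)) = false) :
    LT (fun a => whileR (fun y => s (a, y)) (fun y => c (a, y)) (ini a)) := by
  classical
  let N : α → ℕ := fun a => Nat.find (hterm a)
  have hlt : ∀ a k, k < N a → c (a, (fun y => s (a, y))^[k] (ini a)) = true := by
    intro a k hk
    have := Nat.find_min (hterm a) hk
    simpa using this
  have hN : ∀ a, c (a, (fun y => s (a, y))^[N a] (ini a)) = false := fun a =>
    Nat.find_spec (hterm a)
  have hinv : ∀ a k, k ≤ N a → Inv a ((fun y => s (a, y))^[k] (ini a)) := by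
    intro a k
    induction k with
    | zero => intro _; exact h0 a
    | succ k ih =>
      intro hk
      rw [Function.iterate_succ_apply']
      exact hstep a _ (ih (by omega)) (hlt a k (by omega))
  have key := LT.loop N hini hs hc Q (fun a k hk => hsz a _ (hinv a k hk)) hlt hN
  refine LT.of_eq key ?_
  intro a
  exact whileR_eq _ _ _ (N a) (hlt a) (hN a)

theorem LT.iterate {ini : α → σ} {s : α × σ → σ} {n : α → ℕ} (hn : LT n)
    (hini : LT ini) (hs : LT s) (Q : ℕ)
    (hsz : ∀ a k, k ≤ n a → size ((fun y => s (a, y))^[k] (ini a)) ≤ Q * size a) :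
    LT (fun a => (fun y => s (a, y))^[n a] (ini a)) := by
  obtain ⟨C, hC0, hC⟩ := hn.exists_size_le
  -- the state is a counter together with the value
  let s' : α × (ℕ × σ) → ℕ × σ := fun z => (z.2.1 - 1, s (z.1, z.2.2))
  have hs' : LT s' := by
    have h : LT (fun z : α × (ℕ × σ) => s (z.1, z.2.2)) :=
      hs.comp (f := fun z : α × (ℕ × σ) => (z.1, z.2.2)) (by fun_prop)
    exact LT.prodMk (by fun_prop) h
  have hit : ∀ (k : ℕ) (a : α), (fun y => s' (a, y))^[k] (n a, ini a) =
      (n a - k, (fun y => s (a, y))^[k] (ini a)) := by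
    intro k a
    induction k with
    | zero => rfl
    | succ k ih =>
      rw [Function.iterate_succ_apply', Function.iterate_succ_apply', ih]
      simp only [s', Prod.mk.injEq, and_true]
      omega
  have key := LT.loop (ini := fun a => (n a, ini a)) (s := s')
    (c := fun z => !(decide (z.2.1 = 0))) n (hn.pair hini) hs' (by fun_prop)
    (C + Q + 1) (by
      intro a k hk
      rw [hit, size_pair]
      have h3 := hsz a k hk
      have h4 := hC a
      have h5 := size_pos a
      rw [size_nat] at h4 ⊢
      have h6 : (C + Q + 1) * size a = C * size a + Q * size a + size a := by ring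
      omega) (by
      intro a k hk
      rw [hit]
      simp only [Bool.not_eq_eq_eq_not, Bool.not_true, decide_eq_false_iff_not]
      omega) (by
      intro a
      rw [hit]
      simp)
  have h6 := LT.snd.comp key
  convert h6 using 2 with a
  rw [hit]

theorem LT.foldl {ini : α → σ} {s : α × (σ × β) → σ} {l : α → List β} (hl : LT l)
    (hini : LT ini) (hs : LT s) (Q : ℕ)
    (hsz : ∀ a k, size (((l a).take k).foldl (fun y b => s (a, (y, b))) (ini a)) ≤
      Q * size a) :
    LT (fun a => (l a).foldl (fun y b => s (a, (y, b))) (ini a)) := by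
  obtain ⟨C, hC0, hC⟩ := hl.exists_size_le
  let s' : α × (List β × σ) → List β × σ := fun z =>
    match z.2.1 with
    | [] => z.2
    | b :: l => (l, s (z.1, (z.2.2, b)))
  have hs' : LT s' := by
    have := LT.listCase (l := fun z : α × (List β × σ) => z.2.1)
      (f := fun z : α × (List β × σ) => z.2)
      (g := fun w : (β × List β) × (α × (List β × σ)) =>
        (w.1.2, s (w.2.1, (w.2.2.2, w.1.1)))) (by fun_prop) (by fun_prop)
      (LT.prodMk (by fun_prop) (hs.comp (f := fun w : (β × List β) × (α × (List β × σ)) =>
        (w.2.1, (w.2.2.2, w.1.1))) (by fun_prop)))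
    exact this
  have hit : ∀ (k : ℕ) (a : α), k ≤ (l a).length → (fun y => s' (a, y))^[k] (l a, ini a) =
      ((l a).drop k, ((l a).take k).foldl (fun y b => s (a, (y, b))) (ini a)) := by
    intro k a hk
    induction k with
    | zero => simp
    | succ k ih =>
      rw [Function.iterate_succ_apply', ih (by omega)]
      rw [List.drop_eq_getElem_cons (by omega : k < (l a).length)]
      simp only [s']
      rw [List.take_succ_eq_append_getElem (by omega : k < (l a).length), List.foldl_append]
      rfl
  have key := LT.loop (ini := fun a => (l a, ini a)) (s := s')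
    (c := fun z => !(z.2.1).isEmpty) (fun a => (l a).length) (hl.pair hini) hs'
    (by fun_prop)
    (C + Q + 1) (by
      intro a k hk
      rw [hit k a hk, size_pair]
      have h3 := hsz a k
      have h4 := hC a
      have h5 := size_drop_le (l a) k
      have h6 := size_pos a
      have h7 : (C + Q + 1) * size a = C * size a + Q * size a + size a := by ring
      omega) (by
      intro a k hk
      rw [hit k a (by omega)]
      simp only [Bool.not_eq_eq_eq_not, Bool.not_true, List.isEmpty_eq_false_iff, ne_eq,
        List.drop_eq_nil_iff, not_le]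
      exact hk) (by
      intro a
      rw [hit _ a le_rfl]
      simp)
  have h6 := LT.snd.comp key
  convert h6 using 2 with a
  rw [hit _ a le_rfl, List.take_length]

/-- A fold whose state satisfies an invariant. -/
theorem LT.foldlInv {ini : α → σ} {s : α × (σ × β) → σ} {l : α → List β} (hl : LT l)
    (hini : LT ini) (hs : LT s) (Inv : α → σ → Prop) (Q : ℕ)
    (hsz : ∀ a y, Inv a y → size y ≤ Q * size a) (h0 : ∀ a, Inv a (ini a))
    (hstep : ∀ a y b, b ∈ l a → Inv a y → Inv a (s (a, (y, b)))) :
    LT (fun a => (l a).foldl (fun y b => s (a, (y, b))) (ini a)) := by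
  refine LT.foldl hl hini hs Q ?_
  intro a k
  refine hsz a _ ?_
  have : ∀ (l' : List β) (y : σ), (∀ b ∈ l', b ∈ l a) → Inv a y →
      Inv a (l'.foldl (fun y b => s (a, (y, b))) y) := by
    intro l'
    induction l' with
    | nil => intro y _ h; exact h
    | cons b l' ih =>
      intro y hb h
      exact ih _ (fun b hb' => hb b (by simp [hb'])) (hstep a y b (hb b (by simp)) h)
  exact this _ _ (fun b hb => List.mem_of_mem_take hb) (h0 a)

/-! ### Lists -/

@[fun_prop]
theorem LT.reverse' {l : α → List β} (hl : LT l) : LT (fun a => (l a).reverse) := by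
  obtain ⟨C, hC0, hC⟩ := hl.exists_size_le
  have hf : ∀ (l l' : List β), l.foldl (fun y b => b :: y) l' = l.reverse ++ l' := by
    intro l
    induction l with
    | nil => simp
    | cons b l ih => intro l'; simp [ih]
  have := LT.foldl (σ := List β) (ini := fun _ : α => []) (s := fun z => z.2.2 :: z.2.1) hl
    (by fun_prop) (by fun_prop) C (by
      intro a k
      rw [hf, List.append_nil, size_reverse]
      exact (size_take_le _ _).trans (hC a))
  refine LT.of_eq this ?_
  intro a
  rw [hf, List.append_nil]

@[fun_prop]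
theorem LT.append' {l l' : α → List β} (hl : LT l) (hl' : LT l') :
    LT (fun a => l a ++ l' a) := by
  obtain ⟨C, hC0, hC⟩ := hl.exists_size_le
  obtain ⟨C', hC0', hC'⟩ := hl'.exists_size_le
  have hf : ∀ (l l' : List β), l.foldl (fun y b => b :: y) l' = l.reverse ++ l' := by
    intro l
    induction l with
    | nil => simp
    | cons b l ih => intro l'; simp [ih]
  have := LT.foldl (σ := List β) (ini := fun a : α => l' a) (s := fun z => z.2.2 :: z.2.1)
    hl.reverse' hl' (by fun_prop) (C + C') (by
      intro a k
      rw [hf]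
      have h1 := size_append (((l a).reverse.take k).reverse) (l' a)
      have h2 := size_take_le (l a).reverse k
      rw [size_reverse] at h1 h2
      have h3 := hC a
      have h4 := hC' a
      have h5 : (C + C') * size a = C * size a + C' * size a := by ring
      omega)
  refine LT.of_eq this ?_
  intro a
  rw [hf, List.reverse_reverse]

/-- Map with a bound on the size of the result. -/
theorem LT.map' {l : α → List β} {f : α × β → γ} (hl : LT l) (hf : LT f) (Q : ℕ)
    (hsz : ∀ a, size ((l a).map (fun b => f (a, b))) ≤ Q * size a) :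
    LT (fun a => (l a).map (fun b => f (a, b))) := by
  have hfold : ∀ (a : α) (l : List β) (l' : List γ),
      l.foldl (fun y b => f (a, b) :: y) l' = (l.map (fun b => f (a, b))).reverse ++ l' := by
    intro a l
    induction l with
    | nil => simp
    | cons b l ih => intro l'; simp [ih]
  have hs : LT (fun z : α × (List γ × β) => f (z.1, z.2.2) :: z.2.1) :=
    LT.cons' (hf.comp (f := fun z : α × (List γ × β) => (z.1, z.2.2)) (by fun_prop))
      (by fun_prop)
  have := LT.foldl (σ := List γ) (ini := fun _ : α => []) (s := fun z => f (z.1, z.2.2) :: z.2.1)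
    hl (by fun_prop) hs Q (by
      intro a k
      rw [hfold, List.append_nil, size_reverse, List.map_take]
      exact (size_take_le _ _).trans (hsz a))
  refine LT.of_eq this.reverse' ?_
  intro a
  rw [hfold, List.append_nil, List.reverse_reverse]

@[fun_prop]
theorem LT.length' {l : α → List β} (hl : LT l) : LT (fun a => (l a).length) := by
  obtain ⟨C, hC0, hC⟩ := hl.exists_size_le
  have hf : ∀ (l : List β) (n : ℕ), l.foldl (fun y _ => y + 1) n = n + l.length := by
    intro l
    induction l with
    | nil => simp
    | cons b l ih => intro n; simp [ih]; omega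
  have := LT.foldl (σ := ℕ) (ini := fun _ : α => 0) (s := fun z => z.2.1 + 1) hl
    (by fun_prop) (by fun_prop) (3 * C) (by
      intro a k
      rw [hf, size_nat]
      have h1 := length_le_size' (l a)
      have h2 := hC a
      have h3 := size_pos (l a)
      have h4 : ((l a).take k).length ≤ (l a).length := by simp
      have h5 : 3 * C * size a = 3 * (C * size a) := by ring
      omega)
  refine LT.of_eq this ?_
  intro a
  rw [hf, Nat.zero_add]

@[fun_prop]
theorem LT.add' {f g : α → ℕ} (hf : LT f) (hg : LT g) : LT (fun a => f a + g a) := by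
  obtain ⟨C, hC0, hC⟩ := hf.exists_size_le
  obtain ⟨C', hC0', hC'⟩ := hg.exists_size_le
  have hi : ∀ (n k : ℕ), (fun y => y + 1)^[k] n = n + k := by
    intro n k
    induction k with
    | zero => rfl
    | succ k ih => rw [Function.iterate_succ_apply', ih]; omega
  have := LT.iterate (σ := ℕ) (ini := f) (s := fun z => z.2 + 1) hg hf (by fun_prop) (C + C') (by
      intro a k hk
      rw [hi, size_nat]
      have h1 := hC a
      have h2 := hC' a
      rw [size_nat] at h1 h2
      have h5 : (C + C') * size a = C * size a + C' * size a := by ring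
      omega)
  refine LT.of_eq this ?_
  intro a
  rw [hi]

@[fun_prop]
theorem LT.sub' {f g : α → ℕ} (hf : LT f) (hg : LT g) : LT (fun a => f a - g a) := by
  obtain ⟨C, hC0, hC⟩ := hf.exists_size_le
  have hi : ∀ (n k : ℕ), (fun y => y - 1)^[k] n = n - k := by
    intro n k
    induction k with
    | zero => rfl
    | succ k ih => rw [Function.iterate_succ_apply', ih]; omega
  have := LT.iterate (σ := ℕ) (ini := f) (s := fun z => z.2 - 1) hg hf (by fun_prop) C (by
      intro a k hk
      rw [hi, size_nat]
      have h1 := hC a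
      rw [size_nat] at h1
      omega)
  refine LT.of_eq this ?_
  intro a
  rw [hi]

@[fun_prop]
theorem LT.decideLe {f g : α → ℕ} (hf : LT f) (hg : LT g) :
    LT (fun a => decide (f a ≤ g a)) := by
  have : LT (fun a => decide (f a - g a = 0)) := by fun_prop
  refine LT.of_eq this ?_
  intro a
  exact decide_eq_decide.mpr (by omega)

@[fun_prop]
theorem LT.decideLt {f g : α → ℕ} (hf : LT f) (hg : LT g) :
    LT (fun a => decide (f a < g a)) := by
  have : LT (fun a => decide (f a + 1 - g a = 0)) := by fun_prop
  refine LT.of_eq this ?_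
  intro a
  exact decide_eq_decide.mpr (by omega)

theorem size_replicate (n : ℕ) (b : β) : size (List.replicate n b) = n * (size b + 1) + 1 := by
  induction n with
  | zero => simp [size_nil]
  | succ n ih => rw [List.replicate_succ, size_cons, ih]; ring

/-- Replicate with a bound on the size of the result. -/
theorem LT.replicate' {n : α → ℕ} {b : α → β} (hn : LT n) (hb : LT b) (Q : ℕ)
    (hsz : ∀ a, size (List.replicate (n a) (b a)) ≤ Q * size a) :
    LT (fun a => List.replicate (n a) (b a)) := by
  have hi : ∀ (x : β) (k : ℕ), (fun y : List β => x :: y)^[k] [] = List.replicate k x := by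
    intro x k
    induction k with
    | zero => rfl
    | succ k ih => rw [Function.iterate_succ_apply', ih]; rfl
  have := LT.iterate (σ := List β) (ini := fun _ : α => []) (s := fun z => b z.1 :: z.2) hn
    (by fun_prop) (LT.cons' (hb.comp (f := fun z : α × List β => z.1) (by fun_prop))
      (by fun_prop)) Q (by
      intro a k hk
      show size ((fun y : List β => b a :: y)^[k] []) ≤ Q * size a
      rw [hi]
      refine le_trans ?_ (hsz a)
      rw [size_replicate, size_replicate]
      have := Nat.mul_le_mul_right (size (b a) + 1) hk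
      omega)
  refine LT.of_eq this ?_
  intro a
  show _ = (fun y : List β => b a :: y)^[n a] []
  rw [hi]

@[fun_prop]
theorem LT.drop' {n : α → ℕ} {l : α → List β} (hn : LT n) (hl : LT l) :
    LT (fun a => (l a).drop (n a)) := by
  obtain ⟨C, hC0, hC⟩ := hl.exists_size_le
  have hi : ∀ (l : List β) (k : ℕ), (fun y : List β => y.tail)^[k] l = l.drop k := by
    intro l k
    induction k with
    | zero => rfl
    | succ k ih => rw [Function.iterate_succ_apply', ih, List.tail_drop]
  have := LT.iterate (σ := List β) (ini := l) (s := fun z => z.2.tail) hn hl (by fun_prop) C (by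
      intro a k hk
      rw [hi]
      exact (size_drop_le _ _).trans (hC a))
  refine LT.of_eq this ?_
  intro a
  rw [hi]

@[fun_prop]
theorem LT.take' {n : α → ℕ} {l : α → List β} (hn : LT n) (hl : LT l) :
    LT (fun a => (l a).take (n a)) := by
  have : LT (fun a => ((l a).reverse.drop ((l a).length - n a)).reverse) := by fun_prop
  refine LT.of_eq this ?_
  intro a
  rw [List.drop_reverse, List.reverse_reverse]
  rcases Nat.le_total (n a) (l a).length with h | h
  · congr 1; omega
  · rw [List.take_of_length_le h, List.take_of_length_le (by omega)]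

@[fun_prop]
theorem LT.getD' {n : α → ℕ} {l : α → List β} {d : α → β} (hn : LT n) (hl : LT l)
    (hd : LT d) : LT (fun a => (l a).getD (n a) (d a)) := by
  have : LT (fun a => ((l a).drop (n a)).headD (d a)) := by fun_prop
  refine LT.of_eq this ?_
  intro a
  rw [List.getD_eq_getElem?_getD, List.headD_eq_head?_getD, List.head?_drop]

end Pool.Agent.H7LS
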