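import Pool.Agent.H7LS.Toolkit
import Pool.Agent.H7LS.Defs

/-!
# Words as binary counters, exhaustive loops over words, arithmetic modulo `q`
-/

namespace Pool.Agent.H7LS

open Pool.Agent.PPS

variable {α β γ δ σ τ : Type} [Rep α] [Rep β] [Rep γ] [Rep δ] [Rep σ] [Rep τ]

/-! ### Words -/

/-- Successor of a binary counter (least significant bit first), with wrap-around. -/
def incW : List Bool → List Bool
  | [] => []
  | false :: w => true :: w
  | true :: w => false :: incW w

/-- The word of length `L` that represents `t` modulo `2 ^ L`. -/
def wordN : ℕ → ℕ → List Bool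
  | 0, _ => []
  | L + 1, t => decide (t % 2 = 1) :: wordN L (t / 2)

@[simp] theorem length_wordN (L t : ℕ) : (wordN L t).length = L := by
  induction L generalizing t with
  | zero => rfl
  | succ L ih => simp [wordN, ih]

@[simp] theorem length_incW (w : List Bool) : (incW w).length = w.length := by
  induction w with
  | nil => rfl
  | cons b w ih => cases b <;> simp [incW, ih]

theorem incW_wordN (L t : ℕ) : incW (wordN L t) = wordN L (t + 1) := by
  induction L generalizing t with
  | zero => rfl
  | succ L ih =>
    rcases Nat.mod_two_eq_zero_or_one t with h | h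
    · have h1 : (t + 1) % 2 = 1 := by omega
      have h2 : (t + 1) / 2 = t / 2 := by omega
      simp [wordN, h, h1, h2, incW]
    · have h1 : (t + 1) % 2 = 0 := by omega
      have h2 : (t + 1) / 2 = t / 2 + 1 := by omega
      simp [wordN, h, h1, h2, incW, ih]

theorem incW_iterate (L t k : ℕ) : incW^[k] (wordN L t) = wordN L (t + k) := by
  induction k with
  | zero => rfl
  | succ k ih => rw [Function.iterate_succ_apply', ih, incW_wordN]; rfl

theorem wordN_zero (L : ℕ) : wordN L 0 = List.replicate L false := by
  induction L with
  | zero => rfl
  | succ L ih => simp [wordN, List.replicate_succ, ih]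

theorem valW_wordN (L t : ℕ) (h : t < 2 ^ L) : valW (wordN L t) = t := by
  induction L generalizing t with
  | zero => simp at h; subst h; rfl
  | succ L ih =>
    have h1 : t / 2 < 2 ^ L := by rw [pow_succ] at h; omega
    simp only [wordN, valW, ih _ h1]
    rcases Nat.mod_two_eq_zero_or_one t with h2 | h2 <;> simp [h2] <;> omega

theorem valW_lt (w : List Bool) : valW w < 2 ^ w.length := by
  induction w with
  | nil => simp [valW]
  | cons b w ih =>
    have : b.toNat ≤ 1 := by cases b <;> simp
    simp only [valW, List.length_cons, pow_succ]
    omega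

theorem wordN_valW (w : List Bool) : wordN w.length (valW w) = w := by
  induction w with
  | nil => rfl
  | cons b w ih =>
    simp only [List.length_cons, wordN, valW]
    have h1 : (b.toNat + 2 * valW w) / 2 = valW w := by cases b <;> simp <;> omega
    have h2 : decide ((b.toNat + 2 * valW w) % 2 = 1) = b := by cases b <;> simp <;> omega
    rw [h1, h2, ih]

theorem all_wordN (L t : ℕ) (h : t < 2 ^ L) :
    (wordN L t).all (fun b => b) = decide (t + 1 = 2 ^ L) := by
  induction L generalizing t with
  | zero => simp at h; subst h; simp [wordN]
  | succ L ih =>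
    have h1 : t / 2 < 2 ^ L := by rw [pow_succ] at h; omega
    simp only [wordN, List.all_cons, ih _ h1]
    have hp : 2 ^ (L + 1) = 2 * 2 ^ L := by ring
    rcases Nat.mod_two_eq_zero_or_one t with h2 | h2
    · have : ¬ (t + 1 = 2 ^ (L + 1)) := by omega
      simp [h2, this]
    · rw [Bool.eq_iff_iff]
      simp only [h2, decide_true, Bool.true_and, decide_eq_true_eq]
      omega

/-! ### Sizes -/

theorem size_word_le (w : List Bool) : size w ≤ 4 * w.length + 1 := (size_bits w).2

theorem le_size_word (w : List Bool) : 2 * w.length + 1 ≤ size w := (size_bits w).1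

/-! ### Counters in linear space -/

/-- Step of the successor function. -/
def incS (y : Bool × List Bool) (b : Bool) : Bool × List Bool :=
  (y.1 && b, (xor y.1 b) :: y.2)

theorem foldl_incS_false (w acc : List Bool) :
    w.foldl incS (false, acc) = (false, w.reverse ++ acc) := by
  induction w generalizing acc with
  | nil => rfl
  | cons b w ih =>
    rw [List.foldl_cons]
    have : incS (false, acc) b = (false, b :: acc) := by cases b <;> rfl
    rw [this, ih]; simp

theorem foldl_incS_true (w acc : List Bool) :
    (w.foldl incS (true, acc)).2 = (incW w).reverse ++ acc := by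
  induction w generalizing acc with
  | nil => rfl
  | cons b w ih =>
    rw [List.foldl_cons]
    cases b with
    | false =>
      have : incS (true, acc) false = (false, true :: acc) := rfl
      rw [this, foldl_incS_false]; simp [incW]
    | true =>
      have : incS (true, acc) true = (true, false :: acc) := rfl
      rw [this, ih]; simp [incW]

@[fun_prop]
theorem LT.incW' {w : α → List Bool} (hw : LT w) : LT (fun a => incW (w a)) := by
  obtain ⟨C, hC0, hC⟩ := hw.exists_size_le
  have hs : LT (fun z : α × ((Bool × List Bool) × Bool) => incS z.2.1 z.2.2) := by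
    unfold incS; fun_prop
  have hlen : ∀ (w : List Bool) (y : Bool × List Bool),
      (w.foldl incS y).2.length = w.length + y.2.length := by
    intro w
    induction w with
    | nil => intro y; simp
    | cons b w ih => intro y; rw [List.foldl_cons, ih]; simp [incS]; omega
  have := LT.foldl (σ := Bool × List Bool) (ini := fun _ : α => (true, []))
    (s := fun z => incS z.2.1 z.2.2) hw (by fun_prop) hs (2 * C + 5) (by
      intro a k
      have h1 := hlen ((w a).take k) (true, [])
      have h2 := size_bool_le (((w a).take k).foldl incS (true, [])).1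
      have h3 := size_word_le (((w a).take k).foldl incS (true, [])).2
      have h4 := size_pair (((w a).take k).foldl incS (true, [])).1
        (((w a).take k).foldl incS (true, [])).2
      have h5 := hC a
      have h6 := le_size_word (w a)
      have h7 := size_pos a
      have h8 : ((w a).take k).length ≤ (w a).length := by simp
      simp only [List.length_nil, Nat.add_zero] at h1
      have h9 : (2 * C + 5) * size a = 2 * (C * size a) + 5 * size a := by ring
      show size (((w a).take k).foldl incS (true, [])) ≤ _
      have h10 : size (((w a).take k).foldl incS (true, [])) =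
        size ((((w a).take k).foldl incS (true, [])).1,
          (((w a).take k).foldl incS (true, [])).2) := rfl
      omega)
  have h2 : LT (fun a => ((w a).foldl (fun y b => incS y b) (true, [])).2.reverse) :=
    LT.reverse' (LT.snd' this)
  refine LT.of_eq h2 ?_
  intro a
  show incW (w a) = ((w a).foldl incS (true, [])).2.reverse
  rw [foldl_incS_true]; simp

@[fun_prop]
theorem LT.all' {w : α → List Bool} (hw : LT w) : LT (fun a => (w a).all (fun b => b)) := by
  have hf : ∀ (w : List Bool) (y : Bool), w.foldl (fun y b => y && b) y =
      (y && w.all (fun b => b)) := by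
    intro w
    induction w with
    | nil => intro y; simp
    | cons b w ih => intro y; rw [List.foldl_cons, ih]; simp [Bool.and_assoc]
  have := LT.foldl (σ := Bool) (ini := fun _ : α => true)
    (s := fun z => z.2.1 && z.2.2) hw (by fun_prop) (by fun_prop) 3 (by
      intro a k
      have h1 := size_bool_le (((w a).take k).foldl (fun y b => y && b) true)
      have h7 := size_pos a
      show size (((w a).take k).foldl (fun y b => y && b) true) ≤ _
      omega)
  refine LT.of_eq this ?_
  intro a
  show (w a).all (fun b => b) = (w a).foldl (fun y b => y && b) true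
  rw [hf]; simp

theorem LT.zeros' {L : α → ℕ} (hL : LT L) : LT (fun a => List.replicate (L a) false) := by
  obtain ⟨C, hC0, hC⟩ := hL.exists_size_le
  refine LT.replicate' hL (by fun_prop) (2 * C) ?_
  intro a
  have h1 := size_word_le (List.replicate (L a) false)
  have h2 := hC a
  rw [size_nat] at h2
  rw [List.length_replicate] at h1
  have : 2 * C * size a = 2 * (C * size a) := by ring
  omega

/-- All words of length `L`, in numerical order. -/
def allW (L : ℕ) : List (List Bool) := (List.range (2 ^ L)).map (wordN L)

theorem mem_allW {L : ℕ} {w : List Bool} : w ∈ allW L ↔ w.length = L := by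
  unfold allW
  rw [List.mem_map]
  constructor
  · rintro ⟨t, _, rfl⟩; simp
  · rintro rfl
    exact ⟨valW w, List.mem_range.mpr (valW_lt w), wordN_valW w⟩

theorem nodup_allW (L : ℕ) : (allW L).Nodup := by
  unfold allW
  refine List.Nodup.map_on ?_ List.nodup_range
  intro x hx y hy h
  rw [List.mem_range] at hx hy
  rw [← valW_wordN L x hx, ← valW_wordN L y hy, h]

theorem LT.foldWords {ini : α → σ} {s : α × (σ × List Bool) → σ} {L : α → ℕ} (hL : LT L)
    (hini : LT ini) (hs : LT s) (Inv : α → σ → Prop) (Q : ℕ)
    (hsz : ∀ a y, Inv a y → size y ≤ Q * size a) (h0 : ∀ a, Inv a (ini a))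
    (hstep : ∀ a y w, w.length = L a → Inv a y → Inv a (s (a, (y, w)))) :
    LT (fun a => (allW (L a)).foldl (fun y w => s (a, (y, w))) (ini a)) := by
  obtain ⟨C, hC0, hC⟩ := hL.exists_size_le
  -- state: ((word, continue?), value)
  let s' : α × ((List Bool × Bool) × σ) → (List Bool × Bool) × σ := fun z =>
    ((incW z.2.1.1, !(z.2.1.1.all (fun b => b))), s (z.1, (z.2.2, z.2.1.1)))
  have hs' : LT s' := by
    have h : LT (fun z : α × ((List Bool × Bool) × σ) => s (z.1, (z.2.2, z.2.1.1))) :=
      hs.comp (f := fun z : α × ((List Bool × Bool) × σ) => (z.1, (z.2.2, z.2.1.1)))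
        (by fun_prop)
    exact LT.prodMk (by fun_prop) h
  have hini' : LT (fun a => ((List.replicate (L a) false, true), ini a)) :=
    LT.prodMk (LT.prodMk (LT.zeros' hL) (LT.const' true)) hini
  have hit : ∀ (k : ℕ) (a : α), k < 2 ^ L a →
      (fun y => s' (a, y))^[k] ((List.replicate (L a) false, true), ini a) =
      ((wordN (L a) k, true), ((List.range k).map (wordN (L a))).foldl
        (fun y w => s (a, (y, w))) (ini a)) := by
    intro k a
    induction k with
    | zero => intro _; simp [wordN_zero]
    | succ k ih =>
      intro hk
      rw [Function.iterate_succ_apply', ih (by omega)]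
      simp only [s']
      rw [incW_wordN, all_wordN _ _ (by omega)]
      have : ¬ (k + 1 = 2 ^ L a) := by omega
      simp only [this, decide_false, Bool.not_false]
      rw [List.range_succ, List.map_append, List.foldl_append]
      rfl
  have hpos : ∀ a, 0 < 2 ^ L a := fun a => Nat.two_pow_pos _
  have hlast : ∀ a, (fun y => s' (a, y))^[2 ^ L a] ((List.replicate (L a) false, true), ini a) =
      ((wordN (L a) (2 ^ L a), false), (allW (L a)).foldl (fun y w => s (a, (y, w))) (ini a)) := by
    intro a
    obtain ⟨k, hk⟩ := Nat.exists_eq_succ_of_ne_zero (hpos a).ne'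
    unfold allW
    rw [hk, Function.iterate_succ_apply', hit k a (by omega)]
    simp only [s']
    rw [incW_wordN, all_wordN _ _ (by omega), List.range_succ, List.map_append,
      List.foldl_append]
    have : k + 1 = 2 ^ L a := by omega
    simp only [this, decide_true, Bool.not_true]
    rw [← this]
    rfl
  have hinv : ∀ a (l : List ℕ) (y : σ), Inv a y →
      Inv a ((l.map (wordN (L a))).foldl (fun y w => s (a, (y, w))) y) := by
    intro a l
    induction l with
    | nil => intro y h; exact h
    | cons t l ih =>
      intro y h
      exact ih _ (hstep a y _ (by simp) h)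
  have key := LT.loop (ini := fun a => ((List.replicate (L a) false, true), ini a)) (s := s')
    (c := fun z => z.2.1.2) (fun a => 2 ^ L a) hini' hs' (by fun_prop)
    (2 * C + Q + 6) (by
      intro a k hk
      have hb : ∀ (k : ℕ) (b : Bool) (y : σ), Inv a y →
          size ((wordN (L a) k, b), y) ≤ (2 * C + Q + 6) * size a := by
        intro k b y hy
        have h1 := hsz a y hy
        have h2 := size_word_le (wordN (L a) k)
        have h3 := size_bool_le b
        have h4 := hC a
        have h5 := size_pos a
        rw [size_nat] at h4
        rw [length_wordN] at h2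
        rw [size_pair, size_pair]
        have h6 : (2 * C + Q + 6) * size a = 2 * (C * size a) + Q * size a + 6 * size a := by
          ring
        omega
      rcases Nat.lt_or_ge k (2 ^ L a) with h | h
      · rw [hit k a h]
        exact hb _ _ _ (hinv a _ _ (h0 a))
      · obtain rfl : k = 2 ^ L a := by omega
        rw [hlast a]
        refine hb _ _ _ ?_
        exact hinv a _ _ (h0 a)) (by
      intro a k hk
      rw [hit k a hk]) (by
      intro a
      rw [hlast a])
  have h6 := LT.snd.comp key
  refine LT.of_eq h6 ?_
  intro a
  rw [hlast a]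

/-! ### Arithmetic on unary numbers, modulo `q` -/

@[fun_prop]
theorem LT.min' {f g : α → ℕ} (hf : LT f) (hg : LT g) : LT (fun a => min (f a) (g a)) := by
  have : LT (fun a => bif decide (f a ≤ g a) then f a else g a) := by fun_prop
  refine LT.of_eq this ?_
  intro a
  by_cases h : f a ≤ g a
  · simp [h]
  · simp [h]; omega

/-- Value of a word, truncated at `q`. -/
def valCap (q : ℕ) (w : List Bool) : ℕ := min q (valW w)

theorem foldl_valCap (q : ℕ) (w : List Bool) :
    w.reverse.foldl (fun y b => min q (y + y + b.toNat)) 0 = valCap q w := by
  induction w with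
  | nil => simp [valCap, valW]
  | cons b w ih =>
    rw [List.reverse_cons, List.foldl_append, ih]
    simp only [List.foldl_cons, List.foldl_nil, valCap, valW]
    omega

@[fun_prop]
theorem LT.toNat' {f : α → Bool} (hf : LT f) : LT (fun a => (f a).toNat) := by
  have : LT (fun a => bif f a then 1 else 0) := by fun_prop
  refine LT.of_eq this ?_
  intro a
  cases f a <;> rfl

@[fun_prop]
theorem LT.valCap' {q : α → ℕ} {w : α → List Bool} (hq : LT q) (hw : LT w) :
    LT (fun a => valCap (q a) (w a)) := by
  obtain ⟨C, hC0, hC⟩ := hq.exists_size_le
  have hs : LT (fun z : α × (ℕ × Bool) => min (q z.1) (z.2.1 + z.2.1 + z.2.2.toNat)) := by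
    have h : LT (fun z : α × (ℕ × Bool) => q z.1) :=
      hq.comp (f := fun z : α × (ℕ × Bool) => z.1) (by fun_prop)
    fun_prop
  have := LT.foldlInv (σ := ℕ) (ini := fun _ : α => 0)
    (s := fun z : α × (ℕ × Bool) => min (q z.1) (z.2.1 + z.2.1 + z.2.2.toNat)) hw.reverse'
    (by fun_prop) hs
    (fun a y => y ≤ q a) C (by
      intro a y hy
      have h1 := hC a
      rw [size_nat] at h1 ⊢
      omega) (by intro a; exact Nat.zero_le _) (by
      intro a y b _ _
      exact Nat.min_le_left _ _)
  refine LT.of_eq this ?_
  intro a
  exact (foldl_valCap _ _).symm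

/-- A number as a word of given length. -/
theorem LT.wordN' {L t : α → ℕ} (hL : LT L) (ht : LT t) : LT (fun a => wordN (L a) (t a)) := by
  obtain ⟨C, hC0, hC⟩ := hL.exists_size_le
  have := LT.iterate (σ := List Bool) (ini := fun a => List.replicate (L a) false)
    (s := fun z => incW z.2) ht (LT.zeros' hL) (by fun_prop) (2 * C) (by
      intro a k hk
      have h1 : (fun y => incW (a, y).2)^[k] (List.replicate (L a) false) = wordN (L a) k := by
        rw [← wordN_zero]
        have := incW_iterate (L a) 0 k
        rw [Nat.zero_add] at this
        exact this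
      rw [h1]
      have h2 := size_word_le (wordN (L a) k)
      rw [length_wordN] at h2
      have h3 := hC a
      rw [size_nat] at h3
      have : 2 * C * size a = 2 * (C * size a) := by ring
      omega)
  refine LT.of_eq this ?_
  intro a
  rw [← wordN_zero]
  have := incW_iterate (L a) 0 (t a)
  rw [Nat.zero_add] at this
  exact this.symm

attribute [fun_prop] LT.zeros' LT.wordN'

/-- Addition modulo `q`. -/
def amod (q x y : ℕ) : ℕ := if x + y < q then x + y else x + y - q

theorem amod_cast (q x y : ℕ) : ((amod q x y : ℕ) : ZMod q) = x + y := by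
  unfold amod
  split_ifs with h
  · push_cast; rfl
  · rw [Nat.cast_sub (by omega)]; simp

theorem amod_lt {q x y : ℕ} (hx : x < q) (hy : y < q) : amod q x y < q := by
  unfold amod; split_ifs <;> omega

theorem amod_le {q x y : ℕ} (hx : x ≤ q) (hy : y ≤ q) : amod q x y ≤ q := by
  unfold amod; split_ifs <;> omega

@[fun_prop]
theorem LT.amod' {q x y : α → ℕ} (hq : LT q) (hx : LT x) (hy : LT y) :
    LT (fun a => amod (q a) (x a) (y a)) := by
  have : LT (fun a => bif decide (x a + y a < q a) then x a + y a else x a + y a - q a) := by
    have h := LT.decideLt (LT.add' hx hy) hq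
    fun_prop
  refine LT.of_eq this ?_
  intro a
  unfold amod
  by_cases h : x a + y a < q a <;> simp [h]

/-- Multiplication modulo `q` (for arguments below `q`). -/
def mmod (q x y : ℕ) : ℕ := (fun z => amod q z (min q x))^[min q y] 0

theorem mmod_le (q x y : ℕ) : mmod q x y ≤ q := by
  unfold mmod
  generalize min q y = k
  induction k with
  | zero => simp
  | succ k ih =>
    rw [Function.iterate_succ_apply']
    exact amod_le ih (Nat.min_le_left _ _)

theorem mmod_lt {q x y : ℕ} (hx : x < q) : mmod q x y < q := by
  unfold mmod
  generalize min q y = k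
  induction k with
  | zero => simp; omega
  | succ k ih =>
    rw [Function.iterate_succ_apply']
    exact amod_lt ih (lt_of_le_of_lt (Nat.min_le_right _ _) hx)

theorem mmod_cast {q x y : ℕ} (hx : x < q) (hy : y < q) :
    ((mmod q x y : ℕ) : ZMod q) = x * y := by
  unfold mmod
  have hx' : min q x = x := Nat.min_eq_right hx.le
  have hy' : min q y = y := Nat.min_eq_right hy.le
  rw [hx', hy']
  clear hy hy'
  induction y with
  | zero => simp
  | succ k ih =>
    rw [Function.iterate_succ_apply', amod_cast, ih]
    push_cast; ring

@[fun_prop]
theorem LT.mmod' {q x y : α → ℕ} (hq : LT q) (hx : LT x) (hy : LT y) :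
    LT (fun a => mmod (q a) (x a) (y a)) := by
  obtain ⟨C, hC0, hC⟩ := hq.exists_size_le
  have hs : LT (fun z : α × ℕ => amod (q z.1) z.2 (min (q z.1) (x z.1))) := by
    have h1 : LT (fun z : α × ℕ => q z.1) :=
      hq.comp (f := fun z : α × ℕ => z.1) (by fun_prop)
    have h2 : LT (fun z : α × ℕ => x z.1) :=
      hx.comp (f := fun z : α × ℕ => z.1) (by fun_prop)
    fun_prop
  have := LT.iterate (σ := ℕ) (n := fun a => min (q a) (y a)) (ini := fun _ : α => 0)
    (s := fun z : α × ℕ => amod (q z.1) z.2 (min (q z.1) (x z.1))) (by fun_prop) (by fun_prop)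
    hs C (by
      intro a k hk
      have h1 : (fun z => amod (q a) z (min (q a) (x a)))^[k] 0 ≤ q a := by
        clear hk
        induction k with
        | zero => simp
        | succ k ih =>
          rw [Function.iterate_succ_apply']
          exact amod_le ih (Nat.min_le_left _ _)
      have h2 := hC a
      rw [size_nat] at h2 ⊢
      show 2 * ((fun z => amod (q a) z (min (q a) (x a)))^[k] 0) + 1 ≤ _
      omega)
  exact this

end Pool.Agent.H7LS
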